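import Pool.Agent.Lib.AX.Blue

set_option autoImplicit false

noncomputable section

namespace Pool.Agent.AO.X

open Set Metric Filter Topology Complex Polynomial

namespace CHN

theorem diff (Q : Polynomial (Polynomial ℂ)) :
    Differentiable ℂ fun q : ℂ × ℂ => Q.evalEval q.1 q.2 := by
  induction Q using Polynomial.induction_on' with
  | add p q hp hq =>
    simp only [evalEval_add]
    exact hp.add hq
  | monomial n a =>
    simp only [← C_mul_X_pow_eq_monomial, evalEval_mul, evalEval_C, evalEval_pow, evalEval_X]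
    exact (a.differentiable.comp differentiable_fst).mul (differentiable_snd.pow n)

/-- Elimination of the middle variable by a resultant. -/
theorem elim (Q : Polynomial (Polynomial ℂ)) (f : Polynomial (Polynomial (Polynomial ℂ))) (m : ℕ)
    (hm : m ≠ 0) (hf : ∀ x z : ℂ, (f.map (evalEvalRingHom x z)).natDegree = m) :
    ∃ Q' : Polynomial (Polynomial ℂ), ∀ x z : ℂ, Q'.evalEval x z = 0 ↔
      ∃ y : ℂ, (f.map (evalEvalRingHom x z)).eval y = 0 ∧ Q.evalEval x y = 0 := by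
  refine ⟨resultant f (Q.map C) m Q.natDegree, fun x z => ?_⟩
  have e1 : (Q.map C).map (evalEvalRingHom x z) = Q.map (evalRingHom x) := by
    rw [Polynomial.map_map]
    congr 1
    refine RingHom.ext fun a => ?_
    simp [evalEval_C]
  have e2 := resultant_map_map f (Q.map C) m Q.natDegree (evalEvalRingHom x z)
  have h0 : f.map (evalEvalRingHom x z) ≠ 0 := by
    intro e
    have := hf x z
    rw [e, natDegree_zero] at this
    exact hm this.symm
  have e3 := resultant_eq_prod_eval (f.map (evalEvalRingHom x z)) (Q.map (evalRingHom x))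
    Q.natDegree natDegree_map_le (IsAlgClosed.splits _)
  rw [hf x z] at e3
  rw [e1, e3] at e2
  have e4 : (resultant f (Q.map C) m Q.natDegree).evalEval x z =
      evalEvalRingHom x z (resultant f (Q.map C) m Q.natDegree) := by simp
  rw [e4, ← e2, mul_eq_zero, Multiset.prod_eq_zero_iff, Multiset.mem_map]
  constructor
  · rintro (h | ⟨y, h1, h2⟩)
    · exact absurd h (pow_ne_zero _ (leadingCoeff_ne_zero.2 h0))
    · exact ⟨y, (mem_roots h0).1 h1, by rwa [map_evalRingHom_eval] at h2⟩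
  · rintro ⟨y, h1, h2⟩
    exact Or.inr ⟨y, (mem_roots h0).2 h1, by rwa [map_evalRingHom_eval]⟩

theorem half (Q : Polynomial (Polynomial ℂ)) {c s : ℂ} {k : ℕ} (hc : c ≠ 0) (hs : s ≠ 0)
    (hk : 2 ≤ k) : ∃ Q' : Polynomial (Polynomial ℂ), ∀ x z : ℂ, Q'.evalEval x z = 0 ↔
      ∃ y : ℂ, c * (s * (y - z)) ^ k = (y + z) / 2 ∧ Q.evalEval x y = 0 := by
  have e : ∀ x z : ℂ, (C (C (C c)) * (C (C (C s)) * X + C (C (C (-s)) * X)) ^ k -
      (C (C (C (1 / 2))) * X + C (C (C (1 / 2)) * X)) :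
        Polynomial (Polynomial (Polynomial ℂ))).map (evalEvalRingHom x z) =
      C c * (C s * X + C (-s * z)) ^ k - (C (1 / 2) * X + C (1 / 2 * z)) := by
    intro x z
    simp only [Polynomial.map_sub, Polynomial.map_mul, Polynomial.map_add, Polynomial.map_pow,
      map_C, map_X, coe_evalEvalRingHom, evalEval_mul, evalEval_C, evalEval_X, eval_C]
  obtain ⟨Q', h⟩ := elim Q _ k (by omega) (fun x z => by
    rw [e x z]
    have d1 : (C c * (C s * X + C (-s * z)) ^ k).natDegree = k := by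
      rw [natDegree_C_mul hc, natDegree_pow, natDegree_linear hs, mul_one]
    have d2 : (C (1 / 2 : ℂ) * X + C (1 / 2 * z)).natDegree ≤ 1 := natDegree_linear_le
    rw [natDegree_sub_eq_left_of_natDegree_lt (by omega), d1])
  refine ⟨Q', fun x z => (h x z).trans (exists_congr fun y => and_congr_left fun _ => ?_)⟩
  rw [e x z]
  simp only [eval_sub, eval_mul, eval_add, eval_pow, eval_C, eval_X]
  rw [sub_eq_zero, show s * y + -s * z = s * (y - z) by ring,
    show 1 / 2 * y + 1 / 2 * z = (y + z) / 2 by ring]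

theorem step (Q : Polynomial (Polynomial ℂ)) {c : ℂ} {k : ℕ} (hc : c ≠ 0) (hk : 2 ≤ k) :
    ∃ Q' : Polynomial (Polynomial ℂ), ∀ x z : ℂ, Q'.evalEval x z = 0 ↔
      ∃ y : ℂ, Rr c k y z ∧ Q.evalEval x y = 0 := by
  obtain ⟨Q1, h1⟩ := half Q (s := -(1 / 2)) hc (by norm_num) hk
  obtain ⟨Q2, h2⟩ := half Q (s := 1 / 2) hc (by norm_num) hk
  refine ⟨Q1 * Q2, fun x z => ?_⟩
  rw [evalEval_mul, mul_eq_zero, h1, h2, ← exists_or]
  refine exists_congr fun y => ?_
  rw [← or_and_right, Rr, show -(1 / 2) * (y - z) = (z - y) / 2 by ring,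
    show 1 / 2 * (y - z) = (y - z) / 2 by ring]

theorem one {c : ℂ} {k : ℕ} (hc : c ≠ 0) (hk : 2 ≤ k) {e : ℝ} (he : 0 < e) :
    ∃ ρ : ℝ, ∀ y z : ℂ, Rr c k y z → ρ < ‖y‖ → ‖z - y‖ ≤ e * ‖y‖ := by
  have hc' : 0 < ‖c‖ := norm_pos_iff.2 hc
  obtain ⟨B, hB⟩ : ∃ B : ℝ, B = (2 / e + 1) / ‖c‖ + 1 := ⟨_, rfl⟩
  have hB0 : 0 ≤ (2 / e + 1) / ‖c‖ := by positivity
  refine ⟨2 * B / e, fun y z h hy => ?_⟩
  by_contra hn
  rw [not_le] at hn
  obtain ⟨t, ht⟩ : ∃ t : ℝ, t = ‖z - y‖ / 2 := ⟨_, rfl⟩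
  have h1 : ‖c‖ * t ^ k = ‖y + z‖ / 2 := by
    rcases h with h | h
    · have := congrArg norm h
      rwa [norm_mul, norm_pow, norm_div, norm_div, Complex.norm_two, ← ht] at this
    · have := congrArg norm h
      rwa [norm_mul, norm_pow, norm_div, norm_div, Complex.norm_two, norm_sub_rev, ← ht] at this
  have h2 : ‖y + z‖ ≤ 2 * ‖y‖ + ‖z - y‖ := by
    have := norm_add_le (2 * y) (z - y)
    rwa [show 2 * y + (z - y) = y + z by ring, norm_mul, Complex.norm_two] at this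
  have h3 : 2 * B < e * ‖y‖ := by
    rw [div_lt_iff₀ he] at hy
    linarith
  have h4 : B < t := by linarith
  have h5 : 1 ≤ t := by linarith
  have h6 : t ^ 2 ≤ t ^ k := pow_le_pow_right₀ h5 hk
  have h7 : ‖y‖ ≤ 2 / e * t := by
    rw [div_mul_eq_mul_div, le_div_iff₀ he]
    linarith
  have h8 : ‖c‖ * t * t ≤ (2 / e + 1) * t := by
    have := mul_le_mul_of_nonneg_left h6 hc'.le
    nlinarith
  have h9 : ‖c‖ * t ≤ 2 / e + 1 := le_of_mul_le_mul_right h8 (by linarith)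
  have h10 : t ≤ (2 / e + 1) / ‖c‖ := by
    rw [le_div_iff₀ hc']
    linarith
  linarith

theorem main {c : ℂ} {k : ℕ} (hc : c ≠ 0) (hk : 2 ≤ k) (n : ℕ) :
    ∃ Q : Polynomial (Polynomial ℂ),
      (∀ x : ℕ → ℂ, (∀ i < n, Rr c k (x i) (x (i + 1))) → Q.evalEval (x 0) (x n) = 0) ∧
      ∀ e : ℝ, 0 < e → ∃ ρ : ℝ, ∀ x y : ℂ, Q.evalEval x y = 0 → ρ < ‖x‖ →
        ‖y - x‖ ≤ e * ‖x‖ := by
  induction n with
  | zero =>
    refine ⟨X - C X, fun x _ => by simp [evalEval_sub, evalEval_C], fun e he =>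
      ⟨0, fun x y h _ => ?_⟩⟩
    have : y - x = 0 := by simpa [evalEval_sub, evalEval_C] using h
    rw [this, norm_zero]
    positivity
  | succ n ih =>
    obtain ⟨Q, h1, h2⟩ := ih
    obtain ⟨Q', h⟩ := step Q hc hk
    refine ⟨Q', fun x hx => (h _ _).2 ⟨x n, hx n (by omega), h1 x fun i hi => hx i (by omega)⟩,
      fun e he => ?_⟩
    have he1 : 0 < min (e / 3) (1 / 2) := lt_min (by linarith) (by norm_num)
    have a1 : min (e / 3) (1 / 2) ≤ e / 3 := min_le_left _ _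
    have a2 : min (e / 3) (1 / 2) ≤ 1 / 2 := min_le_right _ _
    obtain ⟨ρ1, r1⟩ := h2 _ he1
    obtain ⟨ρ2, r2⟩ := one hc hk he1
    refine ⟨max ρ1 (2 * ρ2), fun x z hz hx => ?_⟩
    obtain ⟨y, hy1, hy2⟩ := (h _ _).1 hz
    have b1 := r1 x y hy2 ((le_max_left _ _).trans_lt hx)
    have b2 : 2 * ρ2 < ‖x‖ := (le_max_right _ _).trans_lt hx
    have n0 := norm_nonneg x
    have b3 : ‖y - x‖ ≤ 1 / 2 * ‖x‖ := b1.trans (mul_le_mul_of_nonneg_right a2 n0)
    have b4 : ‖x‖ ≤ ‖y‖ + ‖y - x‖ := by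
      have := norm_sub_le y (y - x)
      rwa [sub_sub_cancel] at this
    have b5 : ‖y‖ ≤ ‖x‖ + ‖y - x‖ := by
      have := norm_add_le x (y - x)
      rwa [add_sub_cancel] at this
    have b6 := r2 y z hy1 (by linarith)
    have b7 : ‖z - x‖ ≤ ‖z - y‖ + ‖y - x‖ := by
      have := norm_add_le (z - y) (y - x)
      rwa [sub_add_sub_cancel] at this
    have b8 : min (e / 3) (1 / 2) * ‖y‖ ≤ e / 3 * (3 / 2 * ‖x‖) :=
      mul_le_mul a1 (by linarith) (norm_nonneg _) (by linarith)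
    have b9 : min (e / 3) (1 / 2) * ‖x‖ ≤ e / 3 * ‖x‖ := mul_le_mul_of_nonneg_right a1 n0
    have b10 : 0 ≤ e * ‖x‖ := mul_nonneg he.le n0
    linarith

end CHN

theorem st_CHAIN : St_CHAIN := by
  intro c k n hc hk
  obtain ⟨Q, h1, h2⟩ := CHN.main hc hk n
  exact ⟨fun q => Q.evalEval q.1 q.2, CHN.diff Q, h1, h2⟩

end Pool.Agent.AO.X
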