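import Pool.Agent.Lib.AX.Blue
import Pool.Agent.Lib.AO.Core
import Pool.Agent.Lib.AO.B_CVX
import Pool.Agent.Lib.AO.B_LINK
import Pool.Agent.Lib.AO.B_FLOW

set_option autoImplicit false

noncomputable section

namespace Pool.Agent.AO.X

open Set Metric Filter Topology Complex

theorem core_shift {α : Type} {T : ℝ} {f : ℂ → α} (h : ∀ b : ℂ, f (b + T) = f b) (b : ℂ) (n : ℤ) :
    f (b + n * T) = f b := by
  induction n using Int.induction_on with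
  | zero => simp
  | succ n ih =>
    rw [← ih, ← h (b + (n : ℤ) * T)]
    congr 1
    push_cast
    ring
  | pred n ih =>
    rw [← ih, ← h (b + ((-(n : ℤ) - 1 : ℤ) : ℂ) * T)]
    congr 1
    push_cast
    ring

/-- The regime: an exponent and a dominant singular time. -/
theorem core_regime {h T : ℝ} {G : Set ℂ} {l : ℂ → LD} (hT : 0 < T) (hl : ∀ b : ℂ, l (b + T) = l b)
    (hG : ∀ b : ℂ, b + T ∈ G ↔ b ∈ G) (him : ∀ b ∈ G, b.im = h)
    (hf : ∀ R : ℝ, (G ∩ closedBall 0 R).Finite) (ht : ∀ b ∈ G, T1 (l b) ∨ T2 (l b))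
    (hne : G.Nonempty) : ∃ a : ℝ, 0 ≤ a ∧ a ≤ 1 / 2 ∧ (∀ b ∈ G, Rg a (l b)) ∧
      ∃ b ∈ G, T2 (l b) ∨ a = (l b).al := by
  by_cases h2 : ∃ b ∈ G, T2 (l b)
  · obtain ⟨b, hb, h2⟩ := h2
    exact ⟨0, le_rfl, by norm_num, fun c hc => (ht c hc).imp (fun x => ⟨x, x.2.1.le⟩)
      fun x => ⟨x, rfl⟩, b, hb, Or.inl h2⟩
  have h1 : ∀ b ∈ G, T1 (l b) := fun b hb => (ht b hb).resolve_right fun x => h2 ⟨b, hb, x⟩
  have red : ∀ b ∈ G, ∃ c ∈ G ∩ closedBall 0 (T + |h|), l c = l b := by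
    intro b hb
    have e : ∀ c : ℂ, ((c + T ∈ G) = (c ∈ G)) := fun c => propext (hG c)
    refine ⟨b + (-⌊b.re / T⌋ : ℤ) * T, ⟨?_, ?_⟩, core_shift hl _ _⟩
    · rw [core_shift (f := fun c => c ∈ G) e]
      exact hb
    · rw [mem_closedBall_zero_iff]
      refine (norm_le_abs_re_add_abs_im _).trans (add_le_add ?_ ?_)
      · have a1 := Int.floor_le (b.re / T)
        have a2 := Int.lt_floor_add_one (b.re / T)
        rw [le_div_iff₀ hT] at a1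
        rw [div_lt_iff₀ hT] at a2
        simp only [add_re, mul_re, intCast_re, ofReal_re, intCast_im, ofReal_im, mul_zero, sub_zero,
          Int.cast_neg, neg_re, neg_im]
        rw [abs_le]
        constructor <;> nlinarith
      · simp [him b hb]
  obtain ⟨b0, hb0⟩ := hne
  obtain ⟨c0, hc0, -⟩ := red b0 hb0
  obtain ⟨c, hc, hm⟩ := exists_min_image _ (fun c => (l c).al) (hf (T + |h|)) ⟨c0, hc0⟩
  refine ⟨(l c).al, (h1 c hc.1).2.1.le, (h1 c hc.1).2.2.1, fun b hb => Or.inl ⟨h1 b hb, ?_⟩,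
    c, hc.1, Or.inr rfl⟩
  obtain ⟨c', hc', e⟩ := red b hb
  rw [← e]
  exact hm c' hc'

theorem st_CORE (hREAL : St_REAL) (hSTRIP : St_STRIP) (hENT : St_ENT) (hSECT : St_SECT)
    (hCTX : St_CTX) (h1 : St_PASS1) (h2 : St_PASS2) (hDEC : St_DEC) : St_CORE := by
  intro d K hG hO hK hH
  have hC := st_CVX d K hO
  obtain ⟨h0, T, Φ0, hp0, hP0, hR0⟩ := hREAL d K hC hK
  have hH0 := st_LINK d K h0 T Φ0 hC hp0 hP0 hR0 hH
  rcases hSTRIP d h0 T Φ0 hp0 hP0 with ⟨Φ, hP, e⟩ | ⟨h, Φ, hp, hP, e, hne⟩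
  · exact hENT d T Φ _ hG hP (core_realP e hR0)
  exfalso
  obtain ⟨l, lp, fin, gp, ty, sec⟩ := hSECT d h T Φ hG hp hP
  obtain ⟨a, a0, a1, rg, b0, hb0, dom⟩ :=
    core_regime hP.Tp lp gp (fun b hb => hb.1) fin ty hne
  have po : ∀ x : LD, Rg a x → PO x a := by
    rintro x (⟨t, u⟩ | ⟨t, u⟩)
    · exact h1 x a t a0 u
    · rw [u]
      exact h2 x t
  choose! Hf Mf hor nz pas using po
  have z := hDEC d h T a (Sg h Φ) (fun b => Hf (l b)) (fun b => Mf (l b)) hp hP.Tp a0 a1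
    (fun b => by rw [lp]) gp (fun b hb => ⟨hb.1, hor _ (rg b hb)⟩) fin ?_ b0 hb0
  · obtain ⟨w, hw, hz⟩ := nz _ (rg b0 hb0) dom
    exact hz (z w hw)
  intro R
  obtain ⟨κ, S, D, Ψ, hS, hD, eq, sg, gs⟩ := sec R
  obtain ⟨C, M, C0, M1, fam⟩ := hCTX d h R κ a S D Ψ hS a0 a1
    fun b hb => ⟨l b, rg b (sg b hb).1, (sg b hb).2⟩
  refine ⟨κ, C, M, S, D, Ψ, hS,
    core_psol hp hP ((st_SYM d D Ψ hS.sol).1 _ hP.sol.op hD) eq, hD,
    core_hyp (fun t => (eq (core_mem_strip hp t)).trans (e t)) hH0, C0, M1, fam,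
    fun b hb => (sg b hb).1, gs, fun b hb hR => ?_⟩
  refine pas _ (rg b (sg b hb).1) d h R κ S D Ψ b M hS hb hR (sg b hb).2 M1 ?_
  obtain ⟨r0, r0p, hr⟩ := fam 0 M le_rfl
  exact ⟨r0, r0p, fun r p q => (hr r p q).1.one⟩

end Pool.Agent.AO.X
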