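import Pool.Agent.Lib.AX.Blue
import Pool.Agent.Lib.AO.B_STEP
import Pool.Agent.Lib.AO.B_FLOW

set_option autoImplicit false

noncomputable section

namespace Pool.Agent.AO.X

open Set Metric Filter Topology Complex

theorem CTX_sc {d : Dat} {h R κ : ℝ} {S : Finset ℂ} {D : Set ℂ} {Φ : ℂ → S3}
    (H : Sc d h R κ S D Φ) : Sc d.flip h R κ S D (flp Φ) where
  sol := (AO.st_SYM d D Φ H.sol).2.2.2.2
  hp := H.hp
  kp := H.kp
  k1 := H.k1
  im := H.im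
  adm := H.adm
  diag τ hτ c := by
    have e : fA Φ τ = fB Φ τ := (neg_inj.1 c).symm
    obtain ⟨⟨a1, a2⟩, a3⟩ := H.diag τ hτ e
    refine ⟨⟨?_, ?_⟩, ?_⟩
    · simpa only [Dat.flip, flp, sw, neg_neg] using a2
    · simpa only [Dat.flip, flp, sw, neg_neg] using a1
    · rw [e] at a3
      simpa only [Dat.flip, flp, fA, fB, fY, neg_neg] using a3

theorem CTX_rg {a : ℝ} {l : LD} (H : Rg a l) : Rg a l.flip := by
  rcases H with ⟨⟨a1, a2, a3, a4⟩, a5⟩ | ⟨⟨a1, a2, k, a3, a4, a5⟩, a6⟩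
  · exact Or.inl ⟨⟨fun c => a1 (neg_inj.1 c).symm, a2, a3,
      a4.symm.imp neg_ne_zero.2 neg_ne_zero.2⟩, a5⟩
  · refine Or.inr ⟨⟨neg_inj.2 a1.symm, fun c => a2 (neg_inj.1 c).symm, k, a3, a4, ?_⟩, a6⟩
    show (-l.b1) ^ k = (-l.a1) ^ k
    rw [neg_pow l.b1, neg_pow l.a1, a5]

theorem CTX_lx {D : Set ℂ} {Φ : ℂ → S3} {b : ℂ} {l : LD} (H : LX D Φ b l) :
    LX D (flp Φ) b l.flip := fun ε hε => by
  obtain ⟨δ, d0, hd⟩ := H ε hε
  refine ⟨δ, d0, fun τ hτ hb => ?_⟩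
  obtain ⟨a0, a1, a2, a3⟩ := hd τ hτ hb
  refine ⟨a0, ?_, ?_, ?_⟩
  · refine le_of_eq_of_le ?_ a2
    rw [← norm_neg]
    congr 1
    simp only [fA, fB, flp, LD.flip, mA, mB]
    ring
  · refine le_of_eq_of_le ?_ a1
    rw [← norm_neg]
    congr 1
    simp only [fA, fB, flp, LD.flip, mA, mB]
    ring
  · refine le_of_eq_of_le ?_ a3
    congr 1
    simp only [fY, flp, LD.flip, mY]
    ring

/-- The conclusion of the far row for one constant. -/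
def CTX_Far (d : Dat) (h R κ a : ℝ) (S : Finset ℂ) (Φ : ℂ → S3) (C : ℝ) : Prop :=
  ∀ z e, Adm h R κ S z e → ∃ g : ℂ × ℂ → ℂ,
    DifferentiableOn ℂ g (ball z (e / C) ×ˢ ball 0 (e / C)) ∧
    ∀ τ ∈ ball z (e / C), ∀ r ∈ ball (0 : ℂ) (e / C), Rel d Φ τ (g (τ, r)) r ∧
      (∀ μ ∈ ball z (3 * (e / C)), Rel d Φ τ μ r → μ = g (τ, r)) ∧
      ‖g (τ, r) - τ - r‖ ≤ C * ‖r‖ ^ 2 / e ∧
      ‖g (τ, r) - g (τ, -r) - 2 * r‖ ≤ C * ‖r‖ ^ 3 * e ^ (a - 2)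

theorem CTX_one {d : Dat} {h R κ a : ℝ} {S : Finset ℂ} {Φ : ℂ → S3} {C ε r : ℝ} {τ : ℂ}
    (hF : CTX_Far d h R κ a S Φ C) (ha : 0 ≤ a) (hC : 1 ≤ C) (hε : 8 * C ≤ ε) (hr : 0 < r)
    (hτ : Adk h R κ S τ (ε * r)) : Stp d Φ (1 / 4) τ r (1 / 4 * r / 2) := by
  obtain ⟨-, e, he, hA⟩ := hτ
  refine step_far (C := C) (K := ε) (fun z e hz => ?_) hC (by norm_num) le_rfl (by linarith) hr he hA
  obtain ⟨g, hg, hs⟩ := hF z e hz
  refine ⟨g, hg, fun τ hτ r hr => ?_⟩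
  obtain ⟨a1, a2, a3, a4⟩ := hs τ hτ r hr
  refine ⟨a1, a2, a3, a4.trans ?_⟩
  have h1 := Real.rpow_le_rpow_of_exponent_ge hz.2.2.2.1 hz.2.2.2.2.1
    (show (-2 : ℝ) ≤ a - 2 by linarith)
  rw [Real.rpow_neg hz.2.2.2.1.le, Real.rpow_two] at h1
  rw [div_eq_mul_inv]
  exact mul_le_mul_of_nonneg_left h1 (by positivity)

theorem CTX_two {d : Dat} {h R κ a : ℝ} {S : Finset ℂ} {Φ : ℂ → S3} {C C' ε r : ℝ} {τ μ τ' : ℂ}
    (hF : CTX_Far d.flip h R κ a S (flp Φ) C) (hκ : 0 < κ) (ha : a ≤ 1 / 2) (hC : 1 ≤ C)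
    (hC' : C ≤ C') (hε : 8 * C ≤ ε) (hr : 0 < r) (hμ : Adk h R κ S μ (ε * r))
    (r1 : Rel d Φ τ μ r) (q1 : ‖μ - τ - r‖ ≤ 1 / 4 * r / 2)
    (r2 : Rel d.flip (flp Φ) μ τ' r) (q2 : ‖τ' - μ - r‖ ≤ 1 / 4 * r / 2) :
    ‖τ' - τ - 2 * r‖ ≤ C' * r ^ 3 + C' * r ^ (1 + a) * ∑ b ∈ S, (r / ‖μ - b‖) ^ (3 / 2 : ℝ) := by
  have hnr : ‖(r : ℂ)‖ = r := by rw [norm_real, Real.norm_of_nonneg hr.le]
  have hτμ : ‖τ - μ‖ ≤ 2 * r := by
    have x2 := norm_add_le (μ - τ - r) (r : ℂ)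
    rw [sub_add_cancel, hnr, norm_sub_rev] at x2
    linarith
  have hτμ' : ‖τ' - μ‖ ≤ 2 * r := by
    have x2 := norm_add_le (τ' - μ - r) (r : ℂ)
    rw [sub_add_cancel, hnr] at x2
    linarith
  have sum0 : 0 ≤ ∑ b ∈ S, (r / ‖μ - b‖) ^ (3 / 2 : ℝ) :=
    Finset.sum_nonneg fun i _ => by positivity
  obtain ⟨e0, he0, hA0⟩ := hμ.2
  rcases step_scale (s := ε * r) hκ hμ (he0.trans hA0.2.2.2.2.1) with
    ⟨b, hb, hn⟩ | ⟨e, he, hA, hee⟩
  · exact absurd (he0.trans (hA0.2.2.2.2.2 b hb)) (not_le.2 hn)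
  have room := step_room (η := 1 / 4) (K := ε) hC (by norm_num) le_rfl (by linarith) hr he
  obtain ⟨g, -, hs⟩ := hF μ e hA
  have ep : 0 < e := hA.2.2.2.1
  have m1 : μ ∈ ball μ (e / C) := mem_ball_self (by linarith)
  have m2 : (r : ℂ) ∈ ball (0 : ℂ) (e / C) := by
    rw [mem_ball_zero_iff, hnr]
    linarith
  have m3 : (-r : ℂ) ∈ ball (0 : ℂ) (e / C) := by
    rw [mem_ball_zero_iff, norm_neg, hnr]
    linarith
  have u1 : τ' = g (μ, r) := (hs μ m1 r m2).2.1 τ'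
    (by rw [mem_ball, dist_eq_norm]; linarith) r2
  have u2 : τ = g (μ, -r) := (hs μ m1 (-r) m3).2.1 τ
    (by rw [mem_ball, dist_eq_norm]; linarith)
    ((rel_flip d Φ τ μ (-r)).2 (by rw [neg_neg]; exact r1))
  have u3 := (hs μ m1 r m2).2.2.2
  rw [← u1, ← u2, hnr] at u3
  refine u3.trans ?_
  have x3 : r ^ 3 * e ^ (a - 2) ≤
      r ^ 3 + r ^ (1 + a) * ∑ b ∈ S, (r / ‖μ - b‖) ^ (3 / 2 : ℝ) := by
    rcases hee with h1 | ⟨b, hb, h1⟩
    · rw [h1, Real.one_rpow, mul_one]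
      exact le_add_of_nonneg_right (by positivity)
    · have t1 := Finset.single_le_sum (f := fun b => (r / ‖μ - b‖) ^ (3 / 2 : ℝ))
        (fun i _ => by positivity) hb
      rw [← h1] at t1
      have t2 : (r / e) ^ (2 - a) ≤ (r / e) ^ (3 / 2 : ℝ) :=
        Real.rpow_le_rpow_of_exponent_ge (by positivity)
          ((div_le_one ep).2 (by nlinarith)) (by linarith)
      have t3 : r ^ 3 * e ^ (a - 2) = r ^ (1 + a) * (r / e) ^ (2 - a) := by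
        rw [Real.div_rpow hr.le ep.le, ← mul_div_assoc, ← Real.rpow_add hr, div_eq_mul_inv,
          ← Real.rpow_neg ep.le, neg_sub, show 1 + a + (2 - a) = ((3 : ℕ) : ℝ) by push_cast; ring,
          Real.rpow_natCast]
      rw [t3]
      exact le_add_of_nonneg_of_le (by positivity)
        (mul_le_mul_of_nonneg_left (t2.trans t1) (by positivity))
  rw [mul_assoc, mul_assoc C', ← mul_add]
  exact mul_le_mul hC' x3 (by positivity) (by linarith)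

theorem CTX_orb (τ μ : ℕ → ℂ) (S : Finset ℂ) (q : ℕ) {c ε r C a : ℝ} (hε : 1 ≤ ε) (hr : 0 < r)
    (r1 : r ≤ 1) (ha : 0 ≤ a) (hC : 0 ≤ C) (hc : 0 < c)
    (hs : ∀ (K r x : ℝ) (b : ℂ) (μ : ℕ → ℂ) (s : Finset ℕ), 1 ≤ K → 0 < r →
      (∀ k ∈ s, |(μ k).re - (x + 2 * k * r)| ≤ r ∧ K * r ≤ ‖μ k - b‖) →
      ∑ k ∈ s, (r / ‖μ k - b‖) ^ (3 / 2 : ℝ) ≤ c / √K)
    (h1 : C * (q * r ^ 2) ≤ 1 / 8) (h2 : C * (S.card * (c / √ε)) ≤ 1 / 8)
    (h : ∀ k < q, ‖τ k - (τ 0 + 2 * k * r)‖ ≤ 1 / 4 * r → ‖μ k - (τ k + r)‖ ≤ r / 2 ∧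
      (∀ b ∈ S, ε * r ≤ ‖μ k - b‖) ∧ ‖τ (k + 1) - τ k - 2 * r‖ ≤
        C * r ^ 3 + C * r ^ (1 + a) * ∑ b ∈ S, (r / ‖μ k - b‖) ^ (3 / 2 : ℝ)) :
    ∀ k ≤ q, ‖τ k - (τ 0 + 2 * k * r)‖ ≤ 1 / 4 * r := by
  intro k
  induction k using Nat.strong_induction_on with
  | _ k ih =>
    intro hk
    have g1 := fun j (hj : j < k) => h j (hj.trans_le hk) (ih j hj (hj.le.trans hk))
    have e : τ k - (τ 0 + 2 * k * r) = ∑ j ∈ Finset.range k, (τ (j + 1) - τ j - 2 * r) := by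
      rw [Finset.sum_sub_distrib, Finset.sum_range_sub]
      simp
      ring
    have g2 : ∀ b ∈ S, ∑ j ∈ Finset.range k, (r / ‖μ j - b‖) ^ (3 / 2 : ℝ) ≤ c / √ε :=
      fun b hb => hs ε r ((τ 0).re + r) b μ _ hε hr fun j hj => by
        have hj := Finset.mem_range.1 hj
        refine ⟨?_, (g1 j hj).2.1 b hb⟩
        have h3 := norm_add_le (μ j - (τ j + r)) (τ j - (τ 0 + 2 * j * r))
        have h4 := abs_re_le_norm (μ j - (τ j + r) + (τ j - (τ 0 + 2 * j * r)))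
        rw [show (μ j - (τ j + r) + (τ j - (τ 0 + 2 * j * r))).re =
          (μ j).re - ((τ 0).re + r + 2 * j * r) by simp; ring] at h4
        linarith [(g1 j hj).1, ih j hj (hj.le.trans hk)]
    have hkq : (k : ℝ) ≤ q := by exact_mod_cast hk
    have ra : r ^ (1 + a) ≤ r := by
      simpa only [Real.rpow_one] using
        Real.rpow_le_rpow_of_exponent_ge hr r1 (show (1 : ℝ) ≤ 1 + a by linarith)
    calc ‖τ k - (τ 0 + 2 * k * r)‖ ≤ ∑ j ∈ Finset.range k, ‖τ (j + 1) - τ j - 2 * r‖ := by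
          rw [e]; exact norm_sum_le _ _
      _ ≤ ∑ j ∈ Finset.range k, (C * r ^ 3 +
            C * r ^ (1 + a) * ∑ b ∈ S, (r / ‖μ j - b‖) ^ (3 / 2 : ℝ)) :=
          Finset.sum_le_sum fun j hj => (g1 j (Finset.mem_range.1 hj)).2.2
      _ = k * (C * r ^ 3) + C * r ^ (1 + a) *
            ∑ b ∈ S, ∑ j ∈ Finset.range k, (r / ‖μ j - b‖) ^ (3 / 2 : ℝ) := by
          rw [Finset.sum_add_distrib, Finset.sum_const, Finset.card_range, nsmul_eq_mul,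
            ← Finset.mul_sum, Finset.sum_comm]
      _ ≤ q * (C * r ^ 3) + C * r * ∑ _b ∈ S, c / √ε :=
          add_le_add (mul_le_mul_of_nonneg_right hkq (by positivity))
            (mul_le_mul (mul_le_mul_of_nonneg_left ra hC) (Finset.sum_le_sum g2)
              (Finset.sum_nonneg fun _ _ => Finset.sum_nonneg fun _ _ => by positivity)
              (by positivity))
      _ = (C * (q * r ^ 2) + C * (S.card * (c / √ε))) * r := by
          rw [Finset.sum_const, nsmul_eq_mul]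
          ring
      _ ≤ 1 / 4 * r := mul_le_mul_of_nonneg_right (by linarith) hr.le

theorem st_CTX (hF : St_FAR) (hS : St_SUM) : St_CTX := by
  intro d h R κ a S D Φ H a0 a1 hl
  obtain ⟨c, c0, hc⟩ := hS
  obtain ⟨C1, hC1, F1⟩ := hF d h R κ a S D Φ H a0 a1 hl
  obtain ⟨C2, hC2, F2⟩ := hF d.flip h R κ a S D (flp Φ) (CTX_sc H) a0 a1 fun b hb =>
    (hl b hb).elim fun l g => ⟨l.flip, CTX_rg g.1, CTX_lx g.2⟩
  obtain ⟨C, k1, k2⟩ : ∃ C : ℝ, C1 ≤ C ∧ C2 ≤ C := ⟨_, le_max_left _ _, le_max_right _ _⟩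
  have s0 : (0 : ℝ) ≤ S.card := Nat.cast_nonneg _
  have C0 : 0 < C := by linarith
  have p0 : 0 ≤ C * (S.card * c) := by positivity
  obtain ⟨N, hN⟩ : ∃ N : ℝ, N = 8 * C + 8 * (C * (S.card * c)) := ⟨_, rfl⟩
  have N1 : 1 ≤ N := by linarith
  have N2 : N ≤ N ^ 2 := by nlinarith
  refine ⟨C, N ^ 2, C0.le, by linarith, fun L ε hε => ?_⟩
  have e1 : 1 ≤ ε := by linarith
  have e2 : C * (S.card * (c / √ε)) ≤ 1 / 8 := by
    have := Real.le_sqrt_of_sq_le hε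
    rw [← mul_div_assoc, ← mul_div_assoc, div_le_iff₀ (by linarith)]
    linarith
  have L0 : 0 < 8 * C * (|L| + 1) := by positivity
  refine ⟨min 1 (1 / (8 * C * (|L| + 1))), lt_min one_pos (by positivity), fun r rp hr => ?_⟩
  obtain ⟨r1, r2⟩ := lt_min_iff.1 hr
  have o1 : ∀ τ : ℂ, Adk h R κ S τ (ε * r) → Stp d Φ (1 / 4) τ r (1 / 4 * r / 2) :=
    fun τ hτ => CTX_one F1 a0 hC1 (by linarith) rp hτ
  have o2 : ∀ τ : ℂ, Adk h R κ S τ (ε * r) → Stp d.flip (flp Φ) (1 / 4) τ r (1 / 4 * r / 2) :=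
    fun τ hτ => CTX_one F2 a0 hC2 (by linarith) rp hτ
  have two : Bnd d h R κ S Φ C a ε r := fun τ b1 _ b3 _ =>
    CTX_two F2 H.kp a1 hC2 k2 (by linarith) rp b3 (o1 τ b1).rel (o1 τ b1).est (o2 _ b3).rel
      (o2 _ b3).est
  have adk : ∀ (τ : ℂ) (m k : ℕ) (t : ℂ), Tube h R κ S ε (1 / 4) r τ (2 * m) → k < m →
      ‖t - (τ + 2 * k * r)‖ ≤ 1 / 4 * r → Adk h R κ S t (ε * r) ∧ Adk h R κ S (t + r) (ε * r) ∧
      ‖th d Φ (1 / 4) (t, r) - (t + r)‖ ≤ 1 / 4 * r / 2 ∧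
      Adk h R κ S (th d Φ (1 / 4) (t, r)) (ε * r) ∧
      Adk h R κ S (th d Φ (1 / 4) (t, r) + r) (ε * r) := fun τ m k t T hk ht => by
    have b1 := T (2 * k) (by omega) t (by push_cast; linarith)
    have b2 := T (2 * k + 1) (by omega) (t + r) (by
      rw [show t + r - (τ + ((2 * k + 1 : ℕ) : ℂ) * r) = t - (τ + 2 * k * r) by push_cast; ring]
      linarith)
    have b3 := (o1 t b1).est
    have b4 := norm_add_le (th d Φ (1 / 4) (t, r) - t - r) (t - (τ + 2 * k * r))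
    refine ⟨b1, b2, by rwa [← sub_sub], T (2 * k + 1) (by omega) _ ?_,
      T (2 * k + 2) (by omega) _ ?_⟩
    · rw [show th d Φ (1 / 4) (t, r) - (τ + ((2 * k + 1 : ℕ) : ℂ) * r) =
        th d Φ (1 / 4) (t, r) - t - r + (t - (τ + 2 * k * r)) by push_cast; ring]
      linarith
    · rw [show th d Φ (1 / 4) (t, r) + r - (τ + ((2 * k + 2 : ℕ) : ℂ) * r) =
        th d Φ (1 / 4) (t, r) - t - r + (t - (τ + 2 * k * r)) by push_cast; ring]
      linarith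
  have orb : ∀ (τ : ℂ) (m : ℕ), m * r ≤ L → Tube h R κ S ε (1 / 4) r τ (2 * m) → ∀ k ≤ m,
      ‖(dbl d Φ (1 / 4) r)^[k] τ - (τ + 2 * k * r)‖ ≤ 1 / 4 * r := fun τ m hm T =>
    CTX_orb (fun k => (dbl d Φ (1 / 4) r)^[k] τ)
      (fun k => th d Φ (1 / 4) ((dbl d Φ (1 / 4) r)^[k] τ, r)) S m e1 rp r1.le a0 C0.le c0 hc (by
        rw [lt_div_iff₀ L0] at r2
        have b2 : m * r * (C * r) ≤ (|L| + 1) * (C * r) :=
          mul_le_mul_of_nonneg_right (by linarith [le_abs_self L]) (by positivity)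
        linarith) e2 fun k hk ht => by
      obtain ⟨b1, b2, b3, b4, b5⟩ := adk τ m k _ T hk ht
      refine ⟨b3.trans (by linarith), fun b hb => ?_, ?_⟩
      · obtain ⟨-, e, he, hA⟩ := b4
        exact he.trans (hA.2.2.2.2.2 b hb)
      · simpa only [Function.iterate_succ_apply'] using two _ b1 b2 b4 b5
  refine ⟨⟨fun τ b1 _ => ⟨o1 τ b1, o2 τ b1⟩, orb, fun τ m hm T => ?_⟩, two⟩
  have : ∀ k ≤ m,
      DifferentiableAt ℂ (fun p : ℂ × ℂ => (dbl d Φ (1 / 4) p.2)^[k] p.1) (τ, r) := by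
    intro k
    induction k with
    | zero => exact fun _ => differentiableAt_fst
    | succ k ih =>
      intro hk
      obtain ⟨b1, -, -, b4, -⟩ := adk τ m k _ T hk (orb τ m hm T k (by omega))
      simp only [Function.iterate_succ_apply']
      exact DifferentiableAt.comp (g := th d.flip (flp Φ) (1 / 4)) (τ, (r : ℂ)) (o2 _ b4).dif
        ((DifferentiableAt.comp (g := th d Φ (1 / 4)) (τ, (r : ℂ)) (o1 _ b1).dif
          ((ih (by omega)).prodMk differentiableAt_snd)).prodMk differentiableAt_snd)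
  exact this m le_rfl

end Pool.Agent.AO.X
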