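import Pool.Agent.Lib.AX.B_CORE

set_option autoImplicit false

noncomputable section

namespace Pool.Agent.AO.X

open Set Metric Filter Topology Complex

theorem dec_norm (k : ℕ) (z : ℂ) :
    ‖exp (-(I * Real.pi * k * z))‖ = Real.exp (Real.pi * k * z.im) := by
  rw [norm_exp]
  congr 1
  simp

theorem dec_mono {H : ℂ → ℂ} {k j : ℕ} {c : ℂ} (h : Lead H j c) (hk : k < j) : Lead H k 0 := by
  intro e he
  obtain ⟨Y0, hY⟩ := h 1 one_pos
  have c1 : 0 < ‖c‖ + 1 := by positivity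
  refine ⟨max (max Y0 0) (-Real.log (e / (‖c‖ + 1))), fun z hz => ?_⟩
  have m1 := le_max_left (max Y0 0) (-Real.log (e / (‖c‖ + 1)))
  have m2 := le_max_right (max Y0 0) (-Real.log (e / (‖c‖ + 1)))
  have m3 := le_max_left Y0 0
  have m4 := le_max_right Y0 0
  have h1 := hY z (by linarith)
  have h2 : ‖H z‖ ≤ (‖c‖ + 1) * ‖exp (-(I * Real.pi * j * z))‖ := by
    have := norm_add_le (H z - c * exp (-(I * Real.pi * j * z))) (c * exp (-(I * Real.pi * j * z)))
    rw [sub_add_cancel, norm_mul] at this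
    linarith
  have h3 : Real.exp z.im ≤ e / (‖c‖ + 1) := by
    rw [← Real.exp_log (div_pos he c1)]
    exact Real.exp_le_exp.2 (by linarith)
  have kj : (k : ℝ) + 1 ≤ j := by exact_mod_cast hk
  have h4 : Real.exp (Real.pi * j * z.im) ≤ Real.exp z.im * Real.exp (Real.pi * k * z.im) := by
    rw [← Real.exp_add]
    refine Real.exp_le_exp.2 ?_
    have p3 := Real.pi_gt_three
    have : 0 ≤ (Real.pi * (j - k) - 1) * (-z.im) := mul_nonneg (by nlinarith) (by linarith)
    nlinarith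
  rw [zero_mul, sub_zero, dec_norm]
  rw [dec_norm] at h2
  rw [le_div_iff₀ c1] at h3
  have e0 := Real.exp_pos (Real.pi * k * z.im)
  calc ‖H z‖ ≤ (‖c‖ + 1) * (Real.exp z.im * Real.exp (Real.pi * k * z.im)) :=
        h2.trans (mul_le_mul_of_nonneg_left h4 c1.le)
    _ = Real.exp z.im * (‖c‖ + 1) * Real.exp (Real.pi * k * z.im) := by ring
    _ ≤ _ := mul_le_mul_of_nonneg_right h3 e0.le

theorem st_DEC (hQ : St_QEXP) (hE : St_EXPS) (h1 : St_DEC1) (h2 : St_DEC2) : St_DEC := by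
  classical
  intro d h T a G H Mh hp hT a0 a1 Hp Gp Gh fin ctx b1 hb1 z1 hz1
  by_contra hne
  have ex : ∃ k : ℕ, 1 ≤ k ∧ ∃ b ∈ G, ∃ c : ℂ, c ≠ 0 ∧ Lead (H b) k c := by
    obtain ⟨k, c, k1, c0, hl⟩ := hQ _ _ (Gh b1 hb1).2 ⟨z1, hz1, hne⟩
    exact ⟨k, k1, b1, hb1, c, c0, hl⟩
  obtain ⟨k1, bs, hbs, cs, cs0, ls⟩ := Nat.find_spec ex
  set k := Nat.find ex
  have all : ∀ b ∈ G, ∃ c, Lead (H b) k c := by
    intro b hb
    by_cases h0 : ∃ z : ℂ, z.im < -Mh b ∧ H b z ≠ 0
    · obtain ⟨j, c, j1, c0, hl⟩ := hQ _ _ (Gh b hb).2 h0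
      have : k ≤ j := Nat.find_min' ex ⟨j1, b, hb, c, c0, hl⟩
      rcases this.eq_or_lt with e | e
      · exact ⟨c, e ▸ hl⟩
      · exact ⟨0, dec_mono hl e⟩
    · push Not at h0
      refine ⟨0, fun e he => ⟨Mh b, fun z hz => ?_⟩⟩
      rw [h0 z hz, zero_mul, sub_zero, norm_zero]
      positivity
  choose! c0 hc0 using all
  let c : ℂ → ℂ := fun b => if H b = H bs then cs else c0 b
  have hc : ∀ b ∈ G, Lead (H b) k (c b) := by
    intro b hb
    by_cases e : H b = H bs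
    · simp only [c, if_pos e]
      rw [e]
      exact ls
    · simp only [c, if_neg e]
      exact hc0 b hb
  have Gs : ∀ (b : ℂ) (n : ℤ), (b + n * T ∈ G) = (b ∈ G) :=
    core_shift (f := fun c => c ∈ G) fun c => propext (Gp c)
  obtain ⟨x0, ⟨x1, x2⟩, xn⟩ : (Ioo 0 (T / 2) \ re '' (G ∩ closedBall 0 (T + h))).Nonempty :=
    ((Ioo_infinite (by linarith)).diff ((fin _).image _)).nonempty
  have nb : ∀ b ∈ G, ‖b‖ ≤ |b.re| + h := fun b hb =>
    (norm_le_abs_re_add_abs_im b).trans_eq (by rw [(Gh b hb).1, abs_of_pos hp])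
  have av : ∀ b ∈ G, b.re ≠ x0 := fun b hb e => xn ⟨b, ⟨hb, by
    rw [mem_closedBall_zero_iff]
    have := nb b hb
    rw [e, abs_of_pos x1] at this
    linarith⟩, e⟩
  obtain ⟨κ, C, M, S, D, Φ, hS, hP, hD, hH, C0, M1, fam, sg, gs, pas⟩ :=
    ctx (x0 + h + k * T + 3)
  have cl := h1 d h _ κ T S D Φ x0 C M a k H hS hP hD hH k1 x1 x2 le_rfl
    (fun b hb => ⟨av b (sg b hb), fun e => by
      have m : b + (-(k : ℤ) : ℤ) * T ∈ G := by
        rw [Gs]
        exact sg b hb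
      exact av _ m (by simp [e])⟩) a0 a1 C0 M1 fam
    (fun b hb l1 l2 => pas b hb (by
      have := nb b (sg b hb)
      rw [abs_of_pos (x1.trans l1)] at this
      linarith))
  have lim := h2 _ H c T x0 k hT k1 (fun b hb => hc b (sg b (Finset.mem_filter.1 hb).1)) cl
  obtain ⟨b', hb'⟩ : ∃ b' : ℂ, b' = bs + (⌈(x0 - bs.re) / T⌉ : ℤ) * T := ⟨_, rfl⟩
  have g' : b' ∈ G := by
    rw [hb', Gs]
    exact hbs
  have H' : H b' = H bs := by rw [hb', core_shift Hp]
  have r' : b'.re = bs.re + ⌈(x0 - bs.re) / T⌉ * T := by simp [hb']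
  have kT : T ≤ k * T := le_mul_of_one_le_left hT.le (by exact_mod_cast k1)
  have l1 : x0 < b'.re := by
    have := Int.le_ceil ((x0 - bs.re) / T)
    rw [div_le_iff₀ hT] at this
    exact lt_of_le_of_ne (by linarith) (av b' g').symm
  have l2 : b'.re < x0 + k * T := by
    have := Int.ceil_lt_add_one ((x0 - bs.re) / T)
    rw [← sub_lt_iff_lt_add, lt_div_iff₀ hT] at this
    linarith
  have m' : b' ∈ S.filter fun b => x0 < b.re ∧ b.re < x0 + k * T :=
    Finset.mem_filter.2 ⟨gs b' g' (by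
      have := nb b' g'
      rw [abs_of_pos (x1.trans l1)] at this
      linarith), l1, l2⟩
  have sum := hE _ (fun b => exp (2 * Real.pi * I * ((b.re - x0) / T : ℝ))) c
    (fun i _ => by rw [norm_exp]; simp) lim (exp (2 * Real.pi * I * ((b'.re - x0) / T : ℝ)))
  rw [Finset.sum_congr rfl (g := fun _ => cs), Finset.sum_const, nsmul_eq_mul, mul_eq_zero] at sum
  · rcases sum with s0 | s0
    · rw [Nat.cast_eq_zero, Finset.card_eq_zero] at s0
      exact Finset.filter_eq_empty_iff.1 s0 m' rfl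
    · exact cs0 s0
  · intro i hi
    obtain ⟨i1, i2⟩ := Finset.mem_filter.1 hi
    have gi := sg i (Finset.mem_filter.1 i1).1
    obtain ⟨n, hn⟩ := exp_eq_exp_iff_exists_int.1 i2
    have p0 : (2 * Real.pi * I : ℂ) ≠ 0 := two_pi_I_ne_zero
    have h3 : (((i.re - x0) / T : ℝ) : ℂ) = ((b'.re - x0) / T : ℝ) + n :=
      mul_left_cancel₀ p0 (by rw [hn]; ring)
    have h4 : (i.re - x0) / T = (b'.re - x0) / T + n := by exact_mod_cast h3
    have h5 : i.re = b'.re + n * T := by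
      field_simp at h4
      linarith
    have h6 : i = b' + n * T := by
      apply Complex.ext
      · simp [h5]
      · simp [(Gh i gi).1, (Gh b' g').1]
    have h7 : H i = H bs := by rw [h6, core_shift Hp, H']
    simp only [c, if_pos h7]

end Pool.Agent.AO.X
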