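import Pool.Agent.Lib.AX.Blue

set_option autoImplicit false

noncomputable section

namespace Pool.Agent.AO.X

open Set Metric Filter Topology Complex

theorem DEC1_step {d : Dat} {h R κ L ε r C a : ℝ} {S : Finset ℂ} {Φ : ℂ → S3} {τ : ℂ} {q : ℕ}
    (hc : Ctx d h R κ S Φ L ε (1 / 4) r) (hb : Bnd d h R κ S Φ C a ε r) (hr : 0 < r)
    (hL : q * r ≤ L) (ht : Tube h R κ S ε (1 / 4) r τ (2 * q)) (k : ℕ) (hk : k < q) :
    ‖th d Φ (1 / 4) ((dbl d Φ (1 / 4) r)^[k] τ, r) - (τ + (2 * k + 1) * r)‖ ≤ 3 / 8 * r ∧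
    ‖(dbl d Φ (1 / 4) r)^[k + 1] τ - (dbl d Φ (1 / 4) r)^[k] τ - 2 * r‖ ≤ C * r ^ 3 +
      C * r ^ (1 + a) * ∑ b ∈ S,
        (r / ‖th d Φ (1 / 4) ((dbl d Φ (1 / 4) r)^[k] τ, r) - b‖) ^ (3 / 2 : ℝ) := by
  have ho := hc.orb τ q hL ht k hk.le
  rw [Function.iterate_succ_apply']
  generalize (dbl d Φ (1 / 4) r)^[k] τ = t at ho ⊢
  have A1 := ht (2 * k) (by omega) t (by push_cast; linarith)
  have A2 := ht (2 * k + 1) (by omega) (t + r) (by
    rw [show t + r - (τ + ((2 * k + 1 : ℕ) : ℂ) * r) = t - (τ + 2 * k * r) by push_cast; ring]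
    linarith)
  have est := (hc.one t A1 A2).1.est
  have hm : ‖th d Φ (1 / 4) (t, r) - (τ + (2 * k + 1) * r)‖ ≤ 3 / 8 * r := by
    rw [show th d Φ (1 / 4) (t, r) - (τ + (2 * k + 1) * r) =
      (th d Φ (1 / 4) (t, r) - t - r) + (t - (τ + 2 * k * r)) by ring]
    linarith [norm_add_le (th d Φ (1 / 4) (t, r) - t - r) (t - (τ + 2 * k * r))]
  have A3 := ht (2 * k + 1) (by omega) (th d Φ (1 / 4) (t, r)) (by push_cast; linarith)
  have A4 := ht (2 * k + 2) (by omega) (th d Φ (1 / 4) (t, r) + r) (by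
    rw [show th d Φ (1 / 4) (t, r) + r - (τ + ((2 * k + 2 : ℕ) : ℂ) * r) =
      th d Φ (1 / 4) (t, r) - (τ + (2 * k + 1) * r) by push_cast; ring]
    linarith)
  exact ⟨hm, hb t A1 A2 A3 A4⟩

theorem DEC1_sum {c : ℝ}
    (hS : ∀ (K r x : ℝ) (b : ℂ) (μ : ℕ → ℂ) (s : Finset ℕ), 1 ≤ K → 0 < r →
      (∀ k ∈ s, |(μ k).re - (x + 2 * k * r)| ≤ r ∧ K * r ≤ ‖μ k - b‖) →
      ∑ k ∈ s, (r / ‖μ k - b‖) ^ (3 / 2 : ℝ) ≤ c / √K)
    {S : Finset ℂ} {δ μ : ℕ → ℂ} {τ : ℂ} {r C a K L η : ℝ} {q : ℕ} (hr : 0 < r) (hr1 : r ≤ 1)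
    (ha : a ≤ 1 / 2) (hC : 0 ≤ C) (hK : 1 ≤ K) (hL : q * r ≤ L) (h1 : C * L * √r ≤ η / 2)
    (h2 : C * (S.card * (c / √K)) ≤ η / 2)
    (hst : ∀ k < q, ‖μ k - (τ + (2 * k + 1) * r)‖ ≤ 3 / 8 * r ∧
      ‖δ k‖ ≤ C * r ^ 3 + C * r ^ (1 + a) * ∑ b ∈ S, (r / ‖μ k - b‖) ^ (3 / 2 : ℝ))
    (s : Finset ℕ) (hs : ∀ k ∈ s, k < q ∧ ∀ b ∈ S, K * r ≤ ‖μ k - b‖) :
    ‖∑ k ∈ s, δ k‖ ≤ η * r ^ (1 + a) := by
  have hρ : 0 < r ^ (1 + a) := Real.rpow_pos_of_pos hr _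
  have hcard : (s.card : ℝ) ≤ q := by
    have := Finset.card_le_card (show s ⊆ Finset.range q from fun k hk =>
      Finset.mem_range.2 (hs k hk).1)
    rw [Finset.card_range] at this
    exact_mod_cast this
  have hb : ∀ b ∈ S, ∑ k ∈ s, (r / ‖μ k - b‖) ^ (3 / 2 : ℝ) ≤ c / √K := fun b hb =>
    hS K r (τ.re + r) b μ s hK hr fun k hk => ⟨by
      have h3 := (abs_re_le_norm _).trans (hst k (hs k hk).1).1
      have e : (μ k - (τ + (2 * k + 1) * r)).re = (μ k).re - (τ.re + r + 2 * k * r) := by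
        simp
        ring
      rw [e] at h3
      linarith, (hs k hk).2 b hb⟩
  have hb2 : ∑ k ∈ s, ∑ b ∈ S, (r / ‖μ k - b‖) ^ (3 / 2 : ℝ) ≤ S.card * (c / √K) := by
    rw [Finset.sum_comm]
    simpa using Finset.sum_le_card_nsmul _ _ _ hb
  have h4 := (norm_sum_le s δ).trans (Finset.sum_le_sum fun k hk => (hst k (hs k hk).1).2)
  rw [Finset.sum_add_distrib, Finset.sum_const, nsmul_eq_mul, ← Finset.mul_sum] at h4
  have h5 : r ^ 2 ≤ √r * r ^ (1 + a) := by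
    have e1 : r ^ (3 / 2 : ℝ) ≤ r ^ (1 + a) :=
      Real.rpow_le_rpow_of_exponent_ge hr hr1 (by linarith)
    have e2 : r ^ 2 = √r * r ^ (3 / 2 : ℝ) := by
      rw [Real.sqrt_eq_rpow, ← Real.rpow_add hr, ← Real.rpow_natCast]
      norm_num
    rw [e2]
    exact mul_le_mul_of_nonneg_left e1 (Real.sqrt_nonneg _)
  have hL0 : 0 ≤ L := le_trans (by positivity) hL
  have h6 : (s.card : ℝ) * (C * r ^ 3) ≤ η / 2 * r ^ (1 + a) :=
    calc (s.card : ℝ) * (C * r ^ 3) = C * ((s.card * r) * r ^ 2) := by ring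
      _ ≤ C * (L * (√r * r ^ (1 + a))) := mul_le_mul_of_nonneg_left
          (mul_le_mul ((mul_le_mul_of_nonneg_right hcard hr.le).trans hL) h5 (by positivity) hL0) hC
      _ = C * L * √r * r ^ (1 + a) := by ring
      _ ≤ η / 2 * r ^ (1 + a) := mul_le_mul_of_nonneg_right h1 hρ.le
  have h7 : C * r ^ (1 + a) * ∑ k ∈ s, ∑ b ∈ S, (r / ‖μ k - b‖) ^ (3 / 2 : ℝ) ≤
      η / 2 * r ^ (1 + a) :=
    calc _ ≤ C * r ^ (1 + a) * (S.card * (c / √K)) :=
          mul_le_mul_of_nonneg_left hb2 (by positivity)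
      _ = C * (S.card * (c / √K)) * r ^ (1 + a) := by ring
      _ ≤ η / 2 * r ^ (1 + a) := mul_le_mul_of_nonneg_right h2 hρ.le
  linarith

theorem DEC1_core {S s : Finset ℂ} (H : ℂ → ℂ → ℂ) {u μ : ℕ → ℂ} {h x0 P Y r ρ e1 e2 η : ℝ}
    {K q : ℕ} (hs : ∀ b, b ∈ s ↔ b ∈ S ∧ x0 < b.re ∧ b.re < x0 + P) (him : ∀ b ∈ S, b.im = h)
    (hr : 0 < r) (hρ : 0 < ρ) (hK : 2 ≤ K) (he1 : e1 ≤ 1) (hq : |2 * q * r - P| ≤ r / 2)
    (g1 : ∀ b ∈ S, (2 * K + 4) * r ≤ |b.re - x0| ∧ (2 * K + 4) * r ≤ |b.re - (x0 + P)|)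
    (g2 : ∀ b ∈ S, ∀ b' ∈ S, b ≠ b' → (4 * K + 4) * r ≤ |b.re - b'.re|)
    (u0 : u 0 = x0 + (h - Y * r : ℝ) * I)
    (hμ : ∀ k < q, ‖μ k - (u 0 + (2 * k + 1) * r)‖ ≤ 3 / 8 * r)
    (B1 : ∀ t : Finset ℕ, (∀ k ∈ t, k < q ∧ ∀ b ∈ S, (Y - 1) * r ≤ ‖μ k - b‖) →
      ‖∑ k ∈ t, (u (k + 1) - u k)‖ ≤ e1 * r)
    (B2 : ∀ t : Finset ℕ, (∀ k ∈ t, k < q ∧ ∀ b ∈ S, (K : ℝ) * r ≤ ‖μ k - b‖) →
      ‖∑ k ∈ t, (u (k + 1) - u k)‖ ≤ η * ρ)
    (hA : ‖u q - u 0‖ ≤ η * ρ)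
    (hP : ∀ b ∈ s, ∀ (j : ℕ) (z : ℂ), |z.re| ≤ 3 → |z.im + Y| ≤ 1 →
      u j + 2 * j * r = b + r * (z - 2 * K) → ‖u (j + 2 * K) - u j - ρ * H b z‖ ≤ e2 * ρ) :
    ∃ z : ℂ → ℂ, (∀ b ∈ s, ∃ n : ℤ, ‖z b - (((x0 - b.re) / r : ℝ) - I * Y + 2 * n)‖ ≤ e1) ∧
      ‖∑ b ∈ s, H b (z b)‖ ≤ 2 * η + s.card * e2 := by
  classical
  have hrc : (r : ℂ) ≠ 0 := by exact_mod_cast hr.ne'
  have hK' : (2 : ℝ) ≤ K := by exact_mod_cast hK
  obtain ⟨hq1, hq2⟩ := abs_le.1 hq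
  have hj : ∀ b : ℂ, ∃ j : ℕ, b ∈ s → 2 * ((j : ℝ) + K) * r ≤ b.re - x0 ∧
      b.re - x0 < 2 * ((j : ℝ) + K + 1) * r ∧ j + 2 * K ≤ q := by
    intro b
    by_cases hb : b ∈ s
    swap
    · exact ⟨0, fun h => absurd h hb⟩
    obtain ⟨hS, b1, b2⟩ := (hs b).1 hb
    obtain ⟨a1, a2⟩ := g1 b hS
    rw [abs_of_pos (by linarith)] at a1
    rw [abs_of_neg (by linarith)] at a2
    have f1 : (⌊(b.re - x0) / (2 * r)⌋₊ : ℝ) * (2 * r) ≤ b.re - x0 :=
      (le_div_iff₀ (by linarith)).1 (Nat.floor_le (div_nonneg (by linarith) (by linarith)))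
    have f2 : b.re - x0 < ((⌊(b.re - x0) / (2 * r)⌋₊ : ℝ) + 1) * (2 * r) :=
      (div_lt_iff₀ (by linarith)).1 (Nat.lt_floor_add_one _)
    generalize ⌊(b.re - x0) / (2 * r)⌋₊ = n at f1 f2
    have n1 : K ≤ n := by
      have : (K : ℝ) * r < n * r := by linarith
      exact_mod_cast (lt_of_mul_lt_mul_right this hr.le).le
    have n2 : n + K ≤ q := by
      have : ((n : ℝ) + K) * r < q * r := by linarith
      exact_mod_cast (lt_of_mul_lt_mul_right this hr.le).le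
    obtain ⟨j, rfl⟩ := Nat.exists_eq_add_of_le' n1
    push_cast at f1 f2
    exact ⟨j, fun _ => ⟨by linarith, by linarith, by omega⟩⟩
  choose j hj using hj
  have hre : ∀ k < q, |(μ k).re - (x0 + (2 * k + 1) * r)| ≤ 3 / 8 * r := fun k hk => by
    have h3 := (abs_re_le_norm _).trans (hμ k hk)
    rw [u0] at h3
    simpa using h3
  have hi : ∀ k < q, ∀ b ∈ S, (Y - 1) * r ≤ ‖μ k - b‖ := fun k hk b hb => by
    have h3 := (abs_im_le_norm _).trans (hμ k hk)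
    rw [u0] at h3
    have h4 : |(μ k).im - (h - Y * r)| ≤ 3 / 8 * r := by simpa using h3
    have h5 := abs_im_le_norm (μ k - b)
    rw [sub_im, him b hb] at h5
    linarith [(abs_le.1 h4).2, neg_abs_le ((μ k).im - h)]
  set z : ℂ → ℂ := fun b => (u (j b) + 2 * j b * r - b) / r + 2 * K with hz
  have loc : ∀ b ∈ s, ‖z b - (((x0 - b.re) / r : ℝ) - I * Y + 2 * ((j b + K : ℕ) : ℤ))‖ ≤ e1 := by
    intro b hb
    have h1 := B1 (Finset.range (j b)) fun k hk => by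
      have : k < q := by
        have := Finset.mem_range.1 hk
        have := (hj b hb).2.2
        omega
      exact ⟨this, hi k this⟩
    rw [Finset.sum_range_sub] at h1
    have eb : b = b.re + h * I := by rw [← him b ((hs b).1 hb).1, re_add_im]
    have e : z b - (((x0 - b.re) / r : ℝ) - I * Y + 2 * ((j b + K : ℕ) : ℤ)) =
        (u (j b) - u 0) / r := by
      rw [u0, hz]
      push_cast
      field_simp
      linear_combination -eb
    rw [e, norm_div, norm_real, Real.norm_of_nonneg hr.le, div_le_iff₀ hr]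
    exact h1
  refine ⟨z, fun b hb => ⟨_, loc b hb⟩, ?_⟩
  have pas : ∀ b ∈ s, ‖u (j b + 2 * K) - u (j b) - ρ * H b (z b)‖ ≤ e2 * ρ := by
    intro b hb
    have l1 := (abs_re_le_norm _).trans (loc b hb)
    have l2 := (abs_im_le_norm _).trans (loc b hb)
    have l3 : |(z b).re - ((x0 - b.re) / r + 2 * (j b + K))| ≤ e1 := by
      simpa [← ofReal_div, ← ofReal_sub] using l1
    have l4 : |(z b).im + Y| ≤ e1 := by
      simpa [← ofReal_div, ← ofReal_sub] using l2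
    obtain ⟨j1, j2, -⟩ := hj b hb
    have m1 : (x0 - b.re) / r ≤ -(2 * ((j b : ℝ) + K)) := by
      rw [div_le_iff₀ hr]
      linarith
    have m2 : -(2 * ((j b : ℝ) + K + 1)) ≤ (x0 - b.re) / r := by
      rw [le_div_iff₀ hr]
      linarith
    obtain ⟨l5, l6⟩ := abs_le.1 l3
    refine hP b hb (j b) (z b) (abs_le.2 ⟨by linarith, by linarith⟩) (l4.trans he1) ?_
    rw [hz]
    field_simp
    ring
  have hU : s.biUnion (fun b => Finset.Ico (j b) (j b + 2 * K)) ⊆ Finset.range q := by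
    intro k hk
    obtain ⟨b, hb, hk⟩ := Finset.mem_biUnion.1 hk
    have := (hj b hb).2.2
    have := (Finset.mem_Ico.1 hk).2
    exact Finset.mem_range.2 (by omega)
  have hdis : (s : Set ℂ).PairwiseDisjoint fun b => Finset.Ico (j b) (j b + 2 * K) := by
    intro b hb b' hb' hne
    refine Finset.disjoint_left.2 fun k hk hk' => ?_
    obtain ⟨k1, k2⟩ := Finset.mem_Ico.1 hk
    obtain ⟨k3, k4⟩ := Finset.mem_Ico.1 hk'
    have c1 : (j b : ℝ) + 1 ≤ j b' + 2 * K := by exact_mod_cast (by omega : j b + 1 ≤ j b' + 2 * K)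
    have c2 : (j b' : ℝ) + 1 ≤ j b + 2 * K := by exact_mod_cast (by omega : j b' + 1 ≤ j b + 2 * K)
    obtain ⟨j1, j2, -⟩ := hj b hb
    obtain ⟨j3, j4, -⟩ := hj b' hb'
    have c3 := mul_le_mul_of_nonneg_right c1 hr.le
    have c4 := mul_le_mul_of_nonneg_right c2 hr.le
    have := g2 b ((hs b).1 hb).1 b' ((hs b').1 hb').1 hne
    have h9 : |b.re - b'.re| < (4 * K + 4) * r := abs_lt.2 ⟨by linarith, by linarith⟩
    linarith
  have out := B2 (Finset.range q \ s.biUnion fun b => Finset.Ico (j b) (j b + 2 * K))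
    fun k hk => by
      obtain ⟨k1, k2⟩ := Finset.mem_sdiff.1 hk
      have kq := Finset.mem_range.1 k1
      refine ⟨kq, fun b hb => le_trans ?_ (abs_re_le_norm _)⟩
      obtain ⟨r1, r2⟩ := abs_le.1 (hre k kq)
      have k0 : 0 ≤ (k : ℝ) * r := by positivity
      have k5 : ((k : ℝ) + 1) * r ≤ q * r :=
        mul_le_mul_of_nonneg_right (by exact_mod_cast kq) hr.le
      have K2 : 2 * r ≤ K * r := mul_le_mul_of_nonneg_right hK' hr.le
      rw [sub_re, le_abs]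
      obtain ⟨a1, a2⟩ := g1 b hb
      by_cases hbs : b ∈ s
      · obtain ⟨j1, j2, -⟩ := hj b hbs
        have hn : k + 1 ≤ j b ∨ j b + 2 * K ≤ k := by
          by_contra hn
          exact k2 (Finset.mem_biUnion.2 ⟨b, hbs, Finset.mem_Ico.2 (by omega)⟩)
        rcases hn with hn | hn
        · have : ((k : ℝ) + 1) * r ≤ j b * r :=
            mul_le_mul_of_nonneg_right (by exact_mod_cast hn) hr.le
          exact Or.inr (by linarith)
        · have : ((j b : ℝ) + 2 * K) * r ≤ k * r :=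
            mul_le_mul_of_nonneg_right (by exact_mod_cast hn) hr.le
          exact Or.inl (by linarith)
      · by_cases b1 : x0 < b.re
        · have b2 : x0 + P ≤ b.re := not_lt.1 fun b2 => hbs ((hs b).2 ⟨hb, b1, b2⟩)
          rw [abs_of_nonneg (by linarith)] at a2
          exact Or.inr (by linarith)
        · rw [abs_of_nonpos (by linarith)] at a1
          exact Or.inl (by linarith)
  have tot := Finset.sum_sdiff (f := fun k => u (k + 1) - u k) hU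
  rw [Finset.sum_range_sub, Finset.sum_biUnion hdis,
    Finset.sum_congr rfl fun b _ => Finset.sum_Ico_sub u (Nat.le_add_right (j b) (2 * K))] at tot
  have err := (norm_sum_le s _).trans (Finset.sum_le_card_nsmul _ _ _ pas)
  rw [Finset.sum_sub_distrib, ← Finset.mul_sum, nsmul_eq_mul] at err
  generalize ∑ b ∈ s, H b (z b) = W at err ⊢
  generalize ∑ b ∈ s, (u (j b + 2 * K) - u (j b)) = V at err tot
  generalize ∑ k ∈ Finset.range q \ s.biUnion fun b => Finset.Ico (j b) (j b + 2 * K),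
    (u (k + 1) - u k) = O at out tot
  have e : (ρ : ℂ) * W = (u q - u 0) - O - (V - ρ * W) := by linear_combination tot
  have h1 : ‖(ρ : ℂ) * W‖ ≤ η * ρ + η * ρ + s.card * (e2 * ρ) := by
    rw [e]
    linarith [norm_sub_le (u q - u 0 - O) (V - ρ * W), norm_sub_le (u q - u 0) O]
  rw [norm_mul, norm_real, Real.norm_of_nonneg hρ.le] at h1
  refine le_of_mul_le_mul_left ?_ hρ
  linarith

theorem DEC1_small (N : ℝ) {γ : ℝ} (hγ : 0 < γ) : ∀ᶠ r in 𝓝[>] (0 : ℝ), N * r ≤ γ := by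
  have : Tendsto (fun r : ℝ => N * r) (𝓝 0) (𝓝 (N * 0)) :=
    (continuous_const.mul continuous_id).tendsto 0
  rw [mul_zero] at this
  exact (this.eventually (ge_mem_nhds hγ)).filter_mono nhdsWithin_le_nhds

theorem DEC1_sqrt (N : ℝ) {γ : ℝ} (hγ : 0 < γ) : ∀ᶠ r in 𝓝[>] (0 : ℝ), N * √r ≤ γ := by
  have : Tendsto (fun r : ℝ => N * √r) (𝓝 0) (𝓝 (N * √0)) :=
    (continuous_const.mul Real.continuous_sqrt).tendsto 0
  rw [Real.sqrt_zero, mul_zero] at this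
  exact (this.eventually (ge_mem_nhds hγ)).filter_mono nhdsWithin_le_nhds

theorem DEC1_big (C N c : ℝ) {γ : ℝ} (hγ : 0 < γ) :
    ∀ᶠ K : ℝ in atTop, C * (N * (c / √K)) ≤ γ := by
  have : Tendsto (fun K : ℝ => C * (N * (c / √K))) atTop (𝓝 (C * (N * 0))) :=
    ((tendsto_const_nhds.div_atTop Real.tendsto_sqrt_atTop).const_mul N).const_mul C
  rw [mul_zero, mul_zero] at this
  exact this.eventually (ge_mem_nhds hγ)

theorem st_DEC1 (hL : St_LOW) (hS : St_SUM) : St_DEC1 := by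
  intro d h R κ T S D Φ x0 C M a p H sc ps hD hy hp hx0 hx1 hR hne ha0 ha hC hM fam pass
  obtain ⟨c, -, hS⟩ := hS
  have hs : ∀ b, b ∈ S.filter (fun b => x0 < b.re ∧ b.re < x0 + p * T) ↔
      b ∈ S ∧ x0 < b.re ∧ b.re < x0 + p * T := fun b => Finset.mem_filter
  generalize S.filter (fun b => x0 < b.re ∧ b.re < x0 + p * T) = s at hs ⊢
  have P1 : ∀ᶠ Y : ℝ in atTop, ∀ b ∈ s, ∀ e : ℝ, 0 < e → ∀ᶠ K : ℕ in atTop,
      ∀ᶠ r : ℝ in 𝓝[>] 0, ∀ z : ℂ, |z.re| ≤ 3 → |z.im + Y| ≤ 1 →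
        ‖(dbl d Φ (1 / 4) r)^[2 * K] (b + r * (z - 2 * K)) - (b + r * (z + 2 * K)) -
          (r ^ (1 + a) : ℝ) * H b z‖ ≤ e * r ^ (1 + a) :=
    (Filter.eventually_all_finset s).2 fun b hb => by
      obtain ⟨b0, b1, b2⟩ := (hs b).1 hb
      obtain ⟨Mb, hMb⟩ := pass b b0 b1 b2
      filter_upwards [eventually_ge_atTop Mb] with Y hY e he
      obtain ⟨K0, hK0⟩ := hMb Y hY e he
      filter_upwards [eventually_ge_atTop K0] with K hK
      obtain ⟨r0, hr0, h0⟩ := hK0 K hK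
      filter_upwards [Ioo_mem_nhdsGT hr0] with r hr using h0 r hr.1 hr.2
  intro e he
  obtain ⟨e1, he0, he1, he2⟩ : ∃ e1 : ℝ, 0 < e1 ∧ e1 ≤ 1 ∧ e1 ≤ e :=
    ⟨min e 1, lt_min he one_pos, min_le_right _ _, min_le_left _ _⟩
  have Y1 : ∀ᶠ Y : ℝ in atTop, C * (S.card * (c / √(Y + -1))) ≤ e1 / 2 :=
    (tendsto_atTop_add_const_right _ (-1) tendsto_id).eventually
      (DEC1_big C S.card c (half_pos he0))
  obtain ⟨Y0, hY0⟩ := eventually_atTop.1 (P1.and (Y1.and (eventually_gt_atTop (2 * M))))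
  refine ⟨Y0, fun Y hY e' he' => ?_⟩
  obtain ⟨p1, y1, y2⟩ := hY0 Y hY
  rw [← sub_eq_add_neg] at y1
  have hη : 0 < e' / 4 / 2 := by positivity
  have K1 := (Filter.eventually_all_finset s).2 fun b hb =>
    p1 b hb (e' / (2 * (s.card + 1))) (by positivity)
  have K2 : ∀ᶠ K : ℕ in atTop, C * (S.card * (c / √(K : ℝ))) ≤ e' / 4 / 2 :=
    tendsto_natCast_atTop_atTop.eventually (DEC1_big C S.card c hη)
  obtain ⟨K, k1, k2, k3⟩ := (K1.and (K2.and (eventually_ge_atTop 2))).exists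
  have hK' : (2 : ℝ) ≤ K := by exact_mod_cast k3
  obtain ⟨r0, hr0, hf⟩ := fam (p * T + 1) M le_rfl
  have G1 : ∀ᶠ r : ℝ in 𝓝[>] 0, ∀ b ∈ S, (2 * K + 4) * r ≤ |b.re - x0| ∧
      (2 * K + 4) * r ≤ |b.re - (x0 + p * T)| :=
    (Filter.eventually_all_finset S).2 fun b hb =>
      (DEC1_small _ (abs_pos.2 (sub_ne_zero.2 (hne b hb).1))).and
        (DEC1_small _ (abs_pos.2 (sub_ne_zero.2 (hne b hb).2)))
  have G2 : ∀ᶠ r : ℝ in 𝓝[>] 0, ∀ b ∈ S, ∀ b' ∈ S, b ≠ b' → (4 * K + 4) * r ≤ |b.re - b'.re| :=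
    (Filter.eventually_all_finset S).2 fun b hb =>
      (Filter.eventually_all_finset S).2 fun b' hb' => by
        by_cases hbb : b = b'
        · exact Eventually.of_forall fun _ hn => absurd hbb hn
        · refine (DEC1_small _ (abs_pos.2 (sub_ne_zero.2 fun e0 => hbb ?_))).mono fun _ h0 _ => h0
          exact Complex.ext e0 (by rw [sc.im b hb, sc.im b' hb'])
  have G3 : ∀ᶠ r : ℝ in 𝓝[>] 0, r < r0 := by
    filter_upwards [Ioo_mem_nhdsGT hr0] with r hr using hr.2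
  obtain ⟨r1, hr1, hev⟩ := (nhdsGT_basis (0 : ℝ)).eventually_iff.1
    (G3.and (((Filter.eventually_all_finset s).2 k1).and (G1.and (G2.and
      ((DEC1_small 1 one_pos).and ((DEC1_sqrt (C * (p * T + 1)) (half_pos he0)).and
        ((DEC1_sqrt (C * (p * T + 1)) hη).and ((DEC1_small (K + 1) sc.hp).and
          (DEC1_small Y sc.hp)))))))))
  obtain ⟨q0, hq0⟩ := hL d h R κ T S D Φ x0 M r1 p sc ps hD hy hp hx0 hx1 hR hM hr1
    fun r h0 h1 => (hf r h0 (hev ⟨h0, h1⟩).1).1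
  refine ⟨q0, fun q hq => ?_⟩
  obtain ⟨r, hr, hrr, hqr, low⟩ := hq0 q hq
  obtain ⟨v0, v1, v2, v3, v4, v5, v6, v7, v8⟩ := hev ⟨hr, hrr⟩
  obtain ⟨ctx, bnd⟩ := hf r hr v0
  rw [one_mul] at v4
  have hρ : 0 < r ^ (1 + a) := Real.rpow_pos_of_pos hr _
  have hρr : r ^ (1 + a) ≤ r := by
    simpa using Real.rpow_le_rpow_of_exponent_ge hr v4 (show (1 : ℝ) ≤ 1 + a by linarith)
  have hpT : 0 ≤ (p : ℝ) * T := mul_nonneg (Nat.cast_nonneg p) ps.Tp.le
  have hqL : q * r ≤ p * T + 1 := by linarith [(abs_le.1 hqr).2]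
  have hMY : 2 * M * r < Y * r := mul_lt_mul_of_pos_right y2 hr
  have gen : ∀ τ : ℂ, Tube h R κ S M (1 / 4) r τ (2 * q) → ∀ K' η : ℝ, 1 ≤ K' →
      C * (p * T + 1) * √r ≤ η / 2 → C * (S.card * (c / √K')) ≤ η / 2 → ∀ t : Finset ℕ,
      (∀ k ∈ t, k < q ∧ ∀ b ∈ S,
        K' * r ≤ ‖th d Φ (1 / 4) ((dbl d Φ (1 / 4) r)^[k] τ, r) - b‖) →
      ‖∑ k ∈ t, (((dbl d Φ (1 / 4) r)^[k + 1] τ - 2 * ((k + 1 : ℕ) : ℂ) * r) -
        ((dbl d Φ (1 / 4) r)^[k] τ - 2 * (k : ℂ) * r))‖ ≤ η * r ^ (1 + a) :=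
    fun τ ht K' η h1 h2 h3 t h4 => by
      refine DEC1_sum (τ := τ) hS hr v4 ha hC h1 hqL h2 h3 (fun k hk => ?_) t h4
      obtain ⟨s1, s2⟩ := DEC1_step ctx bnd hr hqL ht k hk
      refine ⟨s1, le_of_eq_of_le (congrArg norm ?_) s2⟩
      push_cast
      ring
  obtain ⟨tA, cA⟩ := low x0 (by simp; positivity) (by simp; positivity) (by simp; linarith)
  have hA := gen x0 tA K (e' / 4) (by linarith) v6 k2 (Finset.range q) fun k hk => by
    have kq := Finset.mem_range.1 hk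
    refine ⟨kq, fun b hb => ?_⟩
    have h3 := (abs_im_le_norm _).trans (DEC1_step ctx bnd hr hqL tA k kq).1
    generalize th d Φ (1 / 4) ((dbl d Φ (1 / 4) r)^[k] x0, r) = m at h3 ⊢
    have h4 : |m.im| ≤ 3 / 8 * r := by simpa using h3
    have h5 := abs_im_le_norm (m - b)
    rw [sub_im, sc.im b hb] at h5
    linarith [(abs_le.1 h4).2, neg_abs_le (m.im - h)]
  rw [Finset.sum_range_sub (fun k => (dbl d Φ (1 / 4) r)^[k] (x0 : ℂ) - 2 * (k : ℂ) * r), cA] at hA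
  have hA2 : ‖(p : ℂ) * T - 2 * q * r‖ ≤ e' / 4 * r ^ (1 + a) := by
    refine le_of_eq_of_le (congrArg norm ?_) hA
    simp
    ring
  obtain ⟨tB, cB⟩ := low (x0 + (h - Y * r : ℝ) * I) (by simp; positivity)
    (by simp; linarith) (by simp; linarith)
  obtain ⟨z, z1, z2⟩ := DEC1_core (S := S) (s := s) H
    (u := fun k => (dbl d Φ (1 / 4) r)^[k] (x0 + (h - Y * r : ℝ) * I) - 2 * (k : ℂ) * r)
    (μ := fun k => th d Φ (1 / 4) ((dbl d Φ (1 / 4) r)^[k] (x0 + (h - Y * r : ℝ) * I), r))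
    (h := h) (Y := Y) (e2 := e' / (2 * (s.card + 1))) (η := e' / 4) hs sc.im hr hρ k3 he1 hqr v2 v3
    (by simp) (fun k hk => by simpa using (DEC1_step ctx bnd hr hqL tB k hk).1)
    (fun t ht => (gen _ tB (Y - 1) e1 (by linarith) v5 y1 t ht).trans
      (mul_le_mul_of_nonneg_left hρr he0.le))
    (fun t ht => gen _ tB K (e' / 4) (by linarith) v6 k2 t ht)
    (by
      refine le_of_eq_of_le (congrArg norm ?_) hA2
      rw [cB]
      simp
      ring)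
    (fun b hb j z h1 h2 h3 => by
      have h4 := v1 b hb z h1 h2
      have h5 : (dbl d Φ (1 / 4) r)^[j] (x0 + (h - Y * r : ℝ) * I) = b + r * (z - 2 * K) := by
        rw [← h3]
        ring
      refine le_of_eq_of_le (congrArg norm ?_) h4
      rw [add_comm j, Function.iterate_add_apply, h5]
      push_cast
      ring)
  refine ⟨r, z, hr, ?_, fun b hb => (z1 b hb).imp fun n hn => hn.trans he2, z2.trans ?_⟩
  · have h1 : |p * T - 2 * q * r| ≤ e' / 4 * r ^ (1 + a) := by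
      rw [← Real.norm_eq_abs, ← norm_real]
      push_cast
      exact hA2
    rw [show 2 * (q : ℝ) - p * T / r = -(p * T - 2 * q * r) / r by field_simp; ring, abs_div,
      abs_neg, abs_of_pos hr, div_le_iff₀ hr]
    nlinarith [mul_le_mul_of_nonneg_left hρr he'.le]
  · have h1 : (s.card : ℝ) * (e' / (2 * (s.card + 1))) ≤ e' / 2 := by
      rw [← mul_div_assoc, div_le_div_iff₀ (by positivity) two_pos]
      nlinarith [Nat.cast_nonneg (α := ℝ) s.card]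
    linarith

end Pool.Agent.AO.X
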