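import Pool.Agent.Lib.AX.Blue

set_option autoImplicit false

noncomputable section

namespace Pool.Agent.AO.X

open Set Metric Filter Topology Complex

def e12Q (P : ℝ) : Set ℂ := closedBall 0 P ∩ {w | w.im ≤ -1}

theorem e12_cpt (P : ℝ) : IsCompact (e12Q P) :=
  (isCompact_closedBall 0 P).inter_right (isClosed_le continuous_im continuous_const)

theorem e12_pw (a P : ℝ) : ContinuousOn (pw a) (e12Q P) := fun w hw =>
  (pw_deriv a ((slit_iff w).2 (Or.inl (lt_of_le_of_lt hw.2 (by norm_num))))).continuousAt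
    |>.continuousWithinAt

theorem e12_mA (l : LD) (P : ℝ) : ContinuousOn (mA l) (e12Q P) :=
  continuousOn_const.mul (e12_pw _ P)
theorem e12_mB (l : LD) (P : ℝ) : ContinuousOn (mB l) (e12Q P) :=
  continuousOn_const.mul (e12_pw _ P)
theorem e12_mY (l : LD) (P : ℝ) : ContinuousOn (mY l) (e12Q P) :=
  continuousOn_const.mul (e12_pw _ P)

theorem e12_uc {g : ℂ → ℂ} {P : ℝ} (hg : ContinuousOn g (e12Q P)) {e : ℝ} (he : 0 < e) :
    ∃ δ : ℝ, 0 < δ ∧ ∀ x ∈ e12Q P, ∀ y ∈ e12Q P, ‖x - y‖ ≤ δ → ‖g x - g y‖ ≤ e := by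
  obtain ⟨δ, hδ, h⟩ := Metric.uniformContinuousOn_iff_le.1
    ((e12_cpt P).uniformContinuousOn_of_continuous hg) e he
  exact ⟨δ, hδ, fun x hx y hy hxy => by
    rw [← dist_eq_norm] at hxy ⊢
    exact h x hx y hy hxy⟩

theorem e12_small {c s : ℝ} (hc : 0 < c) (hs : 0 < s) :
    ∃ r0 : ℝ, 0 < r0 ∧ ∀ r : ℝ, 0 < r → r < r0 → r ^ s ≤ c :=
  ⟨c ^ s⁻¹, Real.rpow_pos_of_pos hc _, fun _ h0 h1 =>
    (Real.rpow_le_rpow h0.le h1.le hs.le).trans_eq (Real.rpow_inv_rpow hc.le hs.ne')⟩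

/-- points near `z + n` stay in the working region -/
theorem e12_near {z w : ℂ} {n ρ M : ℝ} (hz : ‖z‖ ≤ ρ) (hi : z.im < -(M + 2)) (hn : |n| ≤ 2)
    (hw : ‖w - z - n‖ ≤ 1) : ‖w‖ ≤ |ρ| + 3 ∧ w.im ≤ -(M + 1) := by
  have h1 := (abs_le.1 ((abs_im_le_norm _).trans hw)).2
  have h2 := norm_add₃_le (a := w - z - n) (b := z) (c := (n : ℂ))
  rw [show w - z - n + z + n = w by ring, norm_real, Real.norm_eq_abs] at h2
  simp only [sub_im, ofReal_im] at h1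
  exact ⟨by linarith [le_abs_self ρ], by linarith⟩

theorem e12_adm {d : Dat} {h R κ : ℝ} {S : Finset ℂ} {D : Set ℂ} {Φ : ℂ → S3} {b w : ℂ}
    {M P r : ℝ} (H : Sc d h R κ S D Φ) (hb : b ∈ S) (hR : ‖b‖ + 1 ≤ R) (hM : 1 ≤ M) (hr : 0 < r)
    (h1 : r * P ≤ 1) (h2 : r * P ≤ h) (hw : ‖w‖ ≤ P) (hi : w.im ≤ -(M + 1)) :
    Adk h R κ S (b + r * w) (M * r) ∧ b + r * w ∈ D := by
  have hp := H.hp
  have a1 := (abs_le.1 ((abs_im_le_norm w).trans hw)).1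
  have a2 : (b + r * w).im = h + r * w.im := by simp [H.im b hb]
  have a3 := mul_le_mul_of_nonneg_left a1 hr.le
  have a4 := mul_le_mul_of_nonneg_left hi hr.le
  have a5 : 0 < M * r := by positivity
  have hA : Adm h R κ S (b + r * w) (M * r) := by
    refine ⟨?_, by linarith, by linarith [mul_pos H.kp a5], a5, by linarith, fun c hc => ?_⟩
    · have := norm_add_le b (r * w)
      rw [norm_mul, norm_real, Real.norm_of_nonneg hr.le] at this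
      linarith [mul_le_mul_of_nonneg_left hw hr.le]
    · have := (abs_le.1 (abs_im_le_norm (b + r * w - c))).1
      rw [sub_im, a2, H.im c hc] at this
      linarith
  exact ⟨⟨a5, _, le_rfl, hA⟩, H.adm _ _ hA (mem_ball_self (mul_pos H.kp a5))⟩

/-- the expansion in the rescaled variable -/
theorem e12_lx {D : Set ℂ} {Φ : ℂ → S3} {b : ℂ} {l : LD} (hL : LX D Φ b l) (ha : 0 ≤ l.al)
    {P ε : ℝ} (hP : 1 ≤ P) (hε : 0 < ε) : ∃ r0 : ℝ, 0 < r0 ∧ ∀ r : ℝ, 0 < r → r < r0 →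
      ∀ w : ℂ, w ≠ 0 → ‖w‖ ≤ P → b + r * w ∈ D →
        ‖fA Φ (b + r * w) - l.σ.1 - (r ^ l.al : ℝ) * mA l w‖ ≤ ε * r ^ l.al ∧
        ‖fB Φ (b + r * w) - l.σ.2.1 - (r ^ l.al : ℝ) * mB l w‖ ≤ ε * r ^ l.al ∧
        ‖fY Φ (b + r * w) - l.σ.2.2 - (l.σ.1 - l.σ.2.1) * (r * w) -
          r * (r ^ l.al : ℝ) * mY l w‖ ≤ ε * (r * r ^ l.al) := by
  have hq : 0 < P ^ (1 + l.al) := Real.rpow_pos_of_pos (by linarith) _
  obtain ⟨δ, hδ, h⟩ := hL (ε / P ^ (1 + l.al)) (by positivity)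
  refine ⟨δ / P, by positivity, fun r hr h0 w hw hwP hD => ?_⟩
  have e0 : b + r * w - b = r * w := by ring
  have e1 : ‖(r : ℂ) * w‖ = r * ‖w‖ := by rw [norm_mul, norm_real, Real.norm_of_nonneg hr.le]
  rw [lt_div_iff₀ (by linarith)] at h0
  obtain ⟨-, h1, h2, h3⟩ := h _ hD (by
    rw [e0, e1]
    linarith [mul_le_mul_of_nonneg_left hwP hr.le])
  have e2 : r ^ (1 + l.al) = r * r ^ l.al := by rw [Real.rpow_add hr, Real.rpow_one]
  have key : ∀ s : ℝ, 0 ≤ s → s ≤ 1 + l.al →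
      ε / P ^ (1 + l.al) * ‖(r : ℂ) * w‖ ^ s ≤ ε * r ^ s := by
    intro s s0 s1
    have b1 : ‖w‖ ^ s ≤ P ^ (1 + l.al) := (Real.rpow_le_rpow (norm_nonneg _) hwP s0).trans
      (Real.rpow_le_rpow_of_exponent_le hP s1)
    have b2 : 0 < r ^ s := Real.rpow_pos_of_pos hr _
    rw [e1, Real.mul_rpow hr.le (norm_nonneg _), div_mul_eq_mul_div, div_le_iff₀ hq, mul_assoc]
    exact mul_le_mul_of_nonneg_left (mul_le_mul_of_nonneg_left b1 b2.le) hε.le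
  rw [e0] at h1 h2 h3
  refine ⟨(le_of_eq ?_).trans (h1.trans (key _ ha (by linarith))),
    (le_of_eq ?_).trans (h2.trans (key _ ha (by linarith))),
    (le_of_eq ?_).trans ((h3.trans (key _ (by linarith) le_rfl)).trans_eq (by rw [e2]))⟩
  · rw [mA, mA, pw_smul _ hr hw]
    congr 1
    ring
  · rw [mB, mB, pw_smul _ hr hw]
    congr 1
    ring
  · rw [mY, mY, pw_smul _ hr hw, e2]
    congr 1
    push_cast
    ring

theorem e12_four {r t ε : ℝ} (hr : 0 < r) {X α β η η' : ℂ} (h : r * X = r * α - r * β - η + η')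
    (h1 : ‖α‖ ≤ ε * t) (h2 : ‖β‖ ≤ ε * t) (h3 : ‖η‖ ≤ ε * (r * t)) (h4 : ‖η'‖ ≤ ε * (r * t)) :
    ‖X‖ ≤ 4 * ε * t := by
  have n : ∀ v : ℂ, ‖(r : ℂ) * v‖ = r * ‖v‖ := fun v => by
    rw [norm_mul, norm_real, Real.norm_of_nonneg hr.le]
  have a1 := norm_add_le (r * α - r * β - η) η'
  have a2 := norm_sub_le (r * α - r * β) η
  have a3 := norm_sub_le (r * α) (r * β)
  rw [← h, n] at a1
  rw [n, n] at a3
  refine le_of_mul_le_mul_left ?_ hr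
  linarith [mul_le_mul_of_nonneg_left h1 hr.le, mul_le_mul_of_nonneg_left h2 hr.le]

/-- the two half steps in the rescaled variable -/
theorem e12_base {d : Dat} {h R κ : ℝ} {S : Finset ℂ} {D : Set ℂ} {Φ : ℂ → S3} {b : ℂ} {M : ℝ}
    {l : LD} (H : Sc d h R κ S D Φ) (hb : b ∈ S) (hR : ‖b‖ + 1 ≤ R) (hL : LX D Φ b l)
    (hM : 1 ≤ M) (hO : One d h R κ S Φ M) (ha : 0 ≤ l.al) (ρ : ℝ) {ε : ℝ} (hε : 0 < ε) :
    ∃ r0 : ℝ, 0 < r0 ∧ ∀ r : ℝ, 0 < r → r < r0 → ∀ z : ℂ, ‖z‖ ≤ ρ → z.im < -(M + 2) →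
      ∃ x y : ℂ, dbl d Φ (1 / 4) r (b + r * z) = b + r * y ∧ ‖x - z - 1‖ ≤ 1 / 8 ∧
        ‖y - x - 1‖ ≤ 1 / 8 ∧
        ‖(l.σ.1 - l.σ.2.1) * (x - z - 1) +
          (r ^ l.al : ℝ) * (mY l x - mA l x - (mY l z - mB l z))‖ ≤ 4 * ε * r ^ l.al ∧
        ‖(l.σ.1 - l.σ.2.1) * (y - x - 1) +
          (r ^ l.al : ℝ) * (mY l y + mB l y - (mY l x + mA l x))‖ ≤ 4 * ε * r ^ l.al := by
  have hp := H.hp
  have hP : 1 ≤ |ρ| + 3 := by linarith [abs_nonneg ρ]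
  obtain ⟨r1, p1, hO⟩ := hO
  obtain ⟨r2, p2, hL⟩ := e12_lx hL ha hP hε
  refine ⟨min (min r1 r2) (min 1 h / (|ρ| + 3)), by positivity, fun r hr h0 z hz hi => ?_⟩
  rw [lt_min_iff, lt_min_iff, lt_div_iff₀ (by linarith), lt_min_iff] at h0
  obtain ⟨⟨q1, q2⟩, q3, q4⟩ := h0
  have hr' : (r : ℂ) ≠ 0 := ofReal_ne_zero.2 hr.ne'
  have pt : ∀ (w : ℂ) (n : ℝ), |n| ≤ 2 → ‖w - z - n‖ ≤ 1 →
      Adk h R κ S (b + r * w) (M * r) ∧ _ := fun w n hn hw => by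
    obtain ⟨c1, c2⟩ := e12_near hz hi hn hw
    obtain ⟨c3, c4⟩ := e12_adm H hb hR hM hr q3.le q4.le c1 c2
    exact ⟨c3, hL r hr q2 w (fun e => by rw [e, zero_im] at c2; linarith) c1 c4⟩
  have sc : ∀ μ w : ℂ, ‖μ - (b + r * w) - r‖ ≤ 1 / 4 * r / 2 →
      ∃ x : ℂ, μ = b + r * x ∧ ‖x - w - 1‖ ≤ 1 / 8 := fun μ w hμ => by
    refine ⟨(μ - b) / r, by field_simp; ring, ?_⟩
    rw [show (μ - b) / r - w - 1 = (μ - (b + r * w) - r) / r by field_simp; ring, norm_div,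
      norm_real, Real.norm_of_nonneg hr.le, div_le_iff₀ hr]
    linarith
  obtain ⟨z0, z1, z2, z3⟩ := pt z 0 (by norm_num) (by simp)
  have s1 := (hO r hr q1 _ z0 (by
    rw [show b + r * z + r = b + r * (z + 1) by ring]
    exact (pt (z + 1) 1 (by norm_num) (by simp)).1)).1
  obtain ⟨x, ex, hx⟩ := sc _ z s1.est
  obtain ⟨x0, x1, x2, x3⟩ := pt x 1 (by norm_num) (by rw [ofReal_one]; linarith)
  have s2 := (hO r hr q1 _ x0 (by
    rw [show b + r * x + r = b + r * (x + 1) by ring]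
    refine (pt (x + 1) 2 (by norm_num) ?_).1
    rw [show x + 1 - z - (2 : ℝ) = x - z - 1 by push_cast; ring]
    linarith)).2
  obtain ⟨y, ey, hy⟩ := sc _ x s2.est
  obtain ⟨-, y1, y2, y3⟩ := pt y 2 (by norm_num) (by
    have := norm_add_le (y - x - 1) (x - z - 1)
    rw [show y - z - (2 : ℝ) = y - x - 1 + (x - z - 1) by push_cast; ring]
    linarith)
  have k1 := s1.rel.1
  have k2 := ((rel_flip d Φ _ _ _).1 s2.rel).1
  rw [ex] at k1
  rw [ey] at k2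
  refine ⟨x, y, by rw [dbl, ex, ey], hx, hy, e12_four hr ?_ x1 z2 x3 z3,
    e12_four hr ?_ x1 y2 y3 x3⟩
  · linear_combination k1
  · linear_combination -k2

theorem e12_mem {z w : ℂ} {ρ M : ℝ} (n : ℝ) (hz : ‖z‖ ≤ ρ) (hi : z.im < -(M + 2)) (hM : 1 ≤ M)
    (hn : |n| ≤ 2) (hw : ‖w - z - n‖ ≤ 1) : w ∈ e12Q (|ρ| + 3) := by
  obtain ⟨c1, c2⟩ := e12_near hz hi hn hw
  exact ⟨mem_closedBall_zero_iff.2 c1, show w.im ≤ -1 by linarith⟩

theorem e12_two {x y z : ℂ} {s : ℝ} (hx : ‖x - z - 1‖ ≤ s) (hy : ‖y - x - 1‖ ≤ s) :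
    ‖y - z - 2‖ ≤ 2 * s := by
  have := norm_add_le (y - x - 1) (x - z - 1)
  rw [show y - z - 2 = y - x - 1 + (x - z - 1) by ring]
  linarith

theorem e12_E2 : St_E2 := by
  intro d h R κ S D Φ b M M' C l m F H hb hR hL hM hO hT hI ρ e he
  obtain ⟨h0, hab, k, hk, hal, -⟩ := hT
  have ha : 0 ≤ l.al := by
    have : (3 : ℝ) ≤ k := by exact_mod_cast hk
    rw [hal]
    exact div_nonneg zero_le_one (by linarith)
  obtain ⟨c, hc⟩ : ∃ c : ℝ, c = ‖l.a1 - l.b1‖ := ⟨_, rfl⟩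
  have c0 : 0 < c := hc ▸ norm_pos_iff.2 (sub_ne_zero.2 hab)
  obtain ⟨δ, hδ, hu⟩ := e12_uc ((e12_mY l (|ρ| + 3)).add (e12_mA l _)) (e := c * e / 8)
    (by positivity)
  obtain ⟨ε, hε, e1, e2⟩ : ∃ ε : ℝ, 0 < ε ∧ 16 * ε ≤ c * δ ∧ 32 * ε ≤ c * e :=
    ⟨min (c * δ / 16) (c * e / 32), by positivity,
      by linarith [min_le_left (c * δ / 16) (c * e / 32)],
      by linarith [min_le_right (c * δ / 16) (c * e / 32)]⟩
  obtain ⟨r0, p0, hB⟩ := e12_base H hb hR hL hM hO ha ρ hε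
  refine ⟨r0, p0, fun r hr q0 z hz hi hi' => ?_⟩
  obtain ⟨x, y, hd, hx, hy, k1, k2⟩ := hB r hr q0 z hz hi
  have t0 : 0 < r ^ l.al := Real.rpow_pos_of_pos hr _
  rw [h0, sub_self, zero_mul, zero_add, norm_mul, norm_real, Real.norm_of_nonneg t0.le,
    mul_comm] at k1 k2
  have k3 := le_of_mul_le_mul_right k1 t0
  have k4 := le_of_mul_le_mul_right k2 t0
  have hO : z ∈ Om M' := lt_max_of_lt_right (lt_neg_of_lt_neg hi')
  have z1 : 1 ≤ ‖z‖ := by linarith [(abs_le.1 (abs_im_le_norm z)).1]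
  have hcz : c ≤ ‖mA l z - mB l z‖ := by
    rw [mA, mB, ← sub_mul, norm_mul, ← hc, pw_norm _ (norm_pos_iff.1 (by linarith))]
    exact le_mul_of_one_le_right c0.le (Real.one_le_rpow z1 ha)
  have a1 := (mul_le_mul_of_nonneg_right hcz (norm_nonneg _)).trans
    (hI.l1 z hO x (by linarith))
  have a2 : ‖x - m z‖ ≤ δ := le_of_mul_le_mul_left (by linarith) c0
  have a3 : ‖mY l x + mA l x - (mY l (m z) + mA l (m z))‖ ≤ c * e / 8 :=
    hu x (e12_mem 1 hz hi hM (by norm_num) (by rw [ofReal_one]; linarith)) (m z)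
      (e12_mem 1 hz hi hM (by norm_num) (by rw [ofReal_one]; linarith [hI.m1 z hO])) a2
  have a4 := (mul_le_mul_of_nonneg_right hcz (norm_nonneg _)).trans
    (hI.l2 z hO y (by linarith [e12_two hx hy]))
  have a5 := norm_sub_le_norm_sub_add_norm_sub (mY l y + mB l y) (mY l x + mA l x)
    (mY l (m z) + mA l (m z))
  have a6 : ‖y - F z‖ ≤ e := le_of_mul_le_mul_left (by linarith) c0
  rw [hd, show b + r * y - (b + r * F z) = r * (y - F z) by ring, norm_mul, norm_real,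
    Real.norm_of_nonneg hr.le, mul_comm]
  exact mul_le_mul_of_nonneg_right a6 hr.le

theorem e12_solve {w X G : ℂ} {t B : ℝ} (ht : 0 ≤ t) (h : ‖w * X + (t : ℝ) * G‖ ≤ t)
    (hG : ‖G‖ ≤ B) : ‖w‖ * ‖X‖ ≤ (1 + B) * t := by
  have a1 := norm_sub_le (w * X + (t : ℝ) * G) ((t : ℝ) * G)
  rw [add_sub_cancel_right, norm_mul, norm_mul, norm_real, Real.norm_of_nonneg ht] at a1
  linarith [mul_le_mul_of_nonneg_left hG ht]

theorem st_E1 : St_E1 := by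
  intro d h R κ S D Φ b M a l H hb hR hL hM hO hT ha hal ρ e he
  obtain ⟨h0, al0, -, -⟩ := hT
  obtain ⟨w, hw⟩ : ∃ w : ℂ, w = l.σ.1 - l.σ.2.1 := ⟨_, rfl⟩
  have w0 : w ≠ 0 := hw ▸ sub_ne_zero.2 h0
  have c0 : 0 < ‖w‖ := norm_pos_iff.2 w0
  obtain ⟨BA, hA⟩ := (e12_cpt (|ρ| + 3)).exists_bound_of_continuousOn (e12_mA l _)
  obtain ⟨BB, hB⟩ := (e12_cpt (|ρ| + 3)).exists_bound_of_continuousOn (e12_mB l _)
  obtain ⟨BY, hY⟩ := (e12_cpt (|ρ| + 3)).exists_bound_of_continuousOn (e12_mY l _)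
  obtain ⟨B, hB0, hB1⟩ : ∃ B : ℝ, 0 ≤ B ∧ BA + BB + 2 * BY ≤ B :=
    ⟨_, abs_nonneg _, le_abs_self _⟩
  obtain ⟨δ1, p1, u1⟩ := e12_uc (e12_mA l (|ρ| + 3)) (e := ‖w‖ * e / 8) (by positivity)
  obtain ⟨δ2, p2, u2⟩ := e12_uc ((e12_mY l (|ρ| + 3)).add (e12_mB l _)) (e := ‖w‖ * e / 4)
    (by positivity)
  obtain ⟨ε, hε, e1, e2⟩ : ∃ ε : ℝ, 0 < ε ∧ 4 * ε ≤ 1 ∧ 16 * ε ≤ ‖w‖ * e :=
    ⟨min (1 / 4) (‖w‖ * e / 16), by positivity,
      by linarith [min_le_left (1 / 4) (‖w‖ * e / 16)],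
      by linarith [min_le_right (1 / 4) (‖w‖ * e / 16)]⟩
  obtain ⟨r0, p0, hS⟩ := e12_base H hb hR hL hM hO al0.le ρ hε
  obtain ⟨r1, q1, s1⟩ := e12_small (c := ‖w‖ * min δ1 (δ2 / 2) / (1 + B)) (by positivity) al0
  obtain ⟨r2, q2, s2⟩ : ∃ r2 : ℝ, 0 < r2 ∧ (a ≠ l.al → ∀ r : ℝ, 0 < r → r < r2 →
      r ^ (l.al - a) ≤ ‖w‖ * e / (2 * (1 + B))) := by
    by_cases hc : a = l.al
    · exact ⟨1, one_pos, fun h => absurd hc h⟩
    · obtain ⟨r2, q2, s2⟩ := e12_small (c := ‖w‖ * e / (2 * (1 + B))) (s := l.al - a)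
        (by positivity) (sub_pos.2 (lt_of_le_of_ne hal hc))
      exact ⟨r2, q2, fun _ => s2⟩
  refine ⟨min r0 (min r1 r2), by positivity, fun r hr q0 z hz hi => ?_⟩
  rw [lt_min_iff, lt_min_iff] at q0
  obtain ⟨x, y, hd, hx, hy, k1, k2⟩ := hS r hr q0.1 z hz hi
  have s1 := s1 r hr q0.2.1
  obtain ⟨t, ht⟩ : ∃ t : ℝ, t = r ^ l.al := ⟨_, rfl⟩
  have t0 : 0 < t := ht ▸ Real.rpow_pos_of_pos hr _
  rw [← hw, ← ht] at k1 k2
  rw [← ht, le_div_iff₀ (by linarith)] at s1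
  have mz := e12_mem (w := z) 0 hz hi hM (by norm_num) (by simp)
  have mx := e12_mem (w := x) 1 hz hi hM (by norm_num) (by rw [ofReal_one]; linarith)
  have my := e12_mem (w := y) 2 hz hi hM (by norm_num)
    (by rw [ofReal_ofNat]; linarith [e12_two hx hy])
  have m1 := e12_mem (w := z + 1) 1 hz hi hM (by norm_num) (by simp)
  have m2 := e12_mem (w := z + 2) 2 hz hi hM (by norm_num) (by simp)
  have e3 := mul_le_mul_of_nonneg_right e1 t0.le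
  have g1 := e12_solve (B := B) t0.le (k1.trans (by linarith)) (by
    linarith [norm_sub_le (mY l x - mA l x) (mY l z - mB l z), norm_sub_le (mY l x) (mA l x),
      norm_sub_le (mY l z) (mB l z), hA x mx, hY x mx, hY z mz, hB z mz])
  have g2 := e12_solve (B := B) t0.le (k2.trans (by linarith)) (by
    linarith [norm_sub_le (mY l y + mB l y) (mY l x + mA l x), norm_add_le (mY l y) (mB l y),
      norm_add_le (mY l x) (mA l x), hA x mx, hY x mx, hY y my, hB y my])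
  have er : r ^ (1 + a) = r * r ^ a := by rw [Real.rpow_add hr, Real.rpow_one]
  have fin : ∀ (v : ℂ) (s : ℝ), ‖w‖ * ‖v‖ ≤ ‖w‖ * (e * s) → ‖(r : ℂ) * v‖ ≤ e * (r * s) := by
    intro v s hv
    rw [norm_mul, norm_real, Real.norm_of_nonneg hr.le]
    linarith [mul_le_mul_of_nonneg_left (le_of_mul_le_mul_left hv c0) hr.le]
  rw [hd, er]
  split_ifs with hc
  · have b1 : ‖x - z - 1‖ ≤ min δ1 (δ2 / 2) := le_of_mul_le_mul_left (by linarith) c0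
    have b2 : ‖y - x - 1‖ ≤ min δ1 (δ2 / 2) := le_of_mul_le_mul_left (by linarith) c0
    have b3 := u1 x mx _ m1 (by rw [← sub_sub]; exact b1.trans (min_le_left _ _))
    have b4 : ‖mY l y + mB l y - (mY l (z + 2) + mB l (z + 2))‖ ≤ ‖w‖ * e / 4 :=
      u2 y my _ m2 (by
        rw [← sub_sub]
        linarith [e12_two b1 b2, min_le_right δ1 (δ2 / 2)])
    rw [hc, ← ht, show b + r * y - (b + r * (z + 2)) - (r * t : ℝ) * E0 l z =
      r * (y - z - 2 - (t : ℝ) * E0 l z) by push_cast; ring]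
    refine fin _ _ ?_
    have b5 : w * (y - z - 2 - (t : ℝ) * E0 l z) =
        (w * (x - z - 1) + (t : ℝ) * (mY l x - mA l x - (mY l z - mB l z))) +
        (w * (y - x - 1) + (t : ℝ) * (mY l y + mB l y - (mY l x + mA l x))) +
        (t : ℝ) * (2 * (mA l x - mA l (z + 1)) -
          (mY l y + mB l y - (mY l (z + 2) + mB l (z + 2)))) := by
      rw [E0, ← hw]
      field_simp
      ring
    have b6 := norm_sub_le (2 * (mA l x - mA l (z + 1)))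
      (mY l y + mB l y - (mY l (z + 2) + mB l (z + 2)))
    rw [norm_mul, Complex.norm_ofNat] at b6
    rw [← norm_mul, b5]
    refine norm_add₃_le.trans ?_
    rw [norm_mul (t : ℂ), norm_real, Real.norm_of_nonneg t0.le]
    have b7 := mul_le_mul_of_nonneg_left (b6.trans (show _ ≤ ‖w‖ * e / 2 by linarith)) t0.le
    have b8 := mul_le_mul_of_nonneg_right e2 t0.le
    linarith
  · have s2 := s2 hc r hr q0.2.2
    rw [le_div_iff₀ (by linarith)] at s2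
    have b1 : t = r ^ (l.al - a) * r ^ a := by rw [ht, ← Real.rpow_add hr, sub_add_cancel]
    have b2 := mul_le_mul_of_nonneg_right s2 (Real.rpow_pos_of_pos hr a).le
    have b3 := norm_add_le (y - x - 1) (x - z - 1)
    rw [mul_zero, sub_zero, show b + r * y - (b + r * (z + 2)) =
      r * (y - x - 1 + (x - z - 1)) by ring]
    refine fin _ _ ?_
    have b4 := mul_le_mul_of_nonneg_left b3 c0.le
    rw [b1] at g1 g2
    linarith

end Pool.Agent.AO.X
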