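import Pool.Agent.Lib.AX.Blue

set_option autoImplicit false

noncomputable section

namespace Pool.Agent.AO.X

open Set Metric Filter Topology Complex

theorem e2_adm {d : Dat} {h R κ M P r : ℝ} {S : Finset ℂ} {D : Set ℂ} {Φ : ℂ → S3} {b : ℂ}
    (H : Sc d h R κ S D Φ) (hb : b ∈ S) (hR : ‖b‖ + 1 ≤ R) (hM : 1 ≤ M) (hr : 0 < r)
    (r1 : r * P ≤ 1) (r2 : r * P ≤ h) {w : ℂ} (w1 : ‖w‖ ≤ P) (w2 : w.im ≤ -M) :
    Adk h R κ S (b + r * w) (M * r) ∧ b + r * w ∈ D := by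
  have hi : |w.im| ≤ ‖w‖ := abs_im_le_norm w
  have hi2 : -w.im ≤ P := (neg_le_abs _).trans (hi.trans w1)
  have hMr : 0 < M * r := by positivity
  have im1 : (b + r * w).im = h + r * w.im := by simp [H.im b hb]
  have n1 : ‖(r : ℂ) * w‖ ≤ r * P := by
    rw [norm_mul, norm_real, Real.norm_eq_abs, abs_of_pos hr]
    exact mul_le_mul_of_nonneg_left w1 hr.le
  have a1 : r * (-w.im) ≤ r * P := mul_le_mul_of_nonneg_left hi2 hr.le
  have a2 : r * M ≤ r * (-w.im) := mul_le_mul_of_nonneg_left (by linarith) hr.le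
  have ad : Adm h R κ S (b + r * w) (M * r) := by
    refine ⟨(norm_add_le _ _).trans (by linarith), ?_, ?_, hMr, by linarith, fun c hc => ?_⟩
    · rw [im1]
      linarith [H.hp]
    · rw [im1]
      have := mul_pos H.kp hMr
      linarith
    · have e1 : (b + r * w - c).im = r * w.im := by
        rw [sub_im, im1, H.im c hc]
        ring
      have := (neg_le_abs _).trans (abs_im_le_norm (b + r * w - c))
      rw [e1] at this
      linarith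
  exact ⟨⟨hMr, _, le_rfl, ad⟩, H.adm _ _ ad (mem_ball_self (mul_pos H.kp hMr))⟩

theorem e2_al {l : LD} (h : T2 l) : 0 < l.al ∧ l.al ≤ 1 := by
  obtain ⟨-, -, k, k3, hk, -⟩ := h
  have k2 : (3 : ℝ) ≤ k := by exact_mod_cast k3
  rw [hk]
  refine ⟨one_div_pos.2 (by linarith), ?_⟩
  rw [div_le_one (by linarith)]
  linarith

theorem e2_err {x s : ℂ} {t ε : ℝ} (hs : ‖s‖ = t) (ht : 0 < t) (hx : ‖x‖ ≤ ε * t) :
    ∃ α : ℂ, ‖α‖ ≤ ε ∧ x = s * α := by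
  have s0 : s ≠ 0 := norm_pos_iff.1 (hs ▸ ht)
  refine ⟨x / s, ?_, by field_simp⟩
  rw [norm_div, hs, div_le_iff₀ ht]
  exact hx

theorem e2_sc {D : Set ℂ} {Φ : ℂ → S3} {b : ℂ} {l : LD} (hL : LX D Φ b l) (hT : T2 l)
    {P ε : ℝ} (hP : 1 ≤ P) (hε : 0 < ε) : ∃ δ : ℝ, 0 < δ ∧ ∀ r : ℝ, 0 < r → r * P < δ →
      ∀ w : ℂ, 1 ≤ ‖w‖ → ‖w‖ ≤ P → b + r * w ∈ D → ∃ α β γ : ℂ, ‖α‖ ≤ ε ∧ ‖β‖ ≤ ε ∧ ‖γ‖ ≤ ε ∧
        fA Φ (b + r * w) = l.σ.1 + (r ^ l.al : ℝ) * (mA l w + α) ∧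
        fB Φ (b + r * w) = l.σ.1 + (r ^ l.al : ℝ) * (mB l w + β) ∧
        fY Φ (b + r * w) = l.σ.2.2 + r * (r ^ l.al : ℝ) * (mY l w + γ) := by
  obtain ⟨a0, a1⟩ := e2_al hT
  have P0 : 0 < P := by linarith
  obtain ⟨δ, δ0, hδ⟩ := hL (ε / P ^ 2) (by positivity)
  refine ⟨δ, δ0, fun r hr hrP w w1 w2 hD => ?_⟩
  have w0 : w ≠ 0 := norm_pos_iff.1 (by linarith)
  have e0 : b + r * w - b = r * w := by ring
  have n1 : ‖(r : ℂ) * w‖ = r * ‖w‖ := by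
    rw [norm_mul, norm_real, Real.norm_eq_abs, abs_of_pos hr]
  obtain ⟨-, hA, hB, hY⟩ := hδ _ hD (by
    rw [e0, n1]
    exact (mul_le_mul_of_nonneg_left w2 hr.le).trans_lt hrP)
  rw [e0, n1, Real.mul_rpow hr.le (norm_nonneg _)] at hA hB hY
  have s0 : 0 < r ^ l.al := Real.rpow_pos_of_pos hr _
  have p2 : ∀ x : ℝ, x ≤ 2 → ‖w‖ ^ x ≤ P ^ 2 := fun x hx => by
    calc ‖w‖ ^ x ≤ ‖w‖ ^ (2 : ℝ) := Real.rpow_le_rpow_of_exponent_le w1 hx
      _ = ‖w‖ ^ 2 := by norm_cast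
      _ ≤ P ^ 2 := by gcongr
  have k1 : ∀ x t : ℝ, x ≤ 2 → 0 < t → ε / P ^ 2 * (t * ‖w‖ ^ x) ≤ ε * t := fun x t hx ht => by
    calc ε / P ^ 2 * (t * ‖w‖ ^ x) ≤ ε / P ^ 2 * (t * P ^ 2) := by
          gcongr
          exact p2 x hx
      _ = ε * t := by field_simp
  have ra : r ^ (1 + l.al) = r * r ^ l.al := by rw [Real.rpow_add hr, Real.rpow_one]
  have ns : ‖((r ^ l.al : ℝ) : ℂ)‖ = r ^ l.al := by
    rw [norm_real, Real.norm_eq_abs, abs_of_pos s0]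
  have ns2 : ‖(r : ℂ) * ((r ^ l.al : ℝ) : ℂ)‖ = r ^ (1 + l.al) := by
    rw [norm_mul, ns, norm_real, Real.norm_eq_abs, abs_of_pos hr, ra]
  obtain ⟨α, hα, eα⟩ := e2_err ns s0 (hA.trans (k1 _ _ (by linarith) s0))
  obtain ⟨β, hβ, eβ⟩ := e2_err ns s0 (hB.trans (k1 _ _ (by linarith) s0))
  obtain ⟨γ, hγ, eγ⟩ := e2_err ns2 (Real.rpow_pos_of_pos hr _)
    (hY.trans (k1 _ _ (by linarith) (Real.rpow_pos_of_pos hr _)))
  refine ⟨α, β, γ, hα, hβ, hγ, ?_, ?_, ?_⟩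
  · rw [mA, pw_smul _ hr w0] at eα
    rw [mA]
    linear_combination eα
  · rw [mB, pw_smul _ hr w0, ← hT.1] at eβ
    rw [mB]
    linear_combination eβ
  · rw [mY, pw_smul _ hr w0, ← hT.1, ra, ofReal_mul] at eγ
    rw [mY]
    linear_combination eγ

theorem e2_cont (l : LD) : ContinuousOn (fun w => mY l w + mA l w) {w : ℂ | w.im < 0} := by
  intro w hw
  have hs : w ∈ Slit := (slit_iff w).2 (Or.inl hw)
  have c1 := (pw_deriv (1 + l.al) hs).continuousAt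
  have c2 := (pw_deriv l.al hs).continuousAt
  exact ((continuousAt_const.mul c1).add (continuousAt_const.mul c2)).continuousWithinAt

theorem e2_near {z w : ℂ} {P M t : ℝ} {j : ℂ} (hM : 1 ≤ M) (z1 : ‖z‖ + 3 ≤ P)
    (z2 : z.im < -(M + 2)) (j1 : ‖j‖ ≤ 2) (j2 : j.im = 0) (ht : t ≤ 1) (hw : ‖w - z - j‖ ≤ t) :
    1 ≤ ‖w‖ ∧ ‖w‖ ≤ P ∧ w.im ≤ -M := by
  have i1 := (le_abs_self _).trans (abs_im_le_norm (w - z - j))
  rw [sub_im, sub_im, j2] at i1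
  have i2 := (neg_le_abs _).trans (abs_im_le_norm w)
  refine ⟨by linarith, ?_, by linarith⟩
  have : w = (w - z - j) + z + j := by ring
  have n := (norm_add_le ((w - z - j) + z) j).trans
    (add_le_add_left (norm_add_le (w - z - j) z) _)
  rw [← this] at n
  linarith

theorem e2_four {a b c d : ℂ} {ε : ℝ} (ha : ‖a‖ ≤ ε) (hb : ‖b‖ ≤ ε) (hc : ‖c‖ ≤ ε)
    (hd : ‖d‖ ≤ ε) : ‖a - b - c + d‖ ≤ 4 * ε := by
  have h1 := norm_add_le (a - b - c) d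
  have h2 := norm_sub_le (a - b) c
  have h3 := norm_sub_le a b
  linarith

theorem st_E2 : St_E2 := by
  intro d h R κ S D Φ b M M' C l m F H hb hR hL hM hO hT hI ρ e he
  obtain ⟨r1, r10, hO⟩ := hO
  obtain ⟨a0, a1⟩ := e2_al hT
  obtain ⟨P, hP⟩ : ∃ P : ℝ, P = |ρ| + 3 := ⟨_, rfl⟩
  have P1 : 1 ≤ P := by linarith [abs_nonneg ρ]
  obtain ⟨c, hc⟩ : ∃ c : ℝ, c = ‖l.a1 - l.b1‖ := ⟨_, rfl⟩
  have c0 : 0 < c := hc ▸ norm_pos_iff.2 (sub_ne_zero.2 hT.2.1)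
  have Kc : IsCompact (closedBall (0 : ℂ) P ∩ {w : ℂ | w.im ≤ -M}) :=
    (isCompact_closedBall _ _).inter_right (isClosed_le continuous_im continuous_const)
  have uc := Kc.uniformContinuousOn_of_continuous
    ((e2_cont l).mono fun w hw => show w.im < 0 by linarith [show w.im ≤ -M from hw.2])
  obtain ⟨η, η0, hη⟩ := Metric.uniformContinuousOn_iff.1 uc (e * c / 8) (by positivity)
  obtain ⟨ε, ε0, ε1, ε2⟩ : ∃ ε : ℝ, 0 < ε ∧ 32 * ε ≤ c * η ∧ 32 * ε ≤ e * c :=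
    ⟨min (c * η / 32) (e * c / 32), lt_min (by positivity) (by positivity),
      by linarith [min_le_left (c * η / 32) (e * c / 32)],
      by linarith [min_le_right (c * η / 32) (e * c / 32)]⟩
  obtain ⟨δ, δ0, hδ⟩ := e2_sc hL hT P1 ε0
  have P0 : 0 < P := by linarith
  refine ⟨min r1 (min (min 1 h) δ / P), lt_min r10 (div_pos (lt_min (lt_min one_pos H.hp) δ0) P0),
    fun r hr hr0 z z1 z2 z3 => ?_⟩
  have hr1 : r < r1 := hr0.trans_le (min_le_left _ _)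
  have hr2 : r * P < min (min 1 h) δ := (lt_div_iff₀ P0).1 (hr0.trans_le (min_le_right _ _))
  have q1 : r * P ≤ 1 := hr2.le.trans ((min_le_left _ _).trans (min_le_left _ _))
  have q2 : r * P ≤ h := hr2.le.trans ((min_le_left _ _).trans (min_le_right _ _))
  have q3 : r * P < δ := hr2.trans_le (min_le_right _ _)
  have rc : (r : ℂ) ≠ 0 := ofReal_ne_zero.2 hr.ne'
  have zP : ‖z‖ + 3 ≤ P := by linarith [le_abs_self ρ]
  have nr : ∀ (w j : ℂ) (t : ℝ), ‖j‖ ≤ 2 → j.im = 0 → t ≤ 1 → ‖w - z - j‖ ≤ t →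
      1 ≤ ‖w‖ ∧ ‖w‖ ≤ P ∧ w.im ≤ -M := fun w j t j1 j2 ht hw => e2_near hM zP z2 j1 j2 ht hw
  have ad : ∀ w : ℂ, ‖w‖ ≤ P → w.im ≤ -M → Adk h R κ S (b + r * w) (M * r) ∧ b + r * w ∈ D :=
    fun w w1 w2 => e2_adm H hb hR hM hr q1 q2 w1 w2
  have st : ∀ w : ℂ, ‖w - z - 0‖ ≤ 1 / 2 ∨ ‖w - z - 1‖ ≤ 1 / 2 →
      Stp d Φ (1 / 4) (b + r * w) r (1 / 4 * r / 2) ∧
        Stp d.flip (flp Φ) (1 / 4) (b + r * w) r (1 / 4 * r / 2) := fun w hw => by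
    have e1 : b + r * w + r = b + r * (w + 1) := by ring
    rcases hw with hw | hw
    · obtain ⟨-, u1, u2⟩ := nr w 0 _ (by simp) (by simp) (by norm_num) hw
      obtain ⟨-, v1, v2⟩ := nr (w + 1) 1 (1 / 2) (by simp) (by simp) (by norm_num)
        (by rwa [show w + 1 - z - 1 = w - z - 0 by ring])
      exact hO r hr hr1 _ (ad w u1 u2).1 (e1 ▸ (ad _ v1 v2).1)
    · obtain ⟨-, u1, u2⟩ := nr w 1 _ (by simp) (by simp) (by norm_num) hw
      obtain ⟨-, v1, v2⟩ := nr (w + 1) 2 (1 / 2) (by simp) (by simp) (by norm_num)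
        (by rwa [show w + 1 - z - 2 = w - z - 1 by ring])
      exact hO r hr hr1 _ (ad w u1 u2).1 (e1 ▸ (ad _ v1 v2).1)
  have sc : ∀ (x : ℂ) (t : ℝ), ‖(r : ℂ) * x‖ ≤ t * r → ‖x‖ ≤ t := fun x t hx => by
    rw [norm_mul, norm_real, Real.norm_eq_abs, abs_of_pos hr, mul_comm] at hx
    exact le_of_mul_le_mul_right hx hr
  have s1 := (st z (Or.inl (by simp))).1
  obtain ⟨u, hu⟩ : ∃ u : ℂ, th d Φ (1 / 4) (b + r * z, r) = b + r * u :=
    ⟨(th d Φ (1 / 4) (b + r * z, r) - b) / r, by field_simp; ring⟩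
  have u8 : ‖u - z - 1‖ ≤ 1 / 8 := sc _ _ (by
    have := s1.est
    rw [hu, show b + r * u - (b + r * z) - r = r * (u - z - 1) by ring] at this
    linarith)
  have s2 := (st u (Or.inr (by linarith))).2
  obtain ⟨v, hv⟩ : ∃ v : ℂ, th d.flip (flp Φ) (1 / 4) (b + r * u, r) = b + r * v :=
    ⟨(th d.flip (flp Φ) (1 / 4) (b + r * u, r) - b) / r, by field_simp; ring⟩
  have v8 : ‖v - u - 1‖ ≤ 1 / 8 := sc _ _ (by
    have := s2.est
    rw [hv, show b + r * v - (b + r * u) - r = r * (v - u - 1) by ring] at this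
    linarith)
  have v4 : ‖v - z - 2‖ ≤ 1 / 2 := by
    have := norm_add_le (v - u - 1) (u - z - 1)
    rw [show v - u - 1 + (u - z - 1) = v - z - 2 by ring] at this
    linarith
  have R1 := s1.rel.1
  have R2 := ((rel_flip _ _ _ _ _).1 s2.rel).1
  rw [hu] at R1
  rw [hv] at R2
  obtain ⟨z4, z5, z6⟩ := nr z 0 0 (by simp) (by simp) (by norm_num) (by simp)
  obtain ⟨u4, u5, u6⟩ := nr u 1 _ (by simp) (by simp) (by norm_num) u8
  obtain ⟨v5, v6, v7⟩ := nr v 2 _ (by simp) (by simp) (by norm_num) v4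
  have zO : z ∈ Om M' := lt_max_of_lt_right (show M' < -z.im by linarith)
  obtain ⟨-, m5, m6⟩ := nr (m z) 1 _ (by simp) (by simp) (by norm_num) (hI.m1 z zO)
  obtain ⟨α1, β1, γ1, hα1, hβ1, hγ1, -, B1, Y1⟩ := hδ r hr q3 z z4 z5 (ad z z5 z6).2
  obtain ⟨α2, β2, γ2, hα2, hβ2, hγ2, A2, -, Y2⟩ := hδ r hr q3 u u4 u5 (ad u u5 u6).2
  obtain ⟨α3, β3, γ3, hα3, hβ3, hγ3, -, B3, Y3⟩ := hδ r hr q3 v v5 v6 (ad v v6 v7).2
  have s0 : ((r ^ l.al : ℝ) : ℂ) ≠ 0 := ofReal_ne_zero.2 (Real.rpow_pos_of_pos hr _).ne'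
  rw [Y2, Y1, A2, B1] at R1
  rw [Y2, Y3, A2, B3] at R2
  have E1 : mY l u - mA l u - (mY l z - mB l z) = α2 - β1 - γ2 + γ1 :=
    mul_left_cancel₀ (mul_ne_zero rc s0) (by linear_combination R1)
  have E2 : mY l v + mB l v - (mY l u + mA l u) = α2 - β3 - γ3 + γ2 :=
    mul_left_cancel₀ (mul_ne_zero rc s0) (by linear_combination -R2)
  have wz : c ≤ ‖mA l z - mB l z‖ := by
    rw [mA, mB, ← sub_mul, norm_mul, ← hc, pw_norm _ (norm_pos_iff.1 (by linarith))]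
    exact le_mul_of_one_le_right c0.le (Real.one_le_rpow z4 a0.le)
  have L1 := hI.l1 z zO u (by linarith)
  rw [E1] at L1
  have um : ‖u - m z‖ < η := by
    have h1 := e2_four hα2 hβ1 hγ2 hγ1
    have h2 : c * ‖u - m z‖ ≤ ‖mA l z - mB l z‖ * ‖u - m z‖ := by gcongr
    have h3 : c * ‖u - m z‖ < c * η := by nlinarith [mul_pos c0 η0]
    exact lt_of_mul_lt_mul_left h3 c0.le
  have G1 := hη u ⟨mem_closedBall_zero_iff.2 u5, u6⟩ (m z) ⟨mem_closedBall_zero_iff.2 m5, m6⟩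
    (by rwa [dist_eq_norm])
  rw [dist_eq_norm] at G1
  have L2 := hI.l2 z zO v v4
  have vF : ‖v - F z‖ ≤ e := by
    have h1 := e2_four hα2 hβ3 hγ3 hγ2
    rw [← E2] at h1
    have h2 : c * ‖v - F z‖ ≤ ‖mA l z - mB l z‖ * ‖v - F z‖ := by gcongr
    have h4 := norm_add_le (mY l v + mB l v - (mY l u + mA l u))
      (mY l u + mA l u - (mY l (m z) + mA l (m z)))
    rw [sub_add_sub_cancel] at h4
    have h3 : c * ‖v - F z‖ ≤ c * e := by linarith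
    exact le_of_mul_le_mul_left h3 c0
  rw [dbl, hu, hv, show b + r * v - (b + r * F z) = r * (v - F z) by ring, norm_mul, norm_real,
    Real.norm_eq_abs, abs_of_pos hr, mul_comm]
  exact mul_le_mul_of_nonneg_right vF hr.le

end Pool.Agent.AO.X
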