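import Pool.Agent.Lib.AX.Blue
import Pool.Agent.Lib.AO.B_FAR
import Pool.Agent.Lib.AO.B_CPX

set_option autoImplicit false

noncomputable section

namespace Pool.Agent.AO.X

open Set Metric Filter Topology

namespace FARX

open AO.FAR

variable {d : Dat} {D : Set ℂ} {Φ : ℂ → S3}

/-- The conclusion of the row. -/
def Fa (d : Dat) (Φ : ℂ → S3) (a C : ℝ) (z : ℂ) (e : ℝ) : Prop :=
  ∃ g : ℂ × ℂ → ℂ, DifferentiableOn ℂ g (ball z (e / C) ×ˢ ball 0 (e / C)) ∧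
    ∀ τ ∈ ball z (e / C), ∀ r ∈ ball (0 : ℂ) (e / C), Rel d Φ τ (g (τ, r)) r ∧
      (∀ μ ∈ ball z (3 * (e / C)), Rel d Φ τ μ r → μ = g (τ, r)) ∧
      ‖g (τ, r) - τ - r‖ ≤ C * ‖r‖ ^ 2 / e ∧
      ‖g (τ, r) - g (τ, -r) - 2 * r‖ ≤ C * ‖r‖ ^ 3 * e ^ (a - 2)

theorem Fa.mono {z : ℂ} {a a' C e C' e' : ℝ} (h : Fa d Φ a C z e) (hC : 0 < C) (h1 : C ≤ C')
    (he : 0 < e') (h2 : e' ≤ e) (h3 : e ^ (a - 2) ≤ e' ^ (a' - 2)) : Fa d Φ a' C' z e' := by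
  obtain ⟨g, hg, H⟩ := h
  have h4 : e' / C' ≤ e / C := by gcongr; linarith
  have hC' : 0 ≤ C' := by linarith
  refine ⟨g, hg.mono (prod_mono (ball_subset_ball h4) (ball_subset_ball h4)), fun τ hτ r hr => ?_⟩
  obtain ⟨a, b, c, f⟩ := H τ (ball_subset_ball h4 hτ) r (ball_subset_ball h4 hr)
  refine ⟨a, fun μ hμ => b μ (ball_subset_ball (by linarith) hμ), c.trans ?_, f.trans ?_⟩
  · gcongr
  · exact mul_le_mul (mul_le_mul_of_nonneg_right h1 (by positivity)) h3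
      (Real.rpow_nonneg (by linarith) _) (by positivity)

theorem ofF {z : ℂ} {a C e : ℝ} (h : F d Φ C z e) (h3 : (e ^ 2)⁻¹ = e ^ (a - 2)) :
    Fa d Φ a C z e := by
  obtain ⟨g, hg, H⟩ := h
  refine ⟨g, hg, fun τ hτ r hr => ?_⟩
  obtain ⟨a, b, c, f⟩ := H τ hτ r hr
  exact ⟨a, b, c, f.trans_eq (by rw [div_eq_mul_inv, h3])⟩

theorem neF (hs : Sol d D Φ) (hd : ∀ τ ∈ D, fA Φ τ = fB Φ τ → d.py (fA Φ τ, fY Φ τ) ≠ 0)
    {z a0 b0 : ℂ} {k e : ℝ} (k0 : 0 < k) (k1 : k ≤ 1) (he : 0 < e) (hD : ball z (k * e) ⊆ D)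
    (hw : a0 ≠ b0) (hA : ∀ τ ∈ ball z (k * e), ‖fA Φ τ - a0‖ ≤ ‖a0 - b0‖ / 16)
    (hB : ∀ τ ∈ ball z (k * e), ‖fB Φ τ - b0‖ ≤ ‖a0 - b0‖ / 16) :
    F d Φ (2400 / k ^ 2) z e := by
  have hκe : 0 < k * e := mul_pos k0 he
  refine (G_ne AO.st_INT hs hκe hD hw hA hB).toF AO.st_SCH hs hd (by positivity) ?_ ?_ (le_of_eq ?_)
  · have : 3 * (e / (2400 / k ^ 2)) = k * (k * e) / 800 := by field_simp; norm_num
    rw [this]; nlinarith
  · have e1 : (k * e + 2 * (k * e / 10)) / (k * e / 10) ^ 2 = 120 * k / k ^ 2 / e := by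
      field_simp; norm_num
    rw [e1]; gcongr; linarith
  · field_simp; norm_num

/-- Small oscillation of the two ends improves the cubic term. -/
theorem sharp (hs : Sol d D Φ) (hd : ∀ τ ∈ D, fA Φ τ = fB Φ τ → d.py (fA Φ τ, fY Φ τ) ≠ 0)
    {z a0 b0 : ℂ} {a C C' e η : ℝ} (h : F d Φ C z e) (hC : 0 < C) (he : 0 < e) (hη : 0 < η)
    (hD : ball z (3 * (e / C)) ⊆ D) (hw : a0 ≠ b0)
    (hA : ∀ τ ∈ ball z (3 * (e / C)), ‖fA Φ τ - a0‖ ≤ η)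
    (hB : ∀ τ ∈ ball z (3 * (e / C)), ‖fB Φ τ - b0‖ ≤ η) (h1 : C ≤ C')
    (h2 : 36 * η / (‖a0 - b0‖ * (e / C) ^ 2) ≤ C' * e ^ (a - 2)) : Fa d Φ a C' z e := by
  obtain ⟨g, hg, H⟩ := h
  have hw0 : 0 < ‖a0 - b0‖ := norm_pos_iff.2 (sub_ne_zero.2 hw)
  have h4 : e / C' ≤ e / C := by gcongr
  obtain ⟨s, hs0⟩ : ∃ s, s = e / C := ⟨_, rfl⟩
  have s0 : 0 < s := hs0 ▸ div_pos he hC
  have se : C * s = e := by rw [hs0]; field_simp
  refine ⟨g, hg.mono (prod_mono (ball_subset_ball h4) (ball_subset_ball h4)), fun τ hτ r hr => ?_⟩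
  have hτ' := ball_subset_ball h4 hτ
  have hr' := ball_subset_ball h4 hr
  obtain ⟨x1, x2, x3, -⟩ := H τ hτ' r hr'
  refine ⟨x1, fun μ hμ => x2 μ (ball_subset_ball (by linarith) hμ), x3.trans (by gcongr), ?_⟩
  rw [← hs0] at hg H hD hA hB h2 hτ' hr'
  have t3 : τ ∈ ball z (3 * s) := ball_subset_ball (by linarith) hτ'
  have key : ∀ u ∈ ball (0 : ℂ) s, ‖a0 - b0‖ * ‖g (τ, u) - τ - u‖ ≤ 6 * η * s := fun u hu => by
    obtain ⟨y1, -, y3, -⟩ := H τ hτ' u hu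
    have u1 := mem_ball_zero_iff.1 hu
    have y4 : C * ‖u‖ ^ 2 / e ≤ ‖u‖ := by
      rw [div_le_iff₀ he, ← se]
      nlinarith [mul_le_mul_of_nonneg_left u1.le (mul_nonneg hC.le (norm_nonneg u))]
    have y5 : ‖g (τ, u) - τ‖ ≤ 2 * ‖u‖ := by
      have := norm_add_le (g (τ, u) - τ - u) u
      rw [sub_add_cancel] at this
      linarith
    have y6 : g (τ, u) ∈ ball z (3 * s) := by
      have := norm_sub_le_norm_sub_add_norm_sub (g (τ, u)) τ z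
      rw [mem_ball_iff_norm] at hτ' ⊢
      linarith
    have ab : ∀ μ ∈ ball z (3 * s), ∀ t ∈ ball z (3 * s),
        ‖fA Φ μ - fB Φ t - (a0 - b0)‖ ≤ 2 * η := fun μ hμ t ht => by
      rw [show fA Φ μ - fB Φ t - (a0 - b0) = (fA Φ μ - a0) - (fB Φ t - b0) by ring]
      exact (norm_sub_le _ _).trans (by linarith [hA μ hμ, hB t ht])
    have y7 : ‖fY Φ (g (τ, u)) - (a0 - b0) * g (τ, u) - (fY Φ τ - (a0 - b0) * τ)‖ ≤
        2 * η * ‖g (τ, u) - τ‖ :=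
      (convex_ball z (3 * s)).norm_image_sub_le_of_norm_hasDerivWithin_le
        (f := fun x => fY Φ x - (a0 - b0) * x) (f' := fun x => fA Φ x - fB Φ x - (a0 - b0) * 1)
        (fun x hx => ((hs.dY x (hD hx)).sub ((hasDerivAt_id x).const_mul _)).hasDerivWithinAt)
        (fun x hx => by rw [mul_one]; exact ab x hx x hx) t3 y6
    have y8 := mul_le_mul_of_nonneg_left (ab _ y6 τ t3) (norm_nonneg u)
    have e1 : (a0 - b0) * (g (τ, u) - τ - u) = u * (fA Φ (g (τ, u)) - fB Φ τ - (a0 - b0)) -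
        (fY Φ (g (τ, u)) - (a0 - b0) * g (τ, u) - (fY Φ τ - (a0 - b0) * τ)) := by
      linear_combination y1.1
    rw [← norm_mul, e1]
    refine (norm_sub_le _ _).trans ?_
    rw [norm_mul]
    nlinarith [mul_le_mul_of_nonneg_left y5 hη.le, mul_le_mul_of_nonneg_left u1.le hη.le]
  have hg0 : g (τ, 0) = τ := by
    have := (H τ hτ' 0 (mem_ball_self s0)).2.2.1
    simpa [sub_eq_zero] using this
  have hφ : DifferentiableOn ℂ (fun r => g (τ, r)) (ball 0 s) :=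
    hg.comp (by fun_prop) fun r hr => ⟨hτ', hr⟩
  have hb : ball (0 : ℂ) s ∈ 𝓝 (0 : ℂ) := ball_mem_nhds _ s0
  have hder := der_one hs (hD t3) (hd τ (hD t3)) hg0 (hφ.differentiableAt hb)
    (mem_of_superset hb fun r hr => (H τ hτ' r hr).1)
  obtain ⟨l, hl⟩ : ∃ l : ℝ, l = ‖a0 - b0‖ / (6 * η) := ⟨_, rfl⟩
  have l0 : 0 < l := by rw [hl]; positivity
  have ln : ‖(l : ℂ)‖ = l := by rw [Complex.norm_real, Real.norm_of_nonneg l0.le]
  obtain ⟨-, b⟩ := AO.st_SCH (fun u => u + l * (g (τ, u) - τ - u)) s (2 * s)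
    (differentiableOn_id.add (((hφ.sub_const τ).sub differentiableOn_id).const_mul _))
    (fun u hu => by
      have u1 := mem_ball_zero_iff.1 hu
      have u2 : l * ‖g (τ, u) - τ - u‖ ≤ s := by
        rw [hl, div_mul_eq_mul_div, div_le_iff₀ (by positivity)]
        linarith [key u hu]
      have u3 := norm_add_le u (l * (g (τ, u) - τ - u))
      rw [norm_mul, ln] at u3
      rw [hg0, sub_self, sub_self, mul_zero, add_zero, sub_zero]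
      linarith)
    (((hasDerivAt_id (0 : ℂ)).add
      (((hder.sub_const τ).sub (hasDerivAt_id (0 : ℂ))).const_mul (l : ℂ))).congr_deriv (by ring))
    r hr'
  rw [show r + l * (g (τ, r) - τ - r) - (-r + l * (g (τ, -r) - τ - -r)) - 2 * r =
    l * (g (τ, r) - g (τ, -r) - 2 * r) by ring, norm_mul, ln, ← le_div_iff₀' l0] at b
  refine b.trans ?_
  have e2 : 2 * (2 * s + s) * (‖r‖ / s) ^ 3 / l = 36 * η / (‖a0 - b0‖ * s ^ 2) * ‖r‖ ^ 3 := by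
    rw [hl]
    field_simp
    ring
  rw [e2, mul_right_comm]
  exact mul_le_mul_of_nonneg_right h2 (by positivity)

theorem near {z b τ : ℂ} {k : ℝ} (k1 : k ≤ 1 / 2) (hτ : τ ∈ ball z (k * ‖z - b‖)) :
    ‖τ - b‖ ≤ 2 * ‖z - b‖ ∧ ‖z - b‖ / 2 ≤ ‖τ - b‖ := by
  have h1 := mem_ball_iff_norm.1 hτ
  have h2 := norm_sub_le_norm_sub_add_norm_sub τ z b
  have h3 := norm_sub_le_norm_sub_add_norm_sub z τ b
  rw [norm_sub_rev z τ] at h3
  have h4 := mul_le_mul_of_nonneg_right k1 (norm_nonneg (z - b))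
  constructor <;> linarith [norm_nonneg (z - b)]

theorem pow2 {x e a : ℝ} (x0 : 0 ≤ x) (h : x ≤ 2 * e) (a0 : 0 ≤ a) (a1 : a ≤ 1) :
    x ^ a ≤ 2 * e ^ a := by
  have e0 : 0 ≤ e := by linarith
  refine (Real.rpow_le_rpow x0 h a0).trans ?_
  rw [Real.mul_rpow two_pos.le e0]
  refine mul_le_mul_of_nonneg_right ?_ (Real.rpow_nonneg e0 a)
  simpa using Real.rpow_le_rpow_of_exponent_le (one_le_two : (1 : ℝ) ≤ 2) a1

/-- What is needed near one singular time. -/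
def Nr (d : Dat) (D : Set ℂ) (Φ : ℂ → S3) (a κ : ℝ) (b : ℂ) (δ C : ℝ) : Prop :=
  ∀ z : ℂ, 0 < ‖z - b‖ → ‖z - b‖ < δ → ‖z - b‖ ≤ 1 → ball z (κ * ‖z - b‖) ⊆ D →
    Fa d Φ a C z ‖z - b‖

theorem one (hs : Sol d D Φ) (hd : ∀ τ ∈ D, fA Φ τ = fB Φ τ → d.py (fA Φ τ, fY Φ τ) ≠ 0)
    {a κ : ℝ} {b : ℂ} {l : LD} (k0 : 0 < κ) (k1 : κ ≤ 1) (hT : T1 l) (ha : a ≤ l.al)
    (hL : LX D Φ b l) : ∃ δ C : ℝ, 0 < δ ∧ 0 < C ∧ Nr d D Φ a κ b δ C := by
  obtain ⟨hw, l0, l1, -⟩ := hT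
  have hw0 : 0 < ‖l.σ.1 - l.σ.2.1‖ := norm_pos_iff.2 (sub_ne_zero.2 hw)
  obtain ⟨δ, δ0, hX⟩ := hL 1 one_pos
  obtain ⟨c, hc⟩ : ∃ c, c = 2 * (‖l.a1‖ + ‖l.b1‖ + 1) := ⟨_, rfl⟩
  have c0 : 0 < c := by rw [hc]; positivity
  have ev : ∀ᶠ x : ℝ in 𝓝 0, c * x ^ l.al < ‖l.σ.1 - l.σ.2.1‖ / 16 :=
    (continuousAt_const.mul (Real.continuousAt_rpow_const 0 l.al (Or.inr l0.le))).eventually_lt
      continuousAt_const (by simpa [Real.zero_rpow l0.ne'] using hw0)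
  obtain ⟨δ1, δ10, h1⟩ := Metric.eventually_nhds_iff.1 ev
  obtain ⟨k, hk⟩ : ∃ k, k = κ / 2 := ⟨_, rfl⟩
  have kp : 0 < k := by linarith
  obtain ⟨C, hC⟩ : ∃ C, C = 2400 / k ^ 2 := ⟨_, rfl⟩
  have C0 : 0 < C := by rw [hC]; positivity
  refine ⟨min δ1 (δ / 2), max C (36 * c * C ^ 2 / ‖l.σ.1 - l.σ.2.1‖), by positivity,
    lt_max_of_lt_left C0, fun z e0 e1 e2 hD => ?_⟩
  obtain ⟨e3, e4⟩ := lt_min_iff.1 e1
  have hD' : ball z (k * ‖z - b‖) ⊆ D := (ball_subset_ball (by nlinarith)).trans hD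
  have bd : ∀ τ ∈ ball z (k * ‖z - b‖), ‖fA Φ τ - l.σ.1‖ ≤ c * ‖z - b‖ ^ l.al ∧
      ‖fB Φ τ - l.σ.2.1‖ ≤ c * ‖z - b‖ ^ l.al := fun τ hτ => by
    obtain ⟨n1, -⟩ := near (by linarith) hτ
    obtain ⟨x0, x1, x2, -⟩ := hX τ (hD' hτ) (by linarith)
    have p := pow2 (norm_nonneg _) n1 l0.le (by linarith)
    have p0 := Real.rpow_nonneg (norm_nonneg (z - b)) l.al
    have y1 := norm_add_le (fA Φ τ - l.σ.1 - mA l (τ - b)) (mA l (τ - b))
    have y2 := norm_add_le (fB Φ τ - l.σ.2.1 - mB l (τ - b)) (mB l (τ - b))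
    rw [sub_add_cancel] at y1 y2
    have y3 : ‖mA l (τ - b)‖ = ‖l.a1‖ * ‖τ - b‖ ^ l.al := by
      rw [mA, norm_mul, pw_norm _ (slit_ne x0)]
    have y4 : ‖mB l (τ - b)‖ = ‖l.b1‖ * ‖τ - b‖ ^ l.al := by
      rw [mB, norm_mul, pw_norm _ (slit_ne x0)]
    have y5 := mul_le_mul_of_nonneg_left p (norm_nonneg l.a1)
    have y6 := mul_le_mul_of_nonneg_left p (norm_nonneg l.b1)
    have y7 := mul_nonneg (norm_nonneg l.a1) p0
    have y8 := mul_nonneg (norm_nonneg l.b1) p0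
    rw [hc]
    constructor <;> linarith
  have sm := h1 (y := ‖z - b‖) (by rwa [dist_zero_right, norm_norm])
  have hF := neF hs hd kp (by linarith) e0 hD' hw (fun τ hτ => (bd τ hτ).1.trans sm.le)
    fun τ hτ => (bd τ hτ).2.trans sm.le
  rw [← hC] at hF
  have sub : ball z (3 * (‖z - b‖ / C)) ⊆ ball z (k * ‖z - b‖) := ball_subset_ball (by
    have : 3 * (‖z - b‖ / C) = k * (k * ‖z - b‖) / 800 := by rw [hC]; field_simp; norm_num
    rw [this]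
    nlinarith [mul_pos kp e0])
  refine (sharp (a := l.al) hs hd hF C0 e0 (by positivity) (sub.trans hD') hw
    (fun τ hτ => (bd τ (sub hτ)).1) (fun τ hτ => (bd τ (sub hτ)).2) (le_max_left _ _) ?_).mono
    (lt_max_of_lt_left C0) le_rfl e0 le_rfl
    (Real.rpow_le_rpow_of_exponent_ge e0 e2 (by linarith))
  refine le_trans (le_of_eq ?_)
    (mul_le_mul_of_nonneg_right (le_max_right _ _) (Real.rpow_nonneg e0.le _))
  rw [Real.rpow_sub e0, Real.rpow_two]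
  field_simp

theorem two (hs : Sol d D Φ) (hd : ∀ τ ∈ D, fA Φ τ = fB Φ τ → d.py (fA Φ τ, fY Φ τ) ≠ 0)
    {κ : ℝ} {b : ℂ} {l : LD} (k0 : 0 < κ) (hT : T2 l)
    (hL : LX D Φ b l) : ∃ δ C : ℝ, 0 < δ ∧ 0 < C ∧ Nr d D Φ 0 κ b δ C := by
  obtain ⟨hσ, hw, n, n3, hn, -⟩ := hT
  have n4 : (3 : ℝ) ≤ n := by exact_mod_cast n3
  have l0 : 0 < l.al := by rw [hn]; exact div_pos one_pos (by linarith)
  have l1 : l.al ≤ 1 / 2 := by rw [hn]; exact one_div_le_one_div_of_le two_pos (by linarith)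
  have hw0 : 0 < ‖l.a1 - l.b1‖ := norm_pos_iff.2 (sub_ne_zero.2 hw)
  obtain ⟨δ, δ0, hX⟩ := hL (‖l.a1 - l.b1‖ / 64) (by positivity)
  obtain ⟨c, hc⟩ : ∃ c, c = ‖l.a1‖ + ‖l.b1‖ + 1 := ⟨_, rfl⟩
  have c0 : 0 < c := by rw [hc]; positivity
  obtain ⟨k, kp, k1, k2, k3⟩ : ∃ k : ℝ, 0 < k ∧ k ≤ κ ∧ k ≤ 1 / 2 ∧
      64 * c * k ≤ ‖l.a1 - l.b1‖ :=
    ⟨min κ (min (1 / 2) (‖l.a1 - l.b1‖ / (64 * c))), by positivity, min_le_left _ _,
      (min_le_right _ _).trans (min_le_left _ _), (le_div_iff₀' (by positivity)).1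
        ((min_le_right _ _).trans (min_le_right _ _))⟩
  refine ⟨δ / 2, 2400 / k ^ 2, by positivity, by positivity, fun z e0 e1 _ hD => ?_⟩
  have hD' : ball z (k * ‖z - b‖) ⊆ D := (ball_subset_ball (by nlinarith)).trans hD
  have zb : z ∈ ball z (k * ‖z - b‖) := mem_ball_self (by positivity)
  have X := fun τ (hτ : τ ∈ ball z (k * ‖z - b‖)) =>
    hX τ (hD' hτ) (by linarith [(near k2 hτ).1])
  have p0 := Real.rpow_pos_of_pos e0 l.al
  have P := fun τ (hτ : τ ∈ ball z (k * ‖z - b‖)) =>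
    pow2 (norm_nonneg _) (near k2 hτ).1 l0.le (by linarith)
  have osc : ∀ τ ∈ ball z (k * ‖z - b‖),
      ‖pw l.al (τ - b) - pw l.al (z - b)‖ ≤ 2 * k * ‖z - b‖ ^ l.al := fun τ hτ => by
    have h1 := (convex_ball z (k * ‖z - b‖)).norm_image_sub_le_of_norm_hasDerivWithin_le
      (f := fun x => pw l.al (x - b)) (f' := fun x => l.al * pw l.al (x - b) / (x - b))
      (C := 2 * ‖z - b‖ ^ l.al / ‖z - b‖)
      (fun x hx => ((pw_deriv l.al (X x hx).1).comp_sub_const x b).hasDerivWithinAt)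
      (fun x hx => by
        have h2 := (near k2 hx).2
        rw [norm_div, norm_mul, pw_norm _ (slit_ne (X x hx).1), Complex.norm_real,
          Real.norm_of_nonneg l0.le, div_le_div_iff₀ (by linarith) e0]
        have h3 := mul_le_mul l1 (P x hx) (Real.rpow_nonneg (norm_nonneg _) _) (by norm_num)
        nlinarith [mul_le_mul_of_nonneg_right h3 e0.le, mul_le_mul_of_nonneg_left h2 p0.le])
      zb hτ
    refine h1.trans ((mul_le_mul_of_nonneg_left (mem_ball_iff_norm.1 hτ).le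
      (by positivity)).trans_eq ?_)
    field_simp
  have e3 : l.σ.1 + mA l (z - b) - (l.σ.2.1 + mB l (z - b)) =
      (l.a1 - l.b1) * pw l.al (z - b) := by
    rw [hσ, mA, mB]
    ring
  have e4 : ‖l.σ.1 + mA l (z - b) - (l.σ.2.1 + mB l (z - b))‖ =
      ‖l.a1 - l.b1‖ * ‖z - b‖ ^ l.al := by
    rw [e3, norm_mul, pw_norm _ (norm_pos_iff.1 e0)]
  have fin : ∀ (u s t : ℂ) (τ : ℂ), τ ∈ ball z (k * ‖z - b‖) → ‖t‖ ≤ c →
      ‖u - s - t * pw l.al (τ - b)‖ ≤ ‖l.a1 - l.b1‖ / 64 * ‖τ - b‖ ^ l.al →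
      ‖u - (s + t * pw l.al (z - b))‖ ≤ ‖l.a1 - l.b1‖ * ‖z - b‖ ^ l.al / 16 := by
    intro u s t τ hτ ht hu
    rw [show u - (s + t * pw l.al (z - b)) = (u - s - t * pw l.al (τ - b)) +
      t * (pw l.al (τ - b) - pw l.al (z - b)) by ring]
    refine (norm_add_le _ _).trans ?_
    rw [norm_mul]
    have h1 := mul_le_mul ht (osc τ hτ) (norm_nonneg _) c0.le
    have h2 := mul_le_mul_of_nonneg_left (P τ hτ) hw0.le
    have h3 := mul_le_mul_of_nonneg_right k3 p0.le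
    linarith
  refine ofF (neF (a0 := l.σ.1 + mA l (z - b)) (b0 := l.σ.2.1 + mB l (z - b)) hs hd kp
    (by linarith) e0 hD' (sub_ne_zero.1 (norm_pos_iff.1 (by rw [e4]; positivity)))
    (fun τ hτ => ?_) fun τ hτ => ?_) ?_
  · rw [e4]
    exact fin _ _ _ τ hτ (by linarith [norm_nonneg l.b1]) (X τ hτ).2.1
  · rw [e4]
    exact fin _ _ _ τ hτ (by linarith [norm_nonneg l.a1]) (X τ hτ).2.2.1
  · rw [zero_sub, Real.rpow_neg e0.le, Real.rpow_two]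

end FARX

open AO.FAR FARX in
theorem st_FAR : St_FAR := by
  classical
  intro d h R κ a S D Φ hs a0 a2 hS
  have hd : ∀ τ ∈ D, fA Φ τ = fB Φ τ → d.py (fA Φ τ, fY Φ τ) ≠ 0 :=
    fun τ hτ e => (hs.diag τ hτ e).2
  have hκ := hs.kp
  have hκ1 := hs.k1
  have hev : ∀ᶠ C : ℝ in atTop, ∀ b ∈ S, Nr d D Φ a κ b (1 / C) C := by
    refine (S.eventually_all).2 fun b hb => ?_
    obtain ⟨l, hl, hL⟩ := hS b hb
    obtain ⟨δ, C, δ0, C0, H⟩ : ∃ δ C : ℝ, 0 < δ ∧ 0 < C ∧ Nr d D Φ a κ b δ C := by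
      rcases hl with ⟨h1, h2⟩ | ⟨h1, rfl⟩
      · exact one hs.sol hd hκ hκ1 h1 h2 hL
      · exact two hs.sol hd hκ h1 hL
    filter_upwards [eventually_ge_atTop C, eventually_ge_atTop (1 / δ)] with x x1 x2 z e0 e1 e2 hD
    exact (H z e0 (e1.trans_le ((one_div_le (by linarith) δ0).2 x2)) e2 hD).mono C0 x1 e0 le_rfl
      le_rfl
  obtain ⟨C', hX, C1⟩ := (hev.and (eventually_ge_atTop 1)).exists
  obtain ⟨δ, hδ'⟩ : ∃ δ, δ = 1 / C' := ⟨_, rfl⟩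
  have hδ : 0 < δ := by rw [hδ']; positivity
  have hδ1 : δ ≤ 1 := by rw [hδ']; exact div_le_one_of_le₀ C1 (by linarith)
  rw [← hδ'] at hX
  let Q : Set ℂ := closedBall 0 R ∩ ({z | -h / 2 ≤ z.im} ∩ {z | z.im ≤ h + κ} ∩
    ⋂ b ∈ S, ({z | δ ≤ ‖z - b‖} ∩ {z | z.im ≤ h + κ * ‖z - b‖}))
  have hQ : IsCompact Q := (isCompact_closedBall 0 R).inter_right
    (((isClosed_le (by fun_prop) (by fun_prop)).inter
      (isClosed_le (by fun_prop) (by fun_prop))).inter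
      (isClosed_biInter fun b _ => (isClosed_le (by fun_prop) (by fun_prop)).inter
        (isClosed_le (by fun_prop) (by fun_prop))))
  have hQD : Q ⊆ D := by
    rintro z ⟨h1, ⟨h2, h3⟩, h4⟩
    simp only [mem_iInter, mem_inter_iff, mem_ofPred_eq] at h2 h3 h4
    obtain ⟨e, he, hmin⟩ := Finset.exists_min_image (insert 1 (S.image fun b => ‖z - b‖)) id
      (Finset.insert_nonempty _ _)
    have h5 : 0 < e ∧ z.im ≤ h + κ * e := by
      rcases Finset.mem_insert.1 he with rfl | he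
      · exact ⟨one_pos, by linarith⟩
      · obtain ⟨b, hb, rfl⟩ := Finset.mem_image.1 he
        exact ⟨hδ.trans_le (h4 b hb).1, (h4 b hb).2⟩
    exact hs.adm z e ⟨by simpa using h1, h2, h5.2, h5.1, hmin 1 (Finset.mem_insert_self _ _),
      fun b hb => hmin _ (Finset.mem_insert_of_mem (Finset.mem_image_of_mem _ hb))⟩
      (mem_ball_self (mul_pos hκ h5.1))
  obtain ⟨C, hC, HC⟩ := F_cpt AO.st_INT AO.st_SOLVE0 AO.st_SCH hs.sol hd hQ hQD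
  refine ⟨max C C', le_max_of_le_left hC, fun z e ha => ?_⟩
  obtain ⟨a1, a3, a4, a5, a6, a7⟩ := id ha
  by_cases hn : ∀ b ∈ S, δ ≤ ‖z - b‖
  · refine (ofF (a := a) (HC z ⟨by simpa using a1, ⟨a3, ?_⟩, ?_⟩) (by simp)).mono (by linarith)
      (le_max_left _ _) a5 a6 (Real.rpow_le_rpow_of_nonpos a5 a6 (by linarith))
    · show z.im ≤ h + κ
      nlinarith
    · simp only [mem_iInter, mem_inter_iff, mem_ofPred_eq]
      exact fun b hb => ⟨hn b hb, by nlinarith [a7 b hb]⟩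
  push Not at hn
  obtain ⟨b1, hb1, hzb⟩ := hn
  obtain ⟨b, hb, hmin⟩ := S.exists_min_image (fun b => ‖z - b‖) ⟨b1, hb1⟩
  have b2 := a7 b hb
  have b3 := hmin b1 hb1
  exact (hX b hb z (by linarith) (by linarith) (by linarith)
    (hs.adm z _ ⟨a1, a3, by nlinarith, by linarith, by linarith, hmin⟩)).mono (by linarith)
    (le_max_right _ _) a5 b2 (Real.rpow_le_rpow_of_nonpos a5 b2 (by linarith))

end Pool.Agent.AO.X
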