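import Pool.Agent.Lib.AX.Blue
import Pool.Agent.Lib.AO.Out
import Pool.Agent.Lib.AO.Alg66
import Pool.Agent.Lib.AO.B_ALG
import Pool.Agent.Lib.AO.B_GB

set_option autoImplicit false

noncomputable section

namespace Pool.Agent.AO.X

open Set Metric Filter Topology MvPolynomial Pool.Agent.Lib.AO

theorem gen_comm (g : MvPolynomial (Fin 2) ℝ) :
    pderiv 1 (pderiv 0 g) = pderiv 0 (pderiv 1 g) := by
  induction g using MvPolynomial.induction_on with
  | C a => simp
  | add p q hp hq => simp only [map_add, hp, hq]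
  | mul_X p i hp =>
    simp only [pderiv_mul, map_add, hp]
    fin_cases i <;> simp

theorem gen_hom {φ : MvPolynomial (Fin 2) ℝ} {k : ℕ} (h : φ.IsHomogeneous k) (x : ℂ)
    (w : Fin 2 → ℂ) : aeval (x • w) φ = x ^ k * aeval w φ := by
  have := Alg66.hom_eval (h.map (algebraMap ℝ ℂ)) x w
  simpa only [eval_map, ← aeval_def] using this

theorem gen_growth (P : MvPolynomial (Fin 2) ℝ) (u n : ℝ × ℝ)
    (h : eval ![u.1, u.2] (homogeneousComponent P.totalDegree P) ≠ 0) :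
    ∃ C : ℝ, 0 ≤ C ∧ ∀ x y : ℂ, ev P (u.1 * x + n.1 * y) (u.2 * x + n.2 * y) = 0 →
      ‖x‖ ≤ C * (1 + ‖y‖) := by
  set N := P.totalDegree with hN
  set c : ℕ → ℂ → ℂ := fun k v =>
    ev (homogeneousComponent k P) (u.1 + n.1 * v) (u.2 + n.2 * v) with hc
  have cc : ∀ k, Continuous (c k) := fun k => continuous_iff_continuousAt.2 fun v =>
    (Alg66.chain (homogeneousComponent k P)
      (((hasDerivAt_id' v).const_mul (n.1 : ℂ)).const_add (u.1 : ℂ))
      (((hasDerivAt_id' v).const_mul (n.2 : ℂ)).const_add (u.2 : ℂ))).continuousAt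
  have ex : ∀ x y : ℂ, x ≠ 0 → ev P (u.1 * x + n.1 * y) (u.2 * x + n.2 * y) =
      ∑ k ∈ Finset.range (N + 1), x ^ k * c k (y / x) := by
    intro x y hx
    have e : (![u.1 * x + n.1 * y, u.2 * x + n.2 * y] : Fin 2 → ℂ) =
        x • ![u.1 + n.1 * (y / x), u.2 + n.2 * (y / x)] := by
      ext i
      fin_cases i <;> simp <;> field_simp
    unfold ev
    rw [e]
    conv_lhs => rw [← sum_homogeneousComponent P]
    rw [map_sum]
    exact Finset.sum_congr rfl fun k _ => gen_hom (homogeneousComponent_isHomogeneous _ _) _ _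
  have c0 : c N 0 ≠ 0 := by
    simp only [hc, mul_zero, add_zero, out_ev_real]
    exact_mod_cast h
  obtain ⟨ε, ε0, h⟩ := Alg66.near_ne (Finset.self_mem_range_succ N) (e := fun k => N - k)
    (fun k hk hne => by have := Finset.mem_range.1 hk; omega) (by simp) cc c0
  refine ⟨2 / ε, by positivity, fun x y hp => ?_⟩
  by_contra hlt
  rw [not_le, div_mul_eq_mul_div, div_lt_iff₀ ε0] at hlt
  have ny := norm_nonneg y
  have nx : 0 < ‖x‖ := by nlinarith [norm_nonneg x]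
  have hx : x ≠ 0 := norm_pos_iff.1 nx
  refine h x⁻¹ (y / x) ?_ ?_ ?_
  · rw [norm_inv, inv_lt_iff_one_lt_mul₀ nx]; linarith
  · rw [norm_div, div_lt_iff₀ nx]; linarith
  · refine mul_left_cancel₀ (pow_ne_zero N hx) ?_
    rw [mul_zero, ← hp, ex x y hx, Finset.mul_sum]
    refine Finset.sum_congr rfl fun k hk => ?_
    rw [← mul_assoc, inv_pow, ← pow_sub₀ _ hx (Nat.sub_le _ _),
      Nat.sub_sub_self (Nat.lt_succ_iff.1 (Finset.mem_range.1 hk))]

theorem gen_poly (P : MvPolynomial (Fin 2) ℝ) (a b c e : ℂ) :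
    ∃ g : Polynomial ℂ, ∀ x, g.eval x = ev P (a * x + b) (c * x + e) := by
  unfold ev
  induction P using MvPolynomial.induction_on with
  | C r => exact ⟨Polynomial.C r, fun x => by simp⟩
  | add p q hp hq =>
    obtain ⟨g, hg⟩ := hp
    obtain ⟨g', hg'⟩ := hq
    exact ⟨g + g', fun x => by rw [Polynomial.eval_add, hg, hg', map_add]⟩
  | mul_X p i hp =>
    obtain ⟨g, hg⟩ := hp
    fin_cases i
    · exact ⟨g * (Polynomial.C a * Polynomial.X + Polynomial.C b), fun x => by simp [hg]⟩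
    · exact ⟨g * (Polynomial.C c * Polynomial.X + Polynomial.C e), fun x => by simp [hg]⟩

theorem gen_dx (Q : MvPolynomial (Fin 2) ℝ) (u n : ℝ × ℝ) (x y : ℂ) :
    HasDerivAt (fun s : ℂ => ev Q (u.1 * s + n.1 * y) (u.2 * s + n.2 * y))
      (ev (pderiv 0 Q) (u.1 * x + n.1 * y) (u.2 * x + n.2 * y) * u.1 +
        ev (pderiv 1 Q) (u.1 * x + n.1 * y) (u.2 * x + n.2 * y) * u.2) x :=
  (Alg66.chain Q (((hasDerivAt_id' x).const_mul (u.1 : ℂ)).add_const ((n.1 : ℂ) * y))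
    (((hasDerivAt_id' x).const_mul (u.2 : ℂ)).add_const ((n.2 : ℂ) * y))).congr_deriv
      (by simp [ev])

theorem gen_dy (Q : MvPolynomial (Fin 2) ℝ) (u n : ℝ × ℝ) (x y : ℂ) :
    HasDerivAt (fun s : ℂ => ev Q (u.1 * x + n.1 * s) (u.2 * x + n.2 * s))
      (ev (pderiv 0 Q) (u.1 * x + n.1 * y) (u.2 * x + n.2 * y) * n.1 +
        ev (pderiv 1 Q) (u.1 * x + n.1 * y) (u.2 * x + n.2 * y) * n.2) y :=
  (Alg66.chain Q (((hasDerivAt_id' y).const_mul (n.1 : ℂ)).const_add ((u.1 : ℂ) * x))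
    (((hasDerivAt_id' y).const_mul (n.2 : ℂ)).const_add ((u.2 : ℂ) * x))).congr_deriv
      (by simp [ev])

theorem gen_px {P : MvPolynomial (Fin 2) ℝ} {u n : ℝ × ℝ} {d : Dat}
    (h : ∀ x y, d.p (x, y) = ev P (u.1 * x + n.1 * y) (u.2 * x + n.2 * y)) (x y : ℂ) :
    d.px (x, y) = ev (pderiv 0 P) (u.1 * x + n.1 * y) (u.2 * x + n.2 * y) * u.1 +
      ev (pderiv 1 P) (u.1 * x + n.1 * y) (u.2 * x + n.2 * y) * u.2 :=
  (B62.dx d x y).unique ((gen_dx P u n x y).congr_of_eventuallyEq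
    (Eventually.of_forall fun s => h s y))

theorem gen_py {P : MvPolynomial (Fin 2) ℝ} {u n : ℝ × ℝ} {d : Dat}
    (h : ∀ x y, d.p (x, y) = ev P (u.1 * x + n.1 * y) (u.2 * x + n.2 * y)) (x y : ℂ) :
    d.py (x, y) = ev (pderiv 0 P) (u.1 * x + n.1 * y) (u.2 * x + n.2 * y) * n.1 +
      ev (pderiv 1 P) (u.1 * x + n.1 * y) (u.2 * x + n.2 * y) * n.2 :=
  (B62.dy d x y).unique ((gen_dy P u n x y).congr_of_eventuallyEq
    (Eventually.of_forall fun s => h x s))

theorem gen_E {P : MvPolynomial (Fin 2) ℝ} {u n : ℝ × ℝ} {d : Dat}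
    (h : ∀ x y, d.p (x, y) = ev P (u.1 * x + n.1 * y) (u.2 * x + n.2 * y)) (x y : ℂ) :
    2 * d.E (x, x, y) =
      ev (pderiv 0 (pderiv 0 P)) (u.1 * x + n.1 * y) (u.2 * x + n.2 * y) * u.1 ^ 2 +
      ev (pderiv 0 (pderiv 1 P)) (u.1 * x + n.1 * y) (u.2 * x + n.2 * y) * (2 * u.1 * u.2) +
      ev (pderiv 1 (pderiv 1 P)) (u.1 * x + n.1 * y) (u.2 * x + n.2 * y) * u.2 ^ 2 := by
  have := (B62.dxx d x y).unique ((((gen_dx (pderiv 0 P) u n x y).mul_const (u.1 : ℂ)).add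
    ((gen_dx (pderiv 1 P) u n x y).mul_const (u.2 : ℂ))).congr_of_eventuallyEq
      (Eventually.of_forall fun s => gen_px h s y))
  rw [this, gen_comm]
  ring

theorem st_GEN : St_GEN := by
  intro P u n d hd hs ht h
  obtain ⟨C, C0, hC⟩ := gen_growth P u n ht
  refine ⟨⟨C, C0, fun x y e => hC x y (by rw [← h, e])⟩, fun y => ?_, fun a y e0 e1 e2 => ?_⟩
  · obtain ⟨g, hg⟩ := gen_poly P u.1 (n.1 * y) u.2 (n.2 * y)
    have g0 : g ≠ 0 := by
      intro e
      have := hC ((C * (1 + ‖y‖) + 1 : ℝ) : ℂ) y (by rw [← hg, e, Polynomial.eval_zero])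
      rw [Complex.norm_real] at this
      linarith [Real.le_norm_self (C * (1 + ‖y‖) + 1)]
    refine g.roots.toFinset.finite_toSet.subset fun x hx => ?_
    have : g.eval x = 0 := by rw [hg, ← h]; exact hx
    simpa [g0] using this
  · rw [gen_px h] at e1
    rw [gen_py h] at e2
    rw [h] at e0
    have k0 : ((u.1 : ℂ) * n.2 - u.2 * n.1) ≠ 0 := by exact_mod_cast hd
    obtain ⟨i, hi⟩ := hs _ e0
    fin_cases i
    · exact hi (mul_left_cancel₀ k0 (by
        show _ * ev (pderiv 0 P) _ _ = _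
        linear_combination n.2 * e1 - u.2 * e2))
    · exact hi (mul_left_cancel₀ k0 (by
        show _ * ev (pderiv 1 P) _ _ = _
        linear_combination u.1 * e2 - n.1 * e1))

/-- The linear map with columns `u` and `n`. -/
def genL (u n : ℝ × ℝ) (h : u.1 * n.2 - u.2 * n.1 ≠ 0) : (ℝ × ℝ) ≃L[ℝ] (ℝ × ℝ) :=
  LinearEquiv.toContinuousLinearEquiv
    { toFun := fun q => (u.1 * q.1 + n.1 * q.2, u.2 * q.1 + n.2 * q.2)
      invFun := fun q => ((n.2 * q.1 - n.1 * q.2) / (u.1 * n.2 - u.2 * n.1),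
        (u.1 * q.2 - u.2 * q.1) / (u.1 * n.2 - u.2 * n.1))
      map_add' := fun p q => by ext <;> simp <;> ring
      map_smul' := fun c q => by ext <;> simp <;> ring
      left_inv := fun q => by ext <;> simp only <;> rw [div_eq_iff h] <;> ring
      right_inv := fun q => by
        obtain ⟨k, hk⟩ : ∃ k, k * (u.1 * n.2 - u.2 * n.1) = 1 := ⟨_, inv_mul_cancel₀ h⟩
        have e : (u.1 * n.2 - u.2 * n.1)⁻¹ = k := (eq_inv_of_mul_eq_one_left hk).symm
        ext <;> simp only [div_eq_mul_inv, e]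
        · linear_combination q.1 * hk
        · linear_combination q.2 * hk }

theorem genL_apply (u n : ℝ × ℝ) (h : u.1 * n.2 - u.2 * n.1 ≠ 0) (q : ℝ × ℝ) :
    genL u n h q = (u.1 * q.1 + n.1 * q.2, u.2 * q.1 + n.2 * q.2) := rfl

theorem st_MAIN (hGEN : St_GEN) (hCORE : St_CORE) : St_MAIN := by
  intro K P u n hK hs hi hP hns hd ht hc hH
  obtain ⟨d, h0⟩ := AO.st_ALG (aeval ![C u.1 * X 0 + C n.1 * X 1, C u.2 * X 0 + C n.2 * X 1] P)
  have h : ∀ x y, d.p (x, y) = ev P (u.1 * x + n.1 * y) (u.2 * x + n.2 * y) := fun x y => by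
    rw [(h0 x y).1, out_ev_lin]
  have G : Gn d := hGEN P u n d hd hns ht h
  let L := genL u n hd
  have fr : frontier (L ⁻¹' K) = L ⁻¹' frontier K := (L.toHomeomorph.preimage_frontier K).symm
  have c1 : ∀ q : ℝ × ℝ, (u.1 : ℂ) * q.1 + n.1 * q.2 = ((L q).1 : ℝ) := fun q => by
    simp [L, genL_apply]
  have c2 : ∀ q : ℝ × ℝ, (u.2 : ℂ) * q.1 + n.2 * q.2 = ((L q).2 : ℝ) := fun q => by
    simp [L, genL_apply]
  have ov : Ov d (L ⁻¹' K) := by
    refine ⟨L.toHomeomorph.isCompact_preimage.2 hK,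
      hs.linear_preimage L.toLinearEquiv.toLinearMap L.continuous L.injective, ?_, ?_⟩
    · obtain ⟨z, hz⟩ := hi
      refine ⟨L.symm z, ?_⟩
      have : interior (L ⁻¹' K) = L ⁻¹' interior K := (L.toHomeomorph.preimage_interior K).symm
      rw [this]
      simpa using hz
    · intro q hq
      rw [fr] at hq
      have z0 : d.p (rc q) = 0 := by
        rw [rc, h, c1, c2, out_ev_real, hP _ hq]
        simp
      refine ⟨z0, ?_⟩
      by_cases e : d.px (rc q) = 0
      · exact Or.inr (G.ns _ _ z0 e)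
      · exact Or.inl e
  have cu : Cur d (L ⁻¹' K) := by
    intro q hq e1 e2
    rw [fr] at hq
    have e3 := gen_E h q.1 q.2
    rw [rc, gen_px h, c1, c2, out_ev_real, out_ev_real] at e1
    rw [e2, c1, c2, out_ev_real, out_ev_real, out_ev_real] at e3
    refine hc _ hq ?_ ?_
    · simp only [map_add, map_mul, eval_C]
      have : eval ![(L q).1, (L q).2] (pderiv 0 P) * u.1 +
        eval ![(L q).1, (L q).2] (pderiv 1 P) * u.2 = 0 := by exact_mod_cast e1
      linarith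
    · simp only [map_add, map_mul, eval_C]
      have : 2 * (0 : ℝ) = eval ![(L q).1, (L q).2] (pderiv 0 (pderiv 0 P)) * u.1 ^ 2 +
        eval ![(L q).1, (L q).2] (pderiv 0 (pderiv 1 P)) * (2 * u.1 * u.2) +
        eval ![(L q).1, (L q).2] (pderiv 1 (pderiv 1 P)) * u.2 ^ 2 := by exact_mod_cast e3
      linarith
  refine out_ell L ?_
  rw [← fr]
  refine hCORE d _ G ov cu ?_
  rw [fr]
  refine out_hyp L ?_
  have l1 : L (1, 0) = u := by simp [L, genL_apply]
  have l2 : L (0, 1) = n := by simp [L, genL_apply]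
  rw [l1, l2]
  exact hH

end Pool.Agent.AO.X
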