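import Pool.Agent.Lib.AX.Blue

set_option autoImplicit false

noncomputable section

namespace Pool.Agent.AO.X

open Set Metric Filter Topology Complex

namespace H1

/-- The horizontal segment of length two with midpoint `c`. -/
def seg (c : ℂ) : Set ℂ := {w | w.im = c.im ∧ |w.re - c.re| ≤ 1}

theorem seg_cvx (c : ℂ) : Convex ℝ (seg c) := by
  intro x hx y hy a b ha hb hab
  obtain ⟨x1, x2⟩ := hx
  obtain ⟨y1, y2⟩ := hy
  have hb' : b = 1 - a := by linarith
  subst hb'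
  refine ⟨?_, ?_⟩
  · simp only [add_im, real_smul, mul_im, ofReal_re, ofReal_im, x1, y1]
    ring
  · simp only [add_re, real_smul, mul_re, ofReal_re, ofReal_im]
    rw [abs_le] at x2 y2 ⊢
    constructor <;> nlinarith [x2.1, x2.2, y2.1, y2.2]

theorem seg_mid (c : ℂ) : c ∈ seg c := ⟨rfl, by simp⟩

theorem seg_norm {c w : ℂ} (h : w ∈ seg c) : ‖w - c‖ ≤ 1 := by
  have := norm_le_abs_re_add_abs_im (w - c)
  rw [sub_re, sub_im, h.1, sub_self, abs_zero, add_zero] at this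
  exact this.trans h.2

theorem seg_l (z : ℂ) : z ∈ seg (z + 1) := ⟨by simp, by simp⟩

theorem seg_r (z : ℂ) : z + 2 ∈ seg (z + 1) := ⟨by simp, by
  simp only [add_re, re_ofNat, one_re]
  rw [show z.re + 2 - (z.re + 1) = 1 by ring, abs_one]⟩

theorem mv {g g1 : ℂ → ℂ} {c : ℂ} {B : ℝ} (h : ∀ w ∈ seg c, HasDerivAt g (g1 w) w)
    (hb : ∀ w ∈ seg c, ‖g1 w‖ ≤ B) (h0 : g c = 0) : ∀ w ∈ seg c, ‖g w‖ ≤ B := by
  intro w hw
  have h1 := (seg_cvx c).norm_image_sub_le_of_norm_hasDerivWithin_le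
    (fun x hx => (h x hx).hasDerivWithinAt) hb (seg_mid c) hw
  rw [h0, sub_zero] at h1
  have hB : 0 ≤ B := (norm_nonneg _).trans (hb c (seg_mid c))
  exact h1.trans (mul_le_of_le_one_right hB (seg_norm hw))

theorem pd (a : ℝ) {z : ℂ} (h : z ∈ Slit) : HasDerivAt (pw a) (a * pw (a - 1) z) z := by
  refine (pw_deriv a h).congr_deriv ?_
  have h0 := slit_ne h
  have h1 : pw a z = pw (a - 1) z * z := by
    have := pw_add (a - 1) 1 z
    rw [sub_add_cancel, pw_one h0] at this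
    exact this
  rw [h1]
  field_simp

/-- The constant of the local data. -/
def cst (l : LD) : ℝ := (2 * ‖l.b1‖ + 2 * ‖l.a1 - l.b1‖) / ‖l.σ.1 - l.σ.2.1‖

theorem cst_nn (l : LD) : 0 ≤ cst l := by
  unfold cst
  positivity

theorem est (l : LD) (h0 : 0 < l.al) (h1 : l.al ≤ 1 / 2) (z : ℂ) (B : ℝ)
    (hs : ∀ w ∈ seg (z + 1), w ∈ Slit ∧ ‖w‖ ^ (l.al - 2) ≤ B) : ‖E0 l z‖ ≤ cst l * B := by
  set c := z + 1 with hc
  set α := l.al with hα
  have hne : (1 + (α : ℂ)) ≠ 0 := by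
    have : ((1 + α : ℝ) : ℂ) ≠ 0 := ofReal_ne_zero.2 (by linarith)
    simpa using this
  have k1 : ∀ w ∈ seg c, ‖α * pw (α - 1) w - α * pw (α - 1) c‖ ≤ B := by
    refine mv (g1 := fun w => α * (((α - 1 : ℝ) : ℂ) * pw (α - 1 - 1) w)) (fun w hw => ?_)
      (fun w hw => ?_) (sub_self _)
    · exact ((pd (α - 1) (hs w hw).1).const_mul (α : ℂ)).sub_const _
    · rw [norm_mul, norm_mul, pw_norm _ (slit_ne (hs w hw).1), norm_real, norm_real,
        show α - 1 - 1 = α - 2 by ring, Real.norm_eq_abs, Real.norm_eq_abs, abs_of_pos h0,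
        abs_of_nonpos (by linarith : α - 1 ≤ 0)]
      have h2 : 0 ≤ ‖w‖ ^ (α - 2) := by positivity
      have h3 : α * -(α - 1) ≤ 1 := by nlinarith
      calc α * (-(α - 1) * ‖w‖ ^ (α - 2)) = α * -(α - 1) * ‖w‖ ^ (α - 2) := by ring
        _ ≤ 1 * ‖w‖ ^ (α - 2) := mul_le_mul_of_nonneg_right h3 h2
        _ ≤ B := by rw [one_mul]; exact (hs w hw).2
  have k2 : ∀ w ∈ seg c, ‖pw α w - pw α c - α * pw (α - 1) c * (w - c)‖ ≤ B := by
    refine mv (fun w hw => ?_) k1 (by simp)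
    refine (((pd α (hs w hw).1).sub_const (pw α c)).sub
      (((hasDerivAt_id w).sub_const c).const_mul (α * pw (α - 1) c))).congr_deriv ?_
    ring
  have k3 : ∀ w ∈ seg c, ‖pw (1 + α) w / (1 + α) - pw (1 + α) c / (1 + α) - pw α c * (w - c) -
      α * pw (α - 1) c * (w - c) ^ 2 / 2‖ ≤ B := by
    refine mv (fun w hw => ?_) k2 (by simp)
    have e1 := (hasDerivAt_id w).sub_const c
    refine ((((((pd (1 + α) (hs w hw).1).div_const (1 + (α : ℂ))).sub_const
      (pw (1 + α) c / (1 + α))).sub (e1.const_mul (pw α c))).sub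
      (((e1.fun_pow 2).const_mul (α * pw (α - 1) c)).div_const 2))).congr_deriv ?_
    rw [show 1 + α - 1 = α by ring]
    push_cast
    simp only [id]
    field_simp
  have a1 := k2 z (seg_l z)
  have a2 := k2 (z + 2) (seg_r z)
  have a3 := k3 z (seg_l z)
  have a4 := k3 (z + 2) (seg_r z)
  set g1 := pw α z - pw α c - α * pw (α - 1) c * (z - c) with hg1
  set g2 := pw α (z + 2) - pw α c - α * pw (α - 1) c * (z + 2 - c) with hg2
  set g3 := pw (1 + α) z / (1 + α) - pw (1 + α) c / (1 + α) - pw α c * (z - c) -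
      α * pw (α - 1) c * (z - c) ^ 2 / 2 with hg3
  set g4 := pw (1 + α) (z + 2) / (1 + α) - pw (1 + α) c / (1 + α) - pw α c * (z + 2 - c) -
      α * pw (α - 1) c * (z + 2 - c) ^ 2 / 2 with hg4
  have e : E0 l z = (-(l.b1 * (g1 + g2)) - (l.a1 - l.b1) * (g4 - g3)) / (l.σ.1 - l.σ.2.1) := by
    unfold E0 mA mB mY
    rw [hg1, hg2, hg3, hg4, ← hα, ← hc]
    congr 1
    rw [show z - c = -1 by rw [hc]; ring, show z + 2 - c = 1 by rw [hc]; ring]
    ring
  rw [e, norm_div, cst, div_mul_eq_mul_div]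
  refine div_le_div_of_nonneg_right ?_ (norm_nonneg _)
  have b1 := norm_sub_le (-(l.b1 * (g1 + g2))) ((l.a1 - l.b1) * (g4 - g3))
  rw [norm_neg, norm_mul, norm_mul] at b1
  have b2 : ‖g1 + g2‖ ≤ 2 * B := (norm_add_le _ _).trans (by linarith)
  have b3 : ‖g4 - g3‖ ≤ 2 * B := (norm_sub_le _ _).trans (by linarith)
  have b4 := mul_le_mul_of_nonneg_left b2 (norm_nonneg l.b1)
  have b5 := mul_le_mul_of_nonneg_left b3 (norm_nonneg (l.a1 - l.b1))
  linarith

theorem pdf (a : ℝ) {z : ℂ} (t : ℂ) (h : z + t ∈ Slit) :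
    DifferentiableAt ℂ (fun s => pw a (s + t)) z :=
  DifferentiableAt.comp (g := pw a) (f := fun s => s + t) z (pd a h).differentiableAt
    (differentiableAt_id.add_const t)

theorem dE (l : LD) {z : ℂ} (h : ∀ w ∈ seg (z + 1), w ∈ Slit) : DifferentiableAt ℂ (E0 l) z := by
  have h0 := h z (seg_l z)
  have h1 := h _ (seg_mid _)
  have h2 := h _ (seg_r z)
  unfold E0 mA mB mY
  exact ((((((pdf l.al 1 h1).const_mul _).const_mul _).sub
    ((pd l.al h0).differentiableAt.const_mul _)).sub ((pdf l.al 2 h2).const_mul _)).sub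
    (((pdf (1 + l.al) 2 h2).const_mul _).sub
      ((pd (1 + l.al) h0).differentiableAt.const_mul _))).div_const _

theorem dEj (l : LD) {z : ℂ} (j : ℤ) (h : ∀ w ∈ seg (z + 2 * j + 1), w ∈ Slit) :
    DifferentiableAt ℂ (fun s => E0 l (s + 2 * j)) z :=
  (dE l h).comp z (differentiableAt_id.add_const _)

theorem half_pos (j : ℤ) : 0 < |(j : ℝ) + 1 / 2| := by
  refine abs_pos.2 fun e => ?_
  have h : ((2 * j + 1 : ℤ) : ℝ) = 0 := by push_cast; linarith
  have h2 : (2 * j + 1 : ℤ) = 0 := by exact_mod_cast h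
  omega

theorem seg_re {z w : ℂ} {j : ℤ} (hw : w ∈ seg (z + 2 * j + 1)) :
    |w.re - (z.re + 2 * j + 1)| ≤ 1 ∧ w.im = z.im := by
  obtain ⟨h1, h2⟩ := hw
  simp only [add_re, mul_re, re_ofNat, intCast_re, im_ofNat, intCast_im, mul_zero, sub_zero,
    one_re] at h2
  simp only [add_im, mul_im, re_ofNat, intCast_re, im_ofNat, intCast_im, mul_zero, zero_mul,
    add_zero, one_im] at h1
  exact ⟨h2, h1⟩

theorem main (l : LD) (h0 : 0 < l.al) (h1 : l.al ≤ 1 / 2) (R δ : ℝ) (hR : 0 ≤ R) (hδ : 0 < δ) :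
    ∃ u : ℤ → ℝ, Summable u ∧ (∀ j, 0 ≤ u j) ∧ ∀ (z : ℂ) (j : ℤ) (Y : ℝ), |z.re| ≤ R → δ ≤ Y →
      (∀ w ∈ seg (z + 2 * j + 1), w ∈ Slit ∧ Y ≤ ‖w‖) →
        ‖E0 l (z + 2 * j)‖ ≤ Y ^ (-(1 / 4) : ℝ) * u j := by
  set κ := min 1 (δ / (R + 1)) with hκ
  have kp : 0 < κ := lt_min one_pos (by positivity)
  refine ⟨fun j => cst l * κ ^ (l.al - 7 / 4) * (1 / |(j : ℝ) + 1 / 2| ^ (7 / 4 - l.al)),
    ((Real.summable_one_div_int_add_rpow _ _).2 (by linarith)).mul_left _, fun j => ?_,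
    fun z j Y hz hY hs => ?_⟩
  · have := cst_nn l
    positivity
  have hm := half_pos j
  set m := |(j : ℝ) + 1 / 2| with hmd
  have Yp : 0 < Y := hδ.trans_le hY
  refine (est l h0 h1 _ (Y ^ (-(1 / 4) : ℝ) * (κ * m) ^ (l.al - 7 / 4)) fun w hw =>
    ⟨(hs w hw).1, ?_⟩).trans (le_of_eq ?_)
  · have w1 := (hs w hw).2
    have wp : 0 < ‖w‖ := Yp.trans_le w1
    have w2 : κ * m ≤ ‖w‖ := by
      by_cases c : R + 1 ≤ m
      · have a1 := (seg_re hw).1
        have a2 := abs_re_le_norm w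
        have a3 : κ * m ≤ m := mul_le_of_le_one_left hm.le (min_le_left _ _)
        have a4 : m ≤ |w.re| := by
          rw [abs_le] at a1 hz
          rcases abs_cases ((j : ℝ) + 1 / 2) with b | b
          · exact le_trans (by linarith [b.1]) (le_abs_self _)
          · exact le_trans (by linarith [b.1]) (neg_le_abs _)
        linarith
      · have a1 : κ * m ≤ δ / (R + 1) * (R + 1) :=
          mul_le_mul (min_le_right _ _) (not_le.1 c).le hm.le (by positivity)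
        rw [div_mul_cancel₀ _ (by positivity)] at a1
        linarith
    rw [show l.al - 2 = -(1 / 4) + (l.al - 7 / 4) by ring, Real.rpow_add wp]
    exact mul_le_mul (Real.rpow_le_rpow_of_nonpos Yp w1 (by norm_num))
      (Real.rpow_le_rpow_of_nonpos (mul_pos kp hm) w2 (by linarith)) (by positivity)
      (by positivity)
  · simp only [← hmd]
    rw [Real.mul_rpow kp.le hm.le, show l.al - 7 / 4 = -(7 / 4 - l.al) by ring,
      Real.rpow_neg hm.le, one_div (m ^ _)]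
    ring

/-- The horn function. -/
def hf (l : LD) (z : ℂ) : ℂ := ∑' j : ℤ, E0 l (z + 2 * j)

theorem hf_per (l : LD) (z : ℂ) (n : ℤ) : hf l (z + 2 * n) = hf l z := by
  unfold hf
  rw [← (Equiv.addLeft n).tsum_eq fun j : ℤ => E0 l (z + 2 * j)]
  refine tsum_congr fun j => ?_
  simp only [Equiv.coe_addLeft, Int.cast_add]
  congr 1
  ring

theorem low {z : ℂ} {Y : ℝ} (hY : 0 < Y) (hz : z.im ≤ -Y) (j : ℤ) :
    ∀ w ∈ seg (z + 2 * j + 1), w ∈ Slit ∧ Y ≤ ‖w‖ := by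
  intro w hw
  have a1 := (seg_re hw).2
  have a2 := abs_im_le_norm w
  have a3 := neg_le_abs w.im
  exact ⟨(slit_iff w).2 (Or.inl (by linarith)), by linarith⟩

theorem hf_sum (l : LD) (h0 : 0 < l.al) (h1 : l.al ≤ 1 / 2) {z : ℂ} (hz : z.im < 0) :
    Summable fun j : ℤ => E0 l (z + 2 * j) := by
  obtain ⟨u, hu, -, h⟩ := main l h0 h1 |z.re| (-z.im) (abs_nonneg _) (by linarith)
  exact Summable.of_norm_bounded (hu.mul_left _) fun j =>
    h z j (-z.im) le_rfl le_rfl (low (by linarith) (by linarith) j)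

theorem hf_dif (l : LD) (h0 : 0 < l.al) (h1 : l.al ≤ 1 / 2) {z : ℂ} (hz : z.im < 0) :
    DifferentiableAt ℂ (hf l) z := by
  have dp : 0 < -z.im / 2 := by linarith
  obtain ⟨u, hu, -, h⟩ := main l h0 h1 (|z.re| + 1) (-z.im / 2) (by positivity) dp
  have hU : IsOpen {s : ℂ | |s.re| < |z.re| + 1 ∧ s.im < z.im / 2} :=
    (isOpen_lt continuous_re.abs continuous_const).inter (isOpen_lt continuous_im continuous_const)
  refine (differentiableOn_tsum_of_summable_norm (F := fun (j : ℤ) s => E0 l (s + 2 * j))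
    (hu.mul_left ((-z.im / 2) ^ (-(1 / 4) : ℝ))) (fun j s hs => ?_) hU
    (fun j s hs => ?_)).differentiableAt (hU.mem_nhds ⟨by linarith, by linarith⟩)
  · exact (dEj l j fun w hw =>
      (low dp (by linarith [hs.2]) j w hw).1).differentiableWithinAt
  · exact h s j _ hs.1.le le_rfl (low dp (by linarith [hs.2]) j)

theorem hf_dec (l : LD) (h0 : 0 < l.al) (h1 : l.al ≤ 1 / 2) (e : ℝ) (he : 0 < e) :
    ∃ Y0 : ℝ, ∀ z : ℂ, z.im < -Y0 → ‖hf l z‖ ≤ e := by
  obtain ⟨u, hu, up, h⟩ := main l h0 h1 2 1 (by norm_num) one_pos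
  have t : Tendsto (fun Y : ℝ => Y ^ (-(1 / 4) : ℝ) * ∑' j, u j) atTop (𝓝 (0 * ∑' j, u j)) :=
    (tendsto_rpow_neg_atTop (by norm_num)).mul_const _
  rw [zero_mul] at t
  obtain ⟨Y, hY, hY1⟩ := ((t.eventually (gt_mem_nhds he)).and (eventually_ge_atTop 1)).exists
  refine ⟨Y, fun z hz => ?_⟩
  rw [← hf_per l z (-⌊z.re / 2⌋)]
  set s := z + 2 * ((-⌊z.re / 2⌋ : ℤ) : ℂ) with hs
  have s1 : s.im = z.im := by simp [hs]
  have s2 : |s.re| ≤ 2 := by
    have a1 := Int.floor_le (z.re / 2)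
    have a2 := Int.lt_floor_add_one (z.re / 2)
    have a3 : s.re = z.re - 2 * ⌊z.re / 2⌋ := by simp [hs]; ring
    rw [a3, abs_le]
    constructor <;> linarith
  refine le_trans ?_ hY.le
  rw [← tsum_mul_left]
  exact tsum_of_norm_bounded (hu.mul_left _).hasSum fun j =>
    h s j Y s2 hY1 (low (by linarith) (by linarith) j)

theorem hf_app (l : LD) (h0 : 0 < l.al) (h1 : l.al ≤ 1 / 2) (e : ℝ) (he : 0 < e) :
    ∃ K0 : ℕ, ∀ K : ℕ, K0 ≤ K → ∀ z : ℂ, |z.re| ≤ 3 → z.im ≤ -1 →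
      ‖∑ j ∈ Finset.range (2 * K), E0 l (z - 2 * K + 2 * j) - hf l z‖ ≤ e := by
  obtain ⟨u, hu, -, h⟩ := main l h0 h1 3 1 (by norm_num) one_pos
  have t := tendstoUniformlyOn_tsum (f := fun (j : ℤ) s => E0 l (s + 2 * j))
    (s := {s : ℂ | |s.re| ≤ 3 ∧ s.im ≤ -1}) (hu.mul_left ((1 : ℝ) ^ (-(1 / 4) : ℝ)))
    fun j s hs => h s j 1 hs.1 le_rfl (low one_pos hs.2 j)
  obtain ⟨t0, ht⟩ := eventually_atTop.1 (tendstoUniformlyOn_iff.1 t e he)
  refine ⟨t0.sup Int.natAbs + 1, fun K hK z z1 z2 => ?_⟩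
  have inj : Function.Injective fun j : ℕ => (j : ℤ) - K := fun a b hab => by
    simp only [] at hab
    omega
  have a1 := ht ((Finset.range (2 * K)).map ⟨_, inj⟩) (fun j hj => by
    have b1 : j.natAbs ≤ t0.sup Int.natAbs := Finset.le_sup (f := Int.natAbs) hj
    refine Finset.mem_map.2 ⟨(j + K).toNat, Finset.mem_range.2 (by omega), ?_⟩
    simp only [Function.Embedding.coeFn_mk]
    omega) z ⟨z1, z2⟩
  rw [dist_comm, dist_eq_norm, Finset.sum_map] at a1
  refine le_trans (le_of_eq ?_) a1.le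
  unfold hf
  congr 2
  refine Finset.sum_congr rfl fun j _ => ?_
  simp only [Function.Embedding.coeFn_mk]
  push_cast
  congr 1
  ring

theorem blow {c : ℂ} {a : ℝ} {g : ℂ → ℂ} (h0 : 0 < a) (h1 : a < 1) (hg : DifferentiableAt ℂ g 0)
    (h : ∀ s : ℂ, ‖s‖ < 1 / 2 → s.im < 0 → c * pw a s = g s) : c = 0 := by
  have tl : Tendsto (fun t : ℝ => -(I * t)) (𝓝[>] 0) (𝓝 0) := by
    have : Continuous fun t : ℝ => -(I * (t : ℂ)) := by fun_prop
    simpa using (this.tendsto 0).mono_left nhdsWithin_le_nhds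
  have nm : ∀ t : ℝ, 0 < t → ‖-(I * (t : ℂ))‖ = t := fun t ht => by
    rw [norm_neg, norm_mul, norm_I, one_mul, norm_real, Real.norm_eq_abs, abs_of_pos ht]
  have ev : ∀ᶠ t : ℝ in 𝓝[>] 0, 0 < t ∧ ‖g (-(I * t))‖ = ‖c‖ * t ^ a := by
    filter_upwards [Ioo_mem_nhdsGT (show (0 : ℝ) < 1 / 2 by norm_num)] with t ht
    refine ⟨ht.1, ?_⟩
    have n1 := nm t ht.1
    rw [← h _ (by rw [n1]; exact ht.2) (by simpa using ht.1), norm_mul,
      pw_norm _ (norm_pos_iff.1 (by rw [n1]; exact ht.1)), n1]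
  have tp : ∀ b : ℝ, 0 < b → Tendsto (fun t : ℝ => t ^ b) (𝓝[>] 0) (𝓝 0) := fun b hb => by
    have := (Real.continuousAt_rpow_const 0 b (Or.inr hb.le)).tendsto
    rw [Real.zero_rpow hb.ne'] at this
    exact this.mono_left nhdsWithin_le_nhds
  have g0 : g 0 = 0 := by
    have a1 : Tendsto (fun t : ℝ => ‖g (-(I * t))‖) (𝓝[>] 0) (𝓝 ‖g 0‖) :=
      (hg.continuousAt.tendsto.comp tl).norm
    have a2 := (tp a h0).const_mul ‖c‖
    rw [mul_zero] at a2
    exact norm_eq_zero.1 (tendsto_nhds_unique a1 (a2.congr' (ev.mono fun t ht => ht.2.symm)))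
  obtain ⟨C, hC⟩ := hg.isBigO_sub.bound
  have a3 := (tp (1 - a) (by linarith)).const_mul C
  rw [mul_zero] at a3
  refine norm_le_zero_iff.1 (ge_of_tendsto a3 ?_)
  filter_upwards [ev, tl.eventually hC] with t ht h2
  rw [g0, sub_zero, sub_zero, ht.2, nm t ht.1] at h2
  have p1 : 0 < t ^ a := Real.rpow_pos_of_pos ht.1 a
  refine le_of_mul_le_mul_right ?_ p1
  rw [mul_assoc, ← Real.rpow_add ht.1, sub_add_cancel, Real.rpow_one]
  exact h2

open Classical in
theorem tail (l : LD) (h0 : 0 < l.al) (h1 : l.al ≤ 1 / 2) (p : ℂ) (hp : |p.re| ≤ 1) (J : Finset ℤ)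
    (hJ : ∀ j : ℤ, j ∉ J → 2 ≤ |p.re + 2 * j + 1|) :
    ∃ g : ℂ → ℂ, DifferentiableAt ℂ g p ∧ ∀ z : ℂ, z.im < 0 →
      hf l z = ∑ j ∈ J, E0 l (z + 2 * j) + g z := by
  obtain ⟨u, hu, up, h⟩ := main l h0 h1 2 (1 / 2) (by norm_num) (by norm_num)
  have sl : ∀ j : ℤ, j ∉ J → ∀ s ∈ ball p (1 / 2), |s.re| ≤ 2 ∧ ∀ w ∈ seg (s + 2 * j + 1),
      w ∈ Slit ∧ 1 / 2 ≤ ‖w‖ := by
    intro j hj s hs
    have a1 := abs_re_le_norm (s - p)
    rw [mem_ball, dist_eq_norm] at hs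
    rw [sub_re, abs_le] at a1
    rw [abs_le] at hp
    refine ⟨abs_le.2 ⟨by linarith, by linarith⟩, fun w hw => ?_⟩
    have a2 := (seg_re hw).1
    have a3 := hJ j hj
    have a4 := abs_re_le_norm w
    rw [abs_le] at a2
    have a5 : 1 / 2 ≤ |w.re| := by
      rcases abs_cases (p.re + 2 * j + 1) with b | b
      · exact le_trans (by linarith [b.1]) (le_abs_self _)
      · exact le_trans (by linarith [b.1]) (neg_le_abs _)
    refine ⟨(slit_iff w).2 (Or.inr fun e => ?_), by linarith⟩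
    rw [e, abs_zero] at a5
    linarith
  refine ⟨fun z => ∑' j : {j // j ∉ J}, E0 l (z + 2 * (j.1 : ℤ)), ?_, fun z hz => ?_⟩
  · refine (differentiableOn_tsum_of_summable_norm
      (F := fun (j : {j // j ∉ J}) s => E0 l (s + 2 * (j.1 : ℤ)))
      ((hu.mul_left ((1 / 2 : ℝ) ^ (-(1 / 4) : ℝ))).subtype _) (fun j s hs => ?_) isOpen_ball
      (fun j s hs => ?_)).differentiableAt (ball_mem_nhds p (by norm_num : (0 : ℝ) < 1 / 2))
    · exact (dEj l j fun w hw => ((sl j j.2 s hs).2 w hw).1).differentiableWithinAt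
    · exact h s j _ (sl j j.2 s hs).1 le_rfl (sl j j.2 s hs).2
  · exact ((hf_sum l h0 h1 hz).sum_add_tsum_subtype_compl J).symm

theorem sl0 {t : ℂ} (h : t.re ≠ 0) : 0 + t ∈ Slit := by
  rw [zero_add]
  exact (slit_iff t).2 (Or.inr h)

theorem hf_ne (l : LD) (h : T1 l) : ∃ z : ℂ, z.im < 0 ∧ hf l z ≠ 0 := by
  obtain ⟨hw, h0, h1, hab⟩ := h
  have w0 : l.σ.1 - l.σ.2.1 ≠ 0 := sub_ne_zero.2 hw
  by_contra hc
  have hz : ∀ z : ℂ, z.im < 0 → hf l z = 0 := fun z hz => by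
    by_contra e
    exact hc ⟨z, hz, e⟩
  have d1 := fun a : ℝ => pdf a 1 (sl0 (by simp))
  have d2 := fun a : ℝ => pdf a (-1) (sl0 (by simp))
  have d3 := fun a : ℝ => pdf a 2 (sl0 (by simp))
  have d4 := fun a : ℝ => pdf a (-2) (sl0 (by simp))
  rcases hab with ha | hb
  · obtain ⟨g, hg, e⟩ := tail l h0 h1 (-1) (by simp) {0} fun j hj => by
      have a1 : j ≠ 0 := by simpa using hj
      have a2 : (1 : ℤ) ≤ |j| := Int.one_le_abs a1
      have a3 : (1 : ℝ) ≤ |(j : ℝ)| := by exact_mod_cast a2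
      rw [show (-1 : ℂ).re + 2 * (j : ℝ) + 1 = 2 * j by simp, abs_mul, abs_two]
      linarith
    have hg' : DifferentiableAt ℂ (fun s : ℂ => g (s + -1)) 0 := by
      refine DifferentiableAt.comp (g := g) 0 ?_ (differentiableAt_id.add_const _)
      simpa using hg
    have := blow (c := 2 * l.a1) (a := l.al) (g := fun s => l.b1 * pw l.al (s + -1) +
      l.b1 * pw l.al (s + 1) + (l.a1 - l.b1) / (1 + l.al) * (pw (1 + l.al) (s + 1) -
        pw (1 + l.al) (s + -1)) - (l.σ.1 - l.σ.2.1) * g (s + -1)) h0 (by linarith)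
      (((((d2 _).const_mul _).add ((d1 _).const_mul _)).add
        (((d1 _).sub (d2 _)).const_mul _)).sub (hg'.const_mul _)) fun s _ hs => by
        have a1 := e (s + -1) (by simpa using hs)
        rw [hz _ (by simpa using hs), Finset.sum_singleton, Int.cast_zero, mul_zero, add_zero,
          E0, show s + -1 + 1 = s by ring, show s + -1 + 2 = s + 1 by ring, mA, mB, mB, mY, mY,
          eq_comm, add_eq_zero_iff_eq_neg, div_eq_iff w0] at a1
        linear_combination a1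
    exact ha (by simpa using this)
  · obtain ⟨g, hg, e⟩ := tail l h0 h1 0 (by simp) {-1, 0} fun j hj => by
      have a1 : j ≠ -1 ∧ j ≠ 0 := by simpa using hj
      have a2 : (2 : ℤ) ≤ |2 * j + 1| := by
        rcases abs_cases (2 * j + 1) with b | b <;> omega
      rw [zero_re, zero_add]
      exact_mod_cast a2
    have := blow (c := 2 * l.b1) (a := l.al) (g := fun s => 2 * (l.a1 * pw l.al (s + -1)) +
      2 * (l.a1 * pw l.al (s + 1)) - l.b1 * pw l.al (s + -2) - l.b1 * pw l.al (s + 2) -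
      (l.a1 - l.b1) / (1 + l.al) * (pw (1 + l.al) (s + 2) - pw (1 + l.al) (s + -2)) +
      (l.σ.1 - l.σ.2.1) * g s) h0 (by linarith)
      ((((((((d2 _).const_mul _).const_mul _).add (((d1 _).const_mul _).const_mul _)).sub
        ((d4 _).const_mul _)).sub ((d3 _).const_mul _)).sub
        (((d3 _).sub (d4 _)).const_mul _)).add (hg.const_mul _)) fun s _ hs => by
        have a1 := e s hs
        rw [hz _ hs, Finset.sum_pair (by norm_num), Int.cast_zero, mul_zero, add_zero,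
          show s + 2 * ((-1 : ℤ) : ℂ) = s + -2 by push_cast; ring, E0, E0,
          show s + -2 + 1 = s + -1 by ring, show s + -2 + 2 = s by ring, ← add_div,
          eq_comm, add_eq_zero_iff_eq_neg, div_eq_iff w0] at a1
        simp only [mA, mB, mY] at a1
        linear_combination -a1
    exact hb (by simpa using this)

end H1

theorem st_H1 : St_H1 := by
  intro l h
  have h0 := h.2.1
  have h1 := h.2.2.1
  refine ⟨H1.hf l, ⟨fun z hz => ?_, fun z _ => ?_, H1.hf_dec l h0 h1⟩, H1.hf_ne l h,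
    fun z hz => ?_, fun Y hY e he => ?_⟩
  · exact (H1.hf_dif l h0 h1 (by simpa using hz)).differentiableWithinAt
  · simpa using H1.hf_per l z 1
  · refine (H1.dE l fun w hw => (slit_iff w).2 (Or.inl ?_)).continuousAt.continuousWithinAt
    have a1 := hw.1
    have a2 : z.im < 0 := hz
    simp only [add_im, one_im, add_zero] at a1
    linarith
  · obtain ⟨K0, hK⟩ := H1.hf_app l h0 h1 e he
    refine ⟨K0, fun K k z z1 z2 => hK K k z z1 ?_⟩
    rw [abs_le] at z2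
    linarith

end Pool.Agent.AO.X
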