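import Pool.Agent.Lib.AX.Blue
import Pool.Agent.Lib.AO.B_CPX

set_option autoImplicit false

noncomputable section

namespace Pool.Agent.AO.X

open Set Metric Filter Topology Complex

namespace INN

theorem slit {z μ : ℂ} (h : ‖μ - z‖ < sz z) : μ ∈ Slit := by
  rw [slit_iff]
  by_contra hc
  rw [not_or, not_lt, not_not] at hc
  have h1 := abs_re_le_norm (μ - z)
  have h2 := (le_abs_self _).trans (abs_im_le_norm (μ - z))
  rw [sub_re, hc.2, zero_sub, abs_neg] at h1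
  rw [sub_im] at h2
  exact absurd h (not_lt.2 (max_le h1 (by linarith [hc.1])))

theorem sz_le (z : ℂ) : sz z ≤ ‖z‖ :=
  max_le (abs_re_le_norm z) ((neg_le_abs _).trans (abs_im_le_norm z))

theorem om_open (M : ℝ) : IsOpen (Om M) :=
  isOpen_lt continuous_const (continuous_re.abs.max continuous_im.neg)

theorem osc {a : ℝ} (h0 : 0 < a) (h1 : a ≤ 1 / 2) {z μ : ℂ} (h : ‖μ - z‖ < sz z / 2) :
    ‖pw a μ - pw a z‖ ≤ 2 * ‖pw a z‖ / sz z * ‖μ - z‖ := by
  have hρ : 0 < sz z := by linarith [norm_nonneg (μ - z)]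
  have hz := sz_le z
  have z0 : z ≠ 0 := norm_pos_iff.1 (by linarith)
  refine (convex_ball z (sz z / 2)).norm_image_sub_le_of_norm_hasDerivWithin_le
    (f := pw a) (f' := fun x => a * pw a x / x) (fun x hx => ?_) (fun x hx => ?_)
    (mem_ball_self (by linarith)) (mem_ball_iff_norm.2 h)
  · exact (pw_deriv a (slit (by linarith [mem_ball_iff_norm.1 hx]))).hasDerivWithinAt
  · have hx' := mem_ball_iff_norm.1 hx
    have h2 : ‖z‖ - ‖x‖ ≤ ‖x - z‖ := norm_sub_rev x z ▸ norm_sub_norm_le z x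
    have h3 : ‖x‖ - ‖z‖ ≤ ‖x - z‖ := norm_sub_norm_le x z
    have x0 : 0 < ‖x‖ := by linarith
    have h4 : ‖x‖ ^ a ≤ 2 * ‖z‖ ^ a := by
      refine (Real.rpow_le_rpow x0.le (show ‖x‖ ≤ 2 * ‖z‖ by linarith) h0.le).trans ?_
      rw [Real.mul_rpow two_pos.le (norm_nonneg z)]
      refine mul_le_mul_of_nonneg_right ?_ (Real.rpow_nonneg (norm_nonneg z) a)
      exact (Real.rpow_le_rpow_of_exponent_le one_le_two (by linarith : a ≤ 1)).trans_eq
        (Real.rpow_one 2)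
    have h5 : 0 ≤ ‖x‖ ^ a := Real.rpow_nonneg x0.le a
    have h6 : 0 ≤ ‖z‖ ^ a := Real.rpow_nonneg (norm_nonneg z) a
    rw [norm_div, norm_mul, norm_real, Real.norm_of_nonneg h0.le, pw_norm a (norm_pos_iff.1 x0),
      pw_norm a z0, div_le_div_iff₀ x0 hρ]
    have h7 : a * ‖x‖ ^ a ≤ ‖z‖ ^ a := by nlinarith
    nlinarith [mul_le_mul_of_nonneg_right h7 hρ.le,
      mul_le_mul_of_nonneg_left (show sz z ≤ 2 * ‖x‖ by linarith) h6]

theorem dY (l : LD) (h0 : 0 < l.al) {z : ℂ} (h : z ∈ Slit) :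
    HasDerivAt (mY l) ((l.a1 - l.b1) * pw l.al z) z := by
  refine ((pw_deriv (1 + l.al) h).const_mul ((l.a1 - l.b1) / (1 + l.al))).congr_deriv ?_
  have h1 := slit_ne h
  have h2 : (1 + l.al : ℂ) ≠ 0 := by exact_mod_cast (by linarith : (1 + l.al : ℝ) ≠ 0)
  rw [pw_add, pw_one h1]
  push_cast
  field_simp

theorem dA (l : LD) {z : ℂ} (h : z ∈ Slit) : DifferentiableAt ℂ (mA l) z :=
  (pw_deriv l.al h).differentiableAt.const_mul l.a1

theorem dB (l : LD) {z : ℂ} (h : z ∈ Slit) : DifferentiableAt ℂ (mB l) z :=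
  (pw_deriv l.al h).differentiableAt.const_mul l.b1

/-- The intercept solver centred at `z`. -/
theorem int (l : LD) (hw : l.a1 ≠ l.b1) (h0 : 0 < l.al) (h1 : l.al ≤ 1 / 2) (c : ℂ) {z : ℂ}
    (hz : 0 < sz z) : ∃ (W : Set (ℂ × ℂ)) (g : ℂ × ℂ → ℂ), IsOpen W ∧ DifferentiableOn ℂ g W ∧
      (∀ p : ℂ × ℂ, 32 * ‖p.2‖ * ‖c‖ < ‖l.a1 - l.b1‖ * sz z →
        32 * ‖mY l z - p.2 * (c * pw l.al z) - p.1‖ < ‖(l.a1 - l.b1) * pw l.al z‖ * sz z →
        p ∈ W) ∧ ∀ p ∈ W, ‖g p - z‖ < sz z / 16 ∧ mY l (g p) - p.2 * (c * pw l.al (g p)) = p.1 ∧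
        ∀ μ, ‖μ - z‖ < sz z / 16 → ‖(l.a1 - l.b1) * pw l.al z‖ * ‖g p - μ‖ ≤
          2 * ‖mY l μ - p.2 * (c * pw l.al μ) - p.1‖ := by
  have c0 : 0 < ‖pw l.al z‖ := norm_pos_iff.2 (pw_ne _ _)
  have hs : ∀ x ∈ ball z (sz z / 8), x ∈ Slit := fun x hx =>
    slit (by linarith [mem_ball_iff_norm.1 hx])
  have ho : ∀ x ∈ ball z (sz z / 8), ‖pw l.al x - pw l.al z‖ ≤ ‖pw l.al z‖ / 4 := fun x hx => by
    have hx' := mem_ball_iff_norm.1 hx
    refine (osc h0 h1 (by linarith)).trans ?_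
    rw [div_mul_eq_mul_div, div_le_iff₀ hz]
    nlinarith
  obtain ⟨hO, g, g1, g2⟩ := st_INT (mY l) (fun x => c * pw l.al x) z ((l.a1 - l.b1) * pw l.al z)
    (c * pw l.al z) (sz z / 8) (‖c‖ * (‖pw l.al z‖ / 4))
    (mul_ne_zero (sub_ne_zero.2 hw) (pw_ne _ _)) (by linarith)
    (fun x hx => (dY l h0 (hs x hx)).differentiableAt.differentiableWithinAt)
    (fun x hx => ((pw_deriv l.al (hs x hx)).differentiableAt.const_mul c).differentiableWithinAt)
    (fun x hx => by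
      rw [(dY l h0 (hs x hx)).deriv, ← mul_sub, norm_mul, norm_mul, mul_div_assoc]
      exact mul_le_mul_of_nonneg_left (ho x hx) (norm_nonneg _))
    (fun x hx => by
      rw [← mul_sub, norm_mul]
      exact mul_le_mul_of_nonneg_left (ho x hx) (norm_nonneg _))
  refine ⟨_, g, hO, g1, fun p p1 p2 => ⟨?_, by linarith⟩, fun p hp => ?_⟩
  · rw [norm_mul]
    nlinarith [mul_lt_mul_of_pos_right p1 c0]
  · obtain ⟨a1, a2, a3⟩ := g2 p hp
    exact ⟨by linarith [mem_ball_iff_norm.1 a1], a2, fun μ hμ =>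
      a3 μ (mem_ball_iff_norm.2 (by linarith))⟩

theorem lin (l : LD) (h0 : 0 < l.al) (h1 : l.al ≤ 1 / 2) {z : ℂ} (hz : 4 < sz z) :
    ‖mY l (z + 1) - mY l z - (l.a1 - l.b1) * pw l.al z‖ ≤
      4 * ‖(l.a1 - l.b1) * pw l.al z‖ / sz z := by
  have := (convex_ball z 2).norm_image_sub_le_of_norm_hasDerivWithin_le
    (f := fun x => mY l x - (l.a1 - l.b1) * pw l.al z * x)
    (f' := fun x => (l.a1 - l.b1) * pw l.al x - (l.a1 - l.b1) * pw l.al z * 1)
    (C := 4 * ‖(l.a1 - l.b1) * pw l.al z‖ / sz z) (x := z) (y := z + 1)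
    (fun x hx => ((dY l h0 (slit (by linarith [mem_ball_iff_norm.1 hx]))).sub
      ((hasDerivAt_id x).const_mul _)).hasDerivWithinAt)
    (fun x hx => by
      have hx' := mem_ball_iff_norm.1 hx
      have h2 := osc h0 h1 (z := z) (μ := x) (by linarith)
      have h3 : 0 ≤ 2 * ‖pw l.al z‖ / sz z := by positivity
      rw [mul_one, ← mul_sub, norm_mul, norm_mul]
      refine (mul_le_mul_of_nonneg_left (h2.trans (mul_le_mul_of_nonneg_left hx'.le h3))
        (norm_nonneg _)).trans_eq (by ring))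
    (mem_ball_self two_pos) (by simp)
  rw [add_sub_cancel_left, norm_one, mul_one] at this
  refine le_trans (le_of_eq ?_) this
  congr 1
  ring

theorem loc (l : LD) (hw : l.a1 ≠ l.b1) (h0 : 0 < l.al) (h1 : l.al ≤ 1 / 2) {N : ℝ} (N1 : 1 ≤ N)
    (Na : ‖l.a1‖ ≤ N * ‖l.a1 - l.b1‖) (Nb : ‖l.b1‖ ≤ N * ‖l.a1 - l.b1‖) {z : ℂ}
    (hz : 128 * N < sz z) : ∃ (m : ℂ) (F : ℂ → ℂ), DifferentiableAt ℂ F z ∧
      ‖m - z - 1‖ ≤ 1 / 8 ∧ mY l m - mA l m = mY l z - mB l z ∧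
      mY l (F z) + mB l (F z) = mY l m + mA l m ∧
      ‖F z - z - 2‖ ≤ 2 * (1 / 8 + 1 / (128 * N)) * (128 * N) ^ 3 / sz z ^ 2 ∧
      (∀ μ, ‖μ - z‖ < 4 → ‖mA l z - mB l z‖ * ‖μ - m‖ ≤
        2 * ‖mY l μ - mA l μ - (mY l z - mB l z)‖) ∧
      (∀ μ, ‖μ - z‖ < 4 → ‖mA l z - mB l z‖ * ‖μ - F z‖ ≤
        2 * ‖mY l μ + mB l μ - (mY l m + mA l m)‖) ∧
      ∀ᶠ x in 𝓝 z, ∀ μ ν, ‖μ - z‖ < 4 → ‖ν - z‖ < 4 → mY l μ - mA l μ = mY l x - mB l x →
        mY l ν + mB l ν = mY l μ + mA l μ → ν = F x := by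
  have hρ : 128 < sz z := by linarith
  have ρ0 : 0 < sz z := by linarith
  obtain ⟨W, g, oW, dg, mW, hg⟩ := int l hw h0 h1 l.a1 ρ0
  obtain ⟨V, f, oV, df, mV, hf⟩ := int l hw h0 h1 l.b1 ρ0
  have wp : 0 < ‖l.a1 - l.b1‖ := norm_pos_iff.2 (sub_ne_zero.2 hw)
  have c0 : 0 < ‖pw l.al z‖ := norm_pos_iff.2 (pw_ne _ _)
  have e0 : mA l z - mB l z = (l.a1 - l.b1) * pw l.al z := by rw [mA, mB, sub_mul]
  rw [e0]
  obtain ⟨w0, hw0⟩ : ∃ w0, w0 = (l.a1 - l.b1) * pw l.al z := ⟨_, rfl⟩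
  have n0 : ‖w0‖ = ‖l.a1 - l.b1‖ * ‖pw l.al z‖ := by rw [hw0, norm_mul]
  have w0p : 0 < ‖w0‖ := by rw [n0]; positivity
  have hl := lin l h0 h1 (z := z) (by linarith)
  rw [← hw0] at mW mV hg hf e0 hl ⊢
  have sz0 : z ∈ Slit := slit (z := z) (by simpa using ρ0)
  have oA : ∀ μ, ‖μ - z‖ ≤ 2 → ‖mA l μ - mA l z‖ ≤ 4 * N * ‖w0‖ / sz z := fun μ hμ => by
    have h2 := osc h0 h1 (z := z) (μ := μ) (by linarith)
    have h3 : 0 ≤ 2 * ‖pw l.al z‖ / sz z := by positivity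
    rw [mA, mA, ← mul_sub, norm_mul, n0]
    refine (mul_le_mul Na (h2.trans (mul_le_mul_of_nonneg_left hμ h3)) (norm_nonneg _)
      (by positivity)).trans_eq (by ring)
  have sm : 4 * N * ‖w0‖ / sz z ≤ ‖w0‖ / 32 := by
    rw [div_le_iff₀ ρ0]
    nlinarith
  have pW : (mY l z - mB l z, (1 : ℂ)) ∈ W := mW _ (by
    simp only [norm_one]
    nlinarith) (by
    have : mY l z - 1 * (l.a1 * pw l.al z) - (mY l z - mB l z) = -w0 := by
      rw [← e0, mA]; ring
    simp only [this, norm_neg]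
    nlinarith)
  obtain ⟨m, hm⟩ : ∃ m, m = g (mY l z - mB l z, 1) := ⟨_, rfl⟩
  obtain ⟨a1, a2, a3⟩ := hg _ pW
  simp only [one_mul, ← hm] at a1 a2 a3
  have m1 : ‖m - z - 1‖ ≤ 1 / 8 := by
    have h2 := a3 (z + 1) (by simp; linarith)
    have h3 := oA (z + 1) (by simp)
    have h4 : mY l (z + 1) - l.a1 * pw l.al (z + 1) - (mY l z - mB l z) =
        mY l (z + 1) - mY l z - w0 - (mA l (z + 1) - mA l z) := by
      rw [← e0, mA, mA]; ring
    have h5 : 4 * ‖w0‖ / sz z ≤ ‖w0‖ / 32 := by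
      rw [div_le_iff₀ ρ0]
      nlinarith
    rw [h4, ← sub_sub] at h2
    have h6 := norm_sub_le (mY l (z + 1) - mY l z - w0) (mA l (z + 1) - mA l z)
    refine le_of_mul_le_mul_left ?_ w0p
    linarith
  have m2 : ‖m - z‖ ≤ 2 := by
    have := norm_add_le (m - z - 1) 1
    rw [sub_add_cancel, norm_one] at this
    linarith
  have sm0 : m ∈ Slit := slit (z := z) (by linarith)
  have e1 : mY l m - mA l m = mY l z - mB l z := a2
  have pV : ∀ r : ℂ, ‖r‖ < sz z / (128 * N) → (mY l m - r * mA l m, r) ∈ V := fun r hr => by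
    rw [lt_div_iff₀ (by positivity)] at hr
    have r0 := norm_nonneg r
    refine mV _ ?_ ?_
    · show 32 * ‖r‖ * ‖l.b1‖ < _
      nlinarith [mul_le_mul_of_nonneg_left Nb r0, mul_lt_mul_of_pos_left hr wp]
    · have h2 : mY l z - r * (l.b1 * pw l.al z) - (mY l m - r * mA l m) =
          (r - 1) * (w0 + (mA l m - mA l z)) := by
        rw [← e0, show mY l m = mY l z - mB l z + mA l m by rw [← e1]; ring, mB]; ring
      have h3 := (norm_add_le w0 (mA l m - mA l z)).trans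
        (add_le_add le_rfl ((oA m m2).trans sm))
      have h4 : ‖r - 1‖ ≤ ‖r‖ + 1 := (norm_sub_le r 1).trans_eq (by rw [norm_one])
      show 32 * ‖mY l z - r * (l.b1 * pw l.al z) - (mY l m - r * mA l m)‖ < _
      rw [h2, norm_mul]
      have h5 := mul_le_mul h4 h3 (norm_nonneg _) (by linarith)
      have h6 : 66 * (‖r‖ + 1) < 2 * sz z := by nlinarith
      nlinarith [mul_lt_mul_of_pos_left h6 w0p]
  have θ1 : 1 < sz z / (128 * N) := by rwa [lt_div_iff₀ (by positivity), one_mul]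
  have uq : ∀ p ∈ V, ∀ μ, ‖μ - z‖ < sz z / 16 → mY l μ - p.2 * (l.b1 * pw l.al μ) = p.1 →
      f p = μ := fun p hp μ hμ he => by
    have := (hf p hp).2.2 μ hμ
    rw [he, sub_self, norm_zero, mul_zero] at this
    exact sub_eq_zero.1 (norm_le_zero_iff.1 (le_of_mul_le_mul_left (by linarith) w0p))
  obtain ⟨φ, hφ⟩ : ∃ φ : ℂ → ℂ, φ = fun r => f (mY l m - -r * mA l m, -r) := ⟨_, rfl⟩
  have pV' : ∀ r ∈ ball (0 : ℂ) (sz z / (128 * N)), (mY l m - -r * mA l m, -r) ∈ V :=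
    fun r hr => pV _ (by simpa using hr)
  have dφ : DifferentiableOn ℂ φ (ball 0 (sz z / (128 * N))) := by
    rw [hφ]
    exact df.comp (by fun_prop) pV'
  have b0 : (0 : ℂ) ∈ ball (0 : ℂ) (sz z / (128 * N)) := mem_ball_self (by linarith)
  have φ0 : φ 0 = m := by
    rw [hφ]
    exact uq _ (pV' 0 b0) m a1 (by simp)
  have φm : φ (-1) = z := by
    rw [hφ]
    refine uq _ (pV' (-1) (by simpa using θ1)) z (by simp; linarith) ?_
    simp only [neg_neg, one_mul]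
    exact e1.symm
  have hd : HasDerivAt φ 1 0 := by
    have h2 := (dφ.differentiableAt (isOpen_ball.mem_nhds b0)).hasDerivAt
    have h3 := (dY l h0 (φ0 ▸ sm0 : φ 0 ∈ Slit)).comp 0 h2
    have h4 := (((pw_deriv l.al (φ0 ▸ sm0 : φ 0 ∈ Slit)).comp 0 h2).const_mul l.b1)
    have h5 := h3.add ((hasDerivAt_id (0 : ℂ)).mul h4)
    have h6 : HasDerivAt (fun r : ℂ => mY l m + r * mA l m) (1 * mA l m) 0 :=
      ((hasDerivAt_id (0 : ℂ)).mul_const _).const_add _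
    have h7 := h5.unique (h6.congr_of_eventuallyEq (by
      filter_upwards [isOpen_ball.mem_nhds b0] with r hr
      have := (hf _ (pV' r hr)).2.1
      simp only [hφ, Function.comp, Pi.add_apply, Pi.mul_apply, id] at this ⊢
      linear_combination this))
    simp only [Function.comp, φ0, id, zero_mul, add_zero, one_mul, mA] at h7
    refine h2.congr_deriv (mul_left_cancel₀
      (mul_ne_zero (sub_ne_zero.2 hw) (pw_ne l.al m)) ?_)
    linear_combination h7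
  have hS := (st_SCH φ (sz z / (128 * N)) (sz z / 8) dφ (fun r hr => by
    have h2 := (hf _ (pV' r hr)).1
    have h3 := norm_sub_le_norm_sub_add_norm_sub (φ r) z m
    rw [norm_sub_rev z m] at h3
    rw [φ0]
    have : ‖φ r - z‖ < sz z / 16 := by rw [hφ]; exact h2
    linarith) hd 1 (by simpa using θ1)).2
  have dP : DifferentiableAt ℂ (fun x => (mY l x - mB l x, (1 : ℂ))) z :=
    ((dY l h0 sz0).differentiableAt.sub (dB l sz0)).prodMk (differentiableAt_const _)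
  have dm : DifferentiableAt ℂ (fun x => g (mY l x - mB l x, 1)) z :=
    (dg.differentiableAt (oW.mem_nhds pW)).comp z dP
  have dQ : DifferentiableAt ℂ (fun x => (mY l (g (mY l x - mB l x, 1)) -
      -1 * mA l (g (mY l x - mB l x, 1)), (-1 : ℂ))) z :=
    ((((dY l h0 (hm ▸ sm0)).differentiableAt.comp z dm)).sub
      (((dA l (hm ▸ sm0)).comp z dm).const_mul _)).prodMk (differentiableAt_const _)
  have qV : (mY l m - -1 * mA l m, (-1 : ℂ)) ∈ V := pV _ (by simpa using θ1)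
  obtain ⟨b1, b2, b3⟩ := hf _ qV
  refine ⟨m, fun x => f (mY l (g (mY l x - mB l x, 1)) - -1 * mA l (g (mY l x - mB l x, 1)), -1),
    (df.differentiableAt (oV.mem_nhds (hm ▸ qV))).comp z dQ, m1, e1, ?_, ?_, fun μ hμ => ?_,
    fun μ hμ => ?_, ?_⟩
  · simp only [← hm]
    simp only [mB] at b2 ⊢
    linear_combination b2
  · rw [φm, hφ, mul_one, norm_one] at hS
    simp only [← hm]
    refine hS.trans_eq ?_
    field_simp
  · rw [norm_sub_rev μ m]
    exact a3 μ (by linarith)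
  · have := b3 μ (by linarith)
    simp only [← hm]
    rw [norm_sub_rev μ]
    refine this.trans_eq ?_
    congr 2
    simp only [mB]
    ring
  · filter_upwards [dP.continuousAt.preimage_mem_nhds (oW.mem_nhds pW),
      dQ.continuousAt.preimage_mem_nhds (oV.mem_nhds (hm ▸ qV))] with x x1 x2 μ ν hμ hν u1 u2
    have h2 := (hg _ x1).2.2 μ (by linarith)
    have h3 : mY l μ - 1 * (l.a1 * pw l.al μ) - (mY l x - mB l x) = 0 := by
      rw [← u1, mA]; ring
    simp only [h3, norm_zero, mul_zero] at h2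
    have h4 : g (mY l x - mB l x, 1) = μ :=
      sub_eq_zero.1 (norm_le_zero_iff.1 (le_of_mul_le_mul_left (by linarith) w0p))
    refine (uq _ x2 ν (by linarith) ?_).symm
    simp only [h4]
    simp only [mB] at u2
    linear_combination u2

end INN

theorem st_INN : St_INN := by
  intro l hw h0 h1
  have wp : 0 < ‖l.a1 - l.b1‖ := norm_pos_iff.2 (sub_ne_zero.2 hw)
  obtain ⟨N, hN⟩ : ∃ N, N = (‖l.a1‖ + ‖l.b1‖) / ‖l.a1 - l.b1‖ + 1 := ⟨_, rfl⟩
  have N1 : 1 ≤ N := by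
    rw [hN]
    exact le_add_of_nonneg_left (by positivity)
  have Ne : N * ‖l.a1 - l.b1‖ = ‖l.a1‖ + ‖l.b1‖ + ‖l.a1 - l.b1‖ := by
    rw [hN]
    field_simp
  obtain ⟨C, hC⟩ : ∃ C, C = 2 * (1 / 8 + 1 / (128 * N)) * (128 * N) ^ 3 := ⟨_, rfl⟩
  have C0 : 0 ≤ C := by rw [hC]; positivity
  have key := fun (z : ℂ) (hz : z ∈ Om (128 * N + 4 * C)) => INN.loc l hw h0 h1 N1
    (by linarith [norm_nonneg l.b1]) (by linarith [norm_nonneg l.a1]) (z := z)
    (by have : 128 * N + 4 * C < sz z := hz; linarith)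
  choose! m F k1 k2 k3 k4 k5 k6 k7 k8 using key
  have tri : ∀ μ z c : ℂ, ‖μ - z‖ ≤ ‖μ - z - c‖ + ‖c‖ := fun μ z c => by
    simpa using norm_add_le (μ - z - c) c
  have bd : ∀ z ∈ Om (128 * N + 4 * C), ‖F z z - z - 2‖ ≤ 1 / 4 := fun z hz => by
    have h2 : 128 * N + 4 * C < sz z := hz
    refine (k5 z hz).trans ?_
    rw [← hC, div_le_iff₀ (by nlinarith)]
    nlinarith
  refine ⟨128 * N + 4 * C, C, m, fun z => F z z, by linarith, fun z hz => ?_, k2, k3, k4,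
    fun z hz => ⟨hC ▸ k5 z hz, bd z hz⟩, fun z hz μ hμ => ?_, fun z hz μ hμ => ?_⟩
  · refine ((k1 z hz).congr_of_eventuallyEq ?_).differentiableWithinAt
    filter_upwards [k8 z hz, (INN.om_open _).mem_nhds hz, ball_mem_nhds z one_pos] with x a1 a2 a3
    have h2 := mem_ball_iff_norm.1 a3
    have h3 := tri (m x) x 1
    have h4 := tri (F x x) x 2
    rw [norm_one] at h3
    rw [Complex.norm_two] at h4
    exact a1 (m x) (F x x)
      (by linarith [norm_sub_le_norm_sub_add_norm_sub (m x) x z, k2 x a2])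
      (by linarith [norm_sub_le_norm_sub_add_norm_sub (F x x) x z, bd x a2]) (k3 x a2) (k4 x a2)
  · have h3 := tri μ z 1
    rw [norm_one] at h3
    linarith [k6 z hz μ (by linarith), norm_nonneg (mY l μ - mA l μ - (mY l z - mB l z))]
  · have h3 := tri μ z 2
    rw [Complex.norm_two] at h3
    linarith [k7 z hz μ (by linarith),
      norm_nonneg (mY l μ + mB l μ - (mY l (m z) + mA l (m z)))]

end Pool.Agent.AO.X
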