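import Pool.Agent.Lib.AX.Blue

set_option autoImplicit false

noncomputable section

namespace Pool.Agent.AO.X

open Set Metric Filter Topology Complex

/-- The intercept of the model curve. -/
def loc_U (l : LD) (z : ℂ) : ℂ := mY l z - mB l z

/-- The power cut along the downward ray. -/
def loc_P (a : ℝ) (z : ℂ) : ℂ := exp (a * log (-(I * z)))

theorem loc_pw_pos (a : ℝ) {z : ℂ} (h : 0 < z.re) :
    pw a z = loc_P a z * exp (a * (Real.pi / 2 * I)) := by
  have hi : 0 < (I * z).im := by simpa using h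
  have e : log (I * z) = log (-(I * z)) + Real.pi * I := by
    rw [log, log, arg_neg_eq_arg_sub_pi_of_im_pos hi, norm_neg]
    push_cast
    ring
  rw [pw, loc_P, e, ← exp_add]
  congr 1
  ring

theorem loc_pw_neg (a : ℝ) {z : ℂ} (h : z.re < 0) :
    pw a z = loc_P a z * exp (a * (-(3 * Real.pi / 2) * I)) := by
  have hi : (I * z).im < 0 := by simpa using h
  have e : log (I * z) = log (-(I * z)) - Real.pi * I := by
    rw [log, log, arg_neg_eq_arg_add_pi_of_im_neg hi, norm_neg]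
    push_cast
    ring
  rw [pw, loc_P, e, ← exp_add]
  congr 1
  ring

theorem loc_P_lim (a : ℝ) {ζ : ℝ → ℂ} (h : Tendsto ζ atTop (𝓝 I)) :
    Tendsto (fun t => loc_P a (ζ t)) atTop (𝓝 1) := by
  have h1 : Tendsto (fun t => -(I * ζ t)) atTop (𝓝 1) := by
    have := (h.const_mul I).neg
    simpa using this
  have h2 := (continuousAt_clog one_mem_slitPlane).tendsto.comp h1
  have h3 := (h2.const_mul (a : ℂ)).cexp
  simpa [loc_P] using h3

theorem loc_tz {w : ℝ → ℂ} {B : ℝ} (h : ∀ t : ℝ, ‖w t - t * I‖ ≤ B) :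
    Tendsto (fun t : ℝ => w t / t) atTop (𝓝 I) := by
  rw [tendsto_iff_norm_sub_tendsto_zero]
  refine squeeze_zero' (Eventually.of_forall fun t => norm_nonneg _) ?_
    (tendsto_id.const_div_atTop B)
  filter_upwards [eventually_gt_atTop (0 : ℝ)] with t ht
  have h0 : (t : ℂ) ≠ 0 := ofReal_ne_zero.2 ht.ne'
  have e : w t / t - I = (w t - t * I) / t := by field_simp
  rw [e, norm_div, norm_real, Real.norm_of_nonneg ht.le]
  exact div_le_div_of_nonneg_right (h t) ht.le

theorem loc_lim (l : LD) (θ : ℂ) {w : ℝ → ℂ} {B : ℝ} (h : ∀ t : ℝ, ‖w t - t * I‖ ≤ B)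
    (h0 : ∀ t : ℝ, w t ≠ 0)
    (hp : ∀ a t : ℝ, 0 < t → pw a (w t / t) = loc_P a (w t / t) * exp (a * θ)) :
    Tendsto (fun t : ℝ => loc_U l (w t) / ((t ^ (1 + l.al) : ℝ) : ℂ)) atTop
      (𝓝 ((l.a1 - l.b1) / (1 + l.al) * exp ((1 + l.al : ℝ) * θ))) := by
  have hz := loc_tz h
  have hi : Tendsto (fun t : ℝ => ((t⁻¹ : ℝ) : ℂ)) atTop (𝓝 0) := by
    have := (continuous_ofReal.tendsto 0).comp tendsto_inv_atTop_zero
    simpa [Function.comp_def] using this
  have h1 := (((loc_P_lim (1 + l.al) hz).mul_const (exp ((1 + l.al : ℝ) * θ))).const_mul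
    ((l.a1 - l.b1) / (1 + l.al))).sub
    ((((loc_P_lim l.al hz).mul_const (exp (l.al * θ))).const_mul l.b1).mul hi)
  rw [one_mul, mul_zero, sub_zero] at h1
  refine h1.congr' ?_
  filter_upwards [eventually_gt_atTop (0 : ℝ)] with t ht
  have ht0 : (t : ℂ) ≠ 0 := ofReal_ne_zero.2 ht.ne'
  have hz0 : w t / t ≠ 0 := div_ne_zero (h0 t) ht0
  have e : w t = t * (w t / t) := by field_simp
  have e1 : pw (1 + l.al) (w t) = (t ^ (1 + l.al) : ℝ) * pw (1 + l.al) (w t / t) := by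
    rw [← pw_smul _ ht hz0, ← e]
  have e2 : pw l.al (w t) = (t ^ l.al : ℝ) * pw l.al (w t / t) := by
    rw [← pw_smul _ ht hz0, ← e]
  have e3 : ((t ^ (1 + l.al) : ℝ) : ℂ) = t * (t ^ l.al : ℝ) := by
    rw [Real.rpow_add ht, Real.rpow_one, ofReal_mul]
  have e4 : ((t ^ l.al : ℝ) : ℂ) ≠ 0 := ofReal_ne_zero.2 (Real.rpow_pos_of_pos ht _).ne'
  rw [loc_U, mY, mB, e1, e2, ← hp _ t ht, ← hp _ t ht, e3, ofReal_inv]
  generalize ((t ^ l.al : ℝ) : ℂ) = s at e4 ⊢
  generalize (l.a1 - l.b1) / (1 + l.al) = y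
  field_simp

theorem loc_U_diff (l : LD) {z : ℂ} (h : z.re ≠ 0) : DifferentiableAt ℂ (loc_U l) z := by
  have hs : z ∈ Slit := (slit_iff z).2 (Or.inr h)
  exact ((pw_deriv (1 + l.al) hs).differentiableAt.const_mul _).sub
    ((pw_deriv l.al hs).differentiableAt.const_mul _)

theorem loc_chain {l : LD} {M C : ℝ} {m F : ℂ → ℂ} (hI : Inn l M C m F) {c : ℂ} {k : ℕ}
    (hA : ∀ u, c * mA l u ^ k = mY l u) (hB : ∀ u, c * mB l u ^ k = mY l u) (n : ℕ) (z : ℂ)
    (hz : ∀ j < n, F^[j] z ∈ Om M) : ∃ x : ℕ → ℂ, (∀ i < 2 * n, Rr c k (x i) (x (i + 1))) ∧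
      x 0 = loc_U l z ∧ x (2 * n) = loc_U l (F^[n] z) := by
  refine ⟨fun i => if i % 2 = 0 then loc_U l (F^[i / 2] z) else
    mY l (m (F^[i / 2] z)) + mA l (m (F^[i / 2] z)), fun i hi => ?_, by simp, by simp⟩
  have hm := hz (i / 2) (by omega)
  by_cases h : i % 2 = 0
  · have h1 : ¬ (i + 1) % 2 = 0 := by omega
    have h2 : (i + 1) / 2 = i / 2 := by omega
    simp only [if_pos h, if_neg h1, h2]
    left
    rw [loc_U, ← hI.e1 _ hm]
    have := hA (m (F^[i / 2] z))
    generalize mA l (m (F^[i / 2] z)) = p at this ⊢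
    generalize mY l (m (F^[i / 2] z)) = y at this ⊢
    rw [show (y + p - (y - p)) / 2 = p by ring, this]
    ring
  · have h1 : (i + 1) % 2 = 0 := by omega
    have h2 : (i + 1) / 2 = i / 2 + 1 := by omega
    simp only [if_neg h, if_pos h1, h2]
    right
    rw [loc_U, ← hI.e2 _ hm, Function.iterate_succ_apply']
    have := hB (F (F^[i / 2] z))
    generalize mB l (F (F^[i / 2] z)) = p at this ⊢
    generalize mY l (F (F^[i / 2] z)) = y at this ⊢
    rw [show (y + p - (y - p)) / 2 = p by ring, this]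
    ring

theorem st_LOC (hC : St_CHAIN) : St_LOC := by
  intro l M C M' m F ψ φ hT hI hM hF
  by_contra hne
  have hid : ∀ z : ℂ, z.im < -(M' + 1) → φ (ψ z) = z := fun z hz => by
    by_contra h
    exact hne ⟨z, hz, sub_ne_zero.2 h⟩
  obtain ⟨-, hab, k, hk, hal, hk2⟩ := hT
  have hM1 := hI.M1
  have hk3 : (3 : ℝ) ≤ k := by exact_mod_cast hk
  have hal0 : 0 < l.al := by rw [hal]; exact one_div_pos.2 (by linarith)
  have hal1 : l.al < 1 := by rw [hal, div_lt_one (by linarith)]; linarith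
  have hkal : (k : ℝ) * l.al = 1 + l.al := by
    have : (k : ℝ) - 1 ≠ 0 := by linarith
    rw [hal]
    field_simp
    ring
  have ha1 : l.a1 ≠ 0 := fun h => by
    rw [h, zero_pow (by omega)] at hk2
    exact hab (h.trans (pow_eq_zero_iff (by omega) |>.1 hk2.symm).symm)
  have h1al : (1 + l.al : ℂ) ≠ 0 := by
    have : ((1 + l.al : ℝ) : ℂ) ≠ 0 := ofReal_ne_zero.2 (by linarith)
    simpa using this
  have hy : (l.a1 - l.b1) / (1 + l.al) ≠ 0 := div_ne_zero (sub_ne_zero.2 hab) h1al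
  have hp : l.a1 ^ k ≠ 0 := pow_ne_zero _ ha1
  have hA : ∀ u, (l.a1 - l.b1) / (1 + l.al) / l.a1 ^ k * mA l u ^ k = mY l u := fun u => by
    rw [mA, mY, mul_pow, pw_pow, hkal, ← mul_assoc, div_mul_cancel₀ _ hp]
  have hB : ∀ u, (l.a1 - l.b1) / (1 + l.al) / l.a1 ^ k * mB l u ^ k = mY l u := fun u => by
    rw [mB, mY, mul_pow, pw_pow, hkal, ← hk2, ← mul_assoc, div_mul_cancel₀ _ hp]
  obtain ⟨n, hn⟩ := exists_nat_ge (M' + 4)
  obtain ⟨q, hq, hch, hfar⟩ := hC _ k (2 * n) (div_ne_zero hy hp) (by omega)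
  have hre : ∀ u v : ℂ, ‖u - v‖ ≤ 1 → |u.re - v.re| ≤ 1 ∧ |u.im - v.im| ≤ 1 := fun u v h =>
    ⟨by simpa using (abs_re_le_norm (u - v)).trans h, by simpa using (abs_im_le_norm (u - v)).trans h⟩
  set St : Set ℂ := {w | M' + 1 < w.re} ∩ {w | w.re < M' + 5} with hSt
  have hSo : IsOpen St :=
    (isOpen_lt continuous_const continuous_re).inter (isOpen_lt continuous_re continuous_const)
  have hSc : IsPreconnected St :=
    ((convex_halfSpace_re_gt _).inter (convex_halfSpace_re_lt _)).isPreconnected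
  have hoφ : IsOpen {z : ℂ | M' < z.re ∨ z.im < -M'} :=
    (isOpen_lt continuous_const continuous_re).union (isOpen_lt continuous_im continuous_const)
  have hoψ : IsOpen {z : ℂ | z.re < -M' ∨ z.im < -M'} :=
    (isOpen_lt continuous_re continuous_const).union (isOpen_lt continuous_im continuous_const)
  have hL : ∀ w ∈ St, (φ w - 2 * n).re < -M' ∧ (ψ (φ w - 2 * n)).re < 0 ∧
      ‖ψ (φ w - 2 * n) - (w - 2 * n)‖ ≤ 2 := fun w hw => by
    have w1 : M' + 1 < w.re := hw.1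
    have w2 : w.re < M' + 5 := hw.2
    have b1 := hF.bφ w (Or.inl (by linarith))
    have r1 := abs_le.1 (hre _ _ b1).1
    have r2 : (φ w - 2 * n).re = (φ w).re - 2 * n := by simp
    have r3 : (φ w - 2 * n).re < -M' - 1 := by rw [r2]; linarith [r1.2]
    have b2 := hF.bψ (φ w - 2 * n) (Or.inl (by linarith))
    have r4 := abs_le.1 (hre _ _ b2).1
    refine ⟨by linarith, by linarith [r4.2], ?_⟩
    have e : ψ (φ w - 2 * n) - (w - 2 * n) = (ψ (φ w - 2 * n) - (φ w - 2 * n)) + (φ w - w) := by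
      ring
    rw [e]
    linarith [norm_add_le (ψ (φ w - 2 * n) - (φ w - 2 * n)) (φ w - w)]
  have hg : DifferentiableOn ℂ (fun w => q (loc_U l (ψ (φ w - 2 * n)), loc_U l w)) St := by
    intro w hw
    have w1 : M' + 1 < w.re := hw.1
    obtain ⟨r1, r2, -⟩ := hL w hw
    have d1 : DifferentiableAt ℂ φ w :=
      hF.dφ.differentiableAt (hoφ.mem_nhds (Or.inl (by linarith)))
    have d2 : DifferentiableAt ℂ ψ (φ w - 2 * n) :=
      hF.dψ.differentiableAt (hoψ.mem_nhds (Or.inl r1))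
    have d3 : DifferentiableAt ℂ (fun w => ψ (φ w - 2 * n)) w :=
      DifferentiableAt.comp (g := ψ) w d2 (d1.sub_const _)
    have d4 : DifferentiableAt ℂ (fun w => loc_U l (ψ (φ w - 2 * n))) w :=
      DifferentiableAt.comp (g := loc_U l) w (loc_U_diff l r2.ne) d3
    have d5 : DifferentiableAt ℂ (loc_U l) w := loc_U_diff l (by linarith)
    exact (DifferentiableAt.comp (g := q) w (hq _) (d4.prodMk d5)).differentiableWithinAt
  have hz : ∀ z : ℂ, z.im < -(M' + 1) →
      q (loc_U l (ψ (φ (ψ z) - 2 * n)), loc_U l (ψ z)) = 0 := fun z hz => by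
    rw [hid z hz]
    have him : ∀ j : ℕ, (z - 2 * n + 2 * j).im = z.im := fun j => by simp
    have hit : ∀ j : ℕ, F^[j] (ψ (z - 2 * n)) = ψ (z - 2 * n + 2 * j) := fun j => by
      induction j with
      | zero => simp
      | succ j ih =>
        rw [Function.iterate_succ_apply', ih, ← hF.fψ _ (by rw [him]; linarith)]
        congr 1
        push_cast
        ring
    obtain ⟨x, hx, x0, x1⟩ := loc_chain hI hA hB n (ψ (z - 2 * n)) fun j _ => by
      rw [hit]
      have b := hF.bψ (z - 2 * n + 2 * j) (Or.inr (by rw [him]; linarith))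
      have r := abs_le.1 (hre _ _ b).2
      rw [him] at r
      exact lt_max_of_lt_right (show M < -(ψ (z - 2 * n + 2 * j)).im by linarith [r.2])
    have := hch x hx
    rwa [x0, x1, hit, sub_add_cancel] at this
  set z0 : ℂ := ⟨M' + 3, -(M' + 2)⟩ with hz0
  have z1 : z0.im < -(M' + 1) := by simp only [hz0]; linarith
  have b0 := hF.bψ z0 (Or.inr (by linarith))
  have m0 : ψ z0 ∈ St := by
    have r := abs_le.1 (hre _ _ b0).1
    have e : z0.re = M' + 3 := rfl
    rw [e] at r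
    exact ⟨show M' + 1 < _ by linarith [r.1], show _ < M' + 5 by linarith [r.2]⟩
  have ev : ∀ᶠ z in 𝓝[≠] z0, z.im < -(M' + 1) :=
    nhdsWithin_le_nhds ((isOpen_lt continuous_im continuous_const).mem_nhds z1)
  have tψ : Tendsto ψ (𝓝[≠] z0) (𝓝[≠] (ψ z0)) := by
    refine tendsto_nhdsWithin_iff.2 ⟨?_, ?_⟩
    · exact (hF.dψ.differentiableAt (hoψ.mem_nhds
        (Or.inr (by linarith)))).continuousAt.tendsto.mono_left nhdsWithin_le_nhds
    · filter_upwards [ev, self_mem_nhdsWithin] with z h1 h2 h3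
      apply h2
      have h4 : ψ z = ψ z0 := h3
      show z = z0
      rw [← hid z h1, h4, hid z0 z1]
  have hall := (hg.analyticOnNhd hSo).eqOn_zero_of_preconnected_of_frequently_eq_zero hSc m0
    (tψ.frequently (ev.mono hz).frequently)
  set w : ℝ → ℂ := fun t => ⟨M' + 3, t⟩ with hw
  have wS : ∀ t, w t ∈ St := fun t =>
    ⟨show M' + 1 < M' + 3 by linarith, show M' + 3 < M' + 5 by linarith⟩
  have wp : ∀ t, 0 < (w t).re := fun t => show 0 < M' + 3 by linarith
  have wb : ∀ t : ℝ, ‖w t - t * I‖ ≤ M' + 3 := fun t => by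
    have e : w t - t * I = ((M' + 3 : ℝ) : ℂ) := by
      apply Complex.ext <;> simp [hw]
    rw [e, norm_real, Real.norm_of_nonneg (by linarith)]
  have vb : ∀ t : ℝ, ‖ψ (φ (w t) - 2 * n) - t * I‖ ≤ 2 + (M' + 3) + ‖(2 * n : ℂ)‖ := fun t => by
    have e : ψ (φ (w t) - 2 * n) - t * I =
        (ψ (φ (w t) - 2 * n) - (w t - 2 * n)) + (w t - t * I) - 2 * n := by ring
    rw [e]
    refine (norm_sub_le _ _).trans ?_
    linarith [norm_add_le (ψ (φ (w t) - 2 * n) - (w t - 2 * n)) (w t - t * I),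
      (hL _ (wS t)).2.2, wb t]
  have lY := loc_lim l (Real.pi / 2 * I) wb (fun t h => by simpa [h] using wp t)
    fun a t ht => loc_pw_pos a (by rw [div_ofReal_re]; exact div_pos (wp t) ht)
  have lX := loc_lim l (-(3 * Real.pi / 2) * I) vb
    (fun t h => by simpa [h] using (hL _ (wS t)).2.1)
    fun a t ht => loc_pw_neg a (by
      rw [div_ofReal_re]; exact div_neg_of_neg_of_pos (hL _ (wS t)).2.1 ht)
  set X : ℂ := (l.a1 - l.b1) / (1 + l.al) * exp ((1 + l.al : ℝ) * (-(3 * Real.pi / 2) * I))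
    with hX
  set Y : ℂ := (l.a1 - l.b1) / (1 + l.al) * exp ((1 + l.al : ℝ) * (Real.pi / 2 * I)) with hY
  have X0 : 0 < ‖X‖ := norm_pos_iff.2 (mul_ne_zero hy (exp_ne_zero _))
  have big : Tendsto (fun t : ℝ => ‖loc_U l (ψ (φ (w t) - 2 * n))‖) atTop atTop := by
    refine (lX.norm.pos_mul_atTop X0 (tendsto_rpow_atTop (y := 1 + l.al) (by linarith))).congr' ?_
    filter_upwards [eventually_gt_atTop (0 : ℝ)] with t ht
    have := Real.rpow_pos_of_pos ht (1 + l.al)
    rw [norm_div, norm_real, Real.norm_of_nonneg this.le, div_mul_cancel₀ _ this.ne']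
  have key : ∀ e : ℝ, 0 < e → ‖Y - X‖ ≤ e * ‖X‖ := fun e he => by
    obtain ⟨ρ, hρ⟩ := hfar e he
    refine le_of_tendsto_of_tendsto (lY.sub lX).norm (lX.norm.const_mul e) ?_
    filter_upwards [eventually_gt_atTop (0 : ℝ), big.eventually_gt_atTop ρ] with t ht hb
    have := Real.rpow_pos_of_pos ht (1 + l.al)
    rw [← sub_div, norm_div, norm_div, norm_real, Real.norm_of_nonneg this.le, ← mul_div_assoc]
    exact div_le_div_of_nonneg_right (hρ _ _ (hall (wS t)) hb) this.le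
  have hYX : Y = X := by
    rw [← sub_eq_zero, ← norm_le_zero_iff]
    refine le_of_forall_pos_le_add fun e he => ?_
    have := key (e / ‖X‖) (div_pos he X0)
    rwa [div_mul_cancel₀ _ X0.ne', ← zero_add e] at this
  obtain ⟨j, hj⟩ := exp_eq_exp_iff_exists_int.1 (mul_left_cancel₀ hy hYX)
  have hpi : (2 * Real.pi * I : ℂ) ≠ 0 := two_pi_I_ne_zero
  have e1 : ((1 + l.al : ℝ) : ℂ) = j := by
    apply mul_right_cancel₀ hpi
    linear_combination hj
  have e2 : 1 + l.al = j := by exact_mod_cast e1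
  have j1 : (1 : ℤ) < j := by exact_mod_cast (show ((1 : ℤ) : ℝ) < j by push_cast; linarith)
  have j2 : j < (2 : ℤ) := by exact_mod_cast (show (j : ℝ) < ((2 : ℤ) : ℝ) by push_cast; linarith)
  omega

end Pool.Agent.AO.X
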