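import Pool.Agent.Lib.AX.Blue
import Pool.Agent.Lib.AO.Low4

set_option autoImplicit false

noncomputable section

namespace Pool.Agent.AO.X

open Set Metric Filter Topology Complex

theorem lowx_mem {h : ℝ} (hh : 0 < h) (t : ℝ) : (t : ℂ) ∈ strip h := by
  show |(t : ℂ).im| < h
  simpa using hh

theorem lowx_per {d : Dat} {h T : ℝ} {Φ : ℂ → S3} (hP : PSol d (strip h) T Φ) (hh : 0 < h)
    (t : ℝ) (p : ℕ) : Φ ((t + p * T : ℝ) : ℂ) = Φ t := by
  induction p with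
  | zero => simp
  | succ p ih =>
    have e : ((t + (p + 1 : ℕ) * T : ℝ) : ℂ) = ((t + p * T : ℝ) : ℂ) + T := by
      push_cast
      ring
    rw [e, hP.per _ (lowx_mem hh _), ih]

theorem lowx_lt {d : Dat} {h T : ℝ} {Φ : ℂ → S3} (hP : PSol d (strip h) T Φ) (hh : 0 < h)
    {s t : ℝ} (hs : 0 < s) (ht : t < T / 2) (hst : s < t) : fY Φ s ≠ fY Φ t := by
  intro e
  have hd : ∀ x : ℝ, HasDerivAt (fun x : ℝ => (fY Φ x).re) (fA Φ x - fB Φ x).re x := fun x =>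
    (hP.sol.dY x (lowx_mem hh x)).real_of_complex
  obtain ⟨c, hc, h0⟩ := exists_hasDerivAt_eq_zero hst
    (fun x _ => (hd x).continuousAt.continuousWithinAt) (congrArg re e) (fun x _ => hd x)
  have hj := hP.cnj c (lowx_mem hh c)
  rw [conj_ofReal] at hj
  have a1 : (fA Φ c).im = 0 := conj_eq_iff_im.1 (congrArg Prod.fst hj).symm
  have a2 : (fB Φ c).im = 0 := conj_eq_iff_im.1 (congrArg (fun σ : S3 => σ.2.1) hj).symm
  have a3 : fA Φ c = fB Φ c := by
    refine Complex.ext ?_ (a1.trans a2.symm)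
    rw [sub_re] at h0
    linarith
  obtain ⟨k, hk⟩ := (hP.zer c).1 a3
  have hT : 0 < T / 2 := half_pos hP.Tp
  have k0 : (0 : ℝ) < k := by
    by_contra hc'
    push Not at hc'
    have := mul_nonpos_of_nonpos_of_nonneg hc' hT.le
    linarith [hc.1]
  have k1 : (1 : ℝ) ≤ k := by exact_mod_cast (show (1 : ℤ) ≤ k from by exact_mod_cast k0)
  have := mul_le_mul_of_nonneg_right k1 hT.le
  linarith [hc.2]

theorem lowx_inj {d : Dat} {h T : ℝ} {Φ : ℂ → S3} (hP : PSol d (strip h) T Φ) (hh : 0 < h)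
    {s t : ℝ} (hs : 0 < s) (hs' : s < T / 2) (ht : 0 < t) (ht' : t < T / 2)
    (e : fY Φ s = fY Φ t) : s = t := by
  rcases lt_trichotomy s t with a | a | a
  · exact absurd e (lowx_lt hP hh hs ht' a)
  · exact a
  · exact absurd e.symm (lowx_lt hP hh ht hs' a)

theorem lowx_main {d : Dat} {h R κ T U x0 ε η r0 : ℝ} {S : Finset ℂ} {D : Set ℂ} {Φ : ℂ → S3}
    {p : ℕ} (hS : Sc d h R κ S D Φ) (hP : PSol d (strip h) T Φ) (hH : Hyp d Φ) (hU : 0 < U)
    (hUp : 2 * U = p * T) (hx : 0 < x0) (hx' : x0 < T / 2) (hR : |x0| + h + 2 * U + 3 ≤ R)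
    (hε : 0 < ε) (hη : 0 < η) (hηε : η ≤ ε / 4) (hη4 : η ≤ 1 / 4) (hr0 : 0 < r0) {L : ℝ}
    (hL : U + 1 ≤ L) (hC : ∀ r : ℝ, 0 < r → r < r0 → Ctx d h R κ S Φ L ε η r) :
    ∃ q0 : ℕ, ∀ q : ℕ, q0 ≤ q → ∃ r : ℝ, 0 < r ∧ r < r0 ∧ |q * r - U| ≤ η * r ∧
      ∀ τ : ℂ, |τ.re - x0| < η * r → -(η * r) < τ.im → τ.im < h - 2 * ε * r →
        Tube h R κ S ε η r τ (2 * q) ∧ (dbl d Φ η r)^[q] τ = τ + p * T := by
  obtain ⟨δ, hδ, hH⟩ := hH
  have hh := hS.hp
  have him : ∀ b ∈ S, |b.im| = h := fun b hb => by rw [hS.im b hb, abs_of_pos hh]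
  have hx2 : 0 < T / 2 - x0 := by linarith
  obtain ⟨ρ, hρ, ρ1, ρ2, ρ3, ρ4, ρ5, ρ6, ρ7⟩ : ∃ ρ : ℝ, 0 < ρ ∧ ρ ≤ r0 ∧ ρ ≤ δ ∧ ρ ≤ 1 ∧
      ρ ≤ 1 / ε ∧ ρ ≤ h / (4 * ε) ∧ ρ ≤ x0 ∧ ρ ≤ T / 2 - x0 := by
    refine ⟨min r0 (min δ (min 1 (min (1 / ε) (min (h / (4 * ε)) (min x0 (T / 2 - x0)))))),
      by positivity, ?_, ?_, ?_, ?_, ?_, ?_, ?_⟩ <;> simp only [min_le_iff, le_refl, true_or, or_true]
  obtain ⟨q0, hq0⟩ := exists_nat_gt (U / ρ + 1)
  refine ⟨q0, fun q hq => ?_⟩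
  have hq' : U / ρ + 1 < q := hq0.trans_le (by exact_mod_cast hq)
  have hTρ : 0 < U / ρ := by positivity
  have qm : 0 < (q : ℝ) - η := by linarith
  have qp : 0 < (q : ℝ) + η := by linarith
  have i12 : U / (q + η) ≤ U / (q - η) := div_le_div_of_nonneg_left hU.le qm (by linarith)
  have facts : ∀ r ∈ Icc (U / (q + η)) (U / (q - η)), 0 < r ∧ r < ρ ∧ U ≤ q * r + η * r ∧
      q * r ≤ U + η * r := by
    intro r hr
    have a1 : U ≤ r * (q + η) := (div_le_iff₀ qp).1 hr.1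
    have a2 : r * (q - η) ≤ U := (le_div_iff₀ qm).1 hr.2
    have a3 : 0 < r := lt_of_lt_of_le (by positivity) hr.1
    have a4 : U < (q - η) * ρ := (div_lt_iff₀ hρ).1 (by linarith)
    refine ⟨a3, ?_, by linarith, by linarith⟩
    by_contra hc
    push Not at hc
    nlinarith
  have small : ∀ r : ℝ, 0 < r → r < ρ → r ≤ 1 ∧ ε * r ≤ 1 ∧ 4 * (ε * r) ≤ h ∧ η * r ≤ 1 ∧
      η * r < h ∧ 0 < h - 2 * ε * r := by
    intro r a b
    have c1 : r * ε ≤ 1 := (le_div_iff₀ hε).1 (b.le.trans ρ4)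
    have c2 : r * (4 * ε) ≤ h := (le_div_iff₀ (by positivity)).1 (b.le.trans ρ5)
    have c3 : r ≤ 1 := b.le.trans ρ3
    have c4 : η * r ≤ ε * r / 4 := by nlinarith
    have c5 : 0 < ε * r := mul_pos hε a
    exact ⟨c3, by linarith, by linarith, by linarith, by linarith, by linarith⟩
  have tube : ∀ r ∈ Icc (U / (q + η)) (U / (q - η)), ∀ τ : ℂ, |τ.re - x0| < η * r →
      -(η * r) < τ.im → τ.im < h - 2 * ε * r → Tube h R κ S ε η r τ (2 * q) := by
    intro r hr τ h1 h2 h3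
    obtain ⟨a, b, -, c⟩ := facts r hr
    obtain ⟨s1, s2, s3, -, -, -⟩ := small r a b
    exact low_tube hS.kp him hR hε hη hηε hη4 a s1 s2 s3 c h1 h2 h3
  have tubeR : ∀ r ∈ Icc (U / (q + η)) (U / (q - η)), ∀ t : ℝ, |t - x0| < η * r →
      Tube h R κ S ε η r t (2 * q) := by
    intro r hr t h1
    obtain ⟨a, b, -, -⟩ := facts r hr
    obtain ⟨-, -, -, -, -, s6⟩ := small r a b
    exact tube r hr t (by simpa using h1) (by simpa using mul_pos hη a) (by simpa using s6)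
  have ctx : ∀ r ∈ Icc (U / (q + η)) (U / (q - η)),
      Ctx d h R κ S Φ L ε η r ∧ q * r ≤ L := by
    intro r hr
    obtain ⟨a, b, -, c⟩ := facts r hr
    obtain ⟨-, -, -, s4, -, -⟩ := small r a b
    exact ⟨hC r a (b.trans_le ρ1), by linarith⟩
  have x0in : ∀ r ∈ Icc (U / (q + η)) (U / (q - η)), |x0 - x0| < η * r := by
    intro r hr
    simpa using mul_pos hη (facts r hr).1
  have cont : ContinuousOn (fun r : ℝ => ((dbl d Φ η r)^[q] x0).re)
      (Icc (U / (q + η)) (U / (q - η))) := by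
    intro r hr
    have c1 := ((ctx r hr).1.dif x0 q (ctx r hr).2 (tubeR r hr x0 (x0in r hr))).continuousAt
    have c2 : ContinuousAt (fun s : ℝ => ((x0 : ℂ), (s : ℂ))) r := by fun_prop
    have c3 := ContinuousAt.comp (f := fun s : ℝ => ((x0 : ℂ), (s : ℂ))) c1 c2
    exact (Complex.continuous_re.continuousAt.comp c3).continuousWithinAt
  have est : ∀ r ∈ Icc (U / (q + η)) (U / (q - η)), ∀ t : ℝ, |t - x0| < η * r →
      |((dbl d Φ η r)^[q] t).re - (t + 2 * (q * r))| ≤ η * r := by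
    intro r hr t ht
    have o := (ctx r hr).1.orb t q (ctx r hr).2 (tubeR r hr t ht) q le_rfl
    have := (Complex.abs_re_le_norm _).trans o
    simpa [mul_assoc] using this
  have mid : x0 + 2 * U ∈ Icc ((fun r : ℝ => ((dbl d Φ η r)^[q] x0).re) (U / (q + η)))
      ((fun r : ℝ => ((dbl d Φ η r)^[q] x0).re) (U / (q - η))) := by
    have m1 := left_mem_Icc.2 i12
    have m2 := right_mem_Icc.2 i12
    have e1 : q * (U / (q + η)) + η * (U / (q + η)) = U := by field_simp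
    have e2 : q * (U / (q - η)) - η * (U / (q - η)) = U := by field_simp
    have p1 := mul_pos hη (facts _ m1).1
    have p2 := mul_pos hη (facts _ m2).1
    have o1 := (abs_le.1 (est _ m1 x0 (x0in _ m1))).2
    have o2 := (abs_le.1 (est _ m2 x0 (x0in _ m2))).1
    constructor
    · beta_reduce; linarith
    · beta_reduce; linarith
  obtain ⟨r, hr, hrv⟩ := intermediate_value_Icc i12 cont mid
  beta_reduce at hrv
  obtain ⟨a, b, c, e⟩ := facts r hr
  obtain ⟨s1, s2, s3, s4, s5, s6⟩ := small r a b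
  have hηr := mul_pos hη a
  have hη1 : η * r ≤ r / 4 := by nlinarith
  have ch := fun (t : ℝ) (ht : |t - x0| < η * r) =>
    low_chain hP (ctx r hr).1 hηr s5 (ctx r hr).2 (tubeR r hr t ht)
  have per : SameL Φ ((x0 + 2 * U : ℝ) : ℂ) x0 := by
    rw [hUp]
    simp only [SameL, fB, fY, lowx_per hP hh x0 p, and_self]
  have all := hH r a (b.trans_le ρ2) q ⟨x0, x0 + 2 * U, hrv ▸ (ch x0 (x0in r hr)).2, per⟩
  refine ⟨r, a, b.trans_le ρ1, abs_le.2 ⟨by linarith, by linarith⟩, fun τ h1 h2 h3 =>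
    ⟨tube r hr τ h1 h2 h3, ?_⟩⟩
  have idn := low_ident (F := fun z => ((dbl d Φ η r)^[q] z, 0)) (G := fun z => (z + p * T, 0))
    (x0 := x0) hηr s6 ?_ ?_ τ h1 h2 h3
  · exact congrArg Prod.fst idn
  · intro z z1 z2 z3
    have tb := tube r hr z z1 z2 z3
    have d1 := (ctx r hr).1.dif z q (ctx r hr).2 tb
    have d2 : DifferentiableAt ℂ (fun s : ℂ => (s, (r : ℂ))) z := by fun_prop
    have d3 : DifferentiableAt ℂ (fun s : ℂ => (dbl d Φ η r)^[q] s) z :=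
      DifferentiableAt.comp (f := fun s : ℂ => (s, (r : ℂ))) z d1 d2
    exact ⟨d3.prodMk (differentiableAt_const _), by fun_prop⟩
  · intro t ht
    obtain ⟨u1, u2⟩ := ch t ht
    have u3 := (all t _ u2).2
    have u4 : ((((dbl d Φ η r)^[q] t).re : ℝ) : ℂ) = (dbl d Φ η r)^[q] t :=
      Complex.ext (by simp) (by simp [u1])
    obtain ⟨v1, v2⟩ := abs_le.1 (est r hr t ht)
    obtain ⟨w1, w2⟩ := abs_lt.1 ht
    refine Prod.ext ?_ rfl
    show (dbl d Φ η r)^[q] t = t + p * T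
    rw [← u4]
    generalize ((dbl d Φ η r)^[q] t).re = y at u3 v1 v2
    have u5 := lowx_per hP hh (y - p * T) p
    rw [sub_add_cancel] at u5
    have u6 : fY Φ ((y - p * T : ℝ) : ℂ) = fY Φ t := by
      rw [← u3]
      simp only [fY, u5]
    have u7 := lowx_inj hP hh (by linarith) (by linarith) (by linarith) (by linarith) u6
    rw [← u7]
    push_cast
    ring

theorem st_LOW : St_LOW := by
  intro d h R κ T S D Φ x0 ε r0 p hS hP _ hH hp hx hx' hR hε hr0 hC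
  have hT := hP.Tp
  have hp1 : (1 : ℝ) ≤ p := by exact_mod_cast hp
  have hU : 0 < p * T := by positivity
  obtain ⟨q0, h0⟩ := lowx_main (U := p * T / 2) (η := 1 / 4) (ε := ε) (p := p) hS hP hH
    (by linarith) (by ring) hx hx' (by rw [abs_of_pos hx]; linarith) (by linarith) (by norm_num)
    (by linarith) le_rfl hr0 (by linarith) hC
  refine ⟨q0, fun q hq => ?_⟩
  obtain ⟨r, a, b, c, e⟩ := h0 q hq
  obtain ⟨c1, c2⟩ := abs_le.1 c
  refine ⟨r, a, b, abs_le.2 ⟨by linarith, by linarith⟩, fun τ h1 h2 h3 => ?_⟩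
  exact e τ (by linarith) (by linarith) h3

end Pool.Agent.AO.X
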