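import Pool.Agent.Lib.AX.Blue

set_option autoImplicit false

noncomputable section

namespace Pool.Agent.AO.X

open Set Metric Filter Topology Complex

theorem pas_cont {F : ℂ → ℂ} {V Q : Set ℂ} (hF : ContinuousOn F V) (n : ℕ) :
    (∀ z ∈ Q, ∀ j < n, F^[j] z ∈ V) → ContinuousOn F^[n] Q := by
  induction n with
  | zero => exact fun _ => continuousOn_id
  | succ n ih =>
    intro h
    rw [Function.iterate_succ']
    exact hF.comp (ih fun z hz j hj => h z hz j (by omega)) fun z hz => h z hz n (by omega)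

theorem st_ITER : St_ITER := by
  intro F V Q n hV hQ hF
  induction n with
  | zero =>
    intro _ e he
    refine ⟨1, ∅, one_pos, isCompact_empty, empty_subset _, fun G _ z _ j hj => ?_⟩
    obtain rfl : j = 0 := by omega
    simp [he.le]
  | succ n ih =>
    intro h e he
    have h' : ∀ z ∈ Q, ∀ j < n, F^[j] z ∈ V := fun z hz j hj => h z hz j (by omega)
    have hc : IsCompact (F^[n] '' Q) := hQ.image_of_continuousOn (pas_cont hF n h')
    obtain ⟨η, η0, hη⟩ := hc.exists_cthickening_subset_open hV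
      (by rintro _ ⟨z, hz, rfl⟩; exact h z hz n (by omega))
    have hc' : IsCompact (cthickening η (F^[n] '' Q)) := hc.cthickening
    obtain ⟨θ, θ0, hθ⟩ := Metric.uniformContinuousOn_iff.1
      (hc'.uniformContinuousOn_of_continuous (hF.mono hη)) (e / 2) (by positivity)
    obtain ⟨δ, Q', δ0, c', s', H⟩ := ih h' (min e (min η (θ / 2))) (by positivity)
    refine ⟨min δ (e / 2), Q' ∪ cthickening η (F^[n] '' Q), by positivity, c'.union hc',
      union_subset s' hη, fun G hG z hz j hj => ?_⟩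
    have H' := H G (fun w hw => (hG w (Or.inl hw)).trans (min_le_left _ _)) z hz
    have hn := (H' n le_rfl).1.trans (min_le_right _ _)
    rw [← dist_eq_norm] at hn
    have m1 : G^[n] z ∈ cthickening η (F^[n] '' Q) :=
      mem_cthickening_of_dist_le _ (F^[n] z) _ _ (mem_image_of_mem _ hz)
        (hn.trans (min_le_left _ _))
    rcases hj.lt_or_eq with hj | rfl
    · have hj' : j ≤ n := by omega
      refine ⟨(H' j hj').1.trans (min_le_left _ _), fun _ => ?_⟩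
      rcases hj'.lt_or_eq with h1 | rfl
      · exact Or.inl ((H' j hj').2 h1)
      · exact Or.inr m1
    · refine ⟨?_, fun h1 => absurd h1 (lt_irrefl _)⟩
      rw [Function.iterate_succ_apply', Function.iterate_succ_apply']
      have a1 := (hG _ (Or.inr m1)).trans (min_le_right _ _)
      have a2 := hθ _ m1 _ (self_subset_cthickening _ (mem_image_of_mem _ hz))
        ((hn.trans (min_le_right _ _)).trans_lt (half_lt_self θ0))
      rw [← dist_eq_norm] at a1 ⊢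
      linarith [dist_triangle (G (G^[n] z)) (F (G^[n] z)) (F (F^[n] z))]

theorem pas_conj (f : ℂ → ℂ) (b : ℂ) {r : ℝ} (hr : 0 < r) (j : ℕ) (z : ℂ) :
    f^[j] (b + r * z) = b + r * (fun w => (f (b + r * w) - b) / r)^[j] z := by
  have r0 : (r : ℂ) ≠ 0 := by exact_mod_cast hr.ne'
  induction j with
  | zero => rfl
  | succ j ih =>
    rw [Function.iterate_succ_apply', Function.iterate_succ_apply', ih, mul_div_cancel₀ _ r0]
    ring

theorem pas_scale {r : ℝ} (hr : 0 < r) {u v : ℂ} {e : ℝ} (h : u = r * v) :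
    ‖u‖ ≤ e * r ↔ ‖v‖ ≤ e := by
  rw [h, norm_mul, norm_real, Real.norm_of_nonneg hr.le, mul_comm, mul_le_mul_iff_left₀ hr]

theorem pas_norm {z : ℂ} {Y : ℝ} (z1 : |z.re| ≤ 3) (z2 : |z.im + Y| ≤ 1) (hY : 0 ≤ Y) :
    ‖z‖ ≤ Y + 4 := by
  have a := norm_le_abs_re_add_abs_im z
  have c : |z.im| ≤ Y + 1 := abs_le.2 ⟨by linarith [(abs_le.1 z2).1], by linarith [(abs_le.1 z2).2]⟩
  linarith

theorem st_PASS2 (hINN : St_INN) (hFAT : St_FAT) (hLOC : St_LOC) (hE2 : St_E2) (hI : St_ITER) :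
    St_PASS2 := by
  intro l hl
  obtain ⟨-, h2, k, k3, hk, -⟩ := id hl
  have k' : (3 : ℝ) ≤ k := by exact_mod_cast k3
  obtain ⟨M, C, m, F, hN⟩ := hINN l h2 (by rw [hk]; exact div_pos one_pos (by linarith))
    (by rw [hk]; exact one_div_le_one_div_of_le (by norm_num) (by linarith))
  have M1' := hN.M1
  obtain ⟨M', ψ, φ, hM, hF⟩ := hFAT F M C hN.M1 hN.df fun z hz => (hN.bd z hz).1
  refine ⟨fun z => φ (ψ z) - z, M' + 1, hF.horn, fun _ => hLOC l M C M' m F ψ φ hl hN hM hF, ?_⟩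
  intro d h R κ S D Φ b M1 sc hb hR lx m1 one
  refine ⟨M' + M1 + 5, fun Y hY e he => ?_⟩
  obtain ⟨K0, hK⟩ := hF.app Y (by linarith) (e / 2) (by positivity)
  refine ⟨K0, fun K hK0 => ?_⟩
  obtain ⟨δ, Q', δ0, c', s', H⟩ := hI F {z | z.im < -(M + M1 + 2)}
    (closedBall 0 (Y + 4 + 2 * K) ∩ {z | z.im ≤ -Y + 1}) (2 * K)
    (isOpen_lt continuous_im continuous_const)
    ((isCompact_closedBall _ _).inter_right (isClosed_le continuous_im continuous_const))
    (hN.df.continuousOn.mono fun z hz => by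
      have a : z.im < -(M + M1 + 2) := hz
      exact lt_max_of_lt_right (show M < -z.im by linarith))
    (fun z hz j _ => by
      have a : z.im ≤ -Y + 1 := hz.2
      have c := (abs_le.1 ((abs_im_le_norm _).trans (hF.orb z (by linarith) j))).2
      simp only [sub_im, mul_im, re_ofNat, natCast_im, im_ofNat, natCast_re] at c
      show (F^[j] z).im < -(M + M1 + 2)
      linarith) (e / 2) (by positivity)
  obtain ⟨ρ, hρ⟩ := c'.isBounded.exists_norm_le
  obtain ⟨r0, r00, hr⟩ := hE2 d h R κ S D Φ b M1 M C l m F sc hb hR lx m1 one hl hN ρ δ δ0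
  refine ⟨r0, r00, fun r r1 r2 z z1 z2 => ?_⟩
  have r' : (r : ℂ) ≠ 0 := by exact_mod_cast r1.ne'
  have a1 := (H (fun w => (dbl d Φ (1 / 4) r (b + r * w) - b) / r) (fun w hw => by
    have a : w.im < -(M + M1 + 2) := s' hw
    refine (pas_scale r1 ?_).1 (hr r r1 r2 w (hρ w hw) (by linarith) (by linarith))
    rw [mul_sub, mul_div_cancel₀ _ r']
    ring) (z - 2 * K) ⟨by
      rw [mem_closedBall_zero_iff]
      refine (norm_sub_le _ _).trans (add_le_add (pas_norm z1 z2 (by linarith)) ?_)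
      simp, by
      show (z - 2 * K).im ≤ -Y + 1
      simp only [sub_im, mul_im, re_ofNat, natCast_im, im_ofNat, natCast_re]
      linarith [(abs_le.1 z2).2]⟩ (2 * K) le_rfl).1
  have a2 := hK K hK0 z z1 z2
  rw [add_zero, Real.rpow_one, pas_conj _ b r1]
  refine (pas_scale r1 ?_).2 ((norm_add_le_of_le a1 a2).trans_eq (add_halves e))
  ring

theorem pas_tel (G E : ℂ → ℂ) (z : ℂ) (n : ℕ) (s δ e : ℝ) (δ0 : 0 ≤ δ)
    (h : ∀ j < n, ∀ w : ℂ, ‖w - (z + 2 * j)‖ ≤ n * δ →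
      ‖G w - (w + 2)‖ ≤ δ ∧ ‖G w - (w + 2) - s * E (z + 2 * j)‖ ≤ e) (j : ℕ) : j ≤ n →
    ‖G^[j] z - (z + 2 * j)‖ ≤ j * δ ∧
      ‖G^[j] z - (z + 2 * j) - s * ∑ i ∈ Finset.range j, E (z + 2 * i)‖ ≤ j * e := by
  induction j with
  | zero => simp
  | succ j ih =>
    intro hj
    obtain ⟨i1, i2⟩ := ih (by omega)
    obtain ⟨a1, a2⟩ := h j (by omega) _ (i1.trans (mul_le_mul_of_nonneg_right
      (by exact_mod_cast (by omega : j ≤ n)) δ0))
    rw [Function.iterate_succ_apply', Finset.sum_range_succ]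
    push_cast
    refine ⟨le_of_eq_of_le ?_ ((norm_add_le_of_le i1 a1).trans_eq (by ring)),
      le_of_eq_of_le ?_ ((norm_add_le_of_le i2 a2).trans_eq (by ring))⟩ <;>
    exact congrArg _ (by ring)

theorem pas_E {l : LD} {a : ℝ} (hH1 : St_H1) (hl : T1 l) : ∃ E H : ℂ → ℂ,
    (∀ (z : ℂ) (i : Decidable (a = l.al)), @ite _ _ i (E0 l z) 0 = E z) ∧ Horn H 0 ∧
    (a = l.al → ∃ z : ℂ, z.im < -0 ∧ H z ≠ 0) ∧ ContinuousOn E {z | z.im < 0} ∧
    (a = 0 → ∀ z, E z = 0) ∧ ∀ Y : ℝ, 2 ≤ Y → ∀ e : ℝ, 0 < e → ∃ K0 : ℕ, ∀ K : ℕ,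
      K0 ≤ K → ∀ z : ℂ, |z.re| ≤ 3 → |z.im + Y| ≤ 1 →
        ‖∑ j ∈ Finset.range (2 * K), E (z - 2 * K + 2 * j) - H z‖ ≤ e := by
  obtain ⟨H, hH, hz, hc, hs⟩ := hH1 l hl
  by_cases h : a = l.al
  · exact ⟨E0 l, H, fun z _ => if_pos h, hH, fun _ => by rwa [neg_zero], hc,
      fun h0 => absurd (h.symm.trans h0) hl.2.1.ne', hs⟩
  · exact ⟨fun _ => 0, fun _ => 0, fun z _ => if_neg h, ⟨differentiableOn_const _,
      fun _ _ => rfl, fun e he => ⟨0, fun _ _ => by rw [norm_zero]; exact he.le⟩⟩,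
      fun h' => absurd h' h, continuousOn_const, fun _ _ => rfl,
      fun Y _ e he => ⟨0, fun K _ z _ _ => by simp [he.le]⟩⟩

theorem pas_small {E : ℂ → ℂ} {C : Set ℂ} {a δ : ℝ} (a0 : 0 ≤ a) (δ0 : 0 < δ) (hC : IsCompact C)
    (hc : ContinuousOn E C) (h0 : a = 0 → ∀ z, E z = 0) :
    ∃ r1 : ℝ, 0 < r1 ∧ ∀ r : ℝ, 0 < r → r < r1 → ∀ w ∈ C, r ^ a * ‖E w‖ ≤ δ := by
  rcases a0.eq_or_lt with h | h
  · exact ⟨1, one_pos, fun r _ _ w _ => by rw [h0 h.symm, norm_zero, mul_zero]; exact δ0.le⟩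
  obtain ⟨B, hB⟩ := hC.exists_bound_of_continuousOn hc
  have B0 : 0 < |B| + 1 := by positivity
  refine ⟨(δ / (|B| + 1)) ^ a⁻¹, by positivity, fun r r1 r2 w hw => ?_⟩
  have a1 := Real.rpow_le_rpow r1.le r2.le a0
  rw [Real.rpow_inv_rpow (by positivity) h.ne', le_div_iff₀ B0] at a1
  exact (mul_le_mul_of_nonneg_left (by linarith [hB w hw, le_abs_self B])
    (Real.rpow_nonneg r1.le a)).trans a1

theorem st_PASS1 (hE1 : St_E1) (hH1 : St_H1) (_hI : St_ITER) : St_PASS1 := by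
  intro l a hl a0 a1
  obtain ⟨E, H, eE, h1, h2, hc, h0, hs⟩ := pas_E (a := a) hH1 hl
  refine ⟨H, 0, h1, fun h => h2 (h.resolve_left fun h' => hl.1 h'.1), ?_⟩
  intro d h R κ S D Φ b M1 sc hb hR lx m1 one
  refine ⟨M1 + 5, fun Y hY e he => ?_⟩
  obtain ⟨K0, hK⟩ := hs Y (by linarith) (e / 2) (by positivity)
  refine ⟨K0, fun K hK0 => ?_⟩
  have K' : (0 : ℝ) ≤ K := Nat.cast_nonneg K
  have hC : IsCompact (closedBall (0 : ℂ) (Y + 5 + 6 * K) ∩ {z | z.im ≤ -1}) :=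
    (isCompact_closedBall _ _).inter_right (isClosed_le continuous_im continuous_const)
  have hc' : ContinuousOn E (closedBall (0 : ℂ) (Y + 5 + 6 * K) ∩ {z | z.im ≤ -1}) :=
    hc.mono fun z hz => lt_of_le_of_lt (show z.im ≤ -1 from hz.2) (by norm_num)
  obtain ⟨e', e0, e1⟩ : ∃ e' : ℝ, 0 < e' ∧ (2 * K + 1) * e' = e / 4 :=
    ⟨e / 4 / (2 * K + 1), by positivity, mul_div_cancel₀ _ (by positivity)⟩
  obtain ⟨θ, θ0, hθ⟩ := Metric.uniformContinuousOn_iff.1
    (hC.uniformContinuousOn_of_continuous hc') e' e0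
  obtain ⟨δ, δ0, δ1⟩ : ∃ δ : ℝ, 0 < δ ∧ (2 * K + 1) * δ = min 1 θ :=
    ⟨min 1 θ / (2 * K + 1), by positivity, mul_div_cancel₀ _ (by positivity)⟩
  obtain ⟨r1, r10, hr1⟩ := pas_small a0 (half_pos δ0) hC hc' h0
  obtain ⟨r0, r00, hr⟩ := hE1 d h R κ S D Φ b M1 a l sc hb hR lx m1 one hl a0 a1
    (Y + 5 + 6 * K) (min e' (δ / 2)) (by positivity)
  refine ⟨min r0 (min r1 1), by positivity, fun r p0 p1 z z1 z2 => ?_⟩
  obtain ⟨p1, p2⟩ := lt_min_iff.1 p1
  obtain ⟨p2, p3⟩ := lt_min_iff.1 p2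
  have r' : (r : ℂ) ≠ 0 := by exact_mod_cast p0.ne'
  have s0 : 0 ≤ r ^ a := Real.rpow_nonneg p0.le a
  have s1 : r ^ a ≤ 1 := Real.rpow_le_one p0.le p3.le a0
  have sn : ‖((r ^ a : ℝ) : ℂ)‖ = r ^ a := by rw [norm_real, Real.norm_of_nonneg s0]
  have es : r ^ (1 + a) = r ^ a * r := by rw [add_comm, Real.rpow_add_one p0.ne']
  have zn := pas_norm z1 z2 (by linarith)
  have zi := (abs_le.1 z2).2
  have T := (pas_tel (fun w => (dbl d Φ (1 / 4) r (b + r * w) - b) / r) E (z - 2 * K) (2 * K)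
    (r ^ a) δ (2 * e' * r ^ a) δ0.le (fun j hj w hw => by
      have j' : (j : ℝ) ≤ 2 * K := by exact_mod_cast hj.le
      push_cast at hw
      have w1 : ‖w - (z - 2 * K + 2 * j)‖ < min 1 θ := by linarith
      obtain ⟨w1, w2⟩ := lt_min_iff.1 w1
      have c1 : ‖z - 2 * K + 2 * j‖ ≤ Y + 4 + 6 * K := by
        have b1 := norm_add_le (z - 2 * K) (2 * j)
        have b2 := norm_sub_le z (2 * K)
        simp only [norm_mul, norm_ofNat, norm_natCast] at b1 b2
        linarith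
      have c2 : (z - 2 * K + 2 * j).im = z.im := by simp
      have c3 : ‖w‖ ≤ Y + 5 + 6 * K := by linarith [norm_sub_norm_le w (z - 2 * K + 2 * j)]
      have c4 : w.im ≤ z.im + 1 := by
        have := (abs_le.1 ((abs_im_le_norm _).trans w1.le)).2
        rw [sub_im, c2] at this
        linarith
      have m1' : w ∈ closedBall (0 : ℂ) (Y + 5 + 6 * K) ∩ {z | z.im ≤ -1} :=
        ⟨mem_closedBall_zero_iff.2 c3, show w.im ≤ -1 by linarith⟩
      have m2 : z - 2 * K + 2 * j ∈ closedBall (0 : ℂ) (Y + 5 + 6 * K) ∩ {z | z.im ≤ -1} :=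
        ⟨mem_closedBall_zero_iff.2 (by linarith), show (z - 2 * K + 2 * j).im ≤ -1 by linarith⟩
      have b1 := hr r p0 p1 w c3 (by linarith)
      rw [eE, es, ← mul_assoc] at b1
      have b2 : ‖(dbl d Φ (1 / 4) r (b + r * w) - b) / r - (w + 2) - (r ^ a : ℝ) * E w‖ ≤
          min e' (δ / 2) * r ^ a := by
        refine (pas_scale p0 ?_).1 b1
        rw [mul_sub, mul_sub, mul_div_cancel₀ _ r', ofReal_mul]
        ring
      have b3 := hr1 r p0 p2 w m1'
      have b4 := hθ _ m1' _ m2 (by rwa [dist_eq_norm])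
      rw [dist_eq_norm] at b4
      have b5 := mul_le_mul_of_nonneg_right (min_le_left e' (δ / 2)) s0
      have b6 := mul_le_mul (min_le_right e' (δ / 2)) s1 s0 (half_pos δ0).le
      have b7 := mul_le_mul_of_nonneg_left b4.le s0
      constructor
      · have := norm_add_le_of_le b2 (le_refl ‖((r ^ a : ℝ) : ℂ) * E w‖)
        rw [sub_add_cancel, norm_mul, sn] at this
        linarith
      · have := norm_add_le_of_le b2
          (le_refl ‖((r ^ a : ℝ) : ℂ) * (E w - E (z - 2 * K + 2 * j))‖)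
        rw [norm_mul, sn, mul_sub, sub_add_sub_cancel] at this
        linarith) (2 * K) le_rfl).2
  have a2 := mul_le_mul_of_nonneg_left (hK K hK0 z z1 z2) s0
  rw [← sn, ← norm_mul, sn] at a2
  rw [es, ← mul_assoc, pas_conj _ b p0]
  refine (pas_scale p0 ?_).2 ((norm_add_le_of_le T a2).trans ?_)
  · push_cast
    ring
  · push_cast
    nlinarith [mul_nonneg e0.le s0]

end Pool.Agent.AO.X
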