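import Pool.Agent.Lib.AX.Blue

set_option autoImplicit false

noncomputable section

namespace Pool.Agent.AO.X

open Set Metric Filter Topology Complex

theorem QE_ces (w : ℂ) (hw : ‖w‖ = 1) :
    Tendsto (fun n : ℕ => (n⁻¹ : ℝ) • ∑ i ∈ Finset.range n, w ^ i) atTop
      (𝓝 (if w = 1 then 1 else 0)) := by
  split_ifs with h
  · subst h
    simpa only [one_pow] using (tendsto_const_nhds (x := (1 : ℂ)) (f := atTop)).cesaro_smul
  · have h0 : Tendsto (fun n : ℕ => (n⁻¹ : ℝ) * (2 / ‖w - 1‖)) atTop (𝓝 0) := by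
      simpa only [zero_mul] using
        (tendsto_inv_atTop_nhds_zero_nat (𝕜 := ℝ)).mul_const (2 / ‖w - 1‖)
    refine squeeze_zero_norm (fun n => ?_) h0
    rw [norm_smul, Real.norm_of_nonneg (by positivity), geom_sum_eq h, norm_div]
    refine mul_le_mul_of_nonneg_left (div_le_div_of_nonneg_right ?_ (norm_nonneg _)) (by positivity)
    refine (norm_sub_le _ _).trans ?_
    rw [norm_pow, hw, one_pow, norm_one]
    norm_num

theorem st_EXPS : St_EXPS := by
  intro s u c hu h v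
  by_cases hv : ‖v‖ = 1
  · have v0 : v ≠ 0 := fun e => by simp [e] at hv
    have h1 : Tendsto (fun q : ℕ => ∑ i ∈ s, c i * (u i / v) ^ q) atTop (𝓝 0) := by
      rw [tendsto_zero_iff_norm_tendsto_zero] at h ⊢
      refine h.congr fun q => ?_
      simp only [div_pow, ← mul_div_assoc, ← Finset.sum_div, norm_div, norm_pow, hv, one_pow,
        div_one]
    have h2 : Tendsto (fun n : ℕ => ∑ i ∈ s, c i *
        ((n⁻¹ : ℝ) • ∑ q ∈ Finset.range n, (u i / v) ^ q)) atTop
        (𝓝 (∑ i ∈ s, c i * if u i / v = 1 then 1 else 0)) :=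
      tendsto_finsetSum _ fun i hi =>
        (QE_ces _ (by rw [norm_div, hu i hi, hv, div_one])).const_mul _
    have h3 := tendsto_nhds_unique h2 (h1.cesaro_smul.congr fun n => by
      rw [Finset.sum_comm, Finset.smul_sum]
      exact Finset.sum_congr rfl fun i _ => by rw [← Finset.mul_sum, mul_smul_comm])
    rw [Finset.sum_filter]
    refine Eq.trans (Finset.sum_congr rfl fun i _ => ?_) h3
    simp only [div_eq_one_iff_eq v0, mul_ite, mul_one, mul_zero]
  · refine Finset.sum_eq_zero fun i hi => ?_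
    rw [Finset.mem_filter] at hi
    exact absurd (hi.2 ▸ hu i hi.1) hv

theorem QE_q (k : ℕ) (z : ℂ) :
    Function.Periodic.qParam 2 (-z) ^ k = exp (-(I * Real.pi * k * z)) := by
  rw [Function.Periodic.qParam, ← exp_nat_mul]
  push_cast
  ring_nf

theorem st_QEXP : St_QEXP := by
  classical
  rintro H M ⟨hd, hp, h0⟩ ⟨z0, hz0, hne⟩
  have op : IsOpen {z : ℂ | z.im < -M} := isOpen_lt continuous_im continuous_const
  set f : ℂ → ℂ := fun w => if M < w.im then H (-w) else 0 with hf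
  have fe : ∀ z : ℂ, z.im < -M → f (-z) = H z := fun z hz => by
    have : M < (-z).im := by rw [neg_im]; linarith
    simp only [hf, if_pos this, neg_neg]
  have per : Function.Periodic f ((2 : ℝ) : ℂ) := fun w => by
    have e : (w + ((2 : ℝ) : ℂ)).im = w.im := by simp
    simp only [hf, e]
    split_ifs with h
    · rw [← hp (-(w + ((2 : ℝ) : ℂ))) (by rw [neg_im, e]; linarith)]
      congr 1
      push_cast
      ring
    · rfl
  have ev : ∀ A : ℝ, ∀ᶠ w in comap im atTop, A < w.im := fun A =>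
    tendsto_comap.eventually (eventually_gt_atTop A)
  have hol : ∀ᶠ w in comap im atTop, DifferentiableAt ℂ f w := (ev M).mono fun w hw => by
    have h1 : DifferentiableAt ℂ H (-w) :=
      hd.differentiableAt (op.mem_nhds (show (-w).im < -M by rw [neg_im]; linarith))
    refine (h1.comp w differentiableAt_id.neg).congr_of_eventuallyEq ?_
    filter_upwards [(isOpen_lt continuous_const continuous_im).mem_nhds hw] with x hx
    exact if_pos hx
  have zer : ZeroAtFilter (comap im atTop) f := by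
    refine Metric.tendsto_nhds.2 fun e he => ?_
    obtain ⟨Y, hY⟩ := h0 (e / 2) (half_pos he)
    filter_upwards [ev M, ev Y] with w h1 h2
    rw [dist_zero_right]
    simp only [hf, if_pos h1]
    exact (hY _ (by rw [neg_im]; linarith)).trans_lt (half_lt_self he)
  set g := Function.Periodic.cuspFunction 2 f with hg
  have g0 : g 0 = 0 := Function.Periodic.cuspFunction_zero_of_zero_at_inf two_pos zer
  have ge : ∀ w, g (Function.Periodic.qParam 2 w) = f w :=
    Function.Periodic.eq_cuspFunction two_ne_zero per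
  have an : AnalyticAt ℂ g 0 := by
    rw [analyticAt_iff_eventually_differentiableAt, ← nhdsNE_sup_pure, eventually_sup]
    exact ⟨Function.Periodic.eventually_differentiableAt_cuspFunction_nhds_ne_zero two_pos per hol,
      Function.Periodic.differentiableAt_cuspFunction_zero two_pos per hol zer.boundedAtFilter⟩
  have tq : Tendsto (Function.Periodic.qParam 2) (comap im atTop) (𝓝 0) :=
    (Function.Periodic.qParam_tendsto two_pos).mono_right nhdsWithin_le_nhds
  have low : ∀ {p : ℂ → Prop}, (∀ᶠ q in 𝓝 (0 : ℂ), p q) → ∃ Y : ℝ, ∀ z : ℂ, z.im < -Y →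
      z.im < -M ∧ p (Function.Periodic.qParam 2 (-z)) := fun {p} h => by
    obtain ⟨Y, hY⟩ := eventually_atTop.1 (eventually_comap.1 (tq.eventually h))
    refine ⟨max Y M, fun z hz => ⟨by linarith [le_max_right Y M], hY _ ?_ _ rfl⟩⟩
    rw [neg_im]
    linarith [le_max_left Y M]
  have nz : ¬∀ᶠ q in 𝓝 (0 : ℂ), g q = 0 := fun h => by
    obtain ⟨Y, hY⟩ := low h
    have hY1 : ((-(Y + 1) : ℝ) * I : ℂ).im < -Y := by simp
    refine hne ((hd.analyticOnNhd op).eqOn_zero_of_preconnected_of_eventuallyEq_zero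
      (convex_halfSpace_im_lt (-M)).isPreconnected (hY _ hY1).1 ?_ hz0)
    filter_upwards [(isOpen_lt continuous_im continuous_const).mem_nhds hY1] with z hz
    rw [← fe z (hY z hz).1, ← ge, (hY z hz).2]
    rfl
  obtain ⟨k, g1, a1, c0, hk⟩ := an.exists_eventuallyEq_pow_smul_nonzero_iff.2 nz
  refine ⟨k, g1 0, Nat.pos_of_ne_zero fun e => c0 ?_, c0, fun e he => ?_⟩
  · have := hk.self_of_nhds
    rw [e, pow_zero, one_smul, g0] at this
    exact this.symm
  · obtain ⟨Y, hY⟩ := low (hk.and (Metric.tendsto_nhds.1 a1.continuousAt e he))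
    refine ⟨Y, fun z hz => ?_⟩
    obtain ⟨h1, h2, h3⟩ := hY z hz
    rw [← fe z h1, ← ge, h2, sub_zero, QE_q, smul_eq_mul, mul_comm, ← sub_mul, norm_mul]
    exact mul_le_mul_of_nonneg_right (by rw [← dist_eq_norm]; exact h3.le) (norm_nonneg _)

theorem QE_ph (k q : ℕ) (n : ℤ) (θ η Y a : ℝ) (z : ℂ) (ha : k * a = -θ * (2 * q - η)) :
    exp (-(I * Real.pi * k * z)) = (Real.exp (-(Real.pi * k * Y)) : ℝ) *
      exp (2 * Real.pi * I * θ) ^ q *
      exp (-(I * Real.pi * (θ * η + k * (z - (a - I * Y + 2 * n))))) := by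
  have hc : (k : ℂ) * a = -θ * (2 * q - η) := by exact_mod_cast ha
  have e : -(I * Real.pi * k * z) = -(Real.pi * k * Y) + q * (2 * Real.pi * I * θ) +
      -(I * Real.pi * (θ * η + k * (z - (a - I * Y + 2 * n)))) +
      ((-(k * n) : ℤ) : ℂ) * (2 * Real.pi * I) := by
    push_cast
    linear_combination (-(I * Real.pi)) * hc + Real.pi * k * Y * I_mul_I
  rw [e, exp_add, exp_int_mul_two_pi_mul_I, mul_one, exp_add, exp_add, exp_nat_mul]
  push_cast
  rfl

theorem QE_one {t E : ℝ} {c u ξ w : ℂ} (hE : 0 ≤ E) (t1 : t ≤ 1) (hξ : ‖ξ‖ ≤ t) (hu : ‖u‖ = 1)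
    (h : ‖w - c * (E * u * exp ξ)‖ ≤ t * ‖E * u * exp ξ‖) :
    ‖E * (c * u) - w‖ ≤ t * E * (2 * ‖c‖ + 3) := by
  have t0 : 0 ≤ t := (norm_nonneg _).trans hξ
  have h1 : ‖exp ξ - 1‖ ≤ 2 * t := (norm_exp_sub_one_le (hξ.trans t1)).trans (by linarith)
  have h2 : ‖exp ξ‖ ≤ 3 := by
    have := norm_add_le (exp ξ - 1) 1
    rw [sub_add_cancel, norm_one] at this
    linarith
  have h3 : ‖(E : ℂ) * u * exp ξ‖ ≤ E * 3 := by
    rw [norm_mul, norm_mul, hu, mul_one, norm_real, Real.norm_of_nonneg hE]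
    exact mul_le_mul_of_nonneg_left h2 hE
  have h4 : ‖c * (E * u) * (exp ξ - 1)‖ ≤ ‖c‖ * E * (2 * t) := by
    rw [norm_mul, norm_mul, norm_mul, hu, mul_one, norm_real, Real.norm_of_nonneg hE]
    exact mul_le_mul_of_nonneg_left h1 (mul_nonneg (norm_nonneg _) hE)
  have h5 := norm_add_le (c * (E * u) * (exp ξ - 1)) (w - c * (E * u * exp ξ))
  rw [show c * (E * u) * (exp ξ - 1) + (w - c * (E * u * exp ξ)) = w - E * (c * u) by ring,
    norm_sub_rev] at h5
  linarith [mul_le_mul_of_nonneg_left h3 t0]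

theorem st_DEC2 : St_DEC2 := by
  intro s H c T x0 k hT hk hL hC
  refine Metric.tendsto_atTop.2 fun ε hε => ?_
  have k1 : (1 : ℝ) ≤ k := by exact_mod_cast hk
  obtain ⟨B, hB⟩ : ∃ B : ℝ, B = ∑ b ∈ s, (2 * ‖c b‖ + 3) := ⟨_, rfl⟩
  have B0 : 0 ≤ B := hB ▸ Finset.sum_nonneg fun b _ => by positivity
  obtain ⟨Θ, hΘ⟩ : ∃ Θ : ℝ, Θ = ∑ b ∈ s, |(b.re - x0) / T| := ⟨_, rfl⟩
  have Θ0 : 0 ≤ Θ := hΘ ▸ Finset.sum_nonneg fun b _ => abs_nonneg _
  obtain ⟨t, t0, t1, t2⟩ : ∃ t : ℝ, 0 < t ∧ t ≤ 1 ∧ t * (B + 1) < ε := by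
    refine ⟨min 1 (ε / (2 * (B + 1))), lt_min one_pos (by positivity), min_le_left _ _, ?_⟩
    have h1 := mul_le_mul_of_nonneg_right (min_le_right 1 (ε / (2 * (B + 1))))
      (show 0 ≤ B + 1 by positivity)
    have h2 : ε / (2 * (B + 1)) * (B + 1) = ε / 2 := by field_simp
    linarith
  choose! Yb hYb using fun b hb => hL b hb t t0
  have e1 : t / (8 * k) ≤ 1 := by
    rw [div_le_one (by positivity)]
    linarith
  obtain ⟨Y0, hY0⟩ := hC (t / (8 * k)) (by positivity)
  obtain ⟨Y, hY1, hY2⟩ : ∃ Y : ℝ, Y0 ≤ Y ∧ ∀ b ∈ s, Yb b + 2 ≤ Y :=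
    ⟨max Y0 (∑ b ∈ s, |Yb b| + 2), le_max_left _ _, fun b hb => le_trans (by
      linarith [le_abs_self (Yb b), Finset.single_le_sum (f := fun b => |Yb b|)
        (fun b _ => abs_nonneg _) hb]) (le_max_right _ _)⟩
  obtain ⟨E, hE⟩ : ∃ E : ℝ, E = Real.exp (-(Real.pi * k * Y)) := ⟨_, rfl⟩
  have E0 : 0 < E := hE ▸ Real.exp_pos _
  obtain ⟨q0, hq0⟩ := hY0 Y hY1 (min (t * E) (t / (8 * (Θ + 1))))
    (lt_min (by positivity) (by positivity))
  refine ⟨q0, fun q hq => ?_⟩
  obtain ⟨r, z, r0, hη, hz, hs⟩ := hq0 q hq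
  have key : ∀ b ∈ s, ‖E * (c b * exp (2 * Real.pi * I * ((b.re - x0) / T : ℝ)) ^ q) -
      H b (z b)‖ ≤ t * E * (2 * ‖c b‖ + 3) := fun b hb => by
    obtain ⟨n, hn⟩ := hz b hb
    have him : (z b).im < -Yb b := by
      have h1 := (abs_le.1 ((abs_im_le_norm _).trans (hn.trans e1))).2
      have h2 : (z b - ((((x0 - b.re) / r : ℝ) : ℂ) - I * Y + 2 * n)).im = (z b).im + Y := by
        simp only [sub_im, add_im, mul_im, ofReal_im, ofReal_re, I_re, I_im, re_ofNat, im_ofNat,
          intCast_im, intCast_re]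
        ring
      linarith [hY2 b hb]
    have h1 := hYb b hb _ him
    rw [QE_ph k q n ((b.re - x0) / T) (2 * q - k * T / r) Y ((x0 - b.re) / r) (z b)
      (by field_simp; ring), ← hE] at h1
    refine QE_one E0.le t1 ?_ ?_ h1
    · have h2 : |(b.re - x0) / T| ≤ Θ + 1 := by
        linarith [hΘ.ge.trans' (Finset.single_le_sum (f := fun b : ℂ => |(b.re - x0) / T|)
          (fun b _ => abs_nonneg _) hb)]
      have h3 : |(b.re - x0) / T| * |2 * q - k * T / r| ≤ t / 8 := by
        refine (mul_le_mul h2 (hη.trans (min_le_right _ _)) (abs_nonneg _) (by positivity)).trans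
          (le_of_eq ?_)
        field_simp
      have h4 : (k : ℝ) * ‖z b - ((((x0 - b.re) / r : ℝ) : ℂ) - I * Y + 2 * n)‖ ≤ t / 8 := by
        refine (mul_le_mul_of_nonneg_left hn (by positivity)).trans (le_of_eq ?_)
        field_simp
      rw [norm_neg, norm_mul, norm_mul, norm_I, one_mul, norm_real,
        Real.norm_of_nonneg Real.pi_pos.le]
      refine (mul_le_mul Real.pi_le_four (norm_add_le _ _) (norm_nonneg _) (by norm_num)).trans ?_
      rw [norm_mul, norm_mul, norm_real, norm_real, Real.norm_eq_abs, Real.norm_eq_abs,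
        norm_natCast]
      linarith
    · rw [norm_pow, show 2 * Real.pi * I * (((b.re - x0) / T : ℝ) : ℂ) =
        ((2 * Real.pi * ((b.re - x0) / T) : ℝ) : ℂ) * I by push_cast; ring,
        norm_exp_ofReal_mul_I, one_pow]
  have h1 := (norm_sum_le _ _).trans (Finset.sum_le_sum key)
  rw [Finset.sum_sub_distrib, ← Finset.mul_sum, ← Finset.mul_sum, ← hB] at h1
  have h2 := (norm_le_norm_sub_add _ _).trans (add_le_add h1 (hs.trans (min_le_left _ _)))
  rw [norm_mul, norm_real, Real.norm_of_nonneg E0.le] at h2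
  rw [dist_zero_right]
  refine lt_of_le_of_lt (le_of_mul_le_mul_left (a := E) ?_ E0) t2
  linarith

end Pool.Agent.AO.X
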