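import Pool.Agent.Lib.AX.Blue
import Pool.Agent.Lib.AO.B_FLOW
import Pool.Agent.Lib.AO.B_REAL
import Pool.Agent.Lib.AO.Ent66

set_option autoImplicit false

noncomputable section

namespace Pool.Agent.AO.X

open Set Metric Filter Topology ComplexConjugate Pool.Agent.Lib.AO R62

theorem re_diag {d : Dat} {K : Set (ℝ × ℝ)} (g : Cur d K) (cv : CV d K) {a y : ℝ}
    (ha : (a, y) ∈ frontier K) (h : d.D (a, a, y) = 0) :
    d.px (a, y) = 0 ∧ d.py (a, y) ≠ 0 ∧ d.E (a, a, y) ≠ 0 := by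
  rw [d.Dd] at h
  exact ⟨h, (cv.ov.2.2.2 _ ha).2.resolve_left (not_not.2 h), g _ ha h⟩

theorem re_reg {d : Dat} {K : Set (ℝ × ℝ)} (g : Cur d K) (cv : CV d K) (σ : S3)
    (h : σ ∈ XS d (frontier K)) : Reg d σ ∧ OnS d σ := by
  obtain ⟨a, b, y, rfl, h1, h2, h3⟩ := h
  refine ⟨?_, (cv.ov.2.2.2 _ h1).1, (cv.ov.2.2.2 _ h2).1, h3⟩
  by_cases e : a = b
  · subst e
    exact ⟨(re_diag g cv h1 h3).2.2, (re_diag g cv h1 h3).2.2⟩
  · refine ⟨fun z => px_ne cv h1 h2 e ?_, fun z => px_ne cv h2 h1 (Ne.symm e) ?_⟩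
    · rw [d.hE a b y, h3, z, mul_zero, add_zero]
    · have z' : d.E (b, a, y) = 0 := z
      rw [d.hE b a y, d.Ds, h3, z', mul_zero, add_zero]

theorem re_inv {d : Dat} {K : Set (ℝ × ℝ)} (g : Cur d K)
    (cv : CV d K) (r : ℝ) (Φ : ℂ → S3) (r0 : 0 < r) (s : Sol d (ball 0 r) Φ)
    (h0 : Φ 0 ∈ XS d (frontier K)) : ∀ᶠ t : ℝ in 𝓝 0, Φ t ∈ XS d (frontier K) := by
  have s2 := (AO.st_SYM d _ _ (AO.st_SYM d _ _ s).2.2.2.1).1 (ball 0 r) isOpen_ball fun z hz => by
    simpa using hz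
  have u := AO.st_UNI d _ _ _ 0 s s2 (convex_ball _ _).isPreconnected (mem_ball_self r0)
    (by simp [cj_xs h0]) (re_reg g cv _ h0).1
  have c : ContinuousAt (fun t : ℝ => Φ t) 0 :=
    (s.df.differentiableAt (isOpen_ball.mem_nhds (by simpa using r0))).continuousAt.comp
      Complex.continuous_ofReal.continuousAt
  obtain ⟨a, b, y, e, h1, h2, _⟩ := h0
  have c1 : Tendsto (fun t : ℝ => (((Φ t).1.re, (Φ t).2.2.re) : ℝ × ℝ)) (𝓝 0) (𝓝 (a, y)) := by
    have : ContinuousAt (fun t : ℝ => (((Φ t).1.re, (Φ t).2.2.re) : ℝ × ℝ)) 0 :=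
      (show Continuous fun σ : S3 => ((σ.1.re, σ.2.2.re) : ℝ × ℝ) by fun_prop).continuousAt.comp c
    simpa [ContinuousAt, e] using this
  have c2 : Tendsto (fun t : ℝ => (((Φ t).2.1.re, (Φ t).2.2.re) : ℝ × ℝ)) (𝓝 0) (𝓝 (b, y)) := by
    have : ContinuousAt (fun t : ℝ => (((Φ t).2.1.re, (Φ t).2.2.re) : ℝ × ℝ)) 0 :=
      (show Continuous fun σ : S3 => ((σ.2.1.re, σ.2.2.re) : ℝ × ℝ) by fun_prop).continuousAt.comp c
    simpa [ContinuousAt, e] using this
  have c3 : ∀ᶠ t : ℝ in 𝓝 0, (t : ℂ) ∈ ball (0 : ℂ) r :=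
    Complex.continuous_ofReal.continuousAt.eventually_mem
      (isOpen_ball.mem_nhds (by simpa using r0))
  filter_upwards [c1.eventually (cv.op _ h1), c2.eventually (cv.op _ h2), c3] with t t1 t2 t3
  have e1 := u t3
  simp only [Complex.conj_ofReal] at e1
  have e2 := re_of_cj e1
  refine ⟨_, _, _, e2, t1 ?_, t2 ?_, s.pD _ t3⟩
  · have := s.pA _ t3
    rw [fA, fY, e2] at this
    exact this
  · have := s.pB _ t3
    rw [fB, fY, e2] at this
    exact this

theorem re_low {d : Dat} {K : Set (ℝ × ℝ)} (g : Cur d K) (cv : CV d K) : ∃ m : ℝ, 0 < m ∧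
    ∀ σ ∈ XS d (frontier K), m ≤ |(σ.1 - σ.2.1).re| + |(acc d σ).re| := by
  have hC : IsCompact (frontier K) :=
    cv.ov.1.of_isClosed_subset isClosed_frontier cv.ov.1.isClosed.frontier_subset
  have c := acc_cont (d := d) (X := XS d (frontier K)) fun σ m => (re_reg g cv σ m).1
  refine (xs_compact d hC).exists_forall_le' (f := fun σ => |(σ.1 - σ.2.1).re| + |(acc d σ).re|)
    (ContinuousOn.add (by fun_prop) (Complex.continuous_re.comp_continuousOn c).abs) ?_
  rintro _ ⟨a, b, y, rfl, h1, h2, h3⟩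
  by_cases e : a = b
  · subst e
    obtain ⟨_, k2, k3⟩ := re_diag g cv h1 h3
    have r1 : d.py (a, y) = conj (d.py (a, y)) := by simpa using d.jpy a y
    have r2 : d.E (a, a, y) = conj (d.E (a, a, y)) := by simpa using d.jE a a y
    have e1 : acc d (a, a, y) = -2 * d.py (a, y) / d.E (a, a, y) := by
      simp only [acc, sw]
      ring
    have r3 : conj (acc d (a, a, y)) = acc d (a, a, y) := by
      rw [e1, map_div₀, map_mul, ← r1, ← r2, map_neg, map_ofNat]
    have ne : (acc d (a, a, y)).re ≠ 0 := fun z => by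
      have := Complex.conj_eq_iff_re.1 r3
      rw [z, e1] at this
      exact div_ne_zero (mul_ne_zero (by norm_num) k2) k3 (this.symm.trans Complex.ofReal_zero)
    exact add_pos_of_nonneg_of_pos (abs_nonneg _) (abs_pos.2 ne)
  · exact add_pos_of_pos_of_nonneg (abs_pos.2 (by simpa [sub_eq_zero] using e)) (abs_nonneg _)

theorem st_REAL : St_REAL := by
  intro d K cv g
  have hUNI := AO.st_UNI
  have hSYM := AO.st_SYM
  have hc := cv.ov.1.isClosed
  have hC : IsCompact (frontier K) := cv.ov.1.of_isClosed_subset isClosed_frontier hc.frontier_subset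
  obtain ⟨⟨a0, y0⟩, q0, top, p0⟩ := cv.top
  have x0 : (((a0 : ℂ), (a0 : ℂ), (y0 : ℂ)) : S3) ∈ XS d (frontier K) :=
    ⟨a0, a0, y0, rfl, q0, q0, by rw [d.Dd]; exact p0⟩
  obtain ⟨h, h0, Φ, f0, s, hX⟩ := strip_sol AO.st_LOC hUNI hSYM (xs_compact d hC) (re_reg g cv)
    (re_inv g cv) x0
  have mr : ∀ t : ℝ, (t : ℂ) ∈ strip h := fun t => by simpa [strip] using h0
  have pc := (strip_convex h).isPreconnected
  have reg : ∀ t : ℝ, Reg d (Φ t) := fun t => (re_reg g cv _ (hX t)).1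
  have xs : ∀ t : ℝ, Φ t = ((((fA Φ t).re : ℝ) : ℂ), (((fB Φ t).re : ℝ) : ℂ),
      (((fY Φ t).re : ℝ) : ℂ)) ∧ ((fA Φ t).re, (fY Φ t).re) ∈ frontier K ∧
      ((fB Φ t).re, (fY Φ t).re) ∈ frontier K := by
    intro t
    obtain ⟨a, b, y, e, h1, h2, _⟩ := hX t
    simp only [fA, fB, fY, e, Complex.ofReal_re]
    exact ⟨trivial, h1, h2⟩
  have zero_iff : ∀ t : ℝ, (fA Φ t - fB Φ t).re = 0 ↔ fA Φ t = fB Φ t := by
    intro t
    refine ⟨fun z => ?_, fun z => by rw [z, sub_self, Complex.zero_re]⟩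
    have e1 : fA Φ t = (((fA Φ t).re : ℝ) : ℂ) := congrArg (fun σ : S3 => σ.1) (xs t).1
    have e2 : fB Φ t = (((fB Φ t).re : ℝ) : ℂ) := congrArg (fun σ : S3 => σ.2.1) (xs t).1
    rw [e1, e2, sub_eq_zero.1 ((Complex.sub_re _ _).symm.trans z)]
  have refl : ∀ t : ℝ, fA Φ t = fB Φ t → ∀ τ ∈ strip h, Φ τ = sw (Φ (2 * t - τ)) := by
    intro t z
    have s2 := (hSYM d _ _ ((hSYM d _ _ s).2.2.1 (2 * t))).1 (strip h) s.op fun τ hτ => by
      simpa [strip] using hτ
    refine hUNI d _ _ _ t s s2 pc (mr t) ?_ (reg t)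
    have e : (2 * t - t : ℂ) = t := by ring
    simp only [e]
    exact Prod.ext z (Prod.ext z.symm rfl)
  have z0 : fA Φ (0 : ℝ) = fB Φ (0 : ℝ) := by simp [fA, fB, f0]
  have neg : ∀ τ ∈ strip h, Φ (-τ) = sw (Φ τ) := fun τ hτ => by
    simpa using refl 0 z0 (-τ) (by simpa [strip] using hτ)
  have hy : ∀ t : ℝ, HasDerivAt (fun t : ℝ => (fY Φ t).re) (fA Φ t - fB Φ t).re t := fun t =>
    (s.dY t (mr t)).real_of_complex
  have cΦ : Continuous fun t : ℝ => Φ t := continuous_iff_continuousAt.2 fun t =>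
    (s.df.differentiableAt (s.op.mem_nhds (mr t))).continuousAt.comp
      Complex.continuous_ofReal.continuousAt
  obtain ⟨m, m0, hm⟩ := re_low g cv
  obtain ⟨M, hM⟩ := hC.isBounded.exists_norm_le
  obtain ⟨t1, p1, z1, nz⟩ := Z62.first_zero hy
    (fun t => (acc_deriv s (mr t) (reg t)).real_of_complex)
    (Complex.continuous_re.comp
      ((acc_cont fun σ m => (re_reg g cv σ m).1).comp_continuous cΦ hX)) m0
    (fun t => hm _ (hX t)) (M := M)
    (fun t => (norm_snd_le (((fA Φ t).re, (fY Φ t).re) : ℝ × ℝ)).trans (hM _ (xs t).2.1))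
    ((zero_iff 0).2 z0)
  have z2 := (zero_iff t1).1 z1
  have per : ∀ τ ∈ strip h, Φ (τ + ((2 * t1 : ℝ) : ℂ)) = Φ τ := fun τ hτ => by
    have e : (2 * t1 - (τ + ((2 * t1 : ℝ) : ℂ)) : ℂ) = -τ := by
      push_cast
      ring
    rw [refl t1 z2 _ (by simpa [strip] using hτ), e, neg τ hτ]
    rfl
  have pr : Function.Periodic (fun t : ℝ => Φ t) (2 * t1) := fun t => by
    simpa using per t (mr t)
  have zneg : ∀ t : ℝ, fA Φ t = fB Φ t → fA Φ (-t : ℝ) = fB Φ (-t : ℝ) := fun t z => by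
    simp only [fA, fB, Complex.ofReal_neg, neg t (mr t)]
    exact z.symm
  have y00 : (fY Φ (0 : ℝ)).re = y0 := by simp [fY, f0]
  refine ⟨h, 2 * t1, Φ, h0, ⟨s, by linarith, per, neg, fun τ hτ => ?_, fun t => ?_⟩,
    fun t => (xs t).2, fun q hq => ?_⟩
  · have s2 := (hSYM d _ _ (hSYM d _ _ s).2.2.2.1).1 (strip h) s.op fun τ hτ => by
      simpa [strip] using hτ
    have := hUNI d _ _ _ (0 : ℝ) s s2 pc (mr 0) (by simp [f0, cj]) (reg 0) (x := conj τ)
      (by simpa [strip] using hτ)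
    simpa using this
  · have e2 : 2 * t1 / 2 = t1 := by ring
    rw [e2]
    have shift : ∀ (u : ℝ) (n : ℤ), fA Φ u = fB Φ u →
        fA Φ (u - n * (2 * t1) : ℝ) = fB Φ (u - n * (2 * t1) : ℝ) := fun u n z => by
      have := pr.sub_int_mul_eq (x := u) n
      simp only [fA, fB, this]
      exact z
    constructor
    · intro z
      obtain ⟨n, hn⟩ : ∃ n : ℤ, n = ⌊(t + t1) / (2 * t1)⌋ := ⟨_, rfl⟩
      have p2 : 0 < 2 * t1 := by linarith
      have b1 : n * (2 * t1) ≤ t + t1 := (le_div_iff₀ p2).1 (hn ▸ Int.floor_le _)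
      have b2 : t + t1 < (n + 1) * (2 * t1) := (div_lt_iff₀ p2).1 (hn ▸ Int.lt_floor_add_one _)
      have z3 := shift t n z
      rcases lt_trichotomy (t - n * (2 * t1)) 0 with c | c | c
      · rcases (show -t1 ≤ t - n * (2 * t1) by linarith).eq_or_lt with c2 | c2
        · exact ⟨2 * n - 1, by push_cast; linarith⟩
        · exact absurd ((zero_iff _).2 (zneg _ z3)) (nz _ (by linarith) (by linarith))
      · exact ⟨2 * n, by push_cast; linarith⟩
      · exact absurd ((zero_iff _).2 z3) (nz _ c (by linarith))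
    · rintro ⟨k, rfl⟩
      obtain ⟨n, hn | hn⟩ := Int.even_or_odd' k
      · have e : (k : ℝ) * t1 = 0 - ((-n : ℤ) : ℝ) * (2 * t1) := by
          rw [hn]
          push_cast
          ring
        rw [e]
        exact shift 0 (-n) z0
      · have e : (k : ℝ) * t1 = t1 - ((-n : ℤ) : ℝ) * (2 * t1) := by
          rw [hn]
          push_cast
          ring
        rw [e]
        exact shift t1 (-n) z2
  · have yc : Continuous fun t : ℝ => (fY Φ t).re :=
      continuous_iff_continuousAt.2 fun t => (hy t).continuousAt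
    have dg : ∀ t : ℝ, fA Φ t = fB Φ t → d.px (rc ((fA Φ t).re, (fY Φ t).re)) = 0 := by
      intro t z
      have := s.pD t (mr t)
      rw [(xs t).1, ← z, d.Dd] at this
      exact this
    have bot : (fY Φ t1).re ≤ q.2 := by
      rcases cv.ex _ (xs t1).2.1 (dg t1 z2) with c | c
      · have e : (fY Φ (0 : ℝ)).re = (fY Φ t1).re := by
          rw [y00]
          exact le_antisymm (c _ (hc.frontier_subset q0)) (top _ (hc.frontier_subset (xs t1).2.1))
        obtain ⟨t, ht, z⟩ := exists_hasDerivAt_eq_zero p1 yc.continuousOn e fun t _ => hy t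
        exact absurd z (nz t ht.1 ht.2)
      · exact c q (hc.frontier_subset hq)
    obtain ⟨t, _, e⟩ := intermediate_value_Icc' p1.le yc.continuousOn
      (show q.2 ∈ Icc (fY Φ t1).re (fY Φ (0 : ℝ)).re from
        ⟨bot, by rw [y00]; exact top q (hc.frontier_subset hq)⟩)
    have e : (fY Φ t).re = q.2 := e
    obtain ⟨x, y⟩ := q
    by_cases c1 : x = (fA Φ t).re
    · exact ⟨t, Prod.ext c1 e.symm⟩
    by_cases c2 : x = (fB Φ t).re
    · refine ⟨-t, ?_⟩
      simp only [fA, fY, Complex.ofReal_neg, neg t (mr t)]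
      exact Prod.ext c2 e.symm
    exfalso
    have m1 := (xs t).2.1
    have m2 := (xs t).2.2
    rw [e] at m1 m2
    have e3 := cv.two _ hq (1, 0) ((fA Φ t).re - x) ((fB Φ t).re - x) (by simp)
      (sub_ne_zero.2 (Ne.symm c1)) (sub_ne_zero.2 (Ne.symm c2)) (by simpa using m1)
      (by simpa using m2)
    have z := dg t ((zero_iff t).1 (by rw [Complex.sub_re]; linarith))
    rw [e] at z
    exact px_ne cv m1 hq (Ne.symm c1) z

theorem st_ENT (hGRON : St_GRON) (hDIAG : St_DIAG) : St_ENT := by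
  intro d T Φ C hG hP hR
  have hT := hP.Tp
  have df : Differentiable ℂ Φ := differentiableOn_univ.1 hP.sol.df
  obtain ⟨c, -, hc⟩ := hGRON d hG
  have first : ∀ t : ℝ, 0 < t → t < T / 2 → fA Φ t ≠ fB Φ t := by
    intro t h0 h1 e
    obtain ⟨k, hk⟩ := (hP.zer t).1 e
    have a : (0 : ℝ) < k := by
      by_contra h
      nlinarith [not_lt.1 h]
    have b : (k : ℝ) < 1 := by
      by_contra h
      nlinarith [not_lt.1 h]
    have a' : 0 < k := by exact_mod_cast a
    have b' : k < 1 := by exact_mod_cast b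
    omega
  have fix : ∀ z, fA Φ z = fB Φ z → sw (Φ z) = Φ z := fun z e =>
    Prod.ext e.symm (Prod.ext e rfl)
  have reg := fun z => hDIAG d univ Φ hG hP.sol z (mem_univ _)
  obtain ⟨L, hL⟩ := Ent66.ellipse (A := fA Φ) (B := fB Φ) (Y := fY Φ) (C := c) hT
    df.fst df.snd.fst (fun z => hP.sol.dY z (mem_univ _))
    (fun z => (hc _ Φ hP.sol convex_univ z (mem_univ _)).1)
    (fun z => (hc _ Φ hP.sol convex_univ z (mem_univ _)).2.1)
    (fun z e u => by
      have s : Sol d univ fun τ => sw (Φ (2 * z - τ)) :=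
        (AO.st_SYM d univ Φ hP.sol).2.2.1 (2 * z)
      have := AO.st_UNI d univ Φ _ z hP.sol s isPreconnected_univ (mem_univ _)
        (by rw [show 2 * z - z = z by ring, fix z e]) (reg z e).1 (mem_univ (z + u))
      simp only [show 2 * z - (z + u) = z - u by ring] at this
      exact congrArg Prod.fst this)
    (by simpa using (hP.zer 0).2 ⟨0, by simp⟩) (by simpa using (hP.zer (T / 2)).2 ⟨1, by simp⟩)
    first
    (fun z e h => by
      have a := hP.sol.dA z (mem_univ _)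
      have b := hP.sol.dB z (mem_univ _)
      rw [fix z e, ← h, a, ← e] at b
      exact (reg z e).2 (by linear_combination -b / 2))
    (fun t => by
      have := congrArg Prod.fst (hP.cnj t (mem_univ _))
      rw [Complex.conj_ofReal] at this
      exact Complex.conj_eq_iff_im.1 this.symm)
  refine ⟨L, hL ▸ Subset.antisymm (fun q hq => ?_) ?_⟩
  · obtain ⟨t, ht⟩ := hR.2 q hq
    exact ⟨t, ht.symm⟩
  · rintro _ ⟨t, rfl⟩
    exact (hR.1 t).1

end Pool.Agent.AO.X
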