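import Pool.Agent.Lib.AX.Blue
import Pool.Agent.Lib.AO.Sect75
import Pool.Agent.Lib.AO.B_CPX
import Pool.Agent.Lib.AO.B_FLOW

set_option autoImplicit false

noncomputable section

namespace Pool.Agent.AO.X

open Set Metric Filter Topology Complex

/-- The local description of the solution at `b` with data `l`. -/
def sectG (h : ℝ) (Φ : ℂ → S3) (b : ℂ) (l : LD) : Prop :=
  ∃ (δ : ℝ) (Ψ : ℂ → S3), (T1 l ∨ T2 l) ∧ 0 < δ ∧ DifferentiableOn ℂ Ψ (sd b δ) ∧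
    EqOn Ψ Φ (ball b δ ∩ strip h) ∧ LX (sd b δ) Ψ b l

theorem sect_strip_add {h : ℝ} (t : ℝ) {τ : ℂ} (hτ : τ ∈ strip h) : τ + t ∈ strip h := by
  show |(τ + t).im| < h
  rw [add_im, ofReal_im, add_zero]
  exact hτ

theorem sect_im {h : ℝ} {τ : ℂ} (hτ : τ ∈ strip h) : τ.im < h :=
  (abs_lt.1 (show |τ.im| < h from hτ)).2

theorem sect_ball_add {b τ t : ℂ} {δ : ℝ} (hτ : τ ∈ ball b δ) : τ + t ∈ ball (b + t) δ := by
  rw [mem_ball, dist_add_right]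
  exact hτ

theorem sect_sd_add {b τ t : ℂ} {δ : ℝ} (hτ : τ ∈ sd b δ) : τ + t ∈ sd (b + t) δ :=
  ⟨sect_ball_add hτ.1, by rw [add_sub_add_right_eq_sub]; exact hτ.2⟩

theorem sect_G_shift {h t : ℝ} {Φ : ℂ → S3} (hp : ∀ τ ∈ strip h, Φ (τ + t) = Φ τ) {b : ℂ}
    {l : LD} (hG : sectG h Φ (b + t) l) : sectG h Φ b l := by
  obtain ⟨δ, Ψ, h1, h2, h3, h4, h5⟩ := hG
  refine ⟨δ, fun τ => Ψ (τ + t), h1, h2,
    h3.comp (differentiable_id.add_const _).differentiableOn fun τ hτ => sect_sd_add hτ,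
    fun τ hτ => ?_, fun ε hε => ?_⟩
  · show Ψ (τ + t) = Φ τ
    rw [h4 ⟨sect_ball_add hτ.1, sect_strip_add t hτ.2⟩, hp τ hτ.2]
  · obtain ⟨δ', a1, a2⟩ := h5 ε hε
    refine ⟨δ', a1, fun τ hτ hd => ?_⟩
    have := a2 (τ + t) (sect_sd_add hτ) (by rw [add_sub_add_right_eq_sub]; exact hd)
    rw [add_sub_add_right_eq_sub] at this
    exact this

theorem sect_E_shift {h t : ℝ} {Φ : ℂ → S3} (hp : ∀ τ ∈ strip h, Φ (τ + t) = Φ τ) {b : ℂ}
    (hE : Ext (strip h) Φ (b + t)) : Ext (strip h) Φ b := by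
  obtain ⟨ρ, h1, Ψ, h3, h4⟩ := hE
  refine ⟨ρ, h1, fun τ => Ψ (τ + t),
    h3.comp (differentiable_id.add_const _).differentiableOn fun τ hτ => sect_ball_add hτ,
    fun τ hτ => ?_⟩
  show Ψ (τ + t) = Φ τ
  rw [h4 ⟨sect_ball_add hτ.1, sect_strip_add t hτ.2⟩, hp τ hτ.2]

theorem sect_sd_open (b : ℂ) (δ : ℝ) : IsOpen (sd b δ) :=
  isOpen_ball.inter (slit_open.preimage (continuous_id.sub continuous_const))

/-- A ball about a point below `b` that has `b` on its boundary misses the slit. -/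
theorem sect_miss {b c : ℂ} {δ : ℝ} (hc : c.im < b.im) (hd : 2 * ‖c - b‖ ≤ δ) :
    ball c ‖c - b‖ ⊆ sd b δ := by
  intro τ hτ
  rw [mem_ball, dist_eq_norm] at hτ
  refine ⟨?_, ?_⟩
  · rw [mem_ball, dist_eq_norm]
    have := norm_sub_le_norm_sub_add_norm_sub τ c b
    linarith
  · rw [slit_iff]
    by_contra hn
    rw [not_or, not_lt, not_not, sub_im, sub_re] at hn
    have h1 : ‖τ - c‖ ^ 2 < ‖c - b‖ ^ 2 := pow_lt_pow_left₀ hτ (norm_nonneg _) two_ne_zero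
    rw [Complex.sq_norm, Complex.sq_norm, normSq_apply, normSq_apply, sub_re, sub_im, sub_re,
      sub_im] at h1
    have e : τ.re = b.re := by linarith [hn.2]
    rw [e] at h1
    nlinarith [mul_nonneg hn.1 hn.1, mul_nonneg hn.1 (sub_pos.2 hc).le]

theorem sect_iso {h : ℝ} {Φ : ℂ → S3} (hG : ∀ b ∈ Sg h Φ, ∃ l, sectG h Φ b l) (x : ℂ) :
    ∃ ρ : ℝ, 0 < ρ ∧ ∀ b ∈ Sg h Φ, b ∈ ball x ρ → b = x := by
  by_cases h1 : x.im = h
  · by_cases h2 : Ext (strip h) Φ x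
    · obtain ⟨ρ, hρ, hX⟩ := h2
      refine ⟨ρ, hρ, fun b hb hbx => absurd ?_ hb.2⟩
      obtain ⟨r, hr, hs⟩ := Metric.isOpen_iff.1 isOpen_ball b hbx
      exact ⟨r, hr, sect_mono (c := x) (ρ := ρ) hX hs⟩
    · obtain ⟨l, δ, Ψ, -, a2, a3, a4, -⟩ := hG x ⟨h1, h2⟩
      refine ⟨δ, a2, fun b hb hbx => ?_⟩
      by_contra hne
      have hs : b ∈ sd x δ := ⟨hbx, (slit_iff _).2 (Or.inr fun e => hne (Complex.ext
        (by rw [sub_re] at e; linarith) (by rw [hb.1, h1])))⟩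
      obtain ⟨r, hr, hs⟩ := Metric.isOpen_iff.1 (sect_sd_open x δ) b hs
      exact hb.2 ⟨r, hr, Ψ, a3.mono hs,
        a4.mono (inter_subset_inter_left _ fun τ hτ => (hs hτ).1)⟩
  · refine ⟨|x.im - h|, abs_pos.2 (sub_ne_zero.2 h1), fun b hb hbx => ?_⟩
    rw [mem_ball, dist_comm, dist_eq_norm] at hbx
    have := abs_im_le_norm (x - b)
    rw [sub_im, hb.1] at this
    linarith

theorem sect_fin {h : ℝ} {Φ : ℂ → S3} (hG : ∀ b ∈ Sg h Φ, ∃ l, sectG h Φ b l) (R : ℝ) :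
    (Sg h Φ ∩ closedBall 0 R).Finite := by
  choose ρ hρ hx using sect_iso hG
  obtain ⟨t, -, hcov⟩ := (isCompact_closedBall (0 : ℂ) R).elim_nhds_subcover
    (fun x => ball x (ρ x)) fun x _ => ball_mem_nhds x (hρ x)
  refine t.finite_toSet.subset fun b hb => ?_
  have := hcov hb.2
  simp only [mem_iUnion, exists_prop] at this
  obtain ⟨x, h1, h2⟩ := this
  rw [hx x b hb.1 h2]
  exact h1

theorem sect_loc2 {h : ℝ} {Φ : ℂ → S3} (hh : 0 < h) (ho : IsOpen (strip h))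
    (hΦ : DifferentiableOn ℂ Φ (strip h)) (hG : ∀ b ∈ Sg h Φ, ∃ l, sectG h Φ b l) {x : ℂ}
    (h1 : -h / 2 ≤ x.im) (h2 : x.im ≤ h) : ∃ δ κ : ℝ, 0 < δ ∧ 0 < κ ∧ ∀ c ∈ strip h,
      ‖c - x‖ < δ → ∀ e : ℝ, 0 < e → e ≤ 1 → (x ∈ Sg h Φ → e ≤ ‖c - x‖) →
        sectX (strip h) Φ c (κ * e) := by
  by_cases hS : x ∈ Sg h Φ
  · obtain ⟨l, δ, Ψ, -, a2, a3, a4, -⟩ := hG x hS
    refine ⟨δ / 2, 1, by positivity, one_pos, fun c hc hcx e _ _ h3 => ?_⟩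
    have hs : ball c (1 * e) ⊆ sd x δ := (ball_subset_ball (by linarith [h3 hS])).trans
      (sect_miss (by rw [hS.1]; exact sect_im hc) (by linarith))
    exact ⟨Ψ, a3.mono hs, a4.mono (inter_subset_inter_left _ fun τ hτ => (hs hτ).1)⟩
  · have hE : Ext (strip h) Φ x := by
      rcases h2.eq_or_lt with e | e
      · by_contra hn
        exact hS ⟨e, hn⟩
      · obtain ⟨ρ, hρ, hsub⟩ := Metric.isOpen_iff.1 ho x (abs_lt.2 ⟨by linarith, e⟩)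
        exact ⟨ρ, hρ, Φ, hΦ.mono hsub, fun _ _ => rfl⟩
    obtain ⟨ρ, hρ, hX⟩ := hE
    refine ⟨ρ / 2, ρ / 2, by positivity, by positivity, fun c _ hcx e he he1 _ => ?_⟩
    refine sect_mono (c := x) (ρ := ρ) hX (ball_subset_ball' ?_)
    rw [dist_eq_norm]
    have := mul_le_of_le_one_right (by positivity : 0 ≤ ρ / 2) he1
    linarith

theorem sect_cov2 {h : ℝ} {Φ : ℂ → S3} (hh : 0 < h) (ho : IsOpen (strip h))
    (hΦ : DifferentiableOn ℂ Φ (strip h)) (hG : ∀ b ∈ Sg h Φ, ∃ l, sectG h Φ b l) (R : ℝ) :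
    ∃ k : ℝ, 0 < k ∧ k ≤ 1 / 2 ∧ ∀ c ∈ strip h, -h / 2 ≤ c.im → ‖c‖ ≤ R → ∀ e : ℝ, 0 < e →
      e ≤ 1 → (∀ b ∈ Sg h Φ, ‖b‖ ≤ R → e ≤ ‖c - b‖) → sectX (strip h) Φ c (k * e) := by
  have hK : IsCompact (closedBall (0 : ℂ) R ∩ {x | -h / 2 ≤ x.im ∧ x.im ≤ h}) :=
    (isCompact_closedBall 0 R).inter_right
      ((isClosed_le continuous_const continuous_im).and (isClosed_le continuous_im continuous_const))
  have h0 : ∀ x : ℂ, ∃ δ κ : ℝ, 0 < δ ∧ 0 < κ ∧ (-h / 2 ≤ x.im ∧ x.im ≤ h → ∀ c ∈ strip h,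
      ‖c - x‖ < δ → ∀ e : ℝ, 0 < e → e ≤ 1 → (x ∈ Sg h Φ → e ≤ ‖c - x‖) →
        sectX (strip h) Φ c (κ * e)) := by
    intro x
    by_cases hx : -h / 2 ≤ x.im ∧ x.im ≤ h
    · obtain ⟨δ, κ, h1, h2, h3⟩ := sect_loc2 hh ho hΦ hG hx.1 hx.2
      exact ⟨δ, κ, h1, h2, fun _ => h3⟩
    · exact ⟨1, 1, one_pos, one_pos, fun h => absurd h hx⟩
  choose δ κ hδ hκ hx using h0
  obtain ⟨t, ht, hcov⟩ := hK.elim_nhds_subcover (fun x => ball x (δ x))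
    fun x _ => ball_mem_nhds x (hδ x)
  have hk := fun c => (Finset.le_fold_min (s := t) (f := κ) (b := (1 / 2 : ℝ)) (c := c))
  have hk1 := (hk _).1 le_rfl
  refine ⟨t.fold min (1 / 2) κ, (Finset.lt_fold_min _).2 ⟨by norm_num, fun x _ => hκ x⟩, hk1.1,
    fun c hc h1 hcR e he he1 hec => ?_⟩
  have := hcov ⟨mem_closedBall_zero_iff.2 hcR, h1, (sect_im hc).le⟩
  simp only [mem_iUnion, mem_ball, dist_eq_norm, exists_prop] at this
  obtain ⟨x, hxt, hcx⟩ := this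
  refine sect_mono (hx x (ht x hxt).2 c hc hcx e he he1
    fun h' => hec x h' (mem_closedBall_zero_iff.1 (ht x hxt).1)) (ball_subset_ball ?_)
  exact mul_le_mul_of_nonneg_right (hk1.2 x hxt) he.le

theorem sect_proj2 {h t : ℝ} (hh : 0 < h) (ht : 0 < t) {z : ℂ} (h1 : -h / 2 ≤ z.im)
    (h2 : z.im ≤ h + t) : ∃ c ∈ strip h, -h / 2 ≤ c.im ∧ ‖z - c‖ ≤ 2 * t := by
  by_cases h3 : z.im < h
  · exact ⟨z, abs_lt.2 ⟨by linarith, h3⟩, h1, by rw [sub_self, norm_zero]; positivity⟩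
  · have a1 := min_le_left t h
    have a2 := min_le_right t h
    have a3 : 0 < min t h := lt_min ht hh
    have e : (z - ((z.im - h + min t h : ℝ) : ℂ) * I).im = h - min t h := by
      rw [sub_im, mul_I_im, ofReal_re]
      ring
    refine ⟨z - ((z.im - h + min t h : ℝ) : ℂ) * I, ?_, by rw [e]; linarith, ?_⟩
    · show |(z - ((z.im - h + min t h : ℝ) : ℂ) * I).im| < h
      rw [e, abs_lt]
      constructor <;> linarith
    · rw [sub_sub_cancel, norm_mul, norm_I, mul_one, norm_real, Real.norm_eq_abs, abs_le]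
      constructor <;> linarith

/-- The expansion passes to the glued domain. -/
theorem sect_LX {h : ℝ} {Φ Ψ : ℂ → S3} {D : Set ℂ} {b : ℂ} {l : LD} (ho : IsOpen (strip h))
    (hb : b.im = h) (hG : sectG h Φ b l) (hΨ : DifferentiableOn ℂ Ψ D)
    (heq : EqOn Ψ Φ (strip h))
    (hcov : ∀ τ ∈ D, τ ∈ strip h ∨ ∃ c ∈ strip h, ∃ ρ : ℝ, τ ∈ ball c ρ ∧ ball c ρ ⊆ D ∧
      2 * ρ ≤ ‖c - b‖) : LX D Ψ b l := by
  obtain ⟨δ, Ω, -, a2, a3, a4, a5⟩ := hG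
  have key : ∀ τ ∈ D, ‖τ - b‖ < δ / 4 → τ ∈ sd b δ ∧ Ψ τ = Ω τ := by
    intro τ hτ hd
    rcases hcov τ hτ with hs | ⟨c, hc, ρ, h1, h2, h3⟩
    · have hbl : τ ∈ ball b δ := by
        rw [mem_ball, dist_eq_norm]
        linarith
      refine ⟨⟨hbl, (slit_iff _).2 (Or.inl ?_)⟩, (heq hs).trans (a4 ⟨hbl, hs⟩).symm⟩
      rw [sub_im, hb]
      linarith [sect_im hs]
    · have hρ : 0 < ρ := pos_of_mem_ball h1
      have h4 : ‖τ - c‖ < ρ := by rwa [mem_ball, dist_eq_norm] at h1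
      have h5 := norm_sub_le_norm_sub_add_norm_sub c τ b
      rw [norm_sub_rev c τ] at h5
      have hs : ball c ρ ⊆ sd b δ := (ball_subset_ball (by linarith)).trans
        (sect_miss (by rw [hb]; exact sect_im hc) (by linarith))
      obtain ⟨r, hr, hsub⟩ := Metric.isOpen_iff.1 (isOpen_ball.inter ho) c ⟨mem_ball_self hρ, hc⟩
      refine ⟨hs h1, sect_ident isOpen_ball (convex_ball c ρ).isPreconnected (hΨ.mono h2)
        (a3.mono hs) (mem_ball_self hρ) hr (fun u hu => ?_) h1⟩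
      exact (heq (hsub hu).2).trans (a4 ⟨(hs (hsub hu).1).1, (hsub hu).2⟩).symm
  intro ε hε
  obtain ⟨δ', b1, b2⟩ := a5 ε hε
  refine ⟨min δ' (δ / 4), lt_min b1 (by positivity), fun τ hτ hd => ?_⟩
  obtain ⟨c1, c2⟩ := key τ hτ (hd.trans_le (min_le_right _ _))
  have := b2 τ c1 (hd.trans_le (min_le_left _ _))
  unfold fA fB fY at this ⊢
  rw [c2]
  exact this

theorem st_SECT (hU : St_UNIF) (hDg : St_DIAG) : St_SECT := by
  classical
  intro d h T Φ hd hh hP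
  have hs := hP.sol
  have hre : ∀ t : ℝ, (t : ℂ) ∈ strip h := fun t => by
    show |(t : ℂ).im| < h
    rw [ofReal_im, abs_zero]
    exact hh
  have hz0 : fA Φ ((T / 4 : ℝ) : ℂ) ≠ fB Φ ((T / 4 : ℝ) : ℂ) := by
    intro e
    obtain ⟨k, hk⟩ := (hP.zer _).1 e
    have h1 : (1 : ℝ) = 2 * k := mul_left_cancel₀ hP.Tp.ne' (by linarith)
    have h2 : (1 : ℤ) = 2 * k := by exact_mod_cast h1
    omega
  have hG : ∀ b ∈ Sg h Φ, ∃ l, sectG h Φ b l := hU d h Φ hd hh hs ⟨_, hre _, hz0⟩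
  have hp' : ∀ τ ∈ strip h, Φ (τ + ((-T : ℝ) : ℂ)) = Φ τ := fun τ hτ => by
    have := hP.per _ (sect_strip_add (-T) hτ)
    rw [← this]
    congr 1
    push_cast
    ring
  have eb : ∀ b : ℂ, b + T + ((-T : ℝ) : ℂ) = b := fun b => by
    push_cast
    ring
  have hGe : ∀ b : ℂ, sectG h Φ (b + T) = sectG h Φ b := fun b => funext fun l => propext
    ⟨sect_G_shift hP.per, fun a => sect_G_shift hp' (by rw [eb]; exact a)⟩
  have : Nonempty LD := ⟨⟨0, 0, 0, 0⟩⟩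
  have hl : ∀ b ∈ Sg h Φ, sectG h Φ b (Classical.epsilon (sectG h Φ b)) := fun b hb =>
    Classical.epsilon_spec (hG b hb)
  refine ⟨fun b => Classical.epsilon (sectG h Φ b), fun b => by simp only [hGe], sect_fin hG,
    fun b => ?_, fun b hb => ?_, fun R => ?_⟩
  · have e : (b + T).im = b.im := by rw [add_im, ofReal_im, add_zero]
    exact ⟨fun a => ⟨e ▸ a.1, fun a2 => a.2 (sect_E_shift hp' (by rw [eb]; exact a2))⟩,
      fun a => ⟨e.trans a.1, fun a2 => a.2 (sect_E_shift hP.per a2)⟩⟩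
  · obtain ⟨δ, Ψ, a, -⟩ := hl b hb
    exact a
  obtain ⟨k, hk, hk2, hS3⟩ := sect_cov2 hh hs.op hs.df hG (R + 1)
  obtain ⟨S, hS⟩ : ∃ S : Finset ℂ, ∀ b, b ∈ S ↔ b ∈ Sg h Φ ∧ ‖b‖ ≤ R + 1 :=
    ⟨(sect_fin hG (R + 1)).toFinset, fun b => by
      rw [Finite.mem_toFinset, mem_inter_iff, mem_closedBall_zero_iff]⟩
  have hSU : ∀ c ∈ strip h, ∀ b ∈ S, 0 < ‖c - b‖ := by
    intro c hc b hb
    refine norm_pos_iff.2 (sub_ne_zero.2 fun e => ?_)
    have h1 := sect_im hc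
    rw [e, ((hS b).1 hb).1.1] at h1
    exact lt_irrefl _ h1
  have hm := fun (c : ℂ) (e : ℝ) =>
    (Finset.le_fold_min (s := S) (f := fun b => ‖c - b‖) (b := (1 : ℝ)) (c := e))
  set m : ℂ → ℝ := fun c => S.fold min 1 fun b => ‖c - b‖ with hmdef
  have hm1 : ∀ c, m c ≤ 1 ∧ ∀ b ∈ S, m c ≤ ‖c - b‖ := fun c => (hm c _).1 le_rfl
  have hmp : ∀ c ∈ strip h, 0 < m c := fun c hc =>
    (Finset.lt_fold_min _).2 ⟨one_pos, hSU c hc⟩
  obtain ⟨Ψ, hΨ, heq, hcon⟩ := AO.st_GLUE (strip h) (strip h ∩ {c | -h / 2 ≤ c.im ∧ ‖c‖ ≤ R + 1})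
    Φ (fun c => k * m c) hs.op (sect_conv h) ⟨_, hre 0⟩ hs.df
    (inter_subset_left.trans subset_closure)
    fun c hc => hS3 c hc.1 hc.2.1 hc.2.2 _ (hmp c hc.1) (hm1 c).1
      fun b h1 h2 => (hm1 c).2 b ((hS b).2 ⟨h1, h2⟩)
  set D := strip h ∪ ⋃ c ∈ strip h ∩ {c | -h / 2 ≤ c.im ∧ ‖c‖ ≤ R + 1}, ball c (k * m c)
    with hDdef
  have hball : ∀ c ∈ strip h ∩ {c | -h / 2 ≤ c.im ∧ ‖c‖ ≤ R + 1}, ball c (k * m c) ⊆ D :=
    fun c h1 => (subset_biUnion_of_mem (u := fun c => ball c (k * m c)) h1).trans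
      subset_union_right
  have hDo : IsOpen D := hs.op.union (isOpen_biUnion fun _ _ => isOpen_ball)
  have hD : Sol d D Ψ :=
    AO.st_EXT d D (strip h) Φ Ψ hs ⟨_, hre 0⟩ subset_union_left hDo hcon hΨ heq
  refine ⟨k / 8, S, D, Ψ, ⟨hD, hh, by positivity, by linarith, fun b hb => ((hS b).1 hb).1.1, ?_,
    hDg d D Ψ hd hD⟩, subset_union_left, heq, fun b hb => ⟨((hS b).1 hb).1, ?_⟩,
    fun b h1 h2 => (hS b).2 ⟨h1, by linarith⟩⟩
  · rintro z e ⟨a1, a2, a3, a4, a5, a6⟩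
    have hke : 0 < k / 8 * e := by positivity
    have hke2 : k * e ≤ 1 / 2 * e := mul_le_mul_of_nonneg_right hk2 a4.le
    obtain ⟨c, hc, hc2, hzc⟩ := sect_proj2 hh hke a2 a3
    have hcR : ‖c‖ ≤ R + 1 := by
      have := norm_le_norm_add_norm_sub z c
      linarith
    refine (ball_subset_ball' ?_).trans (hball c ⟨hc, hc2, hcR⟩)
    have h1 : e / 2 ≤ m c := (hm c _).2 ⟨by linarith, fun b hb => by
      have := norm_sub_le_norm_sub_add_norm_sub z c b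
      linarith [a6 b hb]⟩
    have h2 := mul_le_mul_of_nonneg_left h1 hk.le
    rw [dist_eq_norm]
    linarith
  · refine sect_LX hs.op ((hS b).1 hb).1.1 (hl b ((hS b).1 hb).1) hΨ heq fun τ hτ => ?_
    rcases hτ with hτ | hτ
    · exact Or.inl hτ
    · simp only [mem_iUnion, exists_prop] at hτ
      obtain ⟨c, hc, hτ⟩ := hτ
      have b1 := mul_le_mul_of_nonneg_right hk2 (hmp c hc.1).le
      exact Or.inr ⟨c, hc.1, _, hτ, hball c hc, by linarith [(hm1 c).2 b hb]⟩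

end Pool.Agent.AO.X
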