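import Pool.Agent.Lib.AX.Blue

set_option autoImplicit false

noncomputable section

namespace Pool.Agent.AO.X

open Set Metric Filter Topology Complex

theorem SUM_inv {a b B : ℝ} (ha : 0 < a) (hab : a ≤ b) (hB : b ≤ B) :
    (b - a) / (2 * (B * √B)) ≤ 1 / √a - 1 / √b := by
  have x0 : 0 < √a := Real.sqrt_pos.2 ha
  have xy : √a ≤ √b := Real.sqrt_le_sqrt hab
  have yz : √b ≤ √B := Real.sqrt_le_sqrt hB
  have ea : √a * √a = a := Real.mul_self_sqrt ha.le
  have eb : √b * √b = b := Real.mul_self_sqrt (by linarith)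
  have eB : √B * √B = B := Real.mul_self_sqrt (by linarith)
  generalize √a = x at *
  generalize √b = y at *
  generalize √B = z at *
  subst ea eb eB
  have y0 : 0 < y := by linarith
  have z0 : 0 < z := by linarith
  rw [div_sub_div _ _ x0.ne' y0.ne', div_le_div_iff₀ (by positivity) (by positivity)]
  have h1 : (y + x) * (x * y) ≤ 2 * z * (z * z) :=
    mul_le_mul (by linarith) (mul_le_mul (by linarith) yz y0.le z0.le) (by positivity)
      (by positivity)
  nlinarith [mul_le_mul_of_nonneg_left h1 (sub_nonneg.2 xy)]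

/-- A bounded function with increments of order `|s| ^ (-3 / 2)`. -/
def SUM_G (K s : ℝ) : ℝ := 1 / √(K + max (-s) 0) - 1 / √(K + max s 0)

theorem SUM_abs {K : ℝ} (hK : 1 ≤ K) (s t : ℝ) : SUM_G K s - SUM_G K t ≤ 2 / √K := by
  have h : ∀ u : ℝ, 0 ≤ 1 / √(K + max u 0) ∧ 1 / √(K + max u 0) ≤ 1 / √K := fun u =>
    ⟨by positivity, one_div_le_one_div_of_le (Real.sqrt_pos.2 (by linarith))
      (Real.sqrt_le_sqrt (by linarith [le_max_right u 0]))⟩
  have e : 2 / √K = 1 / √K + 1 / √K := by ring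
  unfold SUM_G
  linarith [h s, h (-s), h t, h (-t)]

theorem SUM_inc {K M s : ℝ} (hK : 1 ≤ K) (h1 : K ≤ M) (h2 : |s| - 1 ≤ M) :
    1 / (M * √M) ≤ 8 * (SUM_G K (s + 1) - SUM_G K (s - 1)) := by
  have m1 : max (-(s - 1)) 0 ≤ 3 * M := max_le (by linarith [neg_abs_le s]) (by linarith)
  have m2 : max (s + 1) 0 ≤ 3 * M := max_le (by linarith [le_abs_self s]) (by linarith)
  have b1 := SUM_inv (a := K + max (-(s + 1)) 0) (b := K + max (-(s - 1)) 0) (B := 4 * M)
    (by linarith [le_max_right (-(s + 1)) 0])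
    (by linarith [max_le_max_right 0 (show -(s + 1) ≤ -(s - 1) by linarith)])
    (by linarith)
  have b2 := SUM_inv (a := K + max (s - 1) 0) (b := K + max (s + 1) 0) (B := 4 * M)
    (by linarith [le_max_right (s - 1) 0])
    (by linarith [max_le_max_right 0 (show s - 1 ≤ s + 1 by linarith)])
    (by linarith)
  have e : √(4 * M) = 2 * √M := by
    rw [Real.sqrt_mul (by norm_num), show (4 : ℝ) = 2 * 2 by norm_num,
      Real.sqrt_mul_self (by norm_num)]
  have M0 : 0 < √M := Real.sqrt_pos.2 (by linarith)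
  have e2 : 1 / (M * √M) = 8 * ((K + max (-(s - 1)) 0 - (K + max (-(s + 1)) 0)) /
      (2 * (4 * M * √(4 * M))) + (K + max (s + 1) 0 - (K + max (s - 1) 0)) /
      (2 * (4 * M * √(4 * M)))) := by
    rw [← add_div, show K + max (-(s - 1)) 0 - (K + max (-(s + 1)) 0) +
      (K + max (s + 1) 0 - (K + max (s - 1) 0)) = 2 by
        linarith [max_zero_sub_max_neg_zero_eq_self (s + 1),
          max_zero_sub_max_neg_zero_eq_self (s - 1)], e]
    have : 0 < M := by linarith
    field_simp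
    norm_num
  unfold SUM_G
  linarith

theorem st_SUM : St_SUM := by
  refine ⟨16, by norm_num, fun K r x b μ s hK hr h => ?_⟩
  obtain ⟨t, ht⟩ : ∃ t : ℝ, t * r = x - b.re := ⟨(x - b.re) / r, by field_simp⟩
  let G : ℕ → ℝ := fun k => SUM_G K (t + 2 * k - 1)
  have inc : ∀ (k : ℕ) (M : ℝ), K ≤ M → |t + 2 * k| - 1 ≤ M →
      1 / (M * √M) ≤ 8 * (G (k + 1) - G k) := fun k M h1 h2 => by
    have e : G (k + 1) = SUM_G K (t + 2 * k + 1) := by
      simp only [G]
      push_cast
      ring_nf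
    rw [e]
    exact SUM_inc hK h1 h2
  have h1 : ∀ k ∈ s, (r / ‖μ k - b‖) ^ (3 / 2 : ℝ) ≤ 8 * (G (k + 1) - G k) := fun k hk => by
    obtain ⟨a1, a2⟩ := h k hk
    have n0 : 0 < ‖μ k - b‖ := lt_of_lt_of_le (by positivity) a2
    refine le_trans (le_of_eq ?_) (inc k (‖μ k - b‖ / r) ((le_div_iff₀ hr).2 a2) ?_)
    · rw [← inv_div, Real.inv_rpow (by positivity), one_div, show (3 / 2 : ℝ) = 1 + 1 / 2 by norm_num,
        Real.rpow_add (by positivity), Real.rpow_one, Real.sqrt_eq_rpow]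
    · have h5 := abs_re_le_norm (μ k - b)
      have h7 := abs_sub ((μ k - b).re) ((μ k).re - (x + 2 * k * r))
      rw [show (μ k - b).re - ((μ k).re - (x + 2 * k * r)) = (t + 2 * k) * r by
        rw [sub_re]; linarith, abs_mul, abs_of_pos hr] at h7
      rw [le_div_iff₀ hr]
      linarith
  obtain ⟨n, hn⟩ := s.exists_nat_subset_range
  refine (Finset.sum_le_sum h1).trans ((Finset.sum_le_sum_of_subset_of_nonneg hn
    fun k _ _ => le_trans (by positivity)
      (inc k (max K (|t + 2 * k| - 1)) (le_max_left _ _) (le_max_right _ _))).trans ?_)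
  rw [← Finset.mul_sum, Finset.sum_range_sub]
  have := SUM_abs hK (t + 2 * n - 1) (t + 2 * (0 : ℕ) - 1)
  have e : 16 / √K = 8 * (2 / √K) := by ring
  simp only [G]
  linarith

end Pool.Agent.AO.X
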