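import Pool.Agent.Lib.AX.Blue

set_option autoImplicit false

noncomputable section

namespace Pool.Agent.AO.X

open Set Metric Filter Topology Complex

namespace UFZ

/-- Analytic implicit function, second variable in terms of the first. -/
theorem graph {F : ℂ × ℂ → ℂ} {z0 : ℂ × ℂ} (cd : ContDiffAt ℂ 1 F z0) (h0 : F z0 = 0)
    (h2 : fderiv ℂ F z0 (0, 1) ≠ 0) :
    ∃ η : ℂ → ℂ, AnalyticAt ℂ η z0.1 ∧ η z0.1 = z0.2 ∧
      ∀ᶠ z in 𝓝 z0, (F z = 0 ↔ η z.1 = z.2) := by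
  have inv : (fderiv ℂ F z0 ∘L ContinuousLinearMap.inr ℂ ℂ ℂ).IsInvertible := by
    refine ⟨ContinuousLinearEquiv.unitsEquivAut ℂ (Units.mk0 _ h2), ?_⟩
    ext
    simp
  refine ⟨cd.implicitFunction (by simp) inv, ?_, cd.implicitFunction_apply_self _ _, ?_⟩
  · exact Complex.analyticAt_iff_eventually_differentiableAt.2
      (((cd.contDiffAt_implicitFunction (by simp) inv).eventually (by simp)).mono
        fun x hx => hx.differentiableAt (by simp))
  · have := cd.eventually_apply_eq_iff_implicitFunction (by simp) inv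
    rwa [h0] at this

/-- A `k`-th root of `(x - a) ^ k * u x` and its local inverse. -/
theorem root {u : ℂ → ℂ} {a : ℂ} {k : ℕ} (hu : AnalyticAt ℂ u a) (h0 : u a ≠ 0) (hk : 1 ≤ k) :
    ∃ s Ξ : ℂ → ℂ, AnalyticAt ℂ s a ∧ s a = 0 ∧ AnalyticAt ℂ Ξ 0 ∧ Ξ 0 = a ∧ deriv Ξ 0 ≠ 0 ∧
      ∀ᶠ x in 𝓝 a, Ξ (s x) = x ∧ s x ^ k = (x - a) ^ k * u x := by
  have hk' : (k : ℂ) ≠ 0 := Nat.cast_ne_zero.2 (by omega)
  obtain ⟨c, hc⟩ : ∃ c : ℂ, c ^ k = u a := IsAlgClosed.exists_pow_nat_eq _ (by omega)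
  have hc0 : c ≠ 0 := by
    rintro rfl
    rw [zero_pow (by omega)] at hc
    exact h0 hc.symm
  have h1 : u a / u a ∈ slitPlane := by rw [div_self h0]; exact one_mem_slitPlane
  have hq : AnalyticAt ℂ (fun x => u x / u a) a := hu.div analyticAt_const h0
  have hw : AnalyticAt ℂ (fun x => c * exp (log (u x / u a) / k)) a :=
    analyticAt_const.mul (((hq.clog h1).div analyticAt_const hk').cexp)
  set w : ℂ → ℂ := fun x => c * exp (log (u x / u a) / k) with hwd
  have hw0 : w a ≠ 0 := mul_ne_zero hc0 (exp_ne_zero _)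
  have hs : AnalyticAt ℂ (fun x => (x - a) * w x) a := (analyticAt_id.sub analyticAt_const).mul hw
  have hd : HasDerivAt (fun x => (x - a) * w x) (w a) a := by
    refine (((hasDerivAt_id a).sub_const a).mul hw.differentiableAt.hasDerivAt).congr_deriv ?_
    simp
  have hd' : deriv (fun x => (x - a) * w x) a ≠ 0 := by rw [hd.deriv]; exact hw0
  have e0 : (a - a) * w a = 0 := by simp
  have hL := hs.hasStrictDerivAt.eventually_left_inverse hd'
  have hA := hs.analyticAt_localInverse hd'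
  have hD := (hs.hasStrictDerivAt.to_localInverse hd').hasDerivAt.deriv
  have hz := hL.self_of_nhds
  rw [e0] at hA hD hz
  refine ⟨_, _, hs, e0, hA, hz, by rw [hD]; exact inv_ne_zero hd', ?_⟩
  filter_upwards [hL, hu.continuousAt.eventually_ne h0] with x hx hux
  refine ⟨hx, ?_⟩
  have : w x ^ k = u x := by
    rw [hwd, mul_pow, hc, ← exp_nat_mul, mul_div_cancel₀ _ hk', exp_log (div_ne_zero hux h0)]
    field_simp
  rw [mul_pow, this]

theorem fd (d : Dat) (q : ℂ × ℂ) : fderiv ℂ d.p q (0, 1) = d.py q := by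
  rw [(d.fp q).fderiv]
  simp

theorem fd' (d : Dat) (q : ℂ × ℂ) :
    fderiv ℂ (fun z : ℂ × ℂ => d.p (z.2, z.1)) q (0, 1) = d.px (q.2, q.1) := by
  have h := (d.fp (q.2, q.1)).comp q
    ((hasFDerivAt_snd (𝕜 := ℂ) (p := q)).prodMk (hasFDerivAt_fst (𝕜 := ℂ) (p := q)))
  have h' : HasFDerivAt (fun z : ℂ × ℂ => d.p (z.2, z.1)) _ q := h
  rw [h'.fderiv]
  simp

/-- The primitive of `n s ^ (N - 1) / W s` vanishing at `0` has a zero of order `N`. -/
theorem prim {W : ℂ → ℂ} {n N : ℕ} (hW : AnalyticAt ℂ W 0) (h0 : W 0 ≠ 0) (hn : 1 ≤ n)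
    (hN : 1 ≤ N) : ∃ G u : ℂ → ℂ, AnalyticAt ℂ u 0 ∧ u 0 ≠ 0 ∧
      ∀ᶠ s in 𝓝 (0 : ℂ), W s ≠ 0 ∧ HasDerivAt G (n * s ^ (N - 1) / W s) s ∧
        G s = (s - 0) ^ N * u s := by
  have hn' : (n : ℂ) ≠ 0 := Nat.cast_ne_zero.2 (by omega)
  have hg : AnalyticAt ℂ (fun s => (n : ℂ) / W s) 0 := analyticAt_const.div hW h0
  have hf : AnalyticAt ℂ (fun s => (n : ℂ) * s ^ (N - 1) / W s) 0 :=
    (analyticAt_const.mul (analyticAt_id.pow _)).div hW h0
  obtain ⟨ρ, hρ, hb⟩ := Metric.eventually_nhds_iff_ball.1 hf.eventually_analyticAt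
  have hdo : DifferentiableOn ℂ (fun s => (n : ℂ) * s ^ (N - 1) / W s) (ball 0 ρ) :=
    fun s hs => (hb s hs).differentiableAt.differentiableWithinAt
  obtain ⟨G, hG0, hG⟩ := hdo.isExactOn_ball.with_val_at 0 0
  have hGe : ∀ᶠ s in 𝓝 (0 : ℂ), HasDerivAt G ((n : ℂ) * s ^ (N - 1) / W s) s :=
    Filter.mem_of_superset (ball_mem_nhds _ hρ) hG
  have hGa : AnalyticAt ℂ G 0 :=
    Complex.analyticAt_iff_eventually_differentiableAt.2 (hGe.mono fun s hs => hs.differentiableAt)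
  have hm : ∃ g : ℂ → ℂ, AnalyticAt ℂ g 0 ∧ g 0 ≠ 0 ∧
      ∀ᶠ s in 𝓝 (0 : ℂ), deriv G s = (s - 0) ^ (N - 1) • g s := by
    refine ⟨_, hg, div_ne_zero hn' h0, hGe.mono fun s hs => ?_⟩
    rw [hs.deriv, smul_eq_mul, sub_zero]
    ring
  have hne : ¬∀ᶠ s in 𝓝 (0 : ℂ), G s = 0 := by
    intro h
    refine hGa.deriv.exists_eventuallyEq_pow_smul_nonzero_iff.1 ⟨_, hm⟩ ?_
    filter_upwards [h.eventually_nhds] with s hs
    have : G =ᶠ[𝓝 s] fun _ => 0 := hs
    rw [this.deriv_eq, deriv_const]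
  obtain ⟨j, u, hu, hu0, he⟩ := hGa.exists_eventuallyEq_pow_smul_nonzero_iff.2 hne
  have hj : j ≠ 0 := by
    rintro rfl
    have := he.self_of_nhds
    rw [hG0, pow_zero, one_smul] at this
    exact hu0 this.symm
  obtain ⟨i, rfl⟩ : ∃ i, j = i + 1 := ⟨j - 1, by omega⟩
  have hi : ∃ g : ℂ → ℂ, AnalyticAt ℂ g 0 ∧ g 0 ≠ 0 ∧
      ∀ᶠ s in 𝓝 (0 : ℂ), deriv G s = (s - 0) ^ i • g s := by
    refine ⟨fun s => ((i + 1 : ℕ) : ℂ) * u s + s * deriv u s,
      (analyticAt_const.mul hu).add (analyticAt_id.mul hu.deriv), ?_, ?_⟩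
    · simp only [zero_mul, add_zero]
      exact mul_ne_zero (Nat.cast_ne_zero.2 (by omega)) hu0
    · filter_upwards [he.eventually_nhds, hu.eventually_analyticAt] with s hs hus
      have e1 : G =ᶠ[𝓝 s] fun z => z ^ (i + 1) * u z := hs.mono fun z hz => by
        rw [hz, sub_zero, smul_eq_mul]
      have e2 := (hasDerivAt_pow (i + 1) s).mul hus.differentiableAt.hasDerivAt
      have e3 : HasDerivAt (fun z => z ^ (i + 1) * u z) _ s := e2
      rw [e1.deriv_eq, e3.deriv, smul_eq_mul, sub_zero, Nat.add_sub_cancel]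
      ring
  have hiN : i = N - 1 := AnalyticAt.unique_eventuallyEq_pow_smul_nonzero hi hm
  have hiN' : i + 1 = N := by omega
  rw [hiN'] at he
  refine ⟨G, u, hu, hu0, ?_⟩
  filter_upwards [hW.continuousAt.eventually_ne h0, hGe, he] with s h1 h2 h3
  exact ⟨h1, h2, h3⟩

theorem strip_open (h : ℝ) : IsOpen (strip h) :=
  isOpen_lt (by fun_prop) continuous_const

theorem strip_convex (h : ℝ) : Convex ℝ (strip h) := by
  have : strip h = {τ : ℂ | τ.im < h} ∩ {τ : ℂ | -h < τ.im} := by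
    ext τ
    simp [strip, abs_lt, and_comm]
  rw [this]
  exact (convex_halfSpace_im_lt h).inter (convex_halfSpace_im_gt (-h))

theorem strip_neBot {h : ℝ} {b : ℂ} (hh : 0 < h) (hb : b.im = h) : (𝓝[strip h] b).NeBot := by
  refine mem_closure_iff_nhdsWithin_neBot.1 (Metric.mem_closure_iff.2 fun ε hε => ?_)
  have hm : 0 < min (ε / 2) h := lt_min (by linarith) hh
  have h1 : min (ε / 2) h ≤ h := min_le_right _ _
  have h2 : min (ε / 2) h ≤ ε / 2 := min_le_left _ _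
  refine ⟨b - (min (ε / 2) h : ℝ) * I, ?_, ?_⟩
  · have : (b - (min (ε / 2) h : ℝ) * I).im = h - min (ε / 2) h := by simp [hb]
    show |(b - (min (ε / 2) h : ℝ) * I).im| < h
    rw [this, abs_lt]
    constructor <;> linarith
  · rw [dist_eq_norm, sub_sub_cancel, norm_mul, norm_I, mul_one, norm_real, Real.norm_eq_abs,
      abs_of_pos hm]
    linarith

end UFZ

theorem st_UFZ : St_UFZ := by
  intro d a y0 hG h0
  by_cases hx : d.px (a, y0) = 0
  · have hy := hG.ns a y0 h0 hx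
    obtain ⟨η, hη, hη0, he⟩ := UFZ.graph (z0 := (a, y0)) d.cp.contDiffAt h0
      (by rw [UFZ.fd]; exact hy)
    have hη : AnalyticAt ℂ η a := hη
    have hη0 : η a = y0 := hη0
    have ht : Tendsto (fun x => (x, η x)) (𝓝 a) (𝓝 (a, y0)) := by
      rw [← hη0]
      exact continuousAt_id.prodMk hη.continuousAt
    have hc : ∀ᶠ x in 𝓝 a, d.p (x, η x) = 0 := (ht.eventually he).mono fun x hx => hx.2 rfl
    have hne : ¬∀ᶠ x in 𝓝 a, η x - y0 = 0 := by
      intro h
      have h1 : {x | d.p (x, y0) = 0} ∈ 𝓝 a := by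
        filter_upwards [h, hc] with x h1 h2
        rwa [sub_eq_zero.1 h1] at h2
      exact infinite_of_mem_nhds a h1 (hG.fin y0)
    obtain ⟨k, u, hu, hu0, hk⟩ :=
      (hη.sub analyticAt_const).exists_eventuallyEq_pow_smul_nonzero_iff.2 hne
    have hk : ∀ᶠ x in 𝓝 a, η x - y0 = (x - a) ^ k * u x := hk
    have hk1 : 1 ≤ k := by
      rcases Nat.eq_zero_or_pos k with rfl | h
      · have := hk.self_of_nhds
        rw [hη0, sub_self, pow_zero, one_mul] at this
        exact absurd this.symm hu0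
      · exact h
    have key : ∀ᶠ x in 𝓝 a,
        (x - a) ^ 2 * d.E (a, x, y0) = -((x - a) ^ k * (u x * d.J (x, y0, η x))) := by
      filter_upwards [hc, hk] with x h1 h2
      have e1 := d.hD x a y0
      have e2 := d.hE a x y0
      have e3 := d.hJ x y0 (η x)
      rw [d.Ds x a y0, h0] at e1
      rw [hx] at e2
      rw [h1] at e3
      linear_combination e3 - e1 + (x - a) * e2 - d.J (x, y0, η x) * h2
    have cE : ContinuousAt (fun x => d.E (a, x, y0)) a :=
      (d.cE.continuous.comp (by fun_prop)).continuousAt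
    have cJ : ContinuousAt (fun x => u x * d.J (x, y0, η x)) a :=
      hu.continuousAt.mul (d.cJ.continuous.continuousAt.comp
        (continuousAt_id.prodMk (continuousAt_const.prodMk hη.continuousAt)))
    have hJ0 : u a * d.J (a, y0, η a) ≠ 0 := by
      rw [hη0, d.Jd]
      exact mul_ne_zero hu0 hy
    have lim : ∀ f g : ℂ → ℂ, ContinuousAt f a → ContinuousAt g a →
        (∀ᶠ x in 𝓝[≠] a, f x = g x) → f a = g a := fun f g hf hg h =>
      tendsto_nhds_unique_of_eventuallyEq (hf.tendsto.mono_left nhdsWithin_le_nhds)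
        (hg.tendsto.mono_left nhdsWithin_le_nhds) h
    obtain ⟨s, Ξ, hs, hs0, hΞ, hΞ0, hΞ1, hsv⟩ := UFZ.root hu hu0 hk1
    refine ⟨k, Ξ, fun q => s q.1, hk1, hΞ, hΞ0, fun _ => hΞ1, ?_, ?_, hs0, ?_⟩
    · rintro rfl
      exfalso
      have := lim (fun x => (x - a) * d.E (a, x, y0)) (fun x => -(u x * d.J (x, y0, η x)))
        ((continuousAt_id.sub continuousAt_const).mul cE) cJ.neg (by
          filter_upwards [key.filter_mono nhdsWithin_le_nhds, self_mem_nhdsWithin] with x h1 h2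
          have h3 : x - a ≠ 0 := sub_ne_zero.2 h2
          apply mul_left_cancel₀ h3
          linear_combination h1)
      simp only [sub_self, zero_mul] at this
      exact hJ0 (neg_eq_zero.1 this.symm)
    · rintro rfl
      have := lim (fun x => d.E (a, x, y0)) (fun x => -(u x * d.J (x, y0, η x))) cE cJ.neg (by
          filter_upwards [key.filter_mono nhdsWithin_le_nhds, self_mem_nhdsWithin] with x h1 h2
          have h3 : (x - a) ^ 2 ≠ 0 := pow_ne_zero _ (sub_ne_zero.2 h2)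
          apply mul_left_cancel₀ h3
          linear_combination h1)
      rw [this]
      exact neg_ne_zero.2 hJ0
    · have t1 : Tendsto (fun q : ℂ × ℂ => q.1) (𝓝 (a, y0)) (𝓝 a) := continuous_fst.tendsto _
      filter_upwards [he, t1.eventually hsv, t1.eventually hk,
        t1.eventually hs.eventually_analyticAt] with q h1 h2 h3 h4
      refine ⟨h4.differentiableAt.comp q differentiableAt_fst, fun hq => ⟨h2.1.symm, ?_⟩⟩
      rw [h2.2, ← h3, h1.1 hq]
      ring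
  · have cd : ContDiff ℂ 1 fun z : ℂ × ℂ => d.p (z.2, z.1) := d.cp.comp (by fun_prop)
    obtain ⟨η, hη, hη0, he⟩ := UFZ.graph (z0 := (y0, a)) cd.contDiffAt h0
      (by rw [UFZ.fd']; exact hx)
    have hη : AnalyticAt ℂ η y0 := hη
    have hη0 : η y0 = a := hη0
    have hΞ : AnalyticAt ℂ (fun s => η (y0 + s)) 0 :=
      AnalyticAt.comp_of_eq hη (analyticAt_const.add analyticAt_id) (by simp)
    refine ⟨1, fun s => η (y0 + s), fun q => q.2 - y0, le_rfl, hΞ, by simpa using hη0,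
      fun h => absurd h (by omega), fun _ => hx, fun h => absurd h (by omega), by simp, ?_⟩
    have t1 : Tendsto (fun q : ℂ × ℂ => (q.2, q.1)) (𝓝 (a, y0)) (𝓝 (y0, a)) :=
      (by fun_prop : Continuous fun q : ℂ × ℂ => (q.2, q.1)).tendsto _
    filter_upwards [t1.eventually he] with q h1
    refine ⟨by fun_prop, fun hq => ⟨?_, by ring⟩⟩
    rw [add_sub_cancel]
    exact (h1.1 hq).symm

theorem st_PUI : St_PUI := by
  intro W v b h δ n m hh hb hδ hmn hW hW0 hv hlim hode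
  obtain ⟨N, hN⟩ : ∃ N, N = n - m := ⟨_, rfl⟩
  rw [← hN]
  have hN1 : 1 ≤ N := by omega
  have hN' : (N : ℝ) ≠ 0 := Nat.cast_ne_zero.2 (by omega)
  obtain ⟨G, u, hu, hu0, hG⟩ := UFZ.prim (n := n) (N := N) hW hW0 (by omega) hN1
  obtain ⟨s, Ξ, hs, hs0, hΞ, hΞ0, hΞ1, hsv⟩ := UFZ.root hu hu0 hN1
  have hev := hlim.eventually ((hG.and hsv).and hs.eventually_analyticAt)
  rw [eventually_nhdsWithin_iff, Metric.eventually_nhds_iff_ball] at hev
  obtain ⟨ρ, hρ, hev⟩ := hev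
  have hδ' : 0 < min ρ δ := lt_min hρ hδ
  set U : Set ℂ := ball b (min ρ δ) ∩ strip h with hU
  have hUo : IsOpen U := isOpen_ball.inter (UFZ.strip_open h)
  have hUc : IsPreconnected U := ((convex_ball _ _).inter (UFZ.strip_convex h)).isPreconnected
  have hU1 : ∀ τ ∈ U, τ ∈ ball b δ ∩ strip h := fun τ hτ =>
    ⟨ball_subset_ball (min_le_right _ _) hτ.1, hτ.2⟩
  have hU2 := fun τ (hτ : τ ∈ U) => hev τ (ball_subset_ball (min_le_left _ _) hτ.1) hτ.2
  have hvd : ∀ τ ∈ U, DifferentiableAt ℂ v τ := fun τ hτ =>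
    hv.differentiableAt ((isOpen_ball.inter (UFZ.strip_open h)).mem_nhds (hU1 τ hτ))
  have hsl : ∀ τ ∈ U, τ - b ∈ Slit := fun τ hτ => (slit_iff _).2 (Or.inl (by
    have : |τ.im| < h := hτ.2
    rw [sub_im, hb]
    linarith [le_abs_self τ.im]))
  have hder : ∀ τ ∈ U, HasDerivAt (fun τ => G (v τ) - τ) 0 τ := by
    intro τ hτ
    obtain ⟨⟨⟨h1, h2, -⟩, -⟩, -⟩ := hU2 τ hτ
    obtain ⟨h3, h4⟩ := hode τ (hU1 τ hτ)
    refine ((h2.comp τ (hvd τ hτ).hasDerivAt).sub (hasDerivAt_id τ)).congr_deriv ?_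
    have e : n - 1 = m + (N - 1) := by omega
    rw [e, pow_add] at h4
    have h5 : (n : ℂ) * v τ ^ (N - 1) * deriv v τ = W (v τ) := by
      apply mul_left_cancel₀ (pow_ne_zero m h3)
      linear_combination h4
    rw [div_mul_eq_mul_div, h5, div_self h1, sub_self]
  obtain ⟨c, hc⟩ := hUo.exists_is_const_of_deriv_eq_zero hUc
    (fun τ hτ => (hder τ hτ).differentiableAt.differentiableWithinAt)
    (fun τ hτ => (hder τ hτ).deriv)
  have := UFZ.strip_neBot hh hb
  have hUm : U ∈ 𝓝[strip h] b :=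
    inter_mem (mem_nhdsWithin_of_mem_nhds (ball_mem_nhds _ hδ')) self_mem_nhdsWithin
  have hG0 : G 0 = 0 := by
    rw [hG.self_of_nhds.2.2, sub_zero, zero_pow (by omega), zero_mul]
  have hcb : c = -b := by
    have t1 : Tendsto (fun τ => G (v τ) - τ) (𝓝[strip h] b) (𝓝 (G 0 - b)) :=
      (hG.self_of_nhds.2.1.continuousAt.tendsto.comp hlim).sub
        (tendsto_id.mono_left nhdsWithin_le_nhds)
    have t2 : Tendsto (fun τ => G (v τ) - τ) (𝓝[strip h] b) (𝓝 c) :=
      tendsto_const_nhds.congr' (Filter.mem_of_superset hUm fun τ hτ => (hc τ hτ).symm)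
    rw [tendsto_nhds_unique t2 t1, hG0, zero_sub]
  have hpow : ∀ τ ∈ U, (s (v τ) / pw (1 / (N : ℝ)) (τ - b)) ^ N = 1 := by
    intro τ hτ
    obtain ⟨⟨⟨-, -, h1⟩, -, h2⟩, -⟩ := hU2 τ hτ
    have h3 := hc τ hτ
    have h4 := slit_ne (hsl τ hτ)
    rw [div_pow, h2, ← h1, pw_pow, mul_one_div_cancel hN', pw_one h4]
    have : G (v τ) = τ - b := by linear_combination h3 + hcb
    rw [this, div_self h4]
  have hfin : {z : ℂ | z ^ N = 1}.Finite := by
    refine (Polynomial.nthRoots N (1 : ℂ)).toFinset.finite_toSet.subset fun z hz => ?_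
    rw [Finset.mem_coe, Multiset.mem_toFinset, Polynomial.mem_nthRoots (by omega)]
    exact hz
  have hcont : ContinuousOn (fun τ => s (v τ) / pw (1 / (N : ℝ)) (τ - b)) U := by
    intro τ hτ
    refine ContinuousAt.continuousWithinAt (ContinuousAt.div ?_ ?_ (pw_ne _ _))
    · exact (hU2 τ hτ).2.continuousAt.comp (hvd τ hτ).continuousAt
    · exact ContinuousAt.comp (f := fun τ => τ - b) (pw_deriv _ (hsl τ hτ)).continuousAt
        (continuousAt_id.sub continuousAt_const)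
  obtain ⟨τ0, hτ0⟩ := Filter.nonempty_of_mem hUm
  obtain ⟨ε, hε⟩ : ∃ ε, ε = s (v τ0) / pw (1 / (N : ℝ)) (τ0 - b) := ⟨_, rfl⟩
  have hε0 : ε ≠ 0 := by
    intro e
    have := hpow τ0 hτ0
    rw [← hε, e, zero_pow (by omega)] at this
    exact zero_ne_one this
  have hl : HasDerivAt (fun z : ℂ => ε * z) ε 0 := by
    simpa using (hasDerivAt_id (0 : ℂ)).const_mul ε
  have hγ : HasDerivAt (fun z => Ξ (ε * z)) (deriv Ξ 0 * ε) 0 :=
    HasDerivAt.comp_of_eq (h₂ := Ξ) 0 hΞ.differentiableAt.hasDerivAt hl (by simp)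
  refine ⟨fun z => Ξ (ε * z), min ρ δ,
    AnalyticAt.comp_of_eq hΞ (analyticAt_const.mul analyticAt_id) (by simp), by simpa using hΞ0,
    by rw [hγ.deriv]; exact mul_ne_zero hΞ1 hε0, hδ', fun τ hτ => ?_⟩
  have h1 : s (v τ) / pw (1 / (N : ℝ)) (τ - b) = ε := by
    rw [hε]
    exact hUc.constant_of_mapsTo hfin.isDiscrete hcont hpow hτ hτ0
  have h2 : ε * pw (1 / (N : ℝ)) (τ - b) = s (v τ) := by
    rw [← h1, div_mul_cancel₀ _ (pw_ne _ _)]
  show v τ = Ξ (ε * pw (1 / (N : ℝ)) (τ - b))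
  rw [h2]
  exact (hU2 τ hτ).1.2.1.symm

end Pool.Agent.AO.X
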