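import Pool.Agent.Lib.AX.B_UFZ

set_option autoImplicit false

noncomputable section

namespace Pool.Agent.AO.X

open Set Metric Filter Topology Complex Asymptotics

namespace UNIF

/-- Every point of a solution is regular. -/
theorem reg {d : Dat} {U : Set ℂ} {Φ : ℂ → S3} (hG : Gn d) (hS : Sol d U Φ) {τ : ℂ}
    (hτ : τ ∈ U) : Reg d (Φ τ) := by
  have hD : d.D (fA Φ τ, fB Φ τ, fY Φ τ) = 0 := hS.pD τ hτ
  constructor
  · intro h
    have h' : d.E (fA Φ τ, fB Φ τ, fY Φ τ) = 0 := h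
    have h1 := hS.dA τ hτ
    rw [h, zero_mul] at h1
    refine hG.ns _ _ (hS.pA τ hτ) ?_ (neg_eq_zero.1 h1.symm)
    rw [d.hE _ (fB Φ τ), hD, h', mul_zero, add_zero]
  · intro h
    have h' : d.E (fB Φ τ, fA Φ τ, fY Φ τ) = 0 := h
    have h1 := hS.dB τ hτ
    rw [h, zero_mul] at h1
    refine hG.ns _ _ (hS.pB τ hτ) ?_ h1.symm
    rw [d.hE _ (fA Φ τ), d.Ds, hD, h', mul_zero, add_zero]

/-- The two ends do not agree on an open set. -/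
theorem ne {d : Dat} {U : Set ℂ} {Φ : ℂ → S3} (hG : Gn d) (hS : Sol d U Φ) {τ : ℂ}
    (hτ : τ ∈ U) (h : fA Φ =ᶠ[𝓝 τ] fB Φ) : False := by
  have e : fA Φ τ = fB Φ τ := h.self_of_nhds
  have hD : d.D (fA Φ τ, fB Φ τ, fY Φ τ) = 0 := hS.pD τ hτ
  have h1 : d.E (fA Φ τ, fB Φ τ, fY Φ τ) * deriv (fA Φ) τ = _ := hS.dA τ hτ
  have h2 : d.E (fB Φ τ, fA Φ τ, fY Φ τ) * deriv (fB Φ) τ = _ := hS.dB τ hτ
  rw [h.deriv_eq, e] at h1
  rw [e] at h2 hD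
  refine hG.ns _ _ (hS.pB τ hτ) (by rw [← d.Dd, hD]) ?_
  linear_combination (h1 - h2) / 2

theorem roots {V : Set ℂ} (hV : IsPreconnected V) (hne : V.Nonempty) {f g : ℂ → ℂ} {k : ℕ}
    (hk : 1 ≤ k) (hf : ContinuousOn f V) (hg : ContinuousOn g V) (h0 : ∀ τ ∈ V, g τ ≠ 0)
    (h : ∀ τ ∈ V, f τ ^ k = g τ ^ k) : ∃ e : ℂ, e ^ k = 1 ∧ ∀ τ ∈ V, f τ = e * g τ := by
  obtain ⟨x, hx⟩ := hne
  have hm : MapsTo (fun τ => f τ / g τ) V {z : ℂ | z ^ k = 1} := fun τ hτ => by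
    show (f τ / g τ) ^ k = 1
    rw [div_pow, h τ hτ, div_self (pow_ne_zero _ (h0 τ hτ))]
  have hfin : {z : ℂ | z ^ k = 1}.Finite := by
    refine (Polynomial.nthRootsFinset k (1 : ℂ)).finite_toSet.subset fun z hz => ?_
    exact Finset.mem_coe.2 ((Polynomial.mem_nthRootsFinset (by omega) 1).2 hz)
  refine ⟨f x / g x, hm hx, fun τ hτ => ?_⟩
  have : f x / g x = f τ / g τ :=
    hV.constant_of_mapsTo hfin.isDiscrete (hf.div hg h0) hm hx hτ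
  rw [this, div_mul_cancel₀ _ (h0 τ hτ)]

/-- First Taylor term of `Ξ (e * γ t ^ i)` read at order `j ≤ i`. -/
theorem tay {Ξ γ : ℂ → ℂ} (hΞ : AnalyticAt ℂ Ξ 0) (hγ : AnalyticAt ℂ γ 0) (h0 : γ 0 = 0) (e : ℂ)
    {i j : ℕ} (hj : 1 ≤ j) (hi : j ≤ i) :
    AnalyticAt ℂ (fun t => Ξ (e * γ t ^ i)) 0 ∧
    (fun t => Ξ (e * γ t ^ i) - Ξ 0 - e * 0 ^ (i - j) * deriv γ 0 ^ i * deriv Ξ 0 * t ^ j)
      =o[𝓝 0] fun t : ℂ => t ^ j := by
  have ha : AnalyticAt ℂ (fun t => e * γ t ^ i) 0 := analyticAt_const.mul (hγ.pow i)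
  have hz : e * γ 0 ^ i = 0 := by rw [h0, zero_pow (by omega), mul_zero]
  refine ⟨hΞ.comp_of_eq ha hz, ?_⟩
  have c1 : ContinuousAt (dslope γ 0) 0 := continuousAt_dslope_same.2 hγ.differentiableAt
  have c2 : ContinuousAt (dslope Ξ 0) 0 := continuousAt_dslope_same.2 hΞ.differentiableAt
  have c3 : ContinuousAt (fun t => dslope Ξ 0 (e * γ t ^ i)) 0 :=
    c2.comp_of_eq ha.continuousAt hz
  have c4 : ContinuousAt
      (fun t : ℂ => e * t ^ (i - j) * dslope γ 0 t ^ i * dslope Ξ 0 (e * γ t ^ i)) 0 :=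
    ((continuousAt_const.mul (continuousAt_id.pow _)).mul (c1.pow _)).mul c3
  have t4 := c4.tendsto
  simp only [hz, dslope_same] at t4
  have o1 := (isLittleO_one_iff ℂ).2 (tendsto_sub_nhds_zero_iff.2 t4)
  have o2 := o1.mul_isBigO (isBigO_refl (fun t : ℂ => t ^ j) (𝓝 0))
  refine o2.congr (fun t => ?_) (fun t => one_mul _)
  have e1 := sub_smul_dslope γ 0 t
  have e2 := sub_smul_dslope Ξ 0 (e * γ t ^ i)
  rw [sub_zero, smul_eq_mul] at e1 e2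
  rw [h0, sub_zero] at e1
  have e3 : t ^ i = t ^ (i - j) * t ^ j := by rw [← pow_add, Nat.sub_add_cancel hi]
  have e4 : γ t ^ i = t ^ (i - j) * t ^ j * dslope γ 0 t ^ i := by rw [← e3, ← mul_pow, e1]
  rw [← e2]
  generalize dslope Ξ 0 (e * γ t ^ i) = w
  rw [e4]
  ring

theorem slit_of {h : ℝ} {b τ : ℂ} (hb : b.im = h) (hτ : τ ∈ strip h) : τ - b ∈ Slit := by
  have : |τ.im| < h := hτ
  rw [slit_iff, sub_im, hb]
  exact Or.inl (by linarith [(abs_lt.1 this).2])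

theorem pw_lim {a : ℝ} (ha : 0 < a) (b : ℂ) :
    Tendsto (fun τ => pw a (τ - b)) (𝓝[{τ | τ - b ∈ Slit}] b) (𝓝 0) := by
  rw [tendsto_zero_iff_norm_tendsto_zero]
  have c : ContinuousAt (fun τ : ℂ => ‖τ - b‖ ^ a) b :=
    ContinuousAt.rpow_const (by fun_prop) (Or.inr ha.le)
  have t := c.tendsto
  simp only [sub_self, norm_zero, Real.zero_rpow ha.ne'] at t
  refine (t.mono_left nhdsWithin_le_nhds).congr' ?_
  filter_upwards [self_mem_nhdsWithin] with τ hτ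
  rw [pw_norm a (slit_ne hτ)]

/-- From an analytic parametrisation in `t = (τ - b) ^ (1 / N)` to the expansion. -/
theorem fin {h δ : ℝ} {b : ℂ} {Φ : ℂ → S3} {M j : ℕ} {GA GB GY : ℂ → ℂ} {a0 b0 a1 b1 : ℂ}
    (hh : 0 < h) (hb : b.im = h) (hδ : 0 < δ) (hA : AnalyticAt ℂ GA 0) (hB : AnalyticAt ℂ GB 0)
    (hY : AnalyticAt ℂ GY 0)
    (oA : (fun t => GA t - a0 - a1 * t ^ j) =o[𝓝 0] fun t : ℂ => t ^ j)
    (oB : (fun t => GB t - b0 - b1 * t ^ j) =o[𝓝 0] fun t : ℂ => t ^ j)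
    (hΦ : ∀ τ ∈ ball b δ ∩ strip h, HasDerivAt (fY Φ) (fA Φ τ - fB Φ τ) τ ∧
      Φ τ = (GA (pw (1 / ((M + 1 : ℕ) : ℝ)) (τ - b)), GB (pw (1 / ((M + 1 : ℕ) : ℝ)) (τ - b)),
        GY (pw (1 / ((M + 1 : ℕ) : ℝ)) (τ - b)))) :
    ∃ (δ' : ℝ) (Ψ : ℂ → S3), 0 < δ' ∧ DifferentiableOn ℂ Ψ (sd b δ') ∧
      EqOn Ψ Φ (ball b δ' ∩ strip h) ∧
      LX (sd b δ') Ψ b ⟨(a0, b0, GY 0), a1, b1, j / ((M + 1 : ℕ) : ℝ)⟩ := by
  have hN : (0 : ℝ) < ((M + 1 : ℕ) : ℝ) := Nat.cast_pos.2 (by omega)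
  set a : ℝ := 1 / ((M + 1 : ℕ) : ℝ) with ha
  have ha0 : 0 < a := one_div_pos.2 hN
  have haN : ((M + 1 : ℕ) : ℝ) * a = 1 := mul_one_div_cancel hN.ne'
  have haC : ((M + 1 : ℕ) : ℂ) * (a : ℂ) = 1 := by exact_mod_cast congrArg ofReal haN
  have hp : ∀ z ∈ Slit, pw a z ^ (M + 1) = z := fun z hz => by
    rw [pw_pow, haN, pw_one (slit_ne hz)]
  have tl := pw_lim ha0 b
  have hd : ∀ τ : ℂ, τ - b ∈ Slit →
      HasDerivAt (fun s => pw a (s - b)) (a * pw a (τ - b) / (τ - b)) τ := fun τ hτ =>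
    HasDerivAt.comp_sub_const τ b (pw_deriv a hτ)
  have nb := UFZ.strip_neBot hh hb
  have ts : Tendsto (fun τ => pw a (τ - b)) (𝓝[strip h] b) (𝓝 0) :=
    tl.mono_left (nhdsWithin_mono _ fun τ hτ => slit_of hb hτ)
  have ts' : Tendsto (fun τ => pw a (τ - b)) (𝓝[strip h] b) (𝓝[≠] 0) :=
    tendsto_nhdsWithin_iff.2 ⟨ts, Eventually.of_forall fun τ => pw_ne _ _⟩
  have ode : ∀ᶠ t in 𝓝 (0 : ℂ), deriv GY t = ((M + 1 : ℕ) : ℂ) * t ^ M * (GA t - GB t) := by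
    refine (hY.deriv.frequently_eq_iff_eventually_eq
      ((analyticAt_const.mul (analyticAt_id.pow M)).mul (hA.sub hB))).1 (ts'.frequently ?_)
    refine Eventually.frequently ?_
    filter_upwards [ts.eventually hY.eventually_analyticAt, self_mem_nhdsWithin,
      mem_nhdsWithin_of_mem_nhds (ball_mem_nhds b hδ)] with τ h1 h2 h3
    have hs := slit_of hb h2
    obtain ⟨e1, e2⟩ := hΦ τ ⟨h3, h2⟩
    have e3 : fY Φ =ᶠ[𝓝 τ] fun s => GY (pw a (s - b)) := by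
      filter_upwards [(isOpen_ball.inter (UFZ.strip_open h)).mem_nhds ⟨h3, h2⟩] with s hs
      rw [fY, (hΦ s hs).2]
    have e4 : HasDerivAt (fun s => GY (pw a (s - b))) _ τ :=
      h1.differentiableAt.hasDerivAt.comp τ (hd τ hs)
    have e5 := (e1.congr_of_eventuallyEq e3.symm).unique e4
    rw [fA, fB, e2] at e5
    have e6 := hp _ hs
    have e7 := pw_ne a (τ - b)
    have e8 := slit_ne hs
    show deriv GY (pw a (τ - b)) = ((M + 1 : ℕ) : ℂ) * pw a (τ - b) ^ M *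
      (GA (pw a (τ - b)) - GB (pw a (τ - b)))
    simp only at e5
    rw [e5]
    generalize pw a (τ - b) = t at *
    rw [← e6]
    field_simp
    linear_combination (-deriv GY t * t * t ^ M) * haC
  obtain ⟨ρ, hρ, hbl⟩ := Metric.eventually_nhds_iff_ball.1 (ode.and hY.eventually_analyticAt)
  have hc : ((M + 1 : ℕ) : ℂ) + j ≠ 0 := by exact_mod_cast (by omega : M + 1 + j ≠ 0)
  set c : ℂ := (a1 - b1) * ((M + 1 : ℕ) : ℂ) / (((M + 1 : ℕ) : ℂ) + j) with hcd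
  have oY : (fun t => GY t - GY 0 - (a0 - b0) * t ^ (M + 1) - c * t ^ (M + 1 + j)) =o[𝓝 0]
      fun t : ℂ => ‖t‖ ^ (M + 1 + j) := by
    have hf : ∀ t ∈ ball (0 : ℂ) ρ, HasFDerivWithinAt
        (fun t => GY t - (a0 - b0) * t ^ (M + 1) - c * t ^ (M + 1 + j))
        (ContinuousLinearMap.toSpanSingleton ℂ (((M + 1 : ℕ) : ℂ) * t ^ M *
          ((GA t - a0 - a1 * t ^ j) - (GB t - b0 - b1 * t ^ j)))) (ball 0 ρ) t := fun t ht => by
      refine HasDerivAt.hasFDerivAt ?_ |>.hasFDerivWithinAt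
      refine (((hbl t ht).2.differentiableAt.hasDerivAt.sub
        ((hasDerivAt_pow (M + 1) t).const_mul (a0 - b0))).sub
        ((hasDerivAt_pow (M + 1 + j) t).const_mul c)).congr_deriv ?_
      rw [(hbl t ht).1, Nat.add_sub_cancel, show M + 1 + j - 1 = M + j by omega, hcd,
        Nat.cast_add (M + 1) j]
      field_simp
      ring
    have o1 : (fun t : ℂ => ((M + 1 : ℕ) : ℂ) * t ^ M *
        ((GA t - a0 - a1 * t ^ j) - (GB t - b0 - b1 * t ^ j))) =o[𝓝 0]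
        fun t : ℂ => t ^ M * t ^ j :=
      ((isBigO_refl (fun t : ℂ => t ^ M) (𝓝 0)).const_mul_left _).mul_isLittleO (oA.sub oB)
    have o2 := (convex_ball (0 : ℂ) ρ).isLittleO_pow_succ (n := M + j) (mem_ball_self hρ) hf (by
      rw [nhdsWithin_eq_nhds.2 (ball_mem_nhds _ hρ), ← isLittleO_norm_left]
      refine o1.norm_norm.congr (fun t => ?_) (fun t => ?_)
      · rw [ContinuousLinearMap.norm_toSpanSingleton]
      · rw [sub_zero, ← pow_add, norm_pow])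
    rw [nhdsWithin_eq_nhds.2 (ball_mem_nhds _ hρ)] at o2
    refine o2.congr (fun t => ?_) (fun t => ?_)
    · rw [zero_pow (by omega), zero_pow (by omega)]
      ring
    · rw [sub_zero, show M + j + 1 = M + 1 + j by omega]
  have hev := tl.eventually
    (hA.eventually_analyticAt.and (hB.eventually_analyticAt.and hY.eventually_analyticAt))
  rw [eventually_nhdsWithin_iff, Metric.eventually_nhds_iff_ball] at hev
  obtain ⟨r, hr, hev⟩ := hev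
  refine ⟨min r δ, fun τ => (GA (pw a (τ - b)), GB (pw a (τ - b)), GY (pw a (τ - b))),
    lt_min hr hδ, fun τ hτ => ?_, fun τ hτ => ?_, fun ε hε => ?_⟩
  · obtain ⟨h1, h2, h3⟩ := hev τ (ball_subset_ball (min_le_left _ _) hτ.1) hτ.2
    have h4 := (hd τ hτ.2).differentiableAt
    exact ((h1.differentiableAt.comp τ h4).prodMk ((h2.differentiableAt.comp τ h4).prodMk
      (h3.differentiableAt.comp τ h4))).differentiableWithinAt
  · exact (hΦ τ ⟨ball_subset_ball (min_le_right _ _) hτ.1, hτ.2⟩).2.symm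
  · have hev2 := tl.eventually ((oA.def hε).and ((oB.def hε).and (oY.def hε)))
    rw [eventually_nhdsWithin_iff, Metric.eventually_nhds_iff_ball] at hev2
    obtain ⟨r', hr', hev2⟩ := hev2
    refine ⟨r', hr', fun τ hτ hn => ?_⟩
    obtain ⟨h1, h2, h3⟩ := hev2 τ (mem_ball_iff_norm.2 hn) hτ.2
    have e0 := slit_ne hτ.2
    have e1 : pw a (τ - b) ^ j = pw (j / ((M + 1 : ℕ) : ℝ)) (τ - b) := by
      rw [pw_pow, ha, mul_one_div]
    have e2 : pw a (τ - b) ^ (M + 1 + j) = pw (1 + j / ((M + 1 : ℕ) : ℝ)) (τ - b) := by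
      rw [pow_add, hp _ hτ.2, e1, pw_add, pw_one e0]
    have e3 : c = (a1 - b1) / (1 + ((j / ((M + 1 : ℕ) : ℝ) : ℝ) : ℂ)) := by
      have : ((M + 1 : ℕ) : ℂ) ≠ 0 := Nat.cast_ne_zero.2 (by omega)
      rw [hcd, ofReal_div, ofReal_natCast, ofReal_natCast]
      field_simp
    rw [e1, pw_norm _ e0] at h1 h2
    rw [← norm_pow, norm_norm, e2, hp _ hτ.2, pw_norm _ e0, e3] at h3
    exact ⟨hτ.2, h1, h2, h3⟩

/-- A common uniformiser of the two ends. -/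
theorem uni {d : Dat} {h : ℝ} {b : ℂ} {Φ : ℂ → S3} {a0 b0 y0 : ℂ} (hG : Gn d) (hh : 0 < h)
    (hb : b.im = h) (hS : Sol d (strip h) Φ) (ht : Tendsto Φ (𝓝[strip h] b) (𝓝 (a0, b0, y0)))
    (hr : ¬Reg d (a0, b0, y0)) {kA kB jA jB n : ℕ} {ΞA ΞB : ℂ → ℂ} {vA vB : ℂ × ℂ → ℂ}
    (hA1 : 1 ≤ kA) (hB1 : 1 ≤ kB) (hn : 1 ≤ n) (nA : n = jA * kA) (nB : n = jB * kB)
    (zA : ΞA 0 = a0) (zB : ΞB 0 = b0)
    (hA : ∀ᶠ q in 𝓝 (a0, y0), DifferentiableAt ℂ vA q ∧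
      (d.p q = 0 → q.1 = ΞA (vA q) ∧ q.2 = y0 + vA q ^ kA))
    (hB : ∀ᶠ q in 𝓝 (b0, y0), DifferentiableAt ℂ vB q ∧
      (d.p q = 0 → q.1 = ΞB (vB q) ∧ q.2 = y0 + vB q ^ kB)) :
    ∃ (δ : ℝ) (v : ℂ → ℂ) (eA eB : ℂ), 0 < δ ∧ eA ^ kA = 1 ∧ eB ^ kB = 1 ∧
      Tendsto v (𝓝[strip h] b) (𝓝 0) ∧ ∀ τ ∈ ball b δ ∩ strip h, v τ ≠ 0 ∧
        HasDerivAt v ((fA Φ τ - fB Φ τ) / (n * v τ ^ (n - 1))) τ ∧
        Φ τ = (ΞA (eA * v τ ^ jA), ΞB (eB * v τ ^ jB), y0 + v τ ^ n) := by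
  have tA : Tendsto (fun τ => (fA Φ τ, fY Φ τ)) (𝓝[strip h] b) (𝓝 (a0, y0)) :=
    ((by fun_prop : Continuous fun σ : S3 => (σ.1, σ.2.2)).tendsto _).comp ht
  have tB : Tendsto (fun τ => (fB Φ τ, fY Φ τ)) (𝓝[strip h] b) (𝓝 (b0, y0)) :=
    ((by fun_prop : Continuous fun σ : S3 => (σ.2.1, σ.2.2)).tendsto _).comp ht
  have tY : Tendsto (fY Φ) (𝓝[strip h] b) (𝓝 y0) :=
    ((by fun_prop : Continuous fun σ : S3 => σ.2.2).tendsto _).comp ht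
  have hev := (tA.eventually hA).and (tB.eventually hB)
  rw [eventually_nhdsWithin_iff, Metric.eventually_nhds_iff_ball] at hev
  obtain ⟨δ, hδ, hev⟩ := hev
  set V : Set ℂ := ball b δ ∩ strip h with hV
  have Vo : IsOpen V := isOpen_ball.inter (UFZ.strip_open h)
  have Vc : Convex ℝ V := (convex_ball b δ).inter (UFZ.strip_convex h)
  have nb := UFZ.strip_neBot hh hb
  have Vm : V ∈ 𝓝[strip h] b :=
    inter_mem (mem_nhdsWithin_of_mem_nhds (ball_mem_nhds b hδ)) self_mem_nhdsWithin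
  have Vn : V.Nonempty := nb.nonempty_of_mem Vm
  have fA' : ∀ τ ∈ V, fA Φ τ = ΞA (vA (fA Φ τ, fY Φ τ)) ∧
      fY Φ τ = y0 + vA (fA Φ τ, fY Φ τ) ^ kA := fun τ hτ =>
    (hev τ hτ.1 hτ.2).1.2 (hS.pA τ hτ.2)
  have fB' : ∀ τ ∈ V, fB Φ τ = ΞB (vB (fB Φ τ, fY Φ τ)) ∧
      fY Φ τ = y0 + vB (fB Φ τ, fY Φ τ) ^ kB := fun τ hτ =>
    (hev τ hτ.1 hτ.2).2.2 (hS.pB τ hτ.2)
  have cΦ : ∀ τ ∈ V, ContinuousAt Φ τ := fun τ hτ =>
    (hS.df.differentiableAt (hS.op.mem_nhds hτ.2)).continuousAt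
  have cA : ContinuousOn (fun τ => vA (fA Φ τ, fY Φ τ)) V := fun τ hτ =>
    (ContinuousAt.comp (f := fun τ => (fA Φ τ, fY Φ τ)) (hev τ hτ.1 hτ.2).1.1.continuousAt
      ((cΦ τ hτ).fst.prodMk (cΦ τ hτ).snd.snd)).continuousWithinAt
  have cB : ContinuousOn (fun τ => vB (fB Φ τ, fY Φ τ)) V := fun τ hτ =>
    (ContinuousAt.comp (f := fun τ => (fB Φ τ, fY Φ τ)) (hev τ hτ.1 hτ.2).2.1.continuousAt
      ((cΦ τ hτ).snd.fst.prodMk (cΦ τ hτ).snd.snd)).continuousWithinAt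
  have hY : ∀ τ ∈ V, fY Φ τ - y0 ≠ 0 := fun τ hτ e => by
    have e1 : vA (fA Φ τ, fY Φ τ) = 0 :=
      pow_eq_zero_iff (by omega : kA ≠ 0) |>.1 (by linear_combination e - (fA' τ hτ).2)
    have e2 : vB (fB Φ τ, fY Φ τ) = 0 :=
      pow_eq_zero_iff (by omega : kB ≠ 0) |>.1 (by linear_combination e - (fB' τ hτ).2)
    have e3 := (fA' τ hτ).1
    have e4 := (fB' τ hτ).1
    rw [e1, zA] at e3
    rw [e2, zB] at e4
    have e5 : Φ τ = (a0, b0, y0) := Prod.ext e3 (Prod.ext e4 (sub_eq_zero.1 e))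
    exact hr (e5 ▸ reg hG hS hτ.2)
  have Vs : IsSimplyConnected V := by
    have := Vc.contractibleSpace Vn
    exact SimplyConnectedSpace.ofContractible V
  obtain ⟨v, cv, hv⟩ := exists_continuousOn_pow_eq Vs Vo (g := fun τ => fY Φ τ - y0)
    (fun τ hτ => ((cΦ τ hτ).snd.snd.sub continuousAt_const).continuousWithinAt)
    (by rintro ⟨τ, hτ, e⟩; exact hY τ hτ e) (by omega : n ≠ 0)
  have v0 : ∀ τ ∈ V, v τ ≠ 0 := fun τ hτ e => hY τ hτ (by rw [← hv τ, e, zero_pow (by omega)])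
  obtain ⟨eA, hA2, hA3⟩ := roots Vc.isPreconnected Vn hA1 cA (cv.pow jA)
    (fun τ hτ => pow_ne_zero _ (v0 τ hτ)) fun τ hτ => by
      show _ = (v τ ^ jA) ^ kA
      rw [← pow_mul, ← nA, hv τ]
      linear_combination -(fA' τ hτ).2
  obtain ⟨eB, hB2, hB3⟩ := roots Vc.isPreconnected Vn hB1 cB (cv.pow jB)
    (fun τ hτ => pow_ne_zero _ (v0 τ hτ)) fun τ hτ => by
      show _ = (v τ ^ jB) ^ kB
      rw [← pow_mul, ← nB, hv τ]
      linear_combination -(fB' τ hτ).2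
  refine ⟨δ, v, eA, eB, hδ, hA2, hB2, ?_, fun τ hτ => ⟨v0 τ hτ, ?_, ?_⟩⟩
  · rw [tendsto_zero_iff_norm_tendsto_zero]
    have c : ContinuousAt (fun y : ℂ => ‖y - y0‖ ^ ((n : ℝ)⁻¹)) y0 :=
      ContinuousAt.rpow_const (by fun_prop) (Or.inr (by positivity))
    have t := c.tendsto.comp tY
    have hn' : ((n : ℝ)⁻¹) ≠ 0 := inv_ne_zero (Nat.cast_ne_zero.2 (by omega))
    simp only [sub_self, norm_zero, Real.zero_rpow hn'] at t
    refine t.congr fun τ => ?_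
    show ‖fY Φ τ - y0‖ ^ ((n : ℝ)⁻¹) = _
    rw [← hv τ, norm_pow, Real.pow_rpow_inv_natCast (norm_nonneg _) (by omega)]
  · exact HasDerivAt.of_comp_left (cv.continuousAt (Vo.mem_nhds hτ)) (hasDerivAt_pow n (v τ))
      ((hS.dY τ hτ.2).sub_const y0)
      (mul_ne_zero (Nat.cast_ne_zero.2 (by omega)) (pow_ne_zero _ (v0 τ hτ)))
      (Eventually.of_forall hv)
  · have e1 := (fA' τ hτ).1
    have e2 := (fB' τ hτ).1
    rw [hA3 τ hτ] at e1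
    rw [hB3 τ hτ] at e2
    refine Prod.ext e1 (Prod.ext e2 ?_)
    show fY Φ τ = y0 + v τ ^ n
    rw [hv τ]
    ring

/-- The expansion, given the order `m` of contact of the two ends. -/
theorem expn (hP : St_PUI) {d : Dat} {h δ : ℝ} {b : ℂ} {Φ : ℂ → S3} {y0 eA eB : ℂ}
    {v W ΞA ΞB : ℂ → ℂ} {jA jB j n m M : ℕ} (hh : 0 < h) (hb : b.im = h) (hδ : 0 < δ)
    (hS : Sol d (strip h) Φ) (aA : AnalyticAt ℂ ΞA 0) (aB : AnalyticAt ℂ ΞB 0)
    (aW : AnalyticAt ℂ W 0) (W0 : W 0 ≠ 0) (hn : n = m + (M + 1)) (hj : 1 ≤ j) (hA : j ≤ jA)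
    (hB : j ≤ jB) (hW : ∀ s, ΞA (eA * s ^ jA) - ΞB (eB * s ^ jB) = s ^ m * W s)
    (ht : Tendsto v (𝓝[strip h] b) (𝓝 0))
    (hv : ∀ τ ∈ ball b δ ∩ strip h, v τ ≠ 0 ∧
      HasDerivAt v ((fA Φ τ - fB Φ τ) / (n * v τ ^ (n - 1))) τ ∧
      Φ τ = (ΞA (eA * v τ ^ jA), ΞB (eB * v τ ^ jB), y0 + v τ ^ n)) :
    ∃ (g : ℂ) (δ' : ℝ) (Ψ : ℂ → S3), g ≠ 0 ∧ 0 < δ' ∧ DifferentiableOn ℂ Ψ (sd b δ') ∧
      EqOn Ψ Φ (ball b δ' ∩ strip h) ∧
      LX (sd b δ') Ψ b ⟨(ΞA 0, ΞB 0, y0), eA * 0 ^ (jA - j) * g ^ jA * deriv ΞA 0,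
        eB * 0 ^ (jB - j) * g ^ jB * deriv ΞB 0, j / ((M + 1 : ℕ) : ℝ)⟩ := by
  obtain ⟨γ, δ1, aγ, γ0, γ1, hδ1, hγ⟩ := hP W v b h δ n m hh hb hδ (by omega) aW W0
    (fun τ hτ => (hv τ hτ).2.1.differentiableAt.differentiableWithinAt) ht fun τ hτ => by
      obtain ⟨h1, h2, h3⟩ := hv τ hτ
      refine ⟨h1, ?_⟩
      have : (n : ℂ) * v τ ^ (n - 1) ≠ 0 :=
        mul_ne_zero (Nat.cast_ne_zero.2 (by omega)) (pow_ne_zero _ h1)
      rw [h2.deriv, mul_div_cancel₀ _ this, ← hW, fA, fB, h3]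
  rw [show n - m = M + 1 by omega] at hγ
  obtain ⟨gA, oA⟩ := tay aA aγ γ0 eA hj hA
  obtain ⟨gB, oB⟩ := tay aB aγ γ0 eB hj hB
  have gY : AnalyticAt ℂ (fun t => y0 + γ t ^ n) 0 := analyticAt_const.add (aγ.pow n)
  obtain ⟨δ', Ψ, h1, h2, h3, h4⟩ := fin (Φ := Φ) (M := M) hh hb (lt_min hδ hδ1) gA gB gY oA oB
    fun τ hτ => ⟨hS.dY τ hτ.2, by
      rw [← hγ τ ⟨ball_subset_ball (min_le_right _ _) hτ.1, hτ.2⟩]
      exact (hv τ ⟨ball_subset_ball (min_le_left _ _) hτ.1, hτ.2⟩).2.2⟩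
  rw [γ0, zero_pow (by omega), add_zero] at h4
  exact ⟨_, δ', Ψ, γ1, h1, h2, h3, h4⟩

end UNIF

theorem st_UNIF (hL : St_LIM) (_hD : St_DIAG) (hU : St_UFZ) (hP : St_PUI) : St_UNIF := by
  intro d h Φ hG hh hS _ b hb
  have nb := UFZ.strip_neBot hh hb.1
  have hcl : b ∈ closure (strip h) := mem_closure_iff_nhdsWithin_neBot.2 nb
  obtain ⟨⟨a0, b0, y0⟩, ht, hO, hE, hR⟩ := hL d _ Φ hG hS (UFZ.strip_convex h)
    (nb.nonempty_of_mem self_mem_nhdsWithin) b hcl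
  have hr : ¬Reg d (a0, b0, y0) := fun e => hb.2 (hE e)
  obtain ⟨kA, ΞA, vA, hA1, aA, zA, dA, pA, eA2, -, hA⟩ := hU d a0 y0 hG hO.1
  by_cases hab : a0 = b0
  · subst hab
    have hk : 3 ≤ kA := by
      have h1 : kA ≠ 1 := fun e => pA e (by rw [← d.Dd]; exact hO.2.2)
      have h2 : kA ≠ 2 := fun e => hr ⟨eA2 e, eA2 e⟩
      omega
    obtain ⟨δ, v, eA, eB, hδ, rA, rB, tv, hv⟩ := UNIF.uni hG hh hb.1 hS ht hr (jA := 1) (jB := 1)
      hA1 hA1 hA1 (one_mul _).symm (one_mul _).symm zA zA hA hA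
    have hne : eA ≠ eB := by
      rintro rfl
      have Vm : ball b δ ∩ strip h ∈ 𝓝[strip h] b :=
        inter_mem (mem_nhdsWithin_of_mem_nhds (ball_mem_nhds b hδ)) self_mem_nhdsWithin
      obtain ⟨τ, hτ⟩ := nb.nonempty_of_mem Vm
      refine UNIF.ne hG hS hτ.2 ?_
      filter_upwards [(isOpen_ball.inter (UFZ.strip_open h)).mem_nhds hτ] with s hs
      rw [fA, fB, (hv s hs).2.2]
    have d0 := dA (by omega)
    have aS : AnalyticAt ℂ (dslope ΞA 0) 0 := by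
      obtain ⟨p, hp⟩ := aA
      exact ⟨_, hp.has_fpower_series_dslope_fslope⟩
    have aE : ∀ e : ℂ, AnalyticAt ℂ (fun s => e * dslope ΞA 0 (e * s)) 0 := fun e =>
      analyticAt_const.mul (aS.comp_of_eq (analyticAt_const.mul analyticAt_id) (by simp))
    obtain ⟨M, hM⟩ : ∃ M, kA = 1 + (M + 1) := ⟨kA - 2, by omega⟩
    obtain ⟨g, δ', Ψ, g0, h1, h2, h3, h4⟩ := UNIF.expn hP (j := 1) hh hb.1 hδ hS aA aA
      ((aE eA).sub (aE eB)) (by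
        show eA * dslope ΞA 0 (eA * 0) - eB * dslope ΞA 0 (eB * 0) ≠ 0
        rw [mul_zero, mul_zero, dslope_same, ← sub_mul]
        exact mul_ne_zero (sub_ne_zero.2 hne) d0) hM le_rfl le_rfl le_rfl (fun s => by
        have e1 := sub_smul_dslope ΞA 0 (eA * s)
        have e2 := sub_smul_dslope ΞA 0 (eB * s)
        rw [sub_zero, smul_eq_mul] at e1 e2
        show _ = s ^ 1 * (eA * dslope ΞA 0 (eA * s) - eB * dslope ΞA 0 (eB * s))
        rw [pow_one]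
        linear_combination e2 - e1) tv hv
    refine ⟨_, δ', Ψ, Or.inr ⟨rfl, ?_, kA, hk, ?_, ?_⟩, h1, h2, h3, h4⟩
    · intro e
      simp only [Nat.sub_self, pow_zero, mul_one, pow_one] at e
      exact hne (mul_right_cancel₀ g0 (mul_right_cancel₀ d0 e))
    · rw [hM]
      push_cast
      ring
    · simp only [mul_pow, rA, rB]
  · obtain ⟨kB, ΞB, vB, hB1, aB, zB, dB, pB, -, -, hB⟩ := hU d b0 y0 hG hO.2.1
    have hk : 2 ≤ kA ∨ 2 ≤ kB := by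
      by_contra e
      exact hr (hR (pA (by omega)) (pB (by omega)))
    have hn : 1 ≤ kB * kA := Nat.mul_pos hB1 hA1
    obtain ⟨δ, v, eA, eB, hδ, rA, rB, tv, hv⟩ := UNIF.uni hG hh hb.1 hS ht hr (jA := kB) (jB := kA)
      hA1 hB1 hn rfl (mul_comm _ _) zA zB hA hB
    have aE : ∀ (Ξ : ℂ → ℂ) (e : ℂ) (i : ℕ), AnalyticAt ℂ Ξ 0 → 1 ≤ i →
        AnalyticAt ℂ (fun s => Ξ (e * s ^ i)) 0 := fun Ξ e i hΞ hi =>
      hΞ.comp_of_eq (analyticAt_const.mul (analyticAt_id.pow i))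
        (by simp [zero_pow (by omega : i ≠ 0)])
    obtain ⟨M, hM⟩ : ∃ M, kB * kA = 0 + (M + 1) := ⟨kB * kA - 1, by omega⟩
    obtain ⟨g, δ', Ψ, g0, h1, h2, h3, h4⟩ := UNIF.expn hP (j := min kA kB) hh hb.1 hδ hS aA aB
      ((aE ΞA eA kB aA hB1).sub (aE ΞB eB kA aB hA1)) (by
        show ΞA (eA * 0 ^ kB) - ΞB (eB * 0 ^ kA) ≠ 0
        rw [zero_pow (by omega), zero_pow (by omega), mul_zero, mul_zero, zA, zB]
        exact sub_ne_zero.2 hab) hM (le_min hA1 hB1) (min_le_right _ _) (min_le_left _ _)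
        (fun s => by rw [pow_zero, one_mul]; rfl) tv hv
    have hN : (0 : ℝ) < ((M + 1 : ℕ) : ℝ) := Nat.cast_pos.2 (by omega)
    have eA0 : eA ≠ 0 := fun e => by
      rw [e, zero_pow (by omega)] at rA
      exact zero_ne_one rA
    have eB0 : eB ≠ 0 := fun e => by
      rw [e, zero_pow (by omega)] at rB
      exact zero_ne_one rB
    refine ⟨_, δ', Ψ, Or.inl ⟨?_, ?_, ?_, ?_⟩, h1, h2, h3, h4⟩
    · show ΞA 0 ≠ ΞB 0
      rwa [zA, zB]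
    · exact div_pos (Nat.cast_pos.2 (lt_min hA1 hB1)) hN
    · show ((min kA kB : ℕ) : ℝ) / ((M + 1 : ℕ) : ℝ) ≤ 1 / 2
      rw [div_le_div_iff₀ hN two_pos, one_mul]
      have : min kA kB * 2 ≤ M + 1 := by
        rcases hk with hk | hk
        · calc min kA kB * 2 ≤ kB * kA := Nat.mul_le_mul (min_le_right _ _) hk
            _ = M + 1 := by omega
        · calc min kA kB * 2 ≤ kA * kB := Nat.mul_le_mul (min_le_left _ _) hk
            _ = M + 1 := by rw [mul_comm]; omega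
      exact_mod_cast this
    · rcases le_total kA kB with e | e
      · right
        show eB * 0 ^ (kA - min kA kB) * g ^ kA * deriv ΞB 0 ≠ 0
        rw [min_eq_left e, Nat.sub_self, pow_zero, mul_one]
        exact mul_ne_zero (mul_ne_zero eB0 (pow_ne_zero _ g0)) (dB (by omega))
      · left
        show eA * 0 ^ (kB - min kA kB) * g ^ kB * deriv ΞA 0 ≠ 0
        rw [min_eq_right e, Nat.sub_self, pow_zero, mul_one]
        exact mul_ne_zero (mul_ne_zero eA0 (pow_ne_zero _ g0)) (dA (by omega))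

end Pool.Agent.AO.X
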