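import Pool.Agent.Lib.AX.B_GL
import Pool.Agent.Lib.AX.B_RE
import Pool.Agent.Lib.AX.B_UFZ
import Pool.Agent.Lib.AX.B_UNIF
import Pool.Agent.Lib.AX.B_SECT
import Pool.Agent.Lib.AX.B_FAR
import Pool.Agent.Lib.AX.B_SUM
import Pool.Agent.Lib.AX.B_CTX
import Pool.Agent.Lib.AX.B_LOW
import Pool.Agent.Lib.AX.B_E12
import Pool.Agent.Lib.AX.B_E2
import Pool.Agent.Lib.AX.B_H1
import Pool.Agent.Lib.AX.B_PAS
import Pool.Agent.Lib.AX.B_INN
import Pool.Agent.Lib.AX.B_FAT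
import Pool.Agent.Lib.AX.B_CHAIN
import Pool.Agent.Lib.AX.B_LOC
import Pool.Agent.Lib.AX.B_QE
import Pool.Agent.Lib.AX.B_DEC1
import Pool.Agent.Lib.AX.B_DEC
import Pool.Agent.Lib.AX.B_CORE
import Pool.Agent.Lib.AX.B_GEN

set_option autoImplicit false

namespace Pool.Agent.AO.X

theorem all_MAIN : St_MAIN :=
  st_MAIN st_GEN
    (st_CORE st_REAL st_STRIP (st_ENT st_GRON st_DIAG)
      (st_SECT (st_UNIF st_LIM st_DIAG st_UFZ st_PUI) st_DIAG) (st_CTX st_FAR st_SUM)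
      (st_PASS1 st_E1 st_H1 st_ITER) (st_PASS2 st_INN st_FAT (st_LOC st_CHAIN) st_E2 st_ITER)
      (st_DEC st_QEXP st_EXPS (st_DEC1 st_LOW st_SUM) st_DEC2))

end Pool.Agent.AO.X
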