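import Pool.Agent.Lib.AX.Blue

set_option autoImplicit false

noncomputable section

namespace Pool.Agent.AO.X

open Set Metric Filter Topology Complex

namespace FAT

def pot (m t : ℝ) : ℝ := t / (m * (m + |t|))

theorem pot_abs {m : ℝ} (hm : 0 < m) (t : ℝ) : |pot m t| ≤ 1 / m := by
  have h0 := abs_nonneg t
  have h1 : 0 < m * (m + |t|) := by positivity
  rw [pot, abs_div, abs_of_pos h1, div_le_div_iff₀ h1 hm]
  nlinarith

theorem pot_step {m : ℝ} (hm : 0 < m) (t : ℝ) :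
    2 / (m + |t| + 2) ^ 2 ≤ pot m (t + 2) - pot m t := by
  unfold pot
  rcases le_total 0 t with h | h
  · rw [abs_of_nonneg h, abs_of_nonneg (by linarith : 0 ≤ t + 2)]
    have e : (t + 2) / (m * (m + (t + 2))) - t / (m * (m + t)) = 2 / ((m + t + 2) * (m + t)) := by
      field_simp
      ring
    rw [e]
    exact div_le_div_of_nonneg_left two_pos.le (by positivity) (by nlinarith)
  rw [abs_of_nonpos h]
  rcases le_total 0 (t + 2) with h2 | h2
  · rw [abs_of_nonneg h2]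
    have h3 : (t + 2) / (m * (m + 2)) ≤ (t + 2) / (m * (m + (t + 2))) :=
      div_le_div_of_nonneg_left h2 (by positivity) (by nlinarith)
    have h4 : -t / (m * (m + 2)) ≤ -t / (m * (m + -t)) :=
      div_le_div_of_nonneg_left (by linarith) (mul_pos hm (by linarith)) (by nlinarith)
    have h5 : 2 / (m + -t + 2) ^ 2 ≤ 2 / (m * (m + 2)) :=
      div_le_div_of_nonneg_left two_pos.le (by positivity) (by nlinarith)
    have h6 : (t + 2) / (m * (m + 2)) + -t / (m * (m + 2)) = 2 / (m * (m + 2)) := by ring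
    rw [neg_div (m * (m + -t))] at h4
    linarith
  · rw [abs_of_nonpos h2]
    have p1 : 0 < m + -(t + 2) := by linarith
    have p2 : 0 < m + -t := by linarith
    have e : (t + 2) / (m * (m + -(t + 2))) - t / (m * (m + -t)) =
        2 / ((m + -(t + 2)) * (m + -t)) := by
      field_simp
      ring
    rw [e]
    exact div_le_div_of_nonneg_left two_pos.le (by positivity) (by nlinarith)

theorem sz_re (z : ℂ) : |z.re| ≤ sz z := le_max_left _ _
theorem sz_im (z : ℂ) : -z.im ≤ sz z := le_max_right _ _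

theorem sz_lip (a b : ℂ) : sz a ≤ sz b + ‖a - b‖ := by
  have h1 := abs_re_le_norm (a - b)
  have h2 := abs_im_le_norm (a - b)
  rw [sub_re] at h1
  rw [sub_im] at h2
  refine max_le ?_ ?_
  · linarith [abs_sub_abs_le_abs_sub a.re b.re, sz_re b]
  · linarith [neg_abs_le (a.im - b.im), sz_im b]

theorem om_open (M : ℝ) : IsOpen (Om M) :=
  isOpen_lt continuous_const (by unfold sz; fun_prop)

/-- The standing assumptions. -/
structure Ass (F : ℂ → ℂ) (M C : ℝ) : Prop where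
  M1 : 1 ≤ M
  C0 : 0 ≤ C
  df : DifferentiableOn ℂ F (Om M)
  bd : ∀ z ∈ Om M, ‖F z - z - 2‖ ≤ C / sz z ^ 2

variable {F : ℂ → ℂ} {M C : ℝ}

theorem Ass.le1 (h : Ass F M C) {m : ℝ} (hm : M + 2 + 36 * C ≤ m) : 36 * C / m ≤ 1 :=
  div_le_one_of_le₀ (by linarith [h.M1]) (by linarith [h.M1, h.C0])

theorem Ass.orb (h : Ass F M C) {m : ℝ} (hm : M + 2 + 36 * C ≤ m) (w : ℂ) (n : ℕ)
    (hw : ∀ j : ℕ, j < n → m ≤ sz (w + 2 * j)) :
    ‖F^[n] w - w - 2 * n‖ ≤ 36 * C / m ∧ ∀ j < n, F^[j] w ∈ Om M := by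
  have M1 := h.M1
  have C0 := h.C0
  have m0 : 0 < m := by linarith
  have tot : ∀ s t : ℝ, 18 * C * (pot m s - pot m t) ≤ 36 * C / m := fun s t => by
    have h1 := (abs_le.1 (pot_abs m0 s)).2
    have h2 := (abs_le.1 (pot_abs m0 t)).1
    have h3 := mul_le_mul_of_nonneg_left (show pot m s - pot m t ≤ 2 * (1 / m) by linarith)
      (show 0 ≤ 18 * C by positivity)
    exact h3.trans_eq (by ring)
  have key : ∀ j : ℕ, j ≤ n →
      ‖F^[j] w - w - 2 * j‖ ≤ 18 * C * (pot m (w.re + 2 * j) - pot m w.re) ∧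
        ∀ i < j, F^[i] w ∈ Om M := by
    intro j
    induction j with
    | zero => intro _; simp
    | succ j ih =>
      intro hj
      obtain ⟨i1, i2⟩ := ih (by omega)
      have a1 := (i1.trans (tot _ _)).trans (h.le1 hm)
      have a2 := hw j (by omega)
      have a3 := sz_lip (w + 2 * j) (F^[j] w)
      rw [norm_sub_rev, ← sub_sub] at a3
      have a4 := sz_re (w + 2 * j)
      have e4 : (w + 2 * j).re = w.re + 2 * j := by simp
      rw [e4] at a4
      have a5 : F^[j] w ∈ Om M := show M < _ by linarith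
      have a6 := h.bd _ a5
      have a7 := pot_step m0 (w.re + 2 * j)
      have a0 := abs_nonneg (w.re + 2 * j)
      have a8 : C / sz (F^[j] w) ^ 2 ≤ 18 * C * (2 / (m + |w.re + 2 * j| + 2) ^ 2) := by
        have b1 : (m + |w.re + 2 * j| + 2) ^ 2 ≤ (6 * sz (F^[j] w)) ^ 2 :=
          pow_le_pow_left₀ (by positivity) (by linarith) 2
        have b0 : 0 < sz (F^[j] w) := by linarith
        have b2 : 2 / (6 * sz (F^[j] w)) ^ 2 ≤ 2 / (m + |w.re + 2 * j| + 2) ^ 2 :=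
          div_le_div_of_nonneg_left two_pos.le (by positivity) b1
        refine le_trans (le_of_eq ?_) (mul_le_mul_of_nonneg_left b2 (by positivity))
        field_simp
        ring
      have a9 := mul_le_mul_of_nonneg_left a7 (show 0 ≤ 18 * C by positivity)
      refine ⟨?_, fun i hi => ?_⟩
      · have e : F^[j + 1] w - w - 2 * ((j + 1 : ℕ) : ℂ) =
            (F (F^[j] w) - F^[j] w - 2) + (F^[j] w - w - 2 * j) := by
          rw [Function.iterate_succ_apply']
          push_cast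
          ring
        have e2 : w.re + 2 * ((j + 1 : ℕ) : ℝ) = w.re + 2 * j + 2 := by
          push_cast
          ring
        rw [e, e2]
        refine (norm_add_le _ _).trans ?_
        linarith
      · rcases Nat.lt_succ_iff_lt_or_eq.1 hi with hi | rfl
        · exact i2 i hi
        · exact a5
  exact ⟨(key n le_rfl).1.trans (tot _ _), (key n le_rfl).2⟩

theorem Ass.dif (h : Ass F M C) {U : Set ℂ} (a : ℂ) (n : ℕ)
    (hU : ∀ z ∈ U, ∀ j < n, F^[j] (z - a) ∈ Om M) :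
    DifferentiableOn ℂ (fun z => F^[n] (z - a)) U := by
  induction n with
  | zero => exact differentiableOn_id.sub_const a
  | succ n ih =>
    simp only [Function.iterate_succ_apply']
    exact h.df.comp (ih fun z hz j hj => hU z hz j (by omega)) fun z hz => hU z hz n (by omega)

theorem lip {f : ℂ → ℂ} {c w : ℂ} (hd : DifferentiableOn ℂ f (ball c 1))
    (hb : ∀ z ∈ ball c 1, ‖f z - z‖ ≤ 1) (hw : ‖w - c‖ < 1) : ‖f w - f c‖ ≤ 3 * ‖w - c‖ := by
  have := dist_le_div_mul_dist_of_mapsTo_ball (R₂ := 3) hd (fun z hz => by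
    have h1 := hb z hz
    have h2 := hb c (mem_ball_self one_pos)
    have h3 := mem_ball_iff_norm.1 hz
    rw [mem_closedBall_iff_norm, show f z - f c = (f z - z) + (z - c) - (f c - c) by ring]
    linarith [norm_sub_le ((f z - z) + (z - c)) (f c - c), norm_add_le (f z - z) (z - c)])
    (mem_ball_iff_norm.2 hw)
  simpa only [dist_eq_norm, div_one] using this

theorem lim {U : Set ℂ} (hU : IsOpen U) (f : ℕ → ℂ → ℂ) (hd : ∀ K, DifferentiableOn ℂ (f K) U)
    (hc : ∀ ρ e : ℝ, 0 < e → ∃ K0 : ℕ, ∀ K, K0 ≤ K → ∀ L, ∀ z ∈ U, ‖z‖ ≤ ρ →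
      ‖f (K + L) z - f K z‖ ≤ e) :
    ∃ g : ℂ → ℂ, DifferentiableOn ℂ g U ∧ (∀ z ∈ U, Tendsto (fun K => f K z) atTop (𝓝 (g z))) ∧
      ∀ ρ e : ℝ, 0 < e → ∃ K0 : ℕ, ∀ K, K0 ≤ K → ∀ z ∈ U, ‖z‖ ≤ ρ → ‖g z - f K z‖ ≤ e := by
  have h1 : ∀ z ∈ U, Tendsto (fun K => f K z) atTop (𝓝 (limUnder atTop fun K => f K z)) := by
    intro z hz
    refine CauchySeq.tendsto_limUnder (Metric.cauchySeq_iff'.2 fun e he => ?_)
    obtain ⟨K0, hK⟩ := hc ‖z‖ (e / 2) (by linarith)
    refine ⟨K0, fun n hn => ?_⟩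
    obtain ⟨L, rfl⟩ := Nat.exists_eq_add_of_le hn
    rw [dist_eq_norm]
    linarith [hK K0 le_rfl L z hz le_rfl]
  have h2 : ∀ ρ e : ℝ, 0 < e → ∃ K0 : ℕ, ∀ K, K0 ≤ K → ∀ z ∈ U, ‖z‖ ≤ ρ →
      ‖(limUnder atTop fun K => f K z) - f K z‖ ≤ e := fun ρ e he => by
    obtain ⟨K0, hK⟩ := hc ρ e he
    refine ⟨K0, fun K h0 z hz hρ => le_of_tendsto ((h1 z hz).sub_const (f K z)).norm ?_⟩
    filter_upwards [eventually_ge_atTop K] with n hn
    obtain ⟨L, rfl⟩ := Nat.exists_eq_add_of_le hn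
    exact hK K h0 L z hz hρ
  refine ⟨fun z => limUnder atTop fun K => f K z, ?_, h1, h2⟩
  refine TendstoLocallyUniformlyOn.differentiableOn (F := f) (φ := atTop) ?_
    (Eventually.of_forall hd) hU
  refine Metric.tendstoLocallyUniformlyOn_iff.2 fun e he x _ => ?_
  obtain ⟨K0, hK⟩ := h2 (‖x‖ + 1) (e / 2) (by linarith)
  refine ⟨U ∩ ball x 1, inter_mem_nhdsWithin U (ball_mem_nhds x one_pos), ?_⟩
  filter_upwards [eventually_ge_atTop K0] with n hn y hy
  have h3 := mem_ball_iff_norm.1 hy.2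
  have h4 := norm_add_le (y - x) x
  rw [sub_add_cancel] at h4
  rw [dist_eq_norm]
  linarith [hK n hn y hy.1 (by linarith)]

theorem big (C m ρ e : ℝ) (C0 : 0 ≤ C) (m0 : 0 < m) (he : 0 < e) :
    ∃ K0 : ℕ, ∀ K : ℕ, K0 ≤ K → m ≤ 2 * K - ρ ∧ C / (2 * K - ρ) ≤ e := by
  obtain ⟨K0, hK⟩ := exists_nat_ge (m + |ρ| + C / e)
  refine ⟨K0, fun K h => ?_⟩
  have h1 : (K0 : ℝ) ≤ K := by exact_mod_cast h
  have h2 := le_abs_self ρ
  have h3 : 0 ≤ C / e := by positivity
  have h4 : (0 : ℝ) ≤ K := Nat.cast_nonneg K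
  refine ⟨by linarith, ?_⟩
  rw [div_le_iff₀ (by linarith), ← div_le_iff₀' he]
  linarith

def Lf (m : ℝ) : Set ℂ := {z | z.re < -m ∨ z.im < -m}
def Rt (m : ℝ) : Set ℂ := {z | m < z.re ∨ z.im < -m}

theorem lf_open (m : ℝ) : IsOpen (Lf m) :=
  (isOpen_lt continuous_re continuous_const).union (isOpen_lt continuous_im continuous_const)
theorem rt_open (m : ℝ) : IsOpen (Rt m) :=
  (isOpen_lt continuous_const continuous_re).union (isOpen_lt continuous_im continuous_const)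

theorem im_le {a b : ℂ} {c : ℝ} (h : ‖a - b‖ ≤ c) : a.im ≤ b.im + c := by
  have h2 := abs_im_le_norm (a - b)
  rw [sub_im] at h2
  linarith [le_abs_self (a.im - b.im)]

theorem re_le {a b : ℂ} {c : ℝ} (h : ‖a - b‖ ≤ c) : a.re ≤ b.re + c ∧ b.re ≤ a.re + c := by
  have h2 := abs_re_le_norm (a - b)
  rw [sub_re] at h2
  constructor <;> linarith [le_abs_self (a.re - b.re), neg_abs_le (a.re - b.re)]

theorem Ass.left (h : Ass F M C) {m : ℝ} (hm : M + 2 + 36 * C ≤ m) (K : ℕ) :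
    DifferentiableOn ℂ (fun z => F^[K] (z - 2 * K)) (Lf m) ∧
      ∀ z ∈ Lf m, ‖F^[K] (z - 2 * K) - z‖ ≤ 36 * C / m := by
  have key : ∀ z ∈ Lf m, ∀ j : ℕ, j < K → m ≤ sz (z - 2 * K + 2 * j) := fun z hz j hj => by
    have h1 : (j : ℝ) ≤ K := by exact_mod_cast hj.le
    rcases hz with hz | hz
    · have h2 := sz_re (z - 2 * K + 2 * j)
      have e : (z - 2 * K + 2 * j).re = z.re - 2 * K + 2 * j := by simp
      rw [e] at h2
      linarith [neg_abs_le (z.re - 2 * K + 2 * j)]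
    · have h2 := sz_im (z - 2 * K + 2 * j)
      have e : (z - 2 * K + 2 * j).im = z.im := by simp
      rw [e] at h2
      linarith
  refine ⟨h.dif _ K fun z hz => (h.orb hm _ K (key z hz)).2, fun z hz => ?_⟩
  have := (h.orb hm _ K (key z hz)).1
  rwa [show F^[K] (z - 2 * K) - (z - 2 * K) - 2 * K = F^[K] (z - 2 * K) - z by ring] at this

theorem Ass.right (h : Ass F M C) {m : ℝ} (hm : M + 2 + 36 * C ≤ m) (K : ℕ) :
    DifferentiableOn ℂ (fun z => F^[K] z - 2 * K) (Rt m) ∧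
      ∀ z ∈ Rt m, ‖F^[K] z - 2 * K - z‖ ≤ 36 * C / m := by
  have key : ∀ z ∈ Rt m, ∀ j : ℕ, j < K → m ≤ sz (z + 2 * j) := fun z hz j _ => by
    have h1 : (0 : ℝ) ≤ j := Nat.cast_nonneg j
    rcases hz with hz | hz
    · have h2 := sz_re (z + 2 * j)
      have e : (z + 2 * j).re = z.re + 2 * j := by simp
      rw [e] at h2
      linarith [le_abs_self (z.re + 2 * j)]
    · have h2 := sz_im (z + 2 * j)
      have e : (z + 2 * j).im = z.im := by simp
      rw [e] at h2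
      linarith
  refine ⟨?_, fun z hz => ?_⟩
  · have := h.dif (U := Rt m) 0 K fun z hz => by
      rw [sub_zero]
      exact (h.orb hm _ K (key z hz)).2
    simp only [sub_zero] at this
    exact this.sub_const _
  · have := (h.orb hm _ K (key z hz)).1
    rwa [sub_right_comm] at this

theorem Ass.cl (h : Ass F M C) {m : ℝ} (hm : M + 2 + 36 * C ≤ m) (ρ e : ℝ) (he : 0 < e) :
    ∃ K0 : ℕ, ∀ K, K0 ≤ K → ∀ L : ℕ, ∀ z ∈ Lf (m + 1), ‖z‖ ≤ ρ →
      ‖F^[K + L] (z - 2 * ((K + L : ℕ) : ℂ)) - F^[K] (z - 2 * K)‖ ≤ e := by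
  have M1 := h.M1
  have C0 := h.C0
  obtain ⟨K0, hK⟩ := big (36 * C) m (ρ + 1) (min (e / 3) (1 / 2)) (by positivity) (by linarith)
    (by positivity)
  refine ⟨K0, fun K h0 L z hz hρ => ?_⟩
  obtain ⟨k1, k2⟩ := hK K h0
  have a1 := (h.left (hm.trans k1) L).2 (z - 2 * K) (Or.inl (by
    have e : (z - 2 * K).re = z.re - 2 * K := by simp
    rw [e]
    linarith [re_le_norm z]))
  have sub : ball z 1 ⊆ Lf m := fun y hy => by
    have h1 := mem_ball_iff_norm.1 hy
    rcases hz with hz | hz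
    · exact Or.inl (by linarith [(re_le h1.le).1])
    · exact Or.inr (by linarith [im_le h1.le])
  have e1 : F^[L] (z - 2 * K - 2 * L) + 2 * K - z = F^[L] (z - 2 * K - 2 * L) - (z - 2 * K) := by
    ring
  have a2 := a1.trans k2
  have a3 := lip (w := F^[L] (z - 2 * K - 2 * L) + 2 * K) ((h.left hm K).1.mono sub)
    (fun y hy => ((h.left hm K).2 y (sub hy)).trans (h.le1 hm))
    (by rw [e1]; linarith [min_le_right (e / 3) (1 / 2)])
  rw [e1, add_sub_cancel_right] at a3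
  rw [Function.iterate_add_apply, show z - 2 * ((K + L : ℕ) : ℂ) = z - 2 * K - 2 * L by
    push_cast; ring]
  linarith [min_le_left (e / 3) (1 / 2)]

theorem Ass.cr (h : Ass F M C) {m : ℝ} (hm : M + 2 + 36 * C ≤ m) (ρ e : ℝ) (he : 0 < e) :
    ∃ K0 : ℕ, ∀ K, K0 ≤ K → ∀ L : ℕ, ∀ z ∈ Rt m, ‖z‖ ≤ ρ →
      ‖F^[K + L] z - 2 * ((K + L : ℕ) : ℂ) - (F^[K] z - 2 * K)‖ ≤ e := by
  have M1 := h.M1
  have C0 := h.C0
  obtain ⟨K0, hK⟩ := big (36 * C) m (ρ + 2) e (by positivity) (by linarith) he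
  refine ⟨K0, fun K h0 L z hz hρ => ?_⟩
  obtain ⟨k1, k2⟩ := hK K h0
  have a0 := (re_le (((h.right hm K).2 z hz).trans (h.le1 hm))).2
  have e0 : (F^[K] z - 2 * K).re = (F^[K] z).re - 2 * K := by simp
  have a1 := (h.right (hm.trans k1) L).2 (F^[K] z) (Or.inl (by
    linarith [abs_re_le_norm z, neg_abs_le z.re]))
  rw [add_comm K L, Function.iterate_add_apply, show F^[L] (F^[K] z) - 2 * ((L + K : ℕ) : ℂ) -
    (F^[K] z - 2 * K) = F^[L] (F^[K] z) - 2 * L - F^[K] z by push_cast; ring]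
  exact a1.trans k2

end FAT

open FAT in
theorem st_FAT : St_FAT := by
  intro F M C M1 df bd
  have C0 : 0 ≤ C := by
    have z0 : M < sz ((M + 1 : ℝ) : ℂ) := by
      have := sz_re ((M + 1 : ℝ) : ℂ)
      rw [ofReal_re] at this
      linarith [le_abs_self (M + 1)]
    have h1 := (norm_nonneg _).trans (bd _ z0)
    exact (div_nonneg_iff.1 h1).elim (·.1) fun h2 => absurd h2.2 (not_le.2 (pow_pos (by linarith) 2))
  have h : Ass F M C := ⟨M1, C0, df, bd⟩
  obtain ⟨m, hm0⟩ : ∃ m, m = M + 2 + 36 * C + 1 := ⟨_, rfl⟩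
  have hm : M + 2 + 36 * C ≤ m := by linarith
  obtain ⟨ψ, dψ, tψ, uψ⟩ := lim (lf_open m) (fun K z => F^[K] (z - 2 * K))
    (fun K => (h.left hm K).1) (hm0 ▸ h.cl le_rfl)
  obtain ⟨φ, dφ, tφ, uφ⟩ := lim (rt_open m) (fun K z => F^[K] z - 2 * K)
    (fun K => (h.right hm K).1) (h.cr hm)
  have bψ : ∀ s, m ≤ s → ∀ z ∈ Lf s, ‖ψ z - z‖ ≤ 36 * C / s := fun s hs z hz =>
    le_of_tendsto' ((tψ z (hz.imp (fun _ => by linarith) fun _ => by linarith)).sub_const z).norm
      fun K => (h.left (hm.trans hs) K).2 z hz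
  have bφ : ∀ s, m ≤ s → ∀ z ∈ Rt s, ‖φ z - z‖ ≤ 36 * C / s := fun s hs z hz =>
    le_of_tendsto' ((tφ z (hz.imp (fun _ => by linarith) fun _ => by linarith)).sub_const z).norm
      fun K => (h.right (hm.trans hs) K).2 z hz
  have b1 : ∀ z ∈ Lf m, ‖ψ z - z‖ ≤ 1 := fun z hz => (bψ m le_rfl z hz).trans (h.le1 hm)
  have b2 : ∀ z ∈ Rt m, ‖φ z - z‖ ≤ 1 := fun z hz => (bφ m le_rfl z hz).trans (h.le1 hm)
  have i2 : ∀ z : ℂ, (z + 2).im = z.im := fun z => by simp
  have fψ : ∀ z : ℂ, z.im < -m → ψ (z + 2) = F (ψ z) := fun z hz => by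
    have h1 : ψ z ∈ Om M := show M < _ by linarith [sz_im (ψ z), im_le (b1 z (Or.inr hz))]
    have h2 := ((df.continuousOn.continuousAt ((om_open M).mem_nhds h1)).tendsto).comp
      (tψ z (Or.inr hz))
    have h3 := (tψ (z + 2) (Or.inr (by rw [i2]; exact hz))).comp (tendsto_add_atTop_nat 1)
    refine tendsto_nhds_unique h3 (h2.congr fun K => ?_)
    simp only [Function.comp_apply, Function.iterate_succ_apply']
    congr 2
    push_cast
    ring
  have fφ : ∀ w : ℂ, w.im < -m → (F w).im < -m → φ (F w) = φ w + 2 := fun w h1 h2 => by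
    have h3 := ((tφ w (Or.inr h1)).comp (tendsto_add_atTop_nat 1)).add_const 2
    refine tendsto_nhds_unique (tφ _ (Or.inr h2)) (h3.congr fun K => ?_)
    simp only [Function.comp_apply, Function.iterate_succ_apply]
    push_cast
    ring
  have low : ∀ z : ℂ, z.im < -(m + 1) → (ψ z).im < -m := fun z hz => by
    linarith [im_le (b1 z (Or.inr (by linarith)))]
  refine ⟨m, ψ, φ, by linarith, dψ, b1, fψ, dφ, b2, ⟨?_, fun z hz => ?_, fun e he => ?_⟩,
    fun z hz j => ?_, fun Y hY e he => ?_⟩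
  · exact (dφ.comp (dψ.mono fun z (hz : z.im < _) => Or.inr (by linarith))
      fun z hz => Or.inr (low z hz)).sub differentiableOn_id
  · have h1 := fψ z (by linarith)
    have h2 := low (z + 2) (by rw [i2]; exact hz)
    rw [h1] at h2
    show φ (ψ (z + 2)) - (z + 2) = φ (ψ z) - z
    rw [h1, fφ _ (low z hz) h2]
    ring
  · obtain ⟨K, hK⟩ := big (36 * C) m 0 (e / 2) (by positivity) (by linarith) (by linarith)
    obtain ⟨k1, k2⟩ := hK K le_rfl
    refine ⟨2 * K - 0 + 1, fun z hz => ?_⟩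
    have h1 := bψ _ k1 z (Or.inr (by linarith))
    have h2 := bφ _ k1 (ψ z) (Or.inr (by linarith [im_le (b1 z (Or.inr (by linarith)))]))
    show ‖φ (ψ z) - z‖ ≤ e
    rw [show φ (ψ z) - z = (φ (ψ z) - ψ z) + (ψ z - z) by ring]
    linarith [norm_add_le (φ (ψ z) - ψ z) (ψ z - z)]
  · rw [sub_right_comm]
    exact ((h.right hm j).2 z (Or.inr hz)).trans (h.le1 hm)
  · obtain ⟨K1, h1⟩ := uψ (Y + 4) (min (e / 6) (1 / 2)) (by positivity)
    obtain ⟨K2, h2⟩ := uφ (Y + 5) (e / 2) (by positivity)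
    refine ⟨max K1 K2, fun K hK z hr hi => ?_⟩
    obtain ⟨j1, j2⟩ := abs_le.1 hi
    have z1 : z.im < -m := by linarith
    have z2 : ‖z‖ ≤ Y + 4 := by
      have := norm_le_abs_re_add_abs_im z
      rw [abs_of_nonpos (by linarith : z.im ≤ 0)] at this
      linarith
    have a1 := h1 K ((le_max_left _ _).trans hK) z (Or.inr z1) z2
    have a2 := ((h.left hm K).2 z (Or.inr z1)).trans (h.le1 hm)
    obtain ⟨w, hw⟩ : ∃ w, w = F^[K] (z - 2 * K) := ⟨_, rfl⟩
    rw [← hw] at a1 a2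
    have a3 := h2 K ((le_max_right _ _).trans hK) w (Or.inr (by linarith [im_le a2])) (by
      have := norm_add_le (w - z) z
      rw [sub_add_cancel] at this
      linarith)
    have sub : ball (ψ z) 1 ⊆ Rt m := fun y hy => Or.inr (by
      have h3 := abs_im_le_norm (y - ψ z)
      rw [sub_im] at h3
      linarith [mem_ball_iff_norm.1 hy, im_le (b1 z (Or.inr z1)), le_abs_self (y.im - (ψ z).im)])
    rw [norm_sub_rev] at a1 a3
    have a4 := lip (w := w) (dφ.mono sub) (fun y hy => b2 y (sub hy))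
      (by linarith [min_le_right (e / 6) (1 / 2)])
    rw [two_mul K, Function.iterate_add_apply, ← hw, show F^[K] w - 2 * K - φ (ψ z) =
      (F^[K] w - 2 * K - φ w) + (φ w - φ (ψ z)) by ring]
    linarith [norm_add_le (F^[K] w - 2 * K - φ w) (φ w - φ (ψ z)), min_le_left (e / 6) (1 / 2)]

end Pool.Agent.AO.X
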