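import Pool.Agent.Lib.AX.Blue
import Pool.Agent.Lib.AO.B_FLOW
import Pool.Agent.Lib.AO.B_LIM
import Pool.Agent.Lib.AO.B_STR
import Pool.Agent.Lib.AO.B_CPX

set_option autoImplicit false

noncomputable section

namespace Pool.Agent.AO.X

open Set Metric Filter Topology Pool.Agent.Lib.AO

theorem st_GRON : St_GRON := by
  intro d hg
  obtain ⟨C, C0, hC⟩ := hg.g1
  refine ⟨C, C0, fun U Φ h hU τ hτ => ⟨hC _ _ (h.pA τ hτ), hC _ _ (h.pB τ hτ), fun τ' hτ' =>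
    K23.gron hU h.dY (fun z hz => ?_) hτ' hτ⟩⟩
  linarith [norm_sub_le (fA Φ z) (fB Φ z), hC _ _ (h.pA z hz), hC _ _ (h.pB z hz)]

theorem gl_clu {d : Dat} (hg : Gn d) (y0 : ℂ) {ε : ℝ} (hε : 0 < ε) :
    ∃ δ : ℝ, 0 < δ ∧ ∀ (W : Set ℂ) (X Y : ℂ → ℂ), IsPreconnected W → ContinuousOn X W →
      (∀ τ ∈ W, d.p (X τ, Y τ) = 0 ∧ ‖Y τ - y0‖ < δ) →
      ∀ τ ∈ W, ∀ τ' ∈ W, ‖X τ - X τ'‖ ≤ ε := by
  obtain ⟨C, C0, hC⟩ := hg.g1
  set S := {x | d.p (x, y0) = 0} with hS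
  have fS : S.Finite := hg.fin y0
  obtain ⟨η, ⟨η0, η1⟩, η2⟩ : ∃ η : ℝ, (0 < η ∧ η < ε / 2) ∧
      ∀ a ∈ S, ∀ a' ∈ S, a ≠ a' → η + η ≤ dist a a' := by
    refine (Eventually.and (Ioo_mem_nhdsGT (half_pos hε)) ((eventually_all_finite fS).2
      fun a _ => (eventually_all_finite fS).2 fun a' _ => ?_)).exists
    by_cases e : a = a'
    · exact Eventually.of_forall fun _ h => absurd e h
    · filter_upwards [Ioo_mem_nhdsGT (half_pos (dist_pos.2 e))] with η hη _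
      linarith [hη.2]
  have hO : IsOpen (⋃ a ∈ S, ball a η) := isOpen_biUnion fun _ _ => isOpen_ball
  have hK : IsCompact ((closedBall (0 : ℂ) (C * (2 + ‖y0‖)) ×ˢ closedBall y0 1) ∩
      ({q | d.p q = 0} ∩ Prod.fst ⁻¹' (⋃ a ∈ S, ball a η)ᶜ)) :=
    ((isCompact_closedBall _ _).prod (isCompact_closedBall _ _)).inter_right
      ((isClosed_eq d.cp.continuous continuous_const).inter
        (hO.isClosed_compl.preimage continuous_fst))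
  obtain ⟨δ, δ0, hδ⟩ := hK.exists_forall_le' (f := fun q => ‖q.2 - y0‖) (a := 0) (by fun_prop)
    fun q hq => norm_pos_iff.2 fun e => hq.2.2 (mem_biUnion (x := q.1) (by
      have := hq.2.1
      rwa [hS, mem_ofPred_eq, ← sub_eq_zero.1 e]) (mem_ball_self η0))
  refine ⟨min δ 1, lt_min δ0 one_pos, fun W X Y hW hX h τ hτ τ' hτ' => ?_⟩
  have h1 : ∀ s ∈ W, X s ∈ ⋃ a ∈ S, ball a η := fun s hs => by
    by_contra hn
    obtain ⟨a1, a2⟩ := h s hs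
    obtain ⟨a3, a4⟩ := lt_min_iff.1 a2
    refine (hδ (X s, Y s) ⟨⟨mem_closedBall_zero_iff.2 ((hC _ _ a1).trans
      (mul_le_mul_of_nonneg_left ?_ C0)), mem_closedBall_iff_norm.2 a4.le⟩, a1, hn⟩).not_gt a3
    linarith [norm_sub_norm_le (Y s) y0]
  obtain ⟨a, ha, h2⟩ := mem_iUnion₂.1 (h1 τ hτ)
  have h3 : X τ' ∈ ball a η := (hW.image X hX).subset_left_of_subset_union (u := ball a η)
    (v := ⋃ a' ∈ S \ {a}, ball a' η) isOpen_ball (isOpen_biUnion fun _ _ => isOpen_ball)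
    (disjoint_iUnion₂_right.2 fun a' h' => ball_disjoint_ball (η2 a ha a' h'.1 (Ne.symm h'.2)))
    (by
      rintro _ ⟨s, hs, rfl⟩
      obtain ⟨a', ha', h4⟩ := mem_iUnion₂.1 (h1 s hs)
      by_cases e : a' = a
      · exact Or.inl (e ▸ h4)
      · exact Or.inr (mem_biUnion (x := a') (mem_sdiff_of_mem ha' e) h4))
    ⟨_, mem_image_of_mem X hτ, h2⟩ (mem_image_of_mem X hτ')
  rw [← dist_eq_norm]
  linarith [dist_triangle_right (X τ) (X τ') a, mem_ball.1 h2, mem_ball.1 h3]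

theorem gl_Y {d : Dat} {U : Set ℂ} {Φ : ℂ → S3} (g : Gn d) (h : Sol d U Φ)
    (hc : Convex ℝ U) {b : ℂ} (hb : b ∈ closure U) : ∃ y, Tendsto (fY Φ) (𝓝[U] b) (𝓝 y) := by
  obtain ⟨C, C0, H⟩ := st_GRON d g
  obtain ⟨τ0, t0⟩ := closure_nonempty_iff.1 ⟨b, hb⟩
  set M := (1 + ‖fY Φ τ0‖) * Real.exp (2 * C * (1 + ‖b - τ0‖)) with hM
  have M0 : 0 < M := by positivity
  have hw : ∀ τ ∈ U ∩ ball b 1, ‖fA Φ τ - fB Φ τ‖ ≤ 2 * C * M := by
    intro τ t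
    obtain ⟨h1, h2, h3⟩ := H U Φ h hc τ t.1
    have h4 : ‖τ - τ0‖ ≤ 1 + ‖b - τ0‖ := by
      have h5 := mem_ball_iff_norm.1 t.2
      have h6 : τ - τ0 = (τ - b) + (b - τ0) := by ring
      rw [h6]
      linarith [norm_add_le (τ - b) (b - τ0)]
    have h5 : 1 + ‖fY Φ τ‖ ≤ M := (h3 τ0 t0).trans (mul_le_mul_of_nonneg_left
      (Real.exp_le_exp.2 (mul_le_mul_of_nonneg_left h4 (by positivity))) (by positivity))
    have h6 := mul_le_mul_of_nonneg_left h5 C0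
    linarith [norm_sub_le (fA Φ τ) (fB Φ τ)]
  refine lim_cauchy hb fun ε hε => ?_
  set ρ := min 1 (ε / (4 * C * M + 1)) with hρ
  have hp : 0 < 4 * C * M + 1 := by positivity
  have ρ0 : 0 < ρ := lt_min one_pos (by positivity)
  refine ⟨ρ, ρ0, fun τ t τ' t' => (lim_lip h hc (M := 2 * C * M) (fun x hx => hw x
    ⟨hx.1, ball_subset_ball (min_le_left _ _) hx.2⟩) τ t τ' t').trans ?_⟩
  have h1 : ρ * (4 * C * M + 1) ≤ ε := (le_div_iff₀ hp).1 (min_le_right _ _)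
  nlinarith

theorem gl_X {d : Dat} {U : Set ℂ} (g : Gn d) (hc : Convex ℝ U) {b y : ℂ}
    (hb : b ∈ closure U) {X Y : ℂ → ℂ} (hX : ContinuousOn X U)
    (hp : ∀ τ ∈ U, d.p (X τ, Y τ) = 0) (hY : Tendsto Y (𝓝[U] b) (𝓝 y)) :
    ∃ a, Tendsto X (𝓝[U] b) (𝓝 a) := by
  refine lim_cauchy hb fun ε hε => ?_
  obtain ⟨δ, δ0, H⟩ := gl_clu g y hε
  obtain ⟨ρ, ρ0, hρ⟩ := lim_ball (hY.eventually (ball_mem_nhds y δ0))
  exact ⟨ρ, ρ0, H _ X Y (hc.inter (convex_ball b ρ)).isPreconnected (hX.mono inter_subset_left)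
    fun τ t => ⟨hp τ t.1, mem_ball_iff_norm.1 (hρ τ t)⟩⟩

theorem st_LIM : St_LIM := by
  intro d U Φ g h hc _ b hb
  have : (𝓝[U] b).NeBot := mem_closure_iff_nhdsWithin_neBot.1 hb
  obtain ⟨y, hY⟩ := gl_Y g h hc hb
  obtain ⟨a, hA⟩ := gl_X g hc hb (X := fA Φ) h.df.continuousOn.fst h.pA hY
  obtain ⟨a', hB⟩ := gl_X g hc hb (X := fB Φ) h.df.continuousOn.snd.fst h.pB hY
  have hσ : Tendsto Φ (𝓝[U] b) (𝓝 (a, a', y)) := hA.prodMk_nhds (hB.prodMk_nhds hY)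
  have z : ∀ {f : ℂ → ℂ} {v : ℂ}, Tendsto f (𝓝[U] b) (𝓝 v) → (∀ τ ∈ U, f τ = 0) → v = 0 :=
    fun hf h0 => tendsto_nhds_unique hf (tendsto_const_nhds.congr'
      (Filter.eventually_of_mem self_mem_nhdsWithin fun τ t => (h0 τ t).symm))
  have p1 : d.p (a, y) = 0 :=
    z ((d.cp.continuous.tendsto _).comp (hA.prodMk_nhds hY)) h.pA
  have p2 : d.p (a', y) = 0 :=
    z ((d.cp.continuous.tendsto _).comp (hB.prodMk_nhds hY)) h.pB
  have p3 : d.D (a, a', y) = 0 := z ((d.cD.continuous.tendsto _).comp hσ) h.pD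
  refine ⟨(a, a', y), hσ, ⟨p1, p2, p3⟩, lim_ext AO.st_LOC AO.st_UNI h hc hb hσ,
    fun x1 x2 => ⟨fun e => x1 ?_, fun e => x2 ?_⟩⟩
  · have e' : d.E (a, a', y) = 0 := e
    show d.px (a, y) = 0
    rw [d.hE a a' y, p3, e']; ring
  · have e' : d.E (a', a, y) = 0 := e
    show d.px (a', y) = 0
    rw [d.hE a' a y, d.Ds a' a y, p3, e']; ring

theorem st_DIAG : St_DIAG := by
  intro d U Φ g h τ t e
  have e1 : Φ τ = (fA Φ τ, fA Φ τ, fY Φ τ) := Prod.ext rfl (Prod.ext e.symm rfl)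
  have hy : d.py (fA Φ τ, fY Φ τ) ≠ 0 := by
    refine g.ns _ _ (h.pA τ t) ?_
    rw [← d.Dd, ← e1]
    exact h.pD τ t
  have hE : d.E (Φ τ) ≠ 0 := fun e0 => hy (by
    have := h.dA τ t
    rw [e0, zero_mul] at this
    exact neg_eq_zero.1 this.symm)
  refine ⟨⟨hE, ?_⟩, hy⟩
  have e2 : sw (Φ τ) = Φ τ := Prod.ext e.symm (Prod.ext e rfl)
  rwa [e2]

theorem st_STRIP : St_STRIP := by
  intro d h0 T Φ0 hh hP
  let G : Set ℝ := {h | h0 ≤ h ∧ ∃ Ψ : ℂ → S3, DifferentiableOn ℂ Ψ (strip h) ∧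
    EqOn Ψ Φ0 (strip h0)}
  have g0 : h0 ∈ G := ⟨le_rfl, Φ0, hP.sol.df, fun _ _ => rfl⟩
  obtain ⟨Φ, hΦ, eΦ⟩ := AO.st_UNION G (fun h => strip h) (fun h => h.2.2.choose) (strip h0) Φ0
    (str_open h0) ⟨_, str_real hh 0⟩ fun h => ⟨str_open _, str_cvx _, str_mono h.2.1,
      h.2.2.choose_spec.1, h.2.2.choose_spec.2⟩
  have e0 : EqOn Φ Φ0 (strip h0) := fun z hz =>
    (eΦ ⟨h0, g0⟩ hz).trans (g0.2.choose_spec.2 hz)
  have er : ∀ t : ℝ, Φ t = Φ0 t := fun t => e0 (str_real hh t)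
  by_cases gb : BddAbove G
  swap
  · refine Or.inl ⟨Φ, str_psol AO.st_EXT hh hP isOpen_univ isPreconnected_univ (subset_univ _)
      (fun _ _ => mem_univ _) (fun _ _ => mem_univ _) (fun _ _ => mem_univ _)
      (hΦ.mono fun z _ => ?_) e0, er⟩
    obtain ⟨h, hh1, hlt⟩ := not_bddAbove_iff.1 gb |z.im|
    exact mem_iUnion.2 ⟨⟨h, hh1⟩, hlt⟩
  right
  have l0 : h0 ≤ sSup G := le_csSup gb g0
  have hp : 0 < sSup G := hh.trans_le l0
  have hQ : PSol d (strip (sSup G)) T Φ := by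
    refine str_psol AO.st_EXT hh hP (str_open _) (str_cvx _).isPreconnected (str_mono l0)
      (fun τ hτ => by simpa [strip] using hτ) (fun τ hτ => by simpa [strip] using hτ)
      (fun τ hτ => by simpa [strip] using hτ) (hΦ.mono fun z hz => ?_) e0
    obtain ⟨h, hh1, hlt⟩ := exists_lt_of_lt_csSup ⟨_, g0⟩ (show |z.im| < sSup G from hz)
    exact mem_iUnion.2 ⟨⟨h, hh1⟩, hlt⟩
  refine ⟨sSup G, Φ, hp, hQ, er, ?_⟩
  by_contra hc
  obtain ⟨δ, hδ, Ψ, hd, he⟩ := str_grow AO.st_GLUE hp hQ fun b hb => by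
    by_contra hn
    exact hc ⟨b, hb, hn⟩
  have : sSup G + δ ∈ G :=
    ⟨by linarith, Ψ, hd, fun z hz => (he (str_mono l0 hz)).trans (e0 hz)⟩
  linarith [le_csSup gb this]

end Pool.Agent.AO.X
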