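import Pool.Agent.Lib.AX.Defs

set_option autoImplicit false

noncomputable section

namespace Pool.Agent.AO.X

open Set Metric Filter Topology Complex

def St_GRON : Prop :=
  ∀ d : Dat, Gn d → ∃ C : ℝ, 0 ≤ C ∧ ∀ (U : Set ℂ) (Φ : ℂ → S3), Sol d U Φ → Convex ℝ U →
    ∀ τ ∈ U, ‖fA Φ τ‖ ≤ C * (1 + ‖fY Φ τ‖) ∧ ‖fB Φ τ‖ ≤ C * (1 + ‖fY Φ τ‖) ∧
      ∀ τ' ∈ U, 1 + ‖fY Φ τ‖ ≤ (1 + ‖fY Φ τ'‖) * Real.exp (2 * C * ‖τ - τ'‖)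

def St_LIM : Prop :=
  ∀ (d : Dat) (U : Set ℂ) (Φ : ℂ → S3), Gn d → Sol d U Φ → Convex ℝ U → U.Nonempty →
    ∀ b ∈ closure U, ∃ σ : S3, Tendsto Φ (𝓝[U] b) (𝓝 σ) ∧ OnS d σ ∧ (Reg d σ → Ext U Φ b) ∧
      (d.px (σ.1, σ.2.2) ≠ 0 → d.px (σ.2.1, σ.2.2) ≠ 0 → Reg d σ)

def St_DIAG : Prop :=
  ∀ (d : Dat) (U : Set ℂ) (Φ : ℂ → S3), Gn d → Sol d U Φ → ∀ τ ∈ U, fA Φ τ = fB Φ τ →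
    Reg d (Φ τ) ∧ d.py (fA Φ τ, fY Φ τ) ≠ 0

def St_STRIP : Prop :=
  ∀ (d : Dat) (h0 T : ℝ) (Φ0 : ℂ → S3), 0 < h0 → PSol d (strip h0) T Φ0 →
    (∃ Φ, PSol d univ T Φ ∧ ∀ t : ℝ, Φ t = Φ0 t) ∨
    ∃ (h : ℝ) (Φ : ℂ → S3), 0 < h ∧ PSol d (strip h) T Φ ∧ (∀ t : ℝ, Φ t = Φ0 t) ∧
      (Sg h Φ).Nonempty

def St_ENT : Prop :=
  ∀ (d : Dat) (T : ℝ) (Φ : ℂ → S3) (C : Set (ℝ × ℝ)), Gn d → PSol d univ T Φ → RealP C Φ → Ell C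

def St_REAL : Prop :=
  ∀ (d : Dat) (K : Set (ℝ × ℝ)), CV d K → Cur d K →
    ∃ (h0 T : ℝ) (Φ : ℂ → S3), 0 < h0 ∧ PSol d (strip h0) T Φ ∧ RealP (frontier K) Φ

/-- Uniformiser at a point of the curve. -/
def St_UFZ : Prop :=
  ∀ (d : Dat) (a y0 : ℂ), Gn d → d.p (a, y0) = 0 → ∃ (k : ℕ) (Ξ : ℂ → ℂ) (v : ℂ × ℂ → ℂ),
    1 ≤ k ∧ AnalyticAt ℂ Ξ 0 ∧ Ξ 0 = a ∧ (2 ≤ k → deriv Ξ 0 ≠ 0) ∧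
    (k = 1 → d.px (a, y0) ≠ 0) ∧ (k = 2 → d.E (a, a, y0) ≠ 0) ∧ v (a, y0) = 0 ∧
    ∀ᶠ q in 𝓝 (a, y0), DifferentiableAt ℂ v q ∧
      (d.p q = 0 → q.1 = Ξ (v q) ∧ q.2 = y0 + v q ^ k)

def St_PUI : Prop :=
  ∀ (W v : ℂ → ℂ) (b : ℂ) (h δ : ℝ) (n m : ℕ), 0 < h → b.im = h → 0 < δ → m < n →
    AnalyticAt ℂ W 0 → W 0 ≠ 0 → DifferentiableOn ℂ v (ball b δ ∩ strip h) →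
    Tendsto v (𝓝[strip h] b) (𝓝 0) →
    (∀ τ ∈ ball b δ ∩ strip h, v τ ≠ 0 ∧
      n * v τ ^ (n - 1) * deriv v τ = v τ ^ m * W (v τ)) →
    ∃ (γ : ℂ → ℂ) (δ' : ℝ), AnalyticAt ℂ γ 0 ∧ γ 0 = 0 ∧ deriv γ 0 ≠ 0 ∧ 0 < δ' ∧
      ∀ τ ∈ ball b δ' ∩ strip h, v τ = γ (pw (1 / ((n - m : ℕ) : ℝ)) (τ - b))

def St_UNIF : Prop :=
  ∀ (d : Dat) (h : ℝ) (Φ : ℂ → S3), Gn d → 0 < h → Sol d (strip h) Φ → NZ (strip h) Φ →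
    ∀ b ∈ Sg h Φ, ∃ (l : LD) (δ : ℝ) (Ψ : ℂ → S3), (T1 l ∨ T2 l) ∧ 0 < δ ∧
      DifferentiableOn ℂ Ψ (sd b δ) ∧ EqOn Ψ Φ (ball b δ ∩ strip h) ∧ LX (sd b δ) Ψ b l

def St_SECT : Prop :=
  ∀ (d : Dat) (h T : ℝ) (Φ : ℂ → S3), Gn d → 0 < h → PSol d (strip h) T Φ →
    ∃ l : ℂ → LD, (∀ b : ℂ, l (b + T) = l b) ∧ (∀ R : ℝ, (Sg h Φ ∩ closedBall 0 R).Finite) ∧
      (∀ b : ℂ, b + T ∈ Sg h Φ ↔ b ∈ Sg h Φ) ∧ (∀ b ∈ Sg h Φ, T1 (l b) ∨ T2 (l b)) ∧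
      ∀ R : ℝ, ∃ (κ : ℝ) (S : Finset ℂ) (D : Set ℂ) (Ψ : ℂ → S3), Sc d h R κ S D Ψ ∧
        strip h ⊆ D ∧ EqOn Ψ Φ (strip h) ∧ (∀ b ∈ S, b ∈ Sg h Φ ∧ LX D Ψ b (l b)) ∧
        ∀ b ∈ Sg h Φ, ‖b‖ ≤ R → b ∈ S

def St_FAR : Prop :=
  ∀ (d : Dat) (h R κ a : ℝ) (S : Finset ℂ) (D : Set ℂ) (Φ : ℂ → S3), Sc d h R κ S D Φ →
    0 ≤ a → a ≤ 1 / 2 → (∀ b ∈ S, ∃ l, Rg a l ∧ LX D Φ b l) →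
    ∃ C : ℝ, 1 ≤ C ∧ ∀ z e, Adm h R κ S z e → ∃ g : ℂ × ℂ → ℂ,
      DifferentiableOn ℂ g (ball z (e / C) ×ˢ ball 0 (e / C)) ∧
      ∀ τ ∈ ball z (e / C), ∀ r ∈ ball (0 : ℂ) (e / C), Rel d Φ τ (g (τ, r)) r ∧
        (∀ μ ∈ ball z (3 * (e / C)), Rel d Φ τ μ r → μ = g (τ, r)) ∧
        ‖g (τ, r) - τ - r‖ ≤ C * ‖r‖ ^ 2 / e ∧
        ‖g (τ, r) - g (τ, -r) - 2 * r‖ ≤ C * ‖r‖ ^ 3 * e ^ (a - 2)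

def St_SUM : Prop :=
  ∃ c : ℝ, 0 < c ∧ ∀ (K r x : ℝ) (b : ℂ) (μ : ℕ → ℂ) (s : Finset ℕ), 1 ≤ K → 0 < r →
    (∀ k ∈ s, |(μ k).re - (x + 2 * k * r)| ≤ r ∧ K * r ≤ ‖μ k - b‖) →
    ∑ k ∈ s, (r / ‖μ k - b‖) ^ (3 / 2 : ℝ) ≤ c / √K

def St_CTX : Prop :=
  ∀ (d : Dat) (h R κ a : ℝ) (S : Finset ℂ) (D : Set ℂ) (Φ : ℂ → S3), Sc d h R κ S D Φ →
    0 ≤ a → a ≤ 1 / 2 → (∀ b ∈ S, ∃ l, Rg a l ∧ LX D Φ b l) →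
    ∃ C M : ℝ, 0 ≤ C ∧ 1 ≤ M ∧ Fam d h R κ S Φ C M a

def St_LOW : Prop :=
  ∀ (d : Dat) (h R κ T : ℝ) (S : Finset ℂ) (D : Set ℂ) (Φ : ℂ → S3) (x0 ε r0 : ℝ) (p : ℕ),
    Sc d h R κ S D Φ → PSol d (strip h) T Φ → strip h ⊆ D → Hyp d Φ → 1 ≤ p → 0 < x0 →
    x0 < T / 2 → x0 + h + p * T + 3 ≤ R → 1 ≤ ε → 0 < r0 →
    (∀ r : ℝ, 0 < r → r < r0 → Ctx d h R κ S Φ (p * T + 1) ε (1 / 4) r) →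
    ∃ q0 : ℕ, ∀ q : ℕ, q0 ≤ q → ∃ r : ℝ, 0 < r ∧ r < r0 ∧ |2 * q * r - p * T| ≤ r / 2 ∧
      ∀ τ : ℂ, |τ.re - x0| < r / 4 → -(r / 4) < τ.im → τ.im < h - 2 * ε * r →
        Tube h R κ S ε (1 / 4) r τ (2 * q) ∧ (dbl d Φ (1 / 4) r)^[q] τ = τ + p * T

open Classical in
def St_E1 : Prop :=
  ∀ (d : Dat) (h R κ : ℝ) (S : Finset ℂ) (D : Set ℂ) (Φ : ℂ → S3) (b : ℂ) (M a : ℝ) (l : LD),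
    Sc d h R κ S D Φ → b ∈ S → ‖b‖ + 1 ≤ R → LX D Φ b l → 1 ≤ M → One d h R κ S Φ M → T1 l →
    0 ≤ a → a ≤ l.al → ∀ ρ e : ℝ, 0 < e → ∃ r0 : ℝ, 0 < r0 ∧ ∀ r : ℝ, 0 < r → r < r0 →
      ∀ z : ℂ, ‖z‖ ≤ ρ → z.im < -(M + 2) → ‖dbl d Φ (1 / 4) r (b + r * z) - (b + r * (z + 2)) -
        (r ^ (1 + a) : ℝ) * (if a = l.al then E0 l z else 0)‖ ≤ e * r ^ (1 + a)

def St_E2 : Prop :=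
  ∀ (d : Dat) (h R κ : ℝ) (S : Finset ℂ) (D : Set ℂ) (Φ : ℂ → S3) (b : ℂ) (M M' C : ℝ) (l : LD)
    (m F : ℂ → ℂ), Sc d h R κ S D Φ → b ∈ S → ‖b‖ + 1 ≤ R → LX D Φ b l → 1 ≤ M →
    One d h R κ S Φ M → T2 l → Inn l M' C m F → ∀ ρ e : ℝ, 0 < e → ∃ r0 : ℝ, 0 < r0 ∧
      ∀ r : ℝ, 0 < r → r < r0 → ∀ z : ℂ, ‖z‖ ≤ ρ → z.im < -(M + 2) → z.im < -M' →
        ‖dbl d Φ (1 / 4) r (b + r * z) - (b + r * F z)‖ ≤ e * r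

def St_H1 : Prop :=
  ∀ l : LD, T1 l → ∃ H : ℂ → ℂ, Horn H 0 ∧ (∃ z : ℂ, z.im < 0 ∧ H z ≠ 0) ∧
    ContinuousOn (E0 l) {z | z.im < 0} ∧ ∀ Y : ℝ, 2 ≤ Y → ∀ e : ℝ, 0 < e → ∃ K0 : ℕ, ∀ K : ℕ,
      K0 ≤ K → ∀ z : ℂ, |z.re| ≤ 3 → |z.im + Y| ≤ 1 →
        ‖∑ j ∈ Finset.range (2 * K), E0 l (z - 2 * K + 2 * j) - H z‖ ≤ e

def St_ITER : Prop :=
  ∀ (F : ℂ → ℂ) (V Q : Set ℂ) (n : ℕ), IsOpen V → IsCompact Q → ContinuousOn F V →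
    (∀ z ∈ Q, ∀ j < n, F^[j] z ∈ V) → ∀ e : ℝ, 0 < e → ∃ (δ : ℝ) (Q' : Set ℂ), 0 < δ ∧
      IsCompact Q' ∧ Q' ⊆ V ∧ ∀ G : ℂ → ℂ, (∀ z ∈ Q', ‖G z - F z‖ ≤ δ) → ∀ z ∈ Q, ∀ j ≤ n,
        ‖G^[j] z - F^[j] z‖ ≤ e ∧ (j < n → G^[j] z ∈ Q')

def St_PASS1 : Prop := ∀ (l : LD) (a : ℝ), T1 l → 0 ≤ a → a ≤ l.al → PO l a

def St_INN : Prop :=
  ∀ l : LD, l.a1 ≠ l.b1 → 0 < l.al → l.al ≤ 1 / 2 → ∃ (M C : ℝ) (m F : ℂ → ℂ), Inn l M C m F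

def St_FAT : Prop :=
  ∀ (F : ℂ → ℂ) (M C : ℝ), 1 ≤ M → DifferentiableOn ℂ F (Om M) →
    (∀ z ∈ Om M, ‖F z - z - 2‖ ≤ C / sz z ^ 2) →
    ∃ (M' : ℝ) (ψ φ : ℂ → ℂ), M + 2 ≤ M' ∧ Fat F M' ψ φ

def St_CHAIN : Prop :=
  ∀ (c : ℂ) (k n : ℕ), c ≠ 0 → 2 ≤ k → ∃ q : ℂ × ℂ → ℂ, Differentiable ℂ q ∧
    (∀ x : ℕ → ℂ, (∀ i < n, Rr c k (x i) (x (i + 1))) → q (x 0, x n) = 0) ∧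
    ∀ e : ℝ, 0 < e → ∃ ρ : ℝ, ∀ x y : ℂ, q (x, y) = 0 → ρ < ‖x‖ → ‖y - x‖ ≤ e * ‖x‖

def St_LOC : Prop :=
  ∀ (l : LD) (M C M' : ℝ) (m F ψ φ : ℂ → ℂ), T2 l → Inn l M C m F → M + 2 ≤ M' →
    Fat F M' ψ φ → ∃ z : ℂ, z.im < -(M' + 1) ∧ φ (ψ z) - z ≠ 0

def St_PASS2 : Prop := ∀ l : LD, T2 l → PO l 0

def St_QEXP : Prop :=
  ∀ (H : ℂ → ℂ) (M : ℝ), Horn H M → (∃ z : ℂ, z.im < -M ∧ H z ≠ 0) →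
    ∃ (k : ℕ) (c : ℂ), 1 ≤ k ∧ c ≠ 0 ∧ Lead H k c

def St_EXPS : Prop :=
  ∀ (s : Finset ℂ) (u c : ℂ → ℂ), (∀ i ∈ s, ‖u i‖ = 1) →
    Tendsto (fun q : ℕ => ∑ i ∈ s, c i * u i ^ q) atTop (𝓝 0) →
    ∀ v : ℂ, ∑ i ∈ s.filter (fun i => u i = v), c i = 0

def St_DEC1 : Prop :=
  ∀ (d : Dat) (h R κ T : ℝ) (S : Finset ℂ) (D : Set ℂ) (Φ : ℂ → S3) (x0 C M a : ℝ) (p : ℕ)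
    (H : ℂ → ℂ → ℂ), Sc d h R κ S D Φ → PSol d (strip h) T Φ → strip h ⊆ D → Hyp d Φ → 1 ≤ p →
    0 < x0 → x0 < T / 2 → x0 + h + p * T + 3 ≤ R → (∀ b ∈ S, b.re ≠ x0 ∧ b.re ≠ x0 + p * T) →
    0 ≤ a → a ≤ 1 / 2 → 0 ≤ C → 1 ≤ M → Fam d h R κ S Φ C M a →
    (∀ b ∈ S, x0 < b.re → b.re < x0 + p * T → Pass d Φ b (H b) a) →
    Cl (S.filter fun b => x0 < b.re ∧ b.re < x0 + p * T) H T x0 p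

def St_DEC2 : Prop :=
  ∀ (s : Finset ℂ) (H : ℂ → ℂ → ℂ) (c : ℂ → ℂ) (T x0 : ℝ) (k : ℕ), 0 < T → 1 ≤ k →
    (∀ b ∈ s, Lead (H b) k (c b)) → Cl s H T x0 k →
    Tendsto (fun q : ℕ => ∑ b ∈ s, c b * exp (2 * Real.pi * I * ((b.re - x0) / T : ℝ)) ^ q)
      atTop (𝓝 0)

def St_DEC : Prop :=
  ∀ (d : Dat) (h T a : ℝ) (G : Set ℂ) (H : ℂ → ℂ → ℂ) (Mh : ℂ → ℝ), 0 < h → 0 < T → 0 ≤ a →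
    a ≤ 1 / 2 → (∀ b : ℂ, H (b + T) = H b) → (∀ b : ℂ, b + T ∈ G ↔ b ∈ G) →
    (∀ b ∈ G, b.im = h ∧ Horn (H b) (Mh b)) → (∀ R : ℝ, (G ∩ closedBall 0 R).Finite) →
    (∀ R : ℝ, ∃ (κ C M : ℝ) (S : Finset ℂ) (D : Set ℂ) (Φ : ℂ → S3), Sc d h R κ S D Φ ∧
      PSol d (strip h) T Φ ∧ strip h ⊆ D ∧ Hyp d Φ ∧ 0 ≤ C ∧ 1 ≤ M ∧ Fam d h R κ S Φ C M a ∧
      (∀ b ∈ S, b ∈ G) ∧ (∀ b ∈ G, ‖b‖ ≤ R → b ∈ S) ∧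
      ∀ b ∈ S, ‖b‖ + 1 ≤ R → Pass d Φ b (H b) a) →
    ∀ b ∈ G, ∀ z : ℂ, z.im < -Mh b → H b z = 0

def St_CORE : Prop :=
  ∀ (d : Dat) (K : Set (ℝ × ℝ)), Gn d → Ov d K → Cur d K → HypK (frontier K) (1, 0) (0, 1) →
    Ell (frontier K)

open MvPolynomial in
def St_GEN : Prop :=
  ∀ (P : MvPolynomial (Fin 2) ℝ) (u n : ℝ × ℝ) (d : Dat), u.1 * n.2 - u.2 * n.1 ≠ 0 →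
    (∀ z : Fin 2 → ℂ, aeval z P = 0 → ∃ i, aeval z (pderiv i P) ≠ 0) →
    eval ![u.1, u.2] (homogeneousComponent P.totalDegree P) ≠ 0 →
    (∀ x y, d.p (x, y) = ev P (u.1 * x + n.1 * y) (u.2 * x + n.2 * y)) → Gn d

open MvPolynomial in
def St_MAIN : Prop :=
  ∀ (K : Set (ℝ × ℝ)) (P : MvPolynomial (Fin 2) ℝ) (u n : ℝ × ℝ), IsCompact K →
    StrictConvex ℝ K → (interior K).Nonempty → (∀ x ∈ frontier K, eval ![x.1, x.2] P = 0) →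
    (∀ z : Fin 2 → ℂ, aeval z P = 0 → ∃ i, aeval z (pderiv i P) ≠ 0) →
    u.1 * n.2 - u.2 * n.1 ≠ 0 → eval ![u.1, u.2] (homogeneousComponent P.totalDegree P) ≠ 0 →
    (∀ x ∈ frontier K, eval ![x.1, x.2] (C u.1 * pderiv 0 P + C u.2 * pderiv 1 P) = 0 →
      eval ![x.1, x.2] (C (u.1 ^ 2) * pderiv 0 (pderiv 0 P) +
        C (2 * u.1 * u.2) * pderiv 0 (pderiv 1 P) + C (u.2 ^ 2) * pderiv 1 (pderiv 1 P)) ≠ 0) →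
    HypK (frontier K) u n → Ell (frontier K)

end Pool.Agent.AO.X
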