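import Pool.Agent.Lib.AO.Blue

set_option autoImplicit false

noncomputable section

namespace Pool.Agent.AO.X

open Set Metric Filter Topology Complex

/-- Nonsingular curve, horizontal direction not asymptotic. -/
structure Gn (d : Dat) : Prop where
  g1 : ∃ C : ℝ, 0 ≤ C ∧ ∀ x y, d.p (x, y) = 0 → ‖x‖ ≤ C * (1 + ‖y‖)
  fin : ∀ y, {x | d.p (x, y) = 0}.Finite
  ns : ∀ a y, d.p (a, y) = 0 → d.px (a, y) = 0 → d.py (a, y) ≠ 0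

def Cur (d : Dat) (K : Set (ℝ × ℝ)) : Prop :=
  ∀ q ∈ frontier K, d.px (rc q) = 0 → d.E (q.1, q.1, q.2) ≠ 0

/-- The power `z ^ a`, cut along the upward imaginary ray. -/
def pw (a : ℝ) (z : ℂ) : ℂ := exp (a * (log (I * z) - Real.pi / 2 * I))

def Slit : Set ℂ := {z | I * z ∈ slitPlane}

theorem slit_ne {z : ℂ} (h : z ∈ Slit) : z ≠ 0 := fun e => by
  simpa [Slit, e] using h

theorem slit_open : IsOpen Slit := isOpen_slitPlane.preimage (by fun_prop)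

theorem slit_iff (z : ℂ) : z ∈ Slit ↔ z.im < 0 ∨ z.re ≠ 0 := by
  simp [Slit, mem_slitPlane_iff]

theorem pw_ne (a : ℝ) (z : ℂ) : pw a z ≠ 0 := exp_ne_zero _

theorem pw_add (a b : ℝ) (z : ℂ) : pw (a + b) z = pw a z * pw b z := by
  rw [pw, pw, pw, ← exp_add]
  push_cast
  ring_nf

theorem pw_pow (a : ℝ) (n : ℕ) (z : ℂ) : pw a z ^ n = pw (n * a) z := by
  rw [pw, pw, ← exp_nat_mul]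
  push_cast
  ring_nf

theorem pw_one {z : ℂ} (h : z ≠ 0) : pw 1 z = z := by
  rw [pw, ofReal_one, one_mul, exp_sub, exp_log (mul_ne_zero I_ne_zero h), exp_pi_div_two_mul_I]
  field_simp

theorem pw_norm (a : ℝ) {z : ℂ} (h : z ≠ 0) : ‖pw a z‖ = ‖z‖ ^ a := by
  rw [pw, norm_exp, Real.rpow_def_of_pos (norm_pos_iff.2 h)]
  congr 1
  simp [log_re, mul_comm]

theorem pw_smul (a : ℝ) {r : ℝ} (hr : 0 < r) {z : ℂ} (h : z ≠ 0) :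
    pw a (r * z) = (r ^ a : ℝ) * pw a z := by
  rw [pw, pw, show I * (r * z) = r * (I * z) by ring,
    log_ofReal_mul hr (mul_ne_zero I_ne_zero h), Real.rpow_def_of_pos hr, ofReal_exp, ← exp_add]
  push_cast
  ring_nf

theorem pw_deriv (a : ℝ) {z : ℂ} (h : z ∈ Slit) : HasDerivAt (pw a) (a * pw a z / z) z := by
  have h1 : HasDerivAt (fun s : ℂ => log (I * s)) (I * 1 / (I * z)) z :=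
    ((hasDerivAt_id z).const_mul I).clog h
  refine (((h1.sub_const (Real.pi / 2 * I)).const_mul (a : ℂ)).cexp).congr_deriv ?_
  have := slit_ne h
  rw [pw]
  field_simp

/-- Local data at a singular time. -/
structure LD where
  σ : S3
  a1 : ℂ
  b1 : ℂ
  al : ℝ

def LD.flip (l : LD) : LD := ⟨(-l.σ.2.1, -l.σ.1, l.σ.2.2), -l.b1, -l.a1, l.al⟩

def T1 (l : LD) : Prop := l.σ.1 ≠ l.σ.2.1 ∧ 0 < l.al ∧ l.al ≤ 1 / 2 ∧ (l.a1 ≠ 0 ∨ l.b1 ≠ 0)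

def T2 (l : LD) : Prop :=
  l.σ.1 = l.σ.2.1 ∧ l.a1 ≠ l.b1 ∧ ∃ k : ℕ, 3 ≤ k ∧ l.al = 1 / (k - 1) ∧ l.a1 ^ k = l.b1 ^ k

def Rg (a : ℝ) (l : LD) : Prop := (T1 l ∧ a ≤ l.al) ∨ (T2 l ∧ a = 0)

def mA (l : LD) (z : ℂ) : ℂ := l.a1 * pw l.al z
def mB (l : LD) (z : ℂ) : ℂ := l.b1 * pw l.al z
def mY (l : LD) (z : ℂ) : ℂ := (l.a1 - l.b1) / (1 + l.al) * pw (1 + l.al) z

def LX (D : Set ℂ) (Φ : ℂ → S3) (b : ℂ) (l : LD) : Prop :=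
  ∀ ε : ℝ, 0 < ε → ∃ δ : ℝ, 0 < δ ∧ ∀ τ ∈ D, ‖τ - b‖ < δ → τ - b ∈ Slit ∧
    ‖fA Φ τ - l.σ.1 - mA l (τ - b)‖ ≤ ε * ‖τ - b‖ ^ l.al ∧
    ‖fB Φ τ - l.σ.2.1 - mB l (τ - b)‖ ≤ ε * ‖τ - b‖ ^ l.al ∧
    ‖fY Φ τ - l.σ.2.2 - (l.σ.1 - l.σ.2.1) * (τ - b) - mY l (τ - b)‖ ≤ ε * ‖τ - b‖ ^ (1 + l.al)

/-- The slit disc. -/
def sd (b : ℂ) (δ : ℝ) : Set ℂ := {τ | τ ∈ ball b δ ∧ τ - b ∈ Slit}

def Sg (h : ℝ) (Φ : ℂ → S3) : Set ℂ := {b | b.im = h ∧ ¬Ext (strip h) Φ b}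

structure Sc (d : Dat) (h R κ : ℝ) (S : Finset ℂ) (D : Set ℂ) (Φ : ℂ → S3) : Prop where
  sol : Sol d D Φ
  hp : 0 < h
  kp : 0 < κ
  k1 : κ ≤ 1
  im : ∀ b ∈ S, b.im = h
  adm : ∀ z e, Adm h R κ S z e → ball z (κ * e) ⊆ D
  diag : ∀ τ ∈ D, fA Φ τ = fB Φ τ → Reg d (Φ τ) ∧ d.py (fA Φ τ, fY Φ τ) ≠ 0

def Bnd (d : Dat) (h R κ : ℝ) (S : Finset ℂ) (Φ : ℂ → S3) (C a ε r : ℝ) : Prop :=
  ∀ τ : ℂ, Adk h R κ S τ (ε * r) → Adk h R κ S (τ + r) (ε * r) →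
    Adk h R κ S (th d Φ (1 / 4) (τ, r)) (ε * r) → Adk h R κ S (th d Φ (1 / 4) (τ, r) + r) (ε * r) →
    ‖dbl d Φ (1 / 4) r τ - τ - 2 * r‖ ≤ C * r ^ 3 +
      C * r ^ (1 + a) * ∑ b ∈ S, (r / ‖th d Φ (1 / 4) (τ, r) - b‖) ^ (3 / 2 : ℝ)

def Fam (d : Dat) (h R κ : ℝ) (S : Finset ℂ) (Φ : ℂ → S3) (C M a : ℝ) : Prop :=
  ∀ L ε : ℝ, M ≤ ε → ∃ r0 : ℝ, 0 < r0 ∧ ∀ r : ℝ, 0 < r → r < r0 →
    Ctx d h R κ S Φ L ε (1 / 4) r ∧ Bnd d h R κ S Φ C a ε r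

def One (d : Dat) (h R κ : ℝ) (S : Finset ℂ) (Φ : ℂ → S3) (M : ℝ) : Prop :=
  ∃ r0 : ℝ, 0 < r0 ∧ ∀ r : ℝ, 0 < r → r < r0 → ∀ τ : ℂ, Adk h R κ S τ (M * r) →
    Adk h R κ S (τ + r) (M * r) →
    Stp d Φ (1 / 4) τ r (1 / 4 * r / 2) ∧ Stp d.flip (flp Φ) (1 / 4) τ r (1 / 4 * r / 2)

def Horn (H : ℂ → ℂ) (M : ℝ) : Prop :=
  DifferentiableOn ℂ H {z | z.im < -M} ∧ (∀ z : ℂ, z.im < -M → H (z + 2) = H z) ∧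
    ∀ e : ℝ, 0 < e → ∃ Y0 : ℝ, ∀ z : ℂ, z.im < -Y0 → ‖H z‖ ≤ e

def Pass (d : Dat) (Φ : ℂ → S3) (b : ℂ) (H : ℂ → ℂ) (a : ℝ) : Prop :=
  ∃ M : ℝ, ∀ Y : ℝ, M ≤ Y → ∀ e : ℝ, 0 < e → ∃ K0 : ℕ, ∀ K : ℕ, K0 ≤ K → ∃ r0 : ℝ, 0 < r0 ∧
    ∀ r : ℝ, 0 < r → r < r0 → ∀ z : ℂ, |z.re| ≤ 3 → |z.im + Y| ≤ 1 →
      ‖(dbl d Φ (1 / 4) r)^[2 * K] (b + r * (z - 2 * K)) - (b + r * (z + 2 * K)) -
        (r ^ (1 + a) : ℝ) * H z‖ ≤ e * r ^ (1 + a)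

/-- The horn function of the local data `l` in the regime `a`. -/
def PO (l : LD) (a : ℝ) : Prop :=
  ∃ (H : ℂ → ℂ) (M : ℝ), Horn H M ∧ ((T2 l ∨ a = l.al) → ∃ z : ℂ, z.im < -M ∧ H z ≠ 0) ∧
    ∀ (d : Dat) (h R κ : ℝ) (S : Finset ℂ) (D : Set ℂ) (Φ : ℂ → S3) (b : ℂ) (M1 : ℝ),
      Sc d h R κ S D Φ → b ∈ S → ‖b‖ + 1 ≤ R → LX D Φ b l → 1 ≤ M1 → One d h R κ S Φ M1 →
      Pass d Φ b H a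

/-- Leading term of the step error near a time of the first type. -/
def E0 (l : LD) (z : ℂ) : ℂ :=
  (2 * mA l (z + 1) - mB l z - mB l (z + 2) - (mY l (z + 2) - mY l z)) / (l.σ.1 - l.σ.2.1)

def sz (z : ℂ) : ℝ := max |z.re| (-z.im)

def Om (M : ℝ) : Set ℂ := {z | M < sz z}

/-- The steps of the model at a time of the second type. -/
structure Inn (l : LD) (M C : ℝ) (m F : ℂ → ℂ) : Prop where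
  M1 : 1 ≤ M
  df : DifferentiableOn ℂ F (Om M)
  m1 : ∀ z ∈ Om M, ‖m z - z - 1‖ ≤ 1 / 8
  e1 : ∀ z ∈ Om M, mY l (m z) - mA l (m z) = mY l z - mB l z
  e2 : ∀ z ∈ Om M, mY l (F z) + mB l (F z) = mY l (m z) + mA l (m z)
  bd : ∀ z ∈ Om M, ‖F z - z - 2‖ ≤ C / sz z ^ 2 ∧ ‖F z - z - 2‖ ≤ 1 / 4
  l1 : ∀ z ∈ Om M, ∀ μ, ‖μ - z - 1‖ ≤ 1 / 2 → ‖mA l z - mB l z‖ * ‖μ - m z‖ ≤
    4 * ‖mY l μ - mA l μ - (mY l z - mB l z)‖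
  l2 : ∀ z ∈ Om M, ∀ μ, ‖μ - z - 2‖ ≤ 1 / 2 → ‖mA l z - mB l z‖ * ‖μ - F z‖ ≤
    4 * ‖mY l μ + mB l μ - (mY l (m z) + mA l (m z))‖

structure Fat (F : ℂ → ℂ) (M : ℝ) (ψ φ : ℂ → ℂ) : Prop where
  dψ : DifferentiableOn ℂ ψ {z | z.re < -M ∨ z.im < -M}
  bψ : ∀ z : ℂ, z.re < -M ∨ z.im < -M → ‖ψ z - z‖ ≤ 1
  fψ : ∀ z : ℂ, z.im < -M → ψ (z + 2) = F (ψ z)
  dφ : DifferentiableOn ℂ φ {z | M < z.re ∨ z.im < -M}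
  bφ : ∀ z : ℂ, M < z.re ∨ z.im < -M → ‖φ z - z‖ ≤ 1
  horn : Horn (fun z => φ (ψ z) - z) (M + 1)
  orb : ∀ z : ℂ, z.im < -M → ∀ j : ℕ, ‖F^[j] z - z - 2 * j‖ ≤ 1
  app : ∀ Y : ℝ, M + 3 ≤ Y → ∀ e : ℝ, 0 < e → ∃ K0 : ℕ, ∀ K : ℕ, K0 ≤ K → ∀ z : ℂ,
    |z.re| ≤ 3 → |z.im + Y| ≤ 1 → ‖F^[2 * K] (z - 2 * K) - 2 * K - φ (ψ z)‖ ≤ e

def Lead (H : ℂ → ℂ) (k : ℕ) (c : ℂ) : Prop :=
  ∀ e : ℝ, 0 < e → ∃ Y0 : ℝ, ∀ z : ℂ, z.im < -Y0 →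
    ‖H z - c * exp (-(I * Real.pi * k * z))‖ ≤ e * ‖exp (-(I * Real.pi * k * z))‖

/-- What the closed orbits with `p` turns give. -/
def Cl (s : Finset ℂ) (H : ℂ → ℂ → ℂ) (T x0 : ℝ) (p : ℕ) : Prop :=
  ∀ e : ℝ, 0 < e → ∃ Y0 : ℝ, ∀ Y : ℝ, Y0 ≤ Y → ∀ e' : ℝ, 0 < e' → ∃ q0 : ℕ, ∀ q : ℕ, q0 ≤ q →
    ∃ (r : ℝ) (z : ℂ → ℂ), 0 < r ∧ |2 * q - p * T / r| ≤ e' ∧
      (∀ b ∈ s, ∃ n : ℤ, ‖z b - (((x0 - b.re) / r : ℝ) - I * Y + 2 * n)‖ ≤ e) ∧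
      ‖∑ b ∈ s, H b (z b)‖ ≤ e'

/-- One relation between consecutive intercepts of the model curve. -/
def Rr (c : ℂ) (k : ℕ) (x y : ℂ) : Prop :=
  c * ((y - x) / 2) ^ k = (x + y) / 2 ∨ c * ((x - y) / 2) ^ k = (x + y) / 2

end Pool.Agent.AO.X
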